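import Pool.Agent.H63.VC.VolDefs

/-!
# The complex volume of a two-bridge knot

Let `C(a_1, ..., a_k)` be a two-bridge knot in Conway notation and `c = a_1 + ... + a_k`. The
Farey path from the slope `1/0` to the slope of the knot crosses the edges `0, 1, ..., c - 2` of the
Farey diagram, beginning with the edge between `0/1` and `1/1`. Each slope is a pair of parallel
edges of the four-punctured sphere, joining its punctures in pairs; the three ways to do this are
the classes `0`, `1`, `2` (the reductions modulo 2 of the slopes `1/0`, `0/1`, `1/1`). The edge `i`,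
`1 ≤ i ≤ c - 3`, is a layer of two ideal tetrahedra of the Sakuma-Weeks triangulation: their lower
diagonals have the slope behind the edge, their upper diagonals have the slope in front of it, and
the other four edges have the slopes at the two ends. The triangulation is folded at both ends: the
edges of slopes `0/1` and `1/1` are identified, and so are the edges at the two ends of the edge
`c - 2`.

`IsComplexVolume` is the formula of Neumann and Zickert for the complex volume
`i (Vol + i CS)` modulo `π²`: a Ptolemy assignment with logarithms `l` on the slopes whose shapes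
`z i` are positively oriented (so it describes the complete hyperbolic structure), an ordering of the
vertices of the tetrahedra compatible with the face pairings, and the sum of the signed values of the
Rogers dilogarithm on the flattenings given by `l`.
-/

namespace Pool.Agent.H63.VC5

open Pool.Agent.H63.VC Complex

/-- The dilogarithm (principal branch). -/
noncomputable def dilog (z : ℂ) : ℂ := -∫ t in (0 : ℝ)..1, Complex.log (1 - t * z) / t

/-- Neumann's Rogers dilogarithm on the flattening `[z; p, q]`, whose log-parameters are
`log z + p π i` and `-log (1 - z) + q π i`. -/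
noncomputable def rogers (z : ℂ) (p q : ℤ) : ℂ :=
  dilog z + Complex.log z * Complex.log (1 - z) / 2 +
    Real.pi * I / 2 * (p * Complex.log (1 - z) + q * Complex.log z) - (Real.pi : ℂ) ^ 2 / 6

open Classical in
/-- The turn (`true` for left) of the Farey path after the edge `i`; it changes at the hinges. -/
noncomputable def turn (a : List ℕ) (b : Bool) : ℕ → Bool
  | 0 => b
  | i + 1 => if IsHinge a (i + 1) then !(turn a b i) else turn a b i

/-- The slopes at the edge `i` of the Farey path: at the left end, at the right end, and behind it.
Slopes are numbered in the order of their appearance: `0`, `1`, `2` are `1/0`, `0/1`, `1/1`, and the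
slope in front of the edge `i` has number `i + 3`. -/
def slo (t : ℕ → Bool) : ℕ → ℕ × ℕ × ℕ
  | 0 => (1, 2, 0)
  | i + 1 => if t i then ((slo t i).1, i + 3, (slo t i).2.1)
      else (i + 3, (slo t i).2.1, (slo t i).1)

/-- Their classes modulo 2; the slopes in front of an edge and behind it have the same class. -/
def cls (t : ℕ → Bool) : ℕ → Fin 3 × Fin 3 × Fin 3
  | 0 => (1, 2, 0)
  | i + 1 => if t i then ((cls t i).1, (cls t i).2.2, (cls t i).2.1)
      else ((cls t i).2.2, (cls t i).2.1, (cls t i).1)

/-- For a tetrahedron with classes of slopes `c = (left, right, behind)` and an ordering `0 1 2 3` of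
its vertices, where `o` are the classes of the pairs of edges `01|23`, `02|13`, `03|12`: the
cross-ratio of the ordered tetrahedron, if `z` is the shape at the edges of the slopes behind and in
front. -/
noncomputable def ordShape (z : ℂ) (c o : Fin 3 × Fin 3 × Fin 3) : ℂ :=
  if c = (o.2.2, o.2.1, o.1) then z
  else if c = (o.1, o.2.2, o.2.1) then 1 / (1 - z)
  else if c = (o.2.1, o.1, o.2.2) then 1 - 1 / z
  else if c = (o.2.1, o.2.2, o.1) then 1 / z
  else if c = (o.2.2, o.1, o.2.1) then z / (z - 1)
  else 1 - z

/-- The orientation of the ordered tetrahedron. -/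
def ordSign (c o : Fin 3 × Fin 3 × Fin 3) : ℤ :=
  if c = (o.2.2, o.2.1, o.1) ∨ c = (o.1, o.2.2, o.2.1) ∨ c = (o.2.1, o.1, o.2.2) then 1 else -1

/-- The sum of the logarithms `l` over the two edges of class `X` of a tetrahedron of layer `i` with
slopes `s` and classes `c`. -/
def pairSum (l : ℕ → ℂ) (s : ℕ × ℕ × ℕ) (i : ℕ) (c : Fin 3 × Fin 3 × Fin 3) (X : Fin 3) : ℂ :=
  if X = c.1 then 2 * l s.1 else if X = c.2.1 then 2 * l s.2.1 else l s.2.2 + l (i + 3)

/-- The ordering of the vertices of the tetrahedron `h` of layer `i`: the lowest two and the highest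
two punctures are joined by the edges of class `0` (the class of the first folding) before the layer
`j` and by the edges of class `w` (the class of the last folding) after it. -/
def ordr (w : Fin 3) (j i : ℕ) (h : Bool) : Fin 3 × Fin 3 × Fin 3 :=
  if i < j ∨ (i = j ∧ h = true) then (0, w, -w) else (w, 0, -w)

/-- `Z` is the complex volume `i (Vol + i CS)`, well-defined modulo `π²`, of the complement of the
two-bridge knot `C(a_1, ..., a_k)`, its Farey path beginning with a turn to the left if `b = true` and
to the right if `b = false` (the two cases are mirror images). -/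
def IsComplexVolume (a : List ℕ) (b : Bool) (Z : ℂ) : Prop :=
  ∃ (l z : ℕ → ℂ) (w : Fin 3) (j : ℕ) (p q : ℕ → Bool → ℤ),
    w = (cls (turn a b) (a.sum - 2)).2.2 ∧ w ≠ 0 ∧
    -- the edges identified by the two foldings
    l 1 = l 2 ∧
    l (slo (turn a b) (a.sum - 2)).1 = l (slo (turn a b) (a.sum - 2)).2.1 ∧
    -- the Ptolemy relations and the shapes
    (∀ i ∈ Finset.Icc 1 (a.sum - 3), 0 < (z i).im ∧
      z i = (if (cls (turn a b) i).2.2 = -w then -1 else 1) *
        exp (2 * l (slo (turn a b) i).1 - 2 * l (slo (turn a b) i).2.1) ∧
      (1 - z i = exp (l (slo (turn a b) i).2.2 + l (i + 3) - 2 * l (slo (turn a b) i).2.1) ∨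
        1 - z i = -exp (l (slo (turn a b) i).2.2 + l (i + 3) - 2 * l (slo (turn a b) i).2.1))) ∧
    -- the change of the ordering
    j ∈ Finset.Icc 1 (a.sum - 3) ∧ (cls (turn a b) j).2.2 = -w ∧
    -- the flattenings
    (∀ i ∈ Finset.Icc 1 (a.sum - 3), ∀ h : Bool,
      Complex.log (ordShape (z i) (cls (turn a b) i) (ordr w j i h)) + p i h * (Real.pi * I) =
        pairSum l (slo (turn a b) i) i (cls (turn a b) i) (ordr w j i h).2.2 -
        pairSum l (slo (turn a b) i) i (cls (turn a b) i) (ordr w j i h).2.1 ∧
      -Complex.log (1 - ordShape (z i) (cls (turn a b) i) (ordr w j i h)) +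
          q i h * (Real.pi * I) =
        pairSum l (slo (turn a b) i) i (cls (turn a b) i) (ordr w j i h).2.1 -
        pairSum l (slo (turn a b) i) i (cls (turn a b) i) (ordr w j i h).1) ∧
    Z = ∑ i ∈ Finset.Icc 1 (a.sum - 3), ∑ h : Bool,
      (ordSign (cls (turn a b) i) (ordr w j i h) : ℂ) *
        rogers (ordShape (z i) (cls (turn a b) i) (ordr w j i h)) (p i h) (q i h)

end Pool.Agent.H63.VC5
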