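import Pool.Agent.H63.VC5.CVDefs
import Pool.Agent.H63.VC4.GeoDefs

/-! # The complex volume: auxiliary definitions -/

namespace Pool.Agent.H63.VC5

open Pool.Agent.H63.VC Pool.Agent.H63.VC3 Pool.Agent.H63.VC4 Complex
open scoped BigOperators

/-- Congruence modulo `π²`. -/
def Cg (x y : ℂ) : Prop := ∃ n : ℤ, x = y + n * (Real.pi : ℂ) ^ 2

theorem Cg.refl (x : ℂ) : Cg x x := ⟨0, by simp⟩

theorem Cg.of_eq {x y : ℂ} (h : x = y) : Cg x y := h ▸ Cg.refl x

theorem Cg.symm {x y : ℂ} (h : Cg x y) : Cg y x := by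
  obtain ⟨n, hn⟩ := h
  exact ⟨-n, by rw [hn]; push_cast; ring⟩

theorem Cg.trans {x y z : ℂ} (h : Cg x y) (h' : Cg y z) : Cg x z := by
  obtain ⟨n, hn⟩ := h
  obtain ⟨m, hm⟩ := h'
  exact ⟨n + m, by rw [hn, hm]; push_cast; ring⟩

theorem Cg.add {x y z w : ℂ} (h : Cg x y) (h' : Cg z w) : Cg (x + z) (y + w) := by
  obtain ⟨n, hn⟩ := h
  obtain ⟨m, hm⟩ := h'
  exact ⟨n + m, by rw [hn, hm]; push_cast; ring⟩

theorem Cg.neg {x y : ℂ} (h : Cg x y) : Cg (-x) (-y) := by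
  obtain ⟨n, hn⟩ := h
  exact ⟨-n, by rw [hn]; push_cast; ring⟩

theorem Cg.sub {x y z w : ℂ} (h : Cg x y) (h' : Cg z w) : Cg (x - z) (y - w) := by
  rw [sub_eq_add_neg, sub_eq_add_neg]
  exact h.add h'.neg

theorem Cg.sum {ι : Type*} (s : Finset ι) {f g : ι → ℂ} (h : ∀ i ∈ s, Cg (f i) (g i)) :
    Cg (∑ i ∈ s, f i) (∑ i ∈ s, g i) := by
  classical
  induction s using Finset.induction_on with
  | empty => simpa using Cg.refl 0
  | insert a s ha ih =>
    rw [Finset.sum_insert ha, Finset.sum_insert ha]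
    exact (h a (Finset.mem_insert_self a s)).add
      (ih fun i hi => h i (Finset.mem_insert_of_mem hi))

theorem Cg.int_mul (n : ℤ) (x : ℂ) : Cg (x + n * (Real.pi : ℂ) ^ 2) x := ⟨n, rfl⟩

/-! ### The functions -/

/-- `u / (1 - e^{-u})`. -/
noncomputable def phi (u : ℂ) : ℂ := if u = 0 then 1 else u / (1 - exp (-u))

/-- `Li_2 (e^w) + w log (1 - e^w)` on the strip `|Im w| < 2 π`. -/
noncomputable def GG (w : ℂ) : ℂ :=
  (Real.pi : ℂ) ^ 2 / 6 + ∫ t in (0 : ℝ)..1, w * phi (t * w)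

/-- The function of a triangle with angles `π w`, `π b`, `π (1 - w - b)`. -/
noncomputable def Lam (w b : ℂ) : ℂ :=
  -(GG (hh (w + b) - hh w + Real.pi * I * b) +
      (hh (w + b) - hh w + Real.pi * I * b) *
        (-(hh b - hh w) - Real.pi * I * (w + b) + Real.pi * I) / 2) +
    (GG (hh (w + b) - hh b + Real.pi * I * w) +
      (hh (w + b) - hh b + Real.pi * I * w) *
        (hh b - hh w - Real.pi * I * (w + b) + Real.pi * I) / 2) +
    (Real.pi : ℂ) ^ 2 / 2 * (w - b) + Real.pi * I / 2 * (hh b - hh w) + (Real.pi : ℂ) ^ 2 / 6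

/-- The function of a tetrahedron of a fan. -/
noncomputable def Rr (w b : ℂ) : ℂ :=
  GG (2 * (hh w - hh (w + b))) + (hh w - hh (w + b)) * (2 * hh (w + b) - hh b - hh (2 * w + b))

/-- A half plane. -/
def HS (s : ℝ) (b : ℂ) : Prop := 0 < b.re - s / 10 * b.im

/-- The domain of `Lam`. -/
structure Dm (s : ℝ) (w b : ℂ) : Prop where
  hs : s = 1 ∨ s = -1
  w1 : |w.im| < w.re / 2
  w2 : w.re < 1 / 2
  b1 : HS s b
  b2 : HS s (1 - w - b)
  b3 : |b.im| < 1 / 2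
  b4 : |(w + b).im| < 1 / 2

/-- Sign: `1` for negative `r`, `-1` for positive `r`. -/
noncomputable def sgr (r : ℤ) : ℝ := if r < 0 then 1 else -1

/-- The mean of the logarithms of a slot. -/
noncomputable def mm (v y : ℂ) : ℂ := (hh (y - v) + hh (y + v)) / 2

/-- The dilogarithm of a slot. -/
noncomputable def XX (v y : ℂ) : ℂ := dilog (-exp (2 * (mm v y - hh (y + 1 / 2)))) +
  2 * (mm v y - hh (y + 1 / 2)) * (hh (v + 1 / 2) - hh (y + 1 / 2))

/-- The contribution of a slot. -/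
noncomputable def SlotT (s : ℝ) (v y : ℂ) : ℂ :=
  -(2 * Real.pi * I * (ff (y - v) + ff (y + v))) + 4 * Real.pi * I * ff (y + 1 / 2) +
    Real.pi * I * ((2 * y - 1) * (mm v y - hh (y + 1 / 2))) - s * XX v y +
    s * (Real.pi : ℂ) ^ 2 / 2

/-! ### The critical point, indexed by natural numbers -/

/-- The angle of the left slot of the twist region `i`, divided by `2 π`. -/
noncomputable def bL (y v : ℕ → ℂ) (i : ℕ) : ℂ :=
  if i = 0 then 0 else bet (v i) (some (y (i - 1))) / (2 * Real.pi)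

/-- The angle of the right slot of the twist region `i`, divided by `2 π`. -/
noncomputable def bR (R : ℕ) (y v : ℕ → ℂ) (i : ℕ) : ℂ :=
  if i = R then 0 else bet (v i) (some (y i)) / (2 * Real.pi)

/-- The angle of the twist region `i`, divided by `π`. -/
noncomputable def wI (r : ℕ → ℤ) (v : ℕ → ℂ) (i : ℕ) : ℂ := sgr (r i) * v i

/-- The logarithms of a fan. -/
noncomputable def hkI (r : ℕ → ℤ) (y v : ℕ → ℂ) (i k : ℕ) : ℂ := hh (k * wI r v i + bL y v i)

/-- The logarithms of the pivots. -/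
noncomputable def LP (y v : ℕ → ℂ) : ℕ → ℂ
  | 0 => 0
  | i + 1 => LP y v i + (hh (y i + 1 / 2) - mm (v i) (y i))

/-- The logarithms of the slopes of a fan. -/
noncomputable def lam (r : ℕ → ℤ) (y v : ℕ → ℂ) (i k : ℕ) : ℂ :=
  LP y v i + hkI r y v i k - hh (wI r v i) +
    if Even k then sgr (r i) * (Real.pi * I) / 2 else 0

/-- The shapes. -/
noncomputable def zI (r : ℕ → ℤ) (y v : ℕ → ℂ) (i k : ℕ) : ℂ :=
  if r i < 0 then exp (2 * (hh (wI r v i) - hkI r y v i k))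
  else exp (-(2 * (hh (wI r v i) - hkI r y v i k)))

/-- The layers of the twist region `i`. -/
def lay (R : ℕ) (r : ℕ → ℤ) (i : ℕ) : Finset ℕ :=
  Finset.Icc (if i = 0 then 2 else 1)
    (if i = R then 2 * (r i).natAbs - 2
      else if r i * r (i + 1) < 0 then 2 * (r i).natAbs else 2 * (r i).natAbs - 1)

/-- The layers of the fan of the twist region `i`. -/
def fan (R : ℕ) (r : ℕ → ℤ) (i : ℕ) : Finset ℕ :=
  Finset.Icc (if i = 0 then 2 else 1)
    (if i = R then 2 * (r i).natAbs - 2 else 2 * (r i).natAbs - 1)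

/-- The logarithm of the slope at the left end. -/
noncomputable def lgL (r : ℕ → ℤ) (LP : ℕ → ℂ) (lam : ℕ → ℕ → ℂ) (i k : ℕ) : ℂ :=
  if r i < 0 then LP i else lam i k

/-- The logarithm of the slope at the right end. -/
noncomputable def lgR (r : ℕ → ℤ) (LP : ℕ → ℂ) (lam : ℕ → ℕ → ℂ) (i k : ℕ) : ℂ :=
  if r i < 0 then lam i k else LP i

/-- The logarithm of the slope in front. -/
noncomputable def lgN (r : ℕ → ℤ) (lam : ℕ → ℕ → ℂ) (i k : ℕ) : ℂ :=
  if k = 2 * (r i).natAbs then lam (i + 1) 1 else lam i (k + 1)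

/-- The corrections of the layers, due to the ordering of the vertices. -/
noncomputable def tt (r : ℕ → ℤ) (i k : ℕ) : ℂ :=
  if i = 0 ∧ k = 2 then 1 / 2 else if Even i then sgr (r i) / 3
    else if Even k then -(sgr (r i) / 3) else 0

/-- The critical point. -/
structure CritI (R : ℕ) (r : ℕ → ℤ) (y v : ℕ → ℂ) : Prop where
  hR : 1 ≤ R
  hr : ∀ i ≤ R, 10 ≤ |r i|
  hv : ∀ i ≤ R, ‖v i‖ ≤ 6 / 100
  hy : ∀ j < R, ‖y j - 1 / 4‖ ≤ 6 / 1000
  imv : ∀ i ≤ R, 0 < (v i).im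
  wre : ∀ i ≤ R, 0 < (wI r v i).re
  wim : ∀ i ≤ R, |(wI r v i).im| < (wI r v i).re / 2
  kim : ∀ i ≤ R, (2 * (r i).natAbs : ℝ) * |(wI r v i).im| ≤ 1 / 4
  ey : ∀ j < R, 2 * hh (y j + 1 / 2) = mm (v j) (y j) + mm (v (j + 1)) (y j)
  ev : ∀ i ≤ R, 2 * (r i).natAbs * wI r v i + bL y v i + bR R y v i = 1
  pos : ∀ i ≤ R, ∀ k ∈ lay R r i, 0 < (zI r y v i k).im

/-- The potential function. -/
noncomputable def VI (R : ℕ) (r : ℕ → ℤ) (y v : ℕ → ℂ) : ℂ :=
  (∑ j ∈ Finset.range R, (4 * ff (y j + 1 / 2) - ff (y j - v j) - ff (y j + v j) -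
    ff (y j - v (j + 1)) - ff (y j + v (j + 1)))) +
  ∑ i ∈ Finset.range (R + 1), 2 * Real.pi * I * (r i * v i ^ 2 + v i)

end Pool.Agent.H63.VC5
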