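import Pool.Agent.H63.VC5.DilogA

/-! # Functional equations of the dilogarithm -/

namespace Pool.Agent.H63.VC5

open Pool.Agent.H63.VC Pool.Agent.H63.VC3 Pool.Agent.H63.VC4 Complex Filter Topology
open scoped BigOperators

theorem DilogB_const {s : Set ℂ} (ho : IsOpen s) {a : ℂ} (ha : a ∈ s) (hs : StarConvex ℝ a s)
    {f : ℂ → ℂ} (hf : ∀ z ∈ s, HasDerivAt f 0 z) {x y : ℂ} (hx : x ∈ s) (hy : y ∈ s) :
    f x = f y := by
  refine ho.is_const_of_deriv_eq_zero (hs.isPathConnected ha).isConnected.isPreconnected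
    (fun z hz => (hf z hz).differentiableAt.differentiableWithinAt)
    (fun z hz => (hf z hz).deriv) hx hy

theorem DilogB_d1 (z : ℂ) (h0 : z ∈ slitPlane) (h1 : 1 - z ∈ slitPlane) :
    HasDerivAt (fun z => dilog z + dilog (1 - z) + Complex.log z * Complex.log (1 - z)) 0 z := by
  have hz : z ≠ 0 := slitPlane_ne_zero h0
  have hz1 : 1 - z ≠ 0 := slitPlane_ne_zero h1
  have hs : HasDerivAt (fun z : ℂ => 1 - z) (-1) z := by
    simpa using (hasDerivAt_id z).const_sub 1
  have e1 := dilog_hasDerivAt z hz h1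
  have e2 := (dilog_hasDerivAt (1 - z) hz1 (by simpa using h0)).comp z hs
  have e3 := hasDerivAt_log h0
  have e4 := (hasDerivAt_log h1).comp z hs
  have e5 := (e1.add e2).add (e3.mul e4)
  refine e5.congr_deriv ?_
  simp only [Function.comp, sub_sub_cancel]
  field_simp
  ring

theorem DilogB_star1 : StarConvex ℝ (1 / 2 : ℂ) {z : ℂ | z ∈ slitPlane ∧ 1 - z ∈ slitPlane} := by
  rw [starConvex_iff_forall_pos (by constructor <;> (rw [mem_slitPlane_iff]; left; norm_num))]
  rintro z ⟨h0, h1⟩ a b ha hb hab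
  rw [mem_slitPlane_iff] at h0 h1
  simp only [sub_re, one_re, sub_im, one_im, zero_sub, neg_ne_zero] at h1
  by_cases hi : z.im = 0
  · have h0' : 0 < z.re := h0.resolve_right (by simp [hi])
    have h1' : 0 < 1 - z.re := h1.resolve_right (by simp [hi])
    refine ⟨mem_slitPlane_iff.2 (Or.inl ?_), mem_slitPlane_iff.2 (Or.inl ?_)⟩
    · simp
      positivity
    · have : a = 1 - b := by linarith
      simp
      rw [this]
      nlinarith
  · refine ⟨mem_slitPlane_iff.2 (Or.inr ?_), mem_slitPlane_iff.2 (Or.inr ?_)⟩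
    · simp [hi, hb.ne']
    · simp [hi, hb.ne']

theorem DilogB_lim : Tendsto (fun x : ℝ => Real.log x * Real.log (1 - x)) (𝓝[<] 1) (𝓝 0) := by
  have h1 : Tendsto (fun x : ℝ => 2 * |(1 - x) * Real.log (1 - x)|) (𝓝[<] 1) (𝓝 0) := by
    have h2 : Continuous fun x : ℝ => 2 * |(1 - x) * Real.log (1 - x)| :=
      continuous_const.mul ((Real.continuous_mul_log.comp (continuous_const.sub continuous_id)).abs)
    have h3 := h2.tendsto 1
    simp only [sub_self, Real.log_zero, mul_zero, abs_zero] at h3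
    exact h3.mono_left nhdsWithin_le_nhds
  refine squeeze_zero_norm' ?_ h1
  have h4 : Set.Ioo (1 / 2 : ℝ) 1 ∈ 𝓝[<] (1 : ℝ) := Ioo_mem_nhdsLT (by norm_num)
  filter_upwards [h4] with x hx
  rw [norm_mul, Real.norm_eq_abs, Real.norm_eq_abs, abs_mul]
  have h5 : |Real.log x| ≤ 2 * |1 - x| := by
    have h6 : 0 < x := by linarith [hx.1]
    have h7 := Real.one_sub_inv_le_log_of_pos h6
    have h8 : Real.log x ≤ 0 := Real.log_nonpos h6.le hx.2.le
    rw [abs_of_nonpos h8, abs_of_pos (by linarith [hx.2])]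
    have h9 : x⁻¹ - 1 ≤ 2 * (1 - x) := by
      have : x⁻¹ - 1 = (1 - x) / x := by field_simp
      rw [this, div_le_iff₀ h6]
      nlinarith [hx.1, hx.2]
    linarith
  calc |Real.log x| * |Real.log (1 - x)| ≤ (2 * |1 - x|) * |Real.log (1 - x)| := by gcongr
    _ = _ := by ring

theorem DilogB_tend0 {l : Filter ℝ} {f : ℝ → ℂ} (h : Tendsto f l (𝓝 0)) :
    Tendsto (fun x => dilog (f x)) l (𝓝 0) := by
  have h1 := dilog_continuous_zero.tendsto
  rw [dilog_zero] at h1
  exact h1.comp h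

theorem dilog_compl (z : ℂ) (h0 : z ∈ slitPlane) (h1 : 1 - z ∈ slitPlane) :
    dilog z + dilog (1 - z) =
      (Real.pi : ℂ) ^ 2 / 6 - Complex.log z * Complex.log (1 - z) := by
  have ho : IsOpen {z : ℂ | z ∈ slitPlane ∧ 1 - z ∈ slitPlane} :=
    isOpen_slitPlane.inter (isOpen_slitPlane.preimage (continuous_const.sub continuous_id))
  have hc : ∀ x ∈ Set.Ioo (1 / 2 : ℝ) 1,
      dilog (x : ℂ) + dilog (1 - x) + (Real.log x * Real.log (1 - x) : ℝ) =
        dilog z + dilog (1 - z) + Complex.log z * Complex.log (1 - z) := by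
    intro x hx
    have h2 := DilogB_const ho (a := 1 / 2) (by constructor <;> (rw [mem_slitPlane_iff]; left; norm_num)) DilogB_star1 (fun z hz => DilogB_d1 z hz.1 hz.2)
      (x := (x : ℂ)) (y := z) ⟨?_, ?_⟩ ⟨h0, h1⟩
    · rw [← h2]
      have e1 : Complex.log x = (Real.log x : ℂ) := (ofReal_log (by linarith [hx.1])).symm
      have e2 : Complex.log (1 - x) = (Real.log (1 - x) : ℂ) := by
        rw [ofReal_log (by linarith [hx.2])]; push_cast; rfl
      simp only [e1, e2]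
      push_cast; ring
    · rw [mem_slitPlane_iff]; left; rw [ofReal_re]; linarith [hx.1]
    · rw [mem_slitPlane_iff]; left; simp; exact hx.2
  have t1 := dilog_one_lim
  have t2 : Tendsto (fun x : ℝ => dilog (1 - (x : ℂ))) (𝓝[<] 1) (𝓝 0) := by
    apply DilogB_tend0
    have : Continuous fun x : ℝ => (1 : ℂ) - x := continuous_const.sub continuous_ofReal
    have h3 := this.tendsto 1
    simp only [ofReal_one, sub_self] at h3
    exact h3.mono_left nhdsWithin_le_nhds
  have t3 : Tendsto (fun x : ℝ => ((Real.log x * Real.log (1 - x) : ℝ) : ℂ)) (𝓝[<] 1) (𝓝 0) := by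
    have := (continuous_ofReal.tendsto 0).comp DilogB_lim
    rw [ofReal_zero] at this
    exact this
  have t4 := (t1.add t2).add t3
  have h4 : Set.Ioo (1 / 2 : ℝ) 1 ∈ 𝓝[<] (1 : ℝ) := Ioo_mem_nhdsLT (by norm_num)
  have t5 : Tendsto (fun x : ℝ => dilog (x : ℂ) + dilog (1 - x) + (Real.log x * Real.log (1 - x) : ℝ))
      (𝓝[<] 1) (𝓝 (dilog z + dilog (1 - z) + Complex.log z * Complex.log (1 - z))) := by
    refine tendsto_const_nhds.congr' ?_
    filter_upwards [h4] with x hx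
    exact (hc x hx).symm
  have h5 := tendsto_nhds_unique t4 t5
  rw [add_zero, add_zero] at h5
  rw [h5]; ring

theorem DilogB_d2 (x : ℝ) (hx : x ∈ Set.Ioo (0 : ℝ) 1) :
    HasDerivAt (fun x : ℝ => dilog (x : ℂ) + dilog (-(x : ℂ)) - dilog ((x : ℂ) ^ 2) / 2) 0 x := by
  obtain ⟨hx0, hx1⟩ := hx
  have hxc : (x : ℂ) ≠ 0 := by exact_mod_cast hx0.ne'
  have hs : HasDerivAt (fun x : ℝ => (x : ℂ)) 1 x := HasDerivAt.ofReal_comp (hasDerivAt_id x)
  have m1 : 1 - (x : ℂ) ∈ slitPlane := by rw [mem_slitPlane_iff]; left; simp; exact hx1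
  have m2 : 1 - (-(x : ℂ)) ∈ slitPlane := by rw [mem_slitPlane_iff]; left; simp; linarith
  have hx2 : x ^ 2 < 1 := by nlinarith
  have m3 : 1 - (x : ℂ) ^ 2 ∈ slitPlane := by
    rw [mem_slitPlane_iff]; left
    have : (1 - (x : ℂ) ^ 2).re = 1 - x ^ 2 := by
      rw [show (1 - (x : ℂ) ^ 2) = ((1 - x ^ 2 : ℝ) : ℂ) by push_cast; ring, ofReal_re]
    rw [this]; linarith
  have e1 := (dilog_hasDerivAt x hxc m1).comp x hs
  have e2 := (dilog_hasDerivAt (-(x : ℂ)) (neg_ne_zero.2 hxc) m2).comp x hs.neg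
  have e3 := (dilog_hasDerivAt ((x : ℂ) ^ 2) (pow_ne_zero 2 hxc) m3).comp x (hs.pow 2)
  have e4 := (e1.add e2).sub (e3.div_const 2)
  have hlog : Complex.log (1 - (x : ℂ) ^ 2) = Complex.log (1 - x) + Complex.log (1 - -(x : ℂ)) := by
    have e5 : Complex.log (1 - (x : ℂ) ^ 2) = (Real.log (1 - x ^ 2) : ℂ) := by
      rw [ofReal_log (by linarith)]; push_cast; rfl
    have e6 : Complex.log (1 - (x : ℂ)) = (Real.log (1 - x) : ℂ) := by
      rw [ofReal_log (by linarith)]; push_cast; rfl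
    have e7 : Complex.log (1 - -(x : ℂ)) = (Real.log (1 + x) : ℂ) := by
      rw [ofReal_log (by linarith)]; push_cast; ring_nf
    rw [e5, e6, e7, ← ofReal_add, ← Real.log_mul (by linarith) (by linarith)]
    congr 2; ring
  refine e4.congr_deriv ?_
  rw [hlog]
  field_simp
  ring

theorem dilog_neg_one : dilog (-1) = -((Real.pi : ℂ) ^ 2 / 12) := by
  have hconst : ∀ x ∈ Set.Ioo (0 : ℝ) 1, ∀ y ∈ Set.Ioo (0 : ℝ) 1,
      dilog (x : ℂ) + dilog (-(x : ℂ)) - dilog ((x : ℂ) ^ 2) / 2 =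
      dilog (y : ℂ) + dilog (-(y : ℂ)) - dilog ((y : ℂ) ^ 2) / 2 := by
    intro x hx y hy
    exact isOpen_Ioo.is_const_of_deriv_eq_zero isPreconnected_Ioo
      (fun z hz => (DilogB_d2 z hz).differentiableAt.differentiableWithinAt)
      (fun z hz => (DilogB_d2 z hz).deriv) hx hy
  -- the constant is zero
  have t0 : Tendsto (fun x : ℝ => dilog (x : ℂ) + dilog (-(x : ℂ)) - dilog ((x : ℂ) ^ 2) / 2)
      (𝓝[>] 0) (𝓝 0) := by
    have c1 : Tendsto (fun x : ℝ => (x : ℂ)) (𝓝[>] 0) (𝓝 0) := by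
      have := continuous_ofReal.tendsto (0 : ℝ)
      rw [ofReal_zero] at this
      exact this.mono_left nhdsWithin_le_nhds
    have c2 : Tendsto (fun x : ℝ => -(x : ℂ)) (𝓝[>] 0) (𝓝 0) := by simpa using c1.neg
    have c3 : Tendsto (fun x : ℝ => (x : ℂ) ^ 2) (𝓝[>] 0) (𝓝 0) := by simpa using c1.pow 2
    have := ((DilogB_tend0 c1).add (DilogB_tend0 c2)).sub ((DilogB_tend0 c3).div_const 2)
    simpa using this
  have hz : ∀ x ∈ Set.Ioo (0 : ℝ) 1, dilog (x : ℂ) + dilog (-(x : ℂ)) - dilog ((x : ℂ) ^ 2) / 2 = 0 := by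
    intro x hx
    refine tendsto_nhds_unique (tendsto_const_nhds (f := 𝓝[>] (0 : ℝ))) (t0.congr' ?_)
    have h4 : Set.Ioo (0 : ℝ) 1 ∈ 𝓝[>] (0 : ℝ) := Ioo_mem_nhdsGT (by norm_num)
    filter_upwards [h4] with y hy
    exact hconst y hy x hx
  have t1 := dilog_one_lim
  have t2 : Tendsto (fun x : ℝ => dilog (-(x : ℂ))) (𝓝[<] 1) (𝓝 (dilog (-1))) := by
    have hcont : ContinuousAt dilog (-1) :=
      (dilog_hasDerivAt (-1) (by norm_num) (by rw [mem_slitPlane_iff]; left; norm_num)).continuousAt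
    have c1 : Tendsto (fun x : ℝ => -(x : ℂ)) (𝓝[<] 1) (𝓝 (-1)) := by
      have := (continuous_ofReal.tendsto (1 : ℝ)).neg
      rw [ofReal_one] at this
      exact this.mono_left nhdsWithin_le_nhds
    exact hcont.tendsto.comp c1
  have t3 : Tendsto (fun x : ℝ => dilog ((x : ℂ) ^ 2)) (𝓝[<] 1) (𝓝 ((Real.pi : ℂ) ^ 2 / 6)) := by
    have c1 : Tendsto (fun x : ℝ => x ^ 2) (𝓝[<] 1) (𝓝[<] 1) := by
      refine tendsto_nhdsWithin_iff.2 ⟨?_, ?_⟩
      · have := (continuous_pow 2 (M := ℝ)).tendsto 1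
        rw [one_pow] at this
        exact this.mono_left nhdsWithin_le_nhds
      · have h4 : Set.Ioo (0 : ℝ) 1 ∈ 𝓝[<] (1 : ℝ) := Ioo_mem_nhdsLT (by norm_num)
        filter_upwards [h4] with x hx
        show x ^ 2 < 1
        nlinarith [hx.1, hx.2]
    have := t1.comp c1
    refine this.congr fun x => ?_
    simp
  have t4 := (t1.add t2).sub (t3.div_const 2)
  have t5 : Tendsto (fun x : ℝ => dilog (x : ℂ) + dilog (-(x : ℂ)) - dilog ((x : ℂ) ^ 2) / 2)
      (𝓝[<] 1) (𝓝 0) := by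
    refine tendsto_const_nhds.congr' ?_
    have h4 : Set.Ioo (0 : ℝ) 1 ∈ 𝓝[<] (1 : ℝ) := Ioo_mem_nhdsLT (by norm_num)
    filter_upwards [h4] with x hx
    exact (hz x hx).symm
  have h5 := tendsto_nhds_unique t4 t5
  linear_combination h5

theorem DilogB_mem {z : ℂ} (h : -z ∈ slitPlane) : 1 - z ∈ slitPlane ∧ z ≠ 0 ∧ -z⁻¹ ∈ slitPlane ∧
    1 - z⁻¹ ∈ slitPlane := by
  have hz : z ≠ 0 := fun h0 => slitPlane_ne_zero h (by rw [h0, neg_zero])
  have aux : ∀ w : ℂ, -w ∈ slitPlane → 1 - w ∈ slitPlane := by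
    intro w hw
    rw [mem_slitPlane_iff] at hw ⊢
    simp only [neg_re, neg_im, neg_ne_zero, sub_re, one_re, sub_im, one_im, zero_sub] at hw ⊢
    rcases hw with hw | hw
    · left; linarith
    · right; exact hw
  have hi : -z⁻¹ ∈ slitPlane := by
    rw [← inv_neg]
    have hn : 0 < normSq (-z) := normSq_pos.2 (slitPlane_ne_zero h)
    rw [mem_slitPlane_iff] at h ⊢
    rw [inv_re, inv_im]
    rcases h with h | h
    · left; positivity
    · right; exact div_ne_zero (neg_ne_zero.2 h) hn.ne'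
  exact ⟨aux z h, hz, hi, aux _ hi⟩

theorem DilogB_log {z : ℂ} (h : -z ∈ slitPlane) :
    Complex.log (1 - z⁻¹) = Complex.log (1 - z) - Complex.log (-z) := by
  obtain ⟨m1, hz, m3, m4⟩ := DilogB_mem h
  have hexp : exp (Complex.log (1 - z) - Complex.log (-z)) = 1 - z⁻¹ := by
    rw [exp_sub, exp_log (slitPlane_ne_zero m1), exp_log (slitPlane_ne_zero h)]
    field_simp
    ring
  rw [← hexp, Complex.log_exp]
  · rw [sub_im, log_im, log_im]
    rcases lt_trichotomy z.im 0 with hi | hi | hi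
    · have a1 : 0 ≤ arg (1 - z) := arg_nonneg_iff.2 (by simp; exact hi.le)
      have a2 : arg (-z) < Real.pi := by
        rcases (arg_le_pi (-z)).lt_or_eq with h3 | h3
        · exact h3
        · exact absurd h3 (mem_slitPlane_iff_arg.1 h).1
      linarith
    · have a1 : 0 ≤ arg (1 - z) := arg_nonneg_iff.2 (by simp [hi])
      have a2 : arg (-z) < Real.pi := by
        rcases (arg_le_pi (-z)).lt_or_eq with h3 | h3
        · exact h3
        · exact absurd h3 (mem_slitPlane_iff_arg.1 h).1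
      linarith
    · have a1 : -Real.pi < arg (1 - z) := neg_pi_lt_arg _
      have a2 : arg (-z) < 0 := arg_neg_iff.2 (by simp; exact hi)
      linarith
  · rw [sub_im, log_im, log_im]
    rcases lt_or_ge z.im 0 with hi | hi
    · have a1 : arg (1 - z) ≤ Real.pi := arg_le_pi _
      have a2 : 0 ≤ arg (-z) := arg_nonneg_iff.2 (by simp; exact hi.le)
      linarith
    · rcases hi.lt_or_eq with hi | hi
      · have a1 : arg (1 - z) < 0 := arg_neg_iff.2 (by simp; exact hi)
        have a2 : -Real.pi < arg (-z) := neg_pi_lt_arg _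
        linarith
      · have a1 : arg (1 - z) ≤ Real.pi := arg_le_pi _
        have a2 : 0 ≤ arg (-z) := arg_nonneg_iff.2 (by simp [← hi])
        linarith

theorem dilog_inv (z : ℂ) (h : -z ∈ slitPlane) : dilog z + dilog z⁻¹ =
    -((Real.pi : ℂ) ^ 2 / 6) - Complex.log (-z) ^ 2 / 2 := by
  have ho : IsOpen {z : ℂ | -z ∈ slitPlane} := isOpen_slitPlane.preimage continuous_neg
  have hs : StarConvex ℝ (-1 : ℂ) {z : ℂ | -z ∈ slitPlane} := by
    rintro w hw a b ha hb hab
    have := starConvex_one_slitPlane hw ha hb hab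
    show -(a • (-1 : ℂ) + b • w) ∈ slitPlane
    convert this using 1
    simp
    ring
  have hd : ∀ z ∈ {z : ℂ | -z ∈ slitPlane},
      HasDerivAt (fun z => dilog z + dilog z⁻¹ + Complex.log (-z) ^ 2 / 2) 0 z := by
    intro z hz
    obtain ⟨m1, hz0, m3, m4⟩ := DilogB_mem hz
    have e1 := dilog_hasDerivAt z hz0 m1
    have e2 := (dilog_hasDerivAt z⁻¹ (inv_ne_zero hz0) m4).comp z (hasDerivAt_inv hz0)
    have e3 := (hasDerivAt_log hz).comp z (hasDerivAt_neg z)
    have e4 := (e1.add e2).add ((e3.pow 2).div_const 2)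
    refine e4.congr_deriv ?_
    simp only [Function.comp]
    rw [DilogB_log hz]
    have hz' : -z ≠ 0 := slitPlane_ne_zero hz
    field_simp
    ring
  have h1 := DilogB_const ho (a := -1) (by show -(-1 : ℂ) ∈ slitPlane; simp) hs hd (x := z) (y := -1) h (by show -(-1 : ℂ) ∈ slitPlane; simp)
  have h2 : (-1 : ℂ)⁻¹ = -1 := by norm_num
  simp only [h2, neg_neg, Complex.log_one, dilog_neg_one] at h1
  linear_combination h1

end Pool.Agent.H63.VC5
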