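import Pool.Agent.H63.VC5.Defs
import Pool.Agent.H63.VC5.DilogB

/-! # Symmetries of the Rogers dilogarithm -/

namespace Pool.Agent.H63.VC5

open Pool.Agent.H63.VC Pool.Agent.H63.VC3 Pool.Agent.H63.VC4 Complex Filter Topology
open scoped BigOperators

theorem rogers_logs (z : ℂ) (p q : ℤ) (X Y : ℂ)
    (hX : Complex.log z + p * (Real.pi * I) = X)
    (hY : -Complex.log (1 - z) + q * (Real.pi * I) = Y) :
    rogers z p q = dilog z + (X * Complex.log (1 - z) + Y * Complex.log z +
      Complex.log z * Complex.log (1 - z)) / 2 - (Real.pi : ℂ) ^ 2 / 6 := by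
  subst hX hY
  unfold rogers
  ring

theorem Rog_slit (z : ℂ) (hz : z.im ≠ 0) : z ∈ slitPlane :=
  Complex.mem_slitPlane_iff.2 (Or.inr hz)

theorem Rog_slit' (z : ℂ) (hz : z.im ≠ 0) : 1 - z ∈ slitPlane :=
  Rog_slit _ (by simpa using hz)

theorem rogers_compl (z : ℂ) (hz : z.im ≠ 0) (p q : ℤ) :
    rogers (1 - z) (-q) (-p) = -((Real.pi : ℂ) ^ 2 / 6) - rogers z p q := by
  have h := dilog_compl z (Rog_slit z hz) (Rog_slit' z hz)
  have h1 : dilog (1 - z) =
      (Real.pi : ℂ) ^ 2 / 6 - Complex.log z * Complex.log (1 - z) - dilog z := by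
    rw [← h]; ring
  unfold rogers
  rw [h1, sub_sub_cancel]
  push_cast
  ring

theorem Rog_log_neg_pos (z : ℂ) (hz : 0 < z.im) :
    Complex.log (-z) = Complex.log z - Real.pi * I := by
  rw [Complex.log, Complex.log, norm_neg, Complex.arg_neg_eq_arg_sub_pi_of_im_pos hz]
  push_cast
  ring

theorem Rog_log_neg_neg (z : ℂ) (hz : z.im < 0) :
    Complex.log (-z) = Complex.log z + Real.pi * I := by
  rw [Complex.log, Complex.log, norm_neg, Complex.arg_neg_eq_arg_add_pi_of_im_neg hz]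
  push_cast
  ring

theorem Rog_arg_pos (z : ℂ) (hz : 0 < z.im) : 0 < z.arg ∧ z.arg < Real.pi := by
  constructor
  · rcases lt_or_eq_of_le (Complex.arg_nonneg_iff.2 hz.le) with h | h
    · exact h
    · exact absurd (Complex.arg_eq_zero_iff.1 h.symm).2 hz.ne'
  · exact Complex.arg_lt_pi_iff.2 (Or.inr hz.ne')

theorem Rog_arg_neg (z : ℂ) (hz : z.im < 0) : -Real.pi < z.arg ∧ z.arg < 0 :=
  ⟨Complex.neg_pi_lt_arg z, Complex.arg_neg_iff.2 hz⟩

theorem Rog_arg_ne (z : ℂ) (hz : z.im ≠ 0) : z.arg ≠ Real.pi := fun h =>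
  hz (Complex.arg_eq_pi_iff.1 h).2

theorem Rog_log_inv (z : ℂ) (hz : z.im ≠ 0) : Complex.log z⁻¹ = -Complex.log z :=
  Complex.log_inv z (Rog_arg_ne z hz)

theorem Rog_log_sub (z : ℂ) (hz : z.im ≠ 0) :
    Complex.log (1 - z⁻¹) = Complex.log (-(1 - z)) - Complex.log z := by
  have hz0 : z ≠ 0 := fun h => hz (by simp [h])
  have h1 : -(1 - z) ≠ 0 := fun h => hz (by
    have : z = 1 := by linear_combination h
    simp [this])
  have e : 1 - z⁻¹ = -(1 - z) * z⁻¹ := by field_simp; ring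
  rw [e, Complex.log_mul_eq_add_log_iff h1 (inv_ne_zero hz0) |>.2, Rog_log_inv z hz]
  · ring
  · rw [Complex.arg_inv, if_neg (Rog_arg_ne z hz)]
    rcases lt_or_gt_of_ne hz with h | h
    · have a1 := Rog_arg_neg z h
      have a2 := Rog_arg_neg (-(1 - z)) (by simpa using h)
      constructor <;> linarith [a1.1, a1.2, a2.1, a2.2]
    · have a1 := Rog_arg_pos z h
      have a2 := Rog_arg_pos (-(1 - z)) (by simpa using h)
      constructor <;> linarith [a1.1, a1.2, a2.1, a2.2]

theorem Rog_int_eq (m n : ℤ) (h : (m : ℂ) * (Real.pi * I) = n * (Real.pi * I)) : m = n := by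
  have hpi : (Real.pi : ℂ) * I ≠ 0 :=
    mul_ne_zero (by exact_mod_cast Real.pi_ne_zero) I_ne_zero
  exact_mod_cast mul_right_cancel₀ hpi h

theorem rogers_inv (z : ℂ) (hz : z.im ≠ 0) (p q P Q : ℤ) (X Y : ℂ)
    (hX : Complex.log z + p * (Real.pi * I) = X)
    (hY : -Complex.log (1 - z) + q * (Real.pi * I) = Y)
    (hP : Complex.log z⁻¹ + P * (Real.pi * I) = -X)
    (hQ : -Complex.log (1 - z⁻¹) + Q * (Real.pi * I) = X + Y) :
    Cg (rogers z p q + rogers z⁻¹ P Q) (p * (Real.pi : ℂ) ^ 2 / 2) := by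
  have hd := dilog_inv z (Rog_slit _ (by simpa using hz))
  have hd' : dilog z⁻¹ =
      -((Real.pi : ℂ) ^ 2 / 6) - Complex.log (-z) ^ 2 / 2 - dilog z := by
    rw [← hd]; ring
  rw [Rog_log_inv z hz] at hP
  have hPp : P = -p := by
    apply Rog_int_eq
    push_cast
    linear_combination hP + hX
  rw [Rog_log_sub z hz] at hQ
  rcases lt_or_gt_of_ne hz with h | h
  · have e1 := Rog_log_neg_neg z h
    have e2 := Rog_log_neg_pos (1 - z) (by simpa using h)
    rw [e2] at hQ
    have hQq : Q = p + q - 1 := by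
      apply Rog_int_eq
      push_cast
      linear_combination hQ - hX - hY
    refine ⟨-p, ?_⟩
    unfold rogers
    rw [hd', Rog_log_sub z hz, Rog_log_inv z hz, e1, e2, hPp, hQq]
    push_cast
    linear_combination ((Real.pi : ℂ) ^ 2 * (-1 / 2 + p / 2)) * I_sq
  · have e1 := Rog_log_neg_pos z h
    have e2 := Rog_log_neg_neg (1 - z) (by simpa using h)
    rw [e2] at hQ
    have hQq : Q = p + q + 1 := by
      apply Rog_int_eq
      push_cast
      linear_combination hQ - hX - hY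
    refine ⟨0, ?_⟩
    unfold rogers
    rw [hd', Rog_log_sub z hz, Rog_log_inv z hz, e1, e2, hPp, hQq]
    push_cast
    linear_combination ((Real.pi : ℂ) ^ 2 * (-1 / 2 - p / 2)) * I_sq

theorem exists_flat (z X : ℂ) (hz : z ≠ 0) (h : exp X = z ∨ exp X = -z) :
    ∃ p : ℤ, Complex.log z + p * (Real.pi * I) = X := by
  rcases h with h | h
  · have h1 : exp X = exp (Complex.log z) := by rw [h, Complex.exp_log hz]
    obtain ⟨n, hn⟩ := Complex.exp_eq_exp_iff_exists_int.1 h1
    exact ⟨2 * n, by rw [hn]; push_cast; ring⟩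
  · have h1 : exp X = exp (Complex.log z + Real.pi * I) := by
      rw [h, Complex.exp_add, Complex.exp_log hz, Complex.exp_pi_mul_I]; ring
    obtain ⟨n, hn⟩ := Complex.exp_eq_exp_iff_exists_int.1 h1
    exact ⟨2 * n + 1, by rw [hn]; push_cast; ring⟩

theorem flat_parity (z X : ℂ) (hz : z ≠ 0) (p : ℤ)
    (h : Complex.log z + p * (Real.pi * I) = X) :
    (exp X = z → Even p) ∧ (exp X = -z → Odd p) := by
  constructor
  · intro hX
    have h1 : exp X = exp (Complex.log z) := by rw [hX, Complex.exp_log hz]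
    obtain ⟨n, hn⟩ := Complex.exp_eq_exp_iff_exists_int.1 h1
    have : p = 2 * n := by
      apply Rog_int_eq
      push_cast
      linear_combination h + hn
    exact ⟨n, by rw [this]; ring⟩
  · intro hX
    have h1 : exp X = exp (Complex.log z + Real.pi * I) := by
      rw [hX, Complex.exp_add, Complex.exp_log hz, Complex.exp_pi_mul_I]; ring
    obtain ⟨n, hn⟩ := Complex.exp_eq_exp_iff_exists_int.1 h1
    have : p = 2 * n + 1 := by
      apply Rog_int_eq
      push_cast
      linear_combination h + hn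
    exact ⟨n, this⟩

end Pool.Agent.H63.VC5
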