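import Pool.Agent.H63.VC5.DilogB
import Pool.Agent.H63.VC3.Clausen

/-! # ff and the dilogarithm -/

namespace Pool.Agent.H63.VC5

open Pool.Agent.H63.VC Pool.Agent.H63.VC3 Pool.Agent.H63.VC4 Complex Filter Topology
open scoped BigOperators

theorem FFdilog_im (z : ℂ) (h0 : 0 < z.re) (h1 : z.re < 1) :
    -Real.pi < (hh z + Real.pi * I * (z - 1 / 2)).im ∧ (hh z + Real.pi * I * (z - 1 / 2)).im < Real.pi := by
  have hs := Clausen_sin_re z h0 h1
  have h2 : |Complex.arg (2 * Complex.sin (Real.pi * z))| < Real.pi / 2 :=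
    Complex.abs_arg_lt_pi_div_two_iff.mpr (Or.inl hs)
  have h3 : (hh z).im = Complex.arg (2 * Complex.sin (Real.pi * z)) := by
    unfold hh
    exact Complex.log_im _
  have h4 : (Real.pi * I * (z - 1 / 2) : ℂ).im = Real.pi * (z.re - 1 / 2) := by
    have e : (Real.pi * I * (z - 1 / 2) : ℂ) = ((Real.pi : ℝ) : ℂ) * (I * (z - 1 / 2)) := by ring
    rw [e, Complex.im_ofReal_mul, Complex.I_mul_im, Complex.sub_re]
    norm_num
  rw [Complex.add_im, h3, h4]
  have h5 := abs_lt.mp h2
  have hpi := Real.pi_pos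
  constructor
  · nlinarith [h5.1]
  · nlinarith [h5.2]

theorem FFdilog_exp (z : ℂ) (h0 : 0 < z.re) (h1 : z.re < 1) :
    1 - exp (2 * Real.pi * I * z) = exp (hh z + Real.pi * I * (z - 1 / 2)) := by
  rw [Complex.exp_add, hh_exp z h0 h1, Complex.sin]
  have e1 : (Real.pi * I * (z - 1 / 2) : ℂ) = Real.pi * z * I + -(Real.pi / 2 * I) := by ring
  have e2 : (2 * Real.pi * I * z : ℂ) = Real.pi * z * I + Real.pi * z * I := by ring
  have e3 : exp (-((Real.pi : ℂ) / 2 * I)) = -I := by
    rw [Complex.exp_neg, Complex.exp_pi_div_two_mul_I]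
    exact Complex.inv_I
  have e4 : exp (-((Real.pi : ℂ) * z) * I) * exp ((Real.pi : ℂ) * z * I) = 1 := by
    rw [← Complex.exp_add]
    have : -((Real.pi : ℂ) * z) * I + (Real.pi : ℂ) * z * I = 0 := by ring
    rw [this, Complex.exp_zero]
  rw [e1, e2, Complex.exp_add, Complex.exp_add, e3]
  set E := exp ((Real.pi : ℂ) * z * I)
  set E' := exp (-((Real.pi : ℂ) * z) * I)
  have hI : I * I = -1 := Complex.I_mul_I
  linear_combination (E' * E - E * E) * hI + (-1) * e4

theorem hh_log (z : ℂ) (h0 : 0 < z.re) (h1 : z.re < 1) :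
    Complex.log (1 - exp (2 * Real.pi * I * z)) = hh z + Real.pi * I * (z - 1 / 2) := by
  rw [FFdilog_exp z h0 h1]
  have h := FFdilog_im z h0 h1
  exact Complex.log_exp h.1 h.2.le

theorem FFdilog_slit (z : ℂ) (h0 : 0 < z.re) (h1 : z.re < 1) :
    1 - exp (2 * Real.pi * I * z) ∈ slitPlane := by
  rw [Complex.mem_slitPlane_iff_arg]
  constructor
  · have h := FFdilog_im z h0 h1
    have h2 := hh_log z h0 h1
    have h3 := congrArg Complex.im h2
    rw [Complex.log_im] at h3
    rw [h3]
    exact h.2.ne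
  · rw [FFdilog_exp z h0 h1]
    exact Complex.exp_ne_zero _

theorem ff_dilog (z : ℂ) (h0 : 0 < z.re) (h1 : z.re < 1) :
    2 * Real.pi * I * ff z =
      -dilog (exp (2 * Real.pi * I * z)) + (Real.pi : ℂ) ^ 2 * (z ^ 2 - z + 1 / 6) := by
  set S : Set ℂ := {z : ℂ | 0 < z.re} ∩ {z : ℂ | z.re < 1} with hS
  have hSo : IsOpen S := (isOpen_lt continuous_const Complex.continuous_re).inter
    (isOpen_lt Complex.continuous_re continuous_const)
  have hSc : Convex ℝ S := (convex_halfSpace_re_gt 0).inter (convex_halfSpace_re_lt 1)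
  set F : ℂ → ℂ := fun z => 2 * Real.pi * I * ff z + dilog (exp (2 * Real.pi * I * z)) -
    (Real.pi : ℂ) ^ 2 * (z ^ 2 - z + 1 / 6) with hF
  have hder : ∀ z ∈ S, HasDerivAt F 0 z := by
    intro z hz
    have k1 := (ff_hasDerivAt z hz.1 hz.2).const_mul (2 * Real.pi * I : ℂ)
    have k2 : HasDerivAt (fun z : ℂ => exp (2 * Real.pi * I * z))
        (exp (2 * Real.pi * I * z) * (2 * Real.pi * I)) z := by
      have : HasDerivAt (fun z : ℂ => 2 * Real.pi * I * z) (2 * Real.pi * I) z := by
        simpa using (hasDerivAt_id z).const_mul (2 * Real.pi * I : ℂ)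
      exact this.cexp
    have k3 := (dilog_hasDerivAt _ (Complex.exp_ne_zero (2 * Real.pi * I * z))
      (FFdilog_slit z hz.1 hz.2)).comp z k2
    have k4 : HasDerivAt (fun z : ℂ => (Real.pi : ℂ) ^ 2 * (z ^ 2 - z + 1 / 6))
        ((Real.pi : ℂ) ^ 2 * (2 * z - 1)) z := by
      have := ((((hasDerivAt_id z).pow 2).sub (hasDerivAt_id z)).add_const (1 / 6 : ℂ)).const_mul
        ((Real.pi : ℂ) ^ 2)
      simpa using this
    have k5 := (k1.add k3).sub k4
    refine k5.congr_deriv ?_
    rw [hh_log z hz.1 hz.2]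
    have hne := Complex.exp_ne_zero (2 * Real.pi * I * z)
    field_simp
    have hI : I ^ 2 = -1 := Complex.I_sq
    ring_nf
    rw [hI]
    ring
  have hconst : F z = F (1 / 2) := by
    have hhalf : (1 / 2 : ℂ) ∈ S := by
      constructor
      · show 0 < (1 / 2 : ℂ).re
        norm_num
      · show (1 / 2 : ℂ).re < 1
        norm_num
    apply hSc.is_const_of_fderivWithin_eq_zero (𝕜 := ℂ) (f := F) (s := S)
    · intro x hx
      exact (hder x hx).differentiableAt.differentiableWithinAt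
    · intro x hx
      rw [fderivWithin_of_isOpen hSo hx]
      ext
      simpa using (hder x hx).deriv
    · exact ⟨h0, h1⟩
    · exact hhalf
  have hhalf : F (1 / 2) = 0 := by
    have k1 : ff (1 / 2) = 0 := by
      have := ff_reflect (1 / 2)
      have e : (1 - 1 / 2 : ℂ) = 1 / 2 := by norm_num
      rw [e] at this
      have h2 : 2 * ff (1 / 2) = 0 := by linear_combination this
      simpa using h2
    have k2 : (2 * Real.pi * I * (1 / 2) : ℂ) = Real.pi * I := by ring
    rw [hF]
    simp only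
    rw [k1, k2, Complex.exp_pi_mul_I, dilog_neg_one]
    ring
  rw [hhalf] at hconst
  rw [hF] at hconst
  simp only at hconst
  linear_combination hconst

end Pool.Agent.H63.VC5
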