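import Pool.Agent.H63.VC5.HHx

/-! # The logarithms of a slot -/

namespace Pool.Agent.H63.VC5

open Pool.Agent.H63.VC Pool.Agent.H63.VC3 Pool.Agent.H63.VC4 Complex Filter Topology
open scoped BigOperators

/-! ### elementary bounds -/

theorem SlotA_exp4 (x : ℂ) (hx : ‖x‖ ≤ 1) :
    ‖exp x - (1 + x + x ^ 2 / 2 + x ^ 3 / 6)‖ ≤ ‖x‖ ^ 4 * (5 / 96) := by
  have h := Complex.exp_bound hx (n := 4) (by norm_num)
  have e1 : ∑ m ∈ Finset.range 4, x ^ m / (m.factorial : ℂ) = 1 + x + x ^ 2 / 2 + x ^ 3 / 6 := by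
    simp [Finset.sum_range_succ, Nat.factorial]
  have e2 : ((Nat.succ 4 : ℕ) : ℝ) * (((Nat.factorial 4 : ℕ) : ℝ) * ((4 : ℕ) : ℝ))⁻¹ = 5 / 96 := by
    norm_num [Nat.factorial]
  rw [e1] at h
  refine h.trans (le_of_eq ?_)
  rw [← e2]

theorem SlotA_cos (z : ℂ) (hz : ‖z‖ ≤ 1) : ‖cos z - 1‖ ≤ ‖z‖ ^ 2 / 2 + ‖z‖ ^ 4 * (5 / 96) := by
  have n1 : ‖z * I‖ = ‖z‖ := by simp
  have n2 : ‖-z * I‖ = ‖z‖ := by simp
  have h1 := SlotA_exp4 (z * I) (by rw [n1]; exact hz)
  have h2 := SlotA_exp4 (-z * I) (by rw [n2]; exact hz)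
  rw [n1] at h1
  rw [n2] at h2
  have hI3 : I ^ 3 = -I := by rw [pow_succ, I_sq]; ring
  have e : cos z - 1 = ((exp (z * I) - (1 + z * I + (z * I) ^ 2 / 2 + (z * I) ^ 3 / 6)) +
      (exp (-z * I) - (1 + -z * I + (-z * I) ^ 2 / 2 + (-z * I) ^ 3 / 6))) / 2 - z ^ 2 / 2 := by
    rw [Complex.cos]
    simp only [mul_pow, I_sq, hI3]
    ring
  rw [e]
  have h3 : ‖((exp (z * I) - (1 + z * I + (z * I) ^ 2 / 2 + (z * I) ^ 3 / 6)) +
      (exp (-z * I) - (1 + -z * I + (-z * I) ^ 2 / 2 + (-z * I) ^ 3 / 6))) / 2‖ ≤ ‖z‖ ^ 4 * (5 / 96) := by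
    rw [norm_div]
    have := norm_add_le (exp (z * I) - (1 + z * I + (z * I) ^ 2 / 2 + (z * I) ^ 3 / 6))
      (exp (-z * I) - (1 + -z * I + (-z * I) ^ 2 / 2 + (-z * I) ^ 3 / 6))
    have h4 : ‖(2 : ℂ)‖ = 2 := by simp
    rw [h4, div_le_iff₀ (by norm_num)]
    linarith
  have h5 : ‖z ^ 2 / 2‖ = ‖z‖ ^ 2 / 2 := by rw [norm_div, norm_pow]; simp
  have h6 := norm_sub_le (((exp (z * I) - (1 + z * I + (z * I) ^ 2 / 2 + (z * I) ^ 3 / 6)) +
      (exp (-z * I) - (1 + -z * I + (-z * I) ^ 2 / 2 + (-z * I) ^ 3 / 6))) / 2) (z ^ 2 / 2)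
  linarith

theorem SlotA_sin (z : ℂ) (hz : ‖z‖ ≤ 1) :
    ‖sin z‖ ≤ ‖z‖ + ‖z‖ ^ 3 / 6 + ‖z‖ ^ 4 * (5 / 96) := by
  have n1 : ‖z * I‖ = ‖z‖ := by simp
  have n2 : ‖-z * I‖ = ‖z‖ := by simp
  have h1 := SlotA_exp4 (z * I) (by rw [n1]; exact hz)
  have h2 := SlotA_exp4 (-z * I) (by rw [n2]; exact hz)
  rw [n1] at h1
  rw [n2] at h2
  have hI3 : I ^ 3 = -I := by rw [pow_succ, I_sq]; ring
  have e : sin z = ((exp (-z * I) - (1 + -z * I + (-z * I) ^ 2 / 2 + (-z * I) ^ 3 / 6)) -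
      (exp (z * I) - (1 + z * I + (z * I) ^ 2 / 2 + (z * I) ^ 3 / 6))) / 2 * I + (z - z ^ 3 / 6) := by
    rw [Complex.sin]
    simp only [mul_pow, I_sq, hI3]
    linear_combination (-(z - z ^ 3 / 6)) * (I_sq)
  rw [e]
  have h3 : ‖((exp (-z * I) - (1 + -z * I + (-z * I) ^ 2 / 2 + (-z * I) ^ 3 / 6)) -
      (exp (z * I) - (1 + z * I + (z * I) ^ 2 / 2 + (z * I) ^ 3 / 6))) / 2 * I‖ ≤ ‖z‖ ^ 4 * (5 / 96) := by
    rw [norm_mul, norm_div, norm_I, mul_one]
    have := norm_sub_le (exp (-z * I) - (1 + -z * I + (-z * I) ^ 2 / 2 + (-z * I) ^ 3 / 6))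
      (exp (z * I) - (1 + z * I + (z * I) ^ 2 / 2 + (z * I) ^ 3 / 6))
    have h4 : ‖(2 : ℂ)‖ = 2 := by simp
    rw [h4, div_le_iff₀ (by norm_num)]
    linarith
  have h5 : ‖z - z ^ 3 / 6‖ ≤ ‖z‖ + ‖z‖ ^ 3 / 6 := by
    refine (norm_sub_le _ _).trans (le_of_eq ?_)
    rw [norm_div, norm_pow]
    simp
  have h6 := norm_add_le (((exp (-z * I) - (1 + -z * I + (-z * I) ^ 2 / 2 + (-z * I) ^ 3 / 6)) -
      (exp (z * I) - (1 + z * I + (z * I) ^ 2 / 2 + (z * I) ^ 3 / 6))) / 2 * I) (z - z ^ 3 / 6)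
  linarith

theorem SlotA_re_im {z c : ℂ} {a : ℝ} (h : ‖z - c‖ ≤ a) :
    |z.re - c.re| ≤ a ∧ |z.im - c.im| ≤ a := by
  constructor
  · have := Complex.abs_re_le_norm (z - c)
    rw [sub_re] at this
    linarith
  · have := Complex.abs_im_le_norm (z - c)
    rw [sub_im] at this
    linarith

/-- the mean of the cotangents -/
theorem SlotA_cot {y w : ℂ} (h1 : sin (Real.pi * (y + w)) ≠ 0) (h2 : sin (Real.pi * (y - w)) ≠ 0) :
    Complex.cot (Real.pi * (y + w)) + Complex.cot (Real.pi * (y - w)) =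
      2 * (cos (2 * Real.pi * (y - 1 / 4)) /
        (cos (2 * Real.pi * w) + sin (2 * Real.pi * (y - 1 / 4)))) := by
  have e1 : cos (2 * Real.pi * w) + sin (2 * Real.pi * (y - 1 / 4)) =
      2 * (sin (Real.pi * (y + w)) * sin (Real.pi * (y - w))) := by
    have a1 : sin (2 * Real.pi * (y - 1 / 4)) = -cos (2 * (Real.pi * y)) := by
      rw [show (2 * Real.pi * (y - 1 / 4) : ℂ) = 2 * (Real.pi * y) - Real.pi / 2 by ring,
        Complex.sin_sub_pi_div_two]
    rw [a1]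
    have b1 : (2 * Real.pi * w : ℂ) = Real.pi * (y + w) - Real.pi * (y - w) := by ring
    have b2 : (2 * (Real.pi * y) : ℂ) = Real.pi * (y + w) + Real.pi * (y - w) := by ring
    rw [b1, b2, Complex.cos_sub, Complex.cos_add]
    ring
  have e2 : cos (2 * Real.pi * (y - 1 / 4)) =
      sin (Real.pi * (y + w)) * cos (Real.pi * (y - w)) + cos (Real.pi * (y + w)) * sin (Real.pi * (y - w)) := by
    rw [← Complex.sin_add]
    rw [show (2 * Real.pi * (y - 1 / 4) : ℂ) = (Real.pi * (y + w) + Real.pi * (y - w)) - Real.pi / 2 by ring,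
      Complex.cos_sub_pi_div_two]
  rw [e1, e2, Complex.cot_eq_cos_div_sin, Complex.cot_eq_cos_div_sin]
  field_simp
  ring

theorem SlotA_mean {y v : ℂ} {t : ℝ} (hv : ‖v‖ ≤ 6 / 100) (hy : ‖y - 1 / 4‖ ≤ 6 / 1000)
    (ht0 : 0 ≤ t) (ht1 : t ≤ 1) :
    ‖cos (2 * Real.pi * (y - 1 / 4)) /
        (cos (2 * Real.pi * (t * v)) + sin (2 * Real.pi * (y - 1 / 4))) - 1‖ ≤
      405 / 10000 + 85 / 1000 * t ^ 2 := by
  have hpi1 := Real.pi_gt_three
  have hpi2 := Real.pi_lt_d4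
  have hn1 : ‖(2 * Real.pi * (y - 1 / 4) : ℂ)‖ ≤ 377 / 10000 := by
    rw [norm_mul, norm_mul]
    have h1 : ‖(2 : ℂ)‖ = 2 := by simp
    have h2 : ‖(Real.pi : ℂ)‖ = Real.pi := by
      rw [Complex.norm_real, Real.norm_eq_abs, abs_of_pos Real.pi_pos]
    rw [h1, h2]
    have h3 : 2 * Real.pi * ‖y - 1 / 4‖ ≤ 2 * Real.pi * (6 / 1000) :=
      mul_le_mul_of_nonneg_left hy (by positivity)
    nlinarith
  have hn2 : ‖(2 * Real.pi * (t * v) : ℂ)‖ ≤ 37701 / 100000 * t := by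
    rw [norm_mul, norm_mul, norm_mul]
    have h1 : ‖(2 : ℂ)‖ = 2 := by simp
    have h2 : ‖(Real.pi : ℂ)‖ = Real.pi := by
      rw [Complex.norm_real, Real.norm_eq_abs, abs_of_pos Real.pi_pos]
    have h4 : ‖(t : ℂ)‖ = t := by
      rw [Complex.norm_real, Real.norm_eq_abs, abs_of_nonneg ht0]
    rw [h1, h2, h4]
    have h3 : 2 * Real.pi * (t * ‖v‖) ≤ 2 * Real.pi * (t * (6 / 100)) :=
      mul_le_mul_of_nonneg_left (mul_le_mul_of_nonneg_left hv ht0) (by positivity)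
    nlinarith
  set a : ℂ := 2 * Real.pi * (y - 1 / 4) with ha
  set b : ℂ := 2 * Real.pi * (t * v) with hb
  have na : 0 ≤ ‖a‖ := norm_nonneg a
  have nb : 0 ≤ ‖b‖ := norm_nonneg b
  have hb1 : ‖b‖ ≤ 37701 / 100000 := by nlinarith
  have c1 := SlotA_cos a (by linarith)
  have c2 := SlotA_cos b (by linarith)
  have c3 := SlotA_sin a (by linarith)
  have d1 : ‖cos a - 1‖ ≤ 712 / 1000000 := by
    have h2 : ‖a‖ ^ 2 ≤ (377 / 10000) ^ 2 := pow_le_pow_left₀ na hn1 2
    have h4 : ‖a‖ ^ 4 ≤ (377 / 10000) ^ 4 := pow_le_pow_left₀ na hn1 4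
    norm_num at h2 h4
    linarith
  have d3 : ‖sin a‖ ≤ 3771 / 100000 := by
    have h2 : ‖a‖ ^ 3 ≤ (377 / 10000) ^ 3 := pow_le_pow_left₀ na hn1 3
    have h4 : ‖a‖ ^ 4 ≤ (377 / 10000) ^ 4 := pow_le_pow_left₀ na hn1 4
    norm_num at h2 h4
    linarith
  have d2 : ‖cos b - 1‖ ≤ 722 / 10000 * t ^ 2 := by
    have h2 : ‖b‖ ^ 2 ≤ (37701 / 100000 * t) ^ 2 := pow_le_pow_left₀ nb hn2 2
    have h3 : ‖b‖ ^ 2 ≤ (37701 / 100000) ^ 2 := pow_le_pow_left₀ nb hb1 2
    have h4 : ‖b‖ ^ 4 ≤ (37701 / 100000) ^ 2 * (37701 / 100000 * t) ^ 2 := by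
      have : ‖b‖ ^ 4 = ‖b‖ ^ 2 * ‖b‖ ^ 2 := by ring
      rw [this]
      exact mul_le_mul h3 h2 (by positivity) (by positivity)
    have h5 : (0 : ℝ) ≤ t ^ 2 := sq_nonneg t
    nlinarith
  have hden : 96229 / 100000 - 722 / 10000 * t ^ 2 ≤ ‖cos b + sin a‖ := by
    have h1 : cos b + sin a = 1 - (-(cos b - 1) - sin a) := by ring
    rw [h1]
    have h2 := norm_sub_norm_le (1 : ℂ) (-(cos b - 1) - sin a)
    have h3 := norm_sub_le (-(cos b - 1)) (sin a)
    rw [norm_neg] at h3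
    rw [norm_one] at h2
    linarith
  have ht2 : t ^ 2 ≤ 1 := by nlinarith
  have ht2' : 0 ≤ t ^ 2 := sq_nonneg t
  have hpos : 0 < ‖cos b + sin a‖ := by linarith
  have hne : cos b + sin a ≠ 0 := norm_pos_iff.1 hpos
  have e : cos a / (cos b + sin a) - 1 = ((cos a - 1) - (cos b - 1) - sin a) / (cos b + sin a) := by
    field_simp
    ring
  rw [e, norm_div, div_le_iff₀ hpos]
  have hnum : ‖(cos a - 1) - (cos b - 1) - sin a‖ ≤ 38422 / 1000000 + 722 / 10000 * t ^ 2 := by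
    have h1 := norm_sub_le ((cos a - 1) - (cos b - 1)) (sin a)
    have h2 := norm_sub_le (cos a - 1) (cos b - 1)
    linarith
  refine hnum.trans ?_
  have hk : (0 : ℝ) ≤ 405 / 10000 + 85 / 1000 * t ^ 2 := by positivity
  refine le_trans ?_ (mul_le_mul_of_nonneg_left hden hk)
  nlinarith

theorem bet_approx (v y : ℂ) (hv : ‖v‖ ≤ 6 / 100) (hy : ‖y - 1 / 4‖ ≤ 6 / 1000) :
    ‖bet v (some y) / (2 * Real.pi) + I * v‖ ≤ 7 / 100 * ‖v‖ := by
  have hpi1 := Real.pi_gt_three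
  have hpi0 : (Real.pi : ℂ) ≠ 0 := by exact_mod_cast Real.pi_ne_zero
  have hyr := SlotA_re_im hy
  have hy4 : ((1 : ℂ) / 4).re = 1 / 4 := by norm_num
  rw [hy4] at hyr
  have hyr1 := abs_le.1 hyr.1
  have hre : ∀ t : ℝ, 0 ≤ t → t ≤ 1 → |((t : ℂ) * v).re| ≤ 6 / 100 := by
    intro t h0 h1
    refine (Complex.abs_re_le_norm _).trans ?_
    rw [norm_mul, Complex.norm_real, Real.norm_eq_abs, abs_of_nonneg h0]
    nlinarith [norm_nonneg v]
  set E : ℝ → ℂ := fun t => hh (y + t * v) - hh (y - t * v) - 2 * Real.pi * t * v with hE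
  set E' : ℝ → ℂ := fun t => Real.pi * v * (Complex.cot (Real.pi * (y + t * v)) +
    Complex.cot (Real.pi * (y - t * v)) - 2) with hE'
  have hder : ∀ t : ℝ, 0 ≤ t → t ≤ 1 → HasDerivAt E (E' t) t := by
    intro t h0 h1
    have hr := abs_le.1 (hre t h0 h1)
    have g1 : HasDerivAt (fun τ : ℂ => y + τ * v) v (t : ℂ) := by
      have := ((hasDerivAt_id (t : ℂ)).mul_const v).const_add y
      simpa using this
    have g2 : HasDerivAt (fun τ : ℂ => y - τ * v) (-v) (t : ℂ) := by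
      have := ((hasDerivAt_id (t : ℂ)).mul_const v).const_sub y
      simpa using this
    have g3 : HasDerivAt (fun τ : ℂ => 2 * Real.pi * τ * v) (2 * Real.pi * v) (t : ℂ) := by
      have := ((hasDerivAt_id (t : ℂ)).const_mul (2 * Real.pi : ℂ)).mul_const v
      simpa using this
    have k1 := hh_hasDerivAt (y + t * v) (by rw [add_re]; linarith) (by rw [add_re]; linarith)
    have k2 := hh_hasDerivAt (y - t * v) (by rw [sub_re]; linarith) (by rw [sub_re]; linarith)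
    have k3 := ((k1.comp (t : ℂ) g1).sub (k2.comp (t : ℂ) g2)).sub g3
    have k4 := k3.comp_ofReal
    refine HasDerivAt.congr_deriv k4 ?_
    simp only [hE']
    ring
  have hbd : ∀ t : ℝ, 0 ≤ t → t ≤ 1 → ‖E' t‖ ≤ 2 * Real.pi * ‖v‖ * (405 / 10000 + 85 / 1000 * t ^ 2) := by
    intro t h0 h1
    have hr := abs_le.1 (hre t h0 h1)
    have s1 : sin (Real.pi * (y + t * v)) ≠ 0 := by
      have := Complex.slitPlane_ne_zero (Clausen_slit (y + t * v) (by rw [add_re]; linarith) (by rw [add_re]; linarith))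
      intro h
      apply this
      rw [h, mul_zero]
    have s2 : sin (Real.pi * (y - t * v)) ≠ 0 := by
      have := Complex.slitPlane_ne_zero (Clausen_slit (y - t * v) (by rw [sub_re]; linarith) (by rw [sub_re]; linarith))
      intro h
      apply this
      rw [h, mul_zero]
    have h3 := SlotA_mean hv hy h0 h1
    simp only [hE']
    rw [SlotA_cot s1 s2]
    have e : (Real.pi : ℂ) * v * (2 * (cos (2 * Real.pi * (y - 1 / 4)) /
        (cos (2 * Real.pi * (t * v)) + sin (2 * Real.pi * (y - 1 / 4)))) - 2)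
        = (2 * Real.pi * v) * (cos (2 * Real.pi * (y - 1 / 4)) /
        (cos (2 * Real.pi * (t * v)) + sin (2 * Real.pi * (y - 1 / 4))) - 1) := by ring
    rw [e, norm_mul]
    have n1 : ‖(2 * Real.pi * v : ℂ)‖ = 2 * Real.pi * ‖v‖ := by
      rw [norm_mul, norm_mul, Complex.norm_real, Real.norm_eq_abs, abs_of_pos Real.pi_pos]
      simp
    rw [n1]
    exact mul_le_mul_of_nonneg_left h3 (by positivity)
  have hmain := image_norm_le_of_norm_deriv_right_le_deriv_boundary (f := E) (f' := E') (a := 0) (b := 1)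
    (B := fun t => 2 * Real.pi * ‖v‖ * (405 / 10000 * t + 85 / 3000 * t ^ 3))
    (B' := fun t => 2 * Real.pi * ‖v‖ * (405 / 10000 + 85 / 1000 * t ^ 2))
    (fun t ht => (hder t ht.1 ht.2).continuousAt.continuousWithinAt)
    (fun t ht => (hder t ht.1 ht.2.le).hasDerivWithinAt)
    (by simp [hE])
    (by
      intro t
      have h1 : HasDerivAt (fun t : ℝ => 405 / 10000 * t + 85 / 3000 * t ^ 3)
          (405 / 10000 * 1 + 85 / 3000 * ((3 : ℕ) * t ^ 2 * 1)) t := by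
        exact ((hasDerivAt_id t).const_mul _).add (((hasDerivAt_id t).pow 3).const_mul _)
      have h2 := h1.const_mul (2 * Real.pi * ‖v‖)
      refine HasDerivAt.congr_deriv h2 ?_
      push_cast
      ring)
    (fun t ht => hbd t ht.1 ht.2.le)
  have h1 := hmain (Set.right_mem_Icc.2 zero_le_one)
  have e : bet v (some y) / (2 * Real.pi) + I * v = -I / (2 * Real.pi) * E 1 := by
    simp only [hE, bet]
    push_cast
    rw [one_mul, mul_one]
    field_simp
    ring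
  rw [e, norm_mul]
  have n2 : ‖(-I / (2 * Real.pi) : ℂ)‖ = 1 / (2 * Real.pi) := by
    rw [norm_div, norm_neg, norm_I, norm_mul, Complex.norm_real, Real.norm_eq_abs, abs_of_pos Real.pi_pos]
    simp
  rw [n2]
  have h2 : 1 / (2 * Real.pi) * ‖E 1‖ ≤
      1 / (2 * Real.pi) * (2 * Real.pi * ‖v‖ * (405 / 10000 * 1 + 85 / 3000 * 1 ^ 3)) :=
    mul_le_mul_of_nonneg_left h1 (by positivity)
  refine h2.trans ?_
  have e3 : 1 / (2 * Real.pi) * (2 * Real.pi * ‖v‖ * (405 / 10000 * 1 + 85 / 3000 * 1 ^ 3))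
      = ‖v‖ * (405 / 10000 + 85 / 3000) := by
    field_simp
  rw [e3]
  nlinarith [norm_nonneg v]

/-! ### the imaginary parts -/

theorem SlotA_gen (A B C D : ℝ) : (2 * ((A : ℂ) * B + C * (D * I))).re = 2 * (A * B) ∧
    (2 * ((A : ℂ) * B + C * (D * I))).im = 2 * (C * D) := by
  constructor <;> simp

theorem SlotA_im {z : ℂ} (h1 : 17 / 100 ≤ z.re) (h2 : z.re ≤ 83 / 100) (h3 : |z.im| ≤ 8 / 100) :
    |(hh z).im| ≤ Real.pi / 4 := by
  have hpi1 := Real.pi_gt_three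
  have hpi2 := Real.pi_lt_d4
  have hre : (2 * sin (Real.pi * z)).re = 2 * (Real.sin (Real.pi * z.re) * Real.cosh (Real.pi * z.im)) := by
    have e : (Real.pi * z : ℂ) = ((Real.pi * z.re : ℝ) : ℂ) + ((Real.pi * z.im : ℝ) : ℂ) * I := by
      apply Complex.ext <;> simp
    rw [e, Complex.sin_add, Complex.sin_mul_I, Complex.cos_mul_I, ← Complex.ofReal_sin, ← Complex.ofReal_cos,
      ← Complex.ofReal_sinh, ← Complex.ofReal_cosh]
    exact (SlotA_gen _ _ _ _).1
  have him : (2 * sin (Real.pi * z)).im = 2 * (Real.cos (Real.pi * z.re) * Real.sinh (Real.pi * z.im)) := by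
    have e : (Real.pi * z : ℂ) = ((Real.pi * z.re : ℝ) : ℂ) + ((Real.pi * z.im : ℝ) : ℂ) * I := by
      apply Complex.ext <;> simp
    rw [e, Complex.sin_add, Complex.sin_mul_I, Complex.cos_mul_I, ← Complex.ofReal_sin, ← Complex.ofReal_cos,
      ← Complex.ofReal_sinh, ← Complex.ofReal_cosh]
    exact (SlotA_gen _ _ _ _).2
  have hsin : 34 / 100 ≤ Real.sin (Real.pi * z.re) := by
    rcases le_total z.re (1 / 2) with h | h
    · have := Real.mul_le_sin (x := Real.pi * z.re) (by positivity) (by nlinarith)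
      have e : 2 / Real.pi * (Real.pi * z.re) = 2 * z.re := by field_simp
      rw [e] at this
      linarith
    · have := Real.mul_le_sin (x := Real.pi * (1 - z.re)) (by nlinarith) (by nlinarith)
      have e : 2 / Real.pi * (Real.pi * (1 - z.re)) = 2 * (1 - z.re) := by field_simp
      rw [e] at this
      have e2 : Real.sin (Real.pi * (1 - z.re)) = Real.sin (Real.pi * z.re) := by
        rw [show Real.pi * (1 - z.re) = Real.pi - Real.pi * z.re by ring, Real.sin_pi_sub]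
      rw [e2] at this
      linarith
  have hu : |Real.pi * z.im| ≤ 252 / 1000 := by
    rw [abs_mul, abs_of_pos Real.pi_pos]
    nlinarith [abs_nonneg z.im]
  have hcosh : 0 < Real.cosh (Real.pi * z.im) := Real.cosh_pos _
  have hth : |Real.sinh (Real.pi * z.im)| ≤ 34 / 100 * Real.cosh (Real.pi * z.im) := by
    have key : ∀ u : ℝ, |u| ≤ 252 / 1000 → Real.sinh u ≤ 34 / 100 * Real.cosh u := by
      intro u hu
      have hu' := (abs_le.1 hu).2
      rw [Real.sinh_eq, Real.cosh_eq]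
      have h5 : Real.exp (2 * u) ≤ 2 := by
        rw [← Real.log_le_log_iff (Real.exp_pos _) (by norm_num), Real.log_exp]
        have := Real.log_two_gt_d9
        linarith
      have h6 : Real.exp u = Real.exp (2 * u) * Real.exp (-u) := by
        rw [← Real.exp_add]; congr 1; ring
      have h7 := Real.exp_pos (-u)
      nlinarith
    rw [abs_le]
    constructor
    · have := key (-(Real.pi * z.im)) (by rw [abs_neg]; exact hu)
      rw [Real.sinh_neg, Real.cosh_neg] at this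
      linarith
    · exact key _ hu
  set W : ℂ := 2 * sin (Real.pi * z) with hW
  have hWre : 0 < W.re := by
    rw [hre]
    positivity
  have hWle : |W.im| ≤ W.re := by
    rw [him, hre, abs_mul, abs_mul]
    have hc : |Real.cos (Real.pi * z.re)| ≤ 1 := Real.abs_cos_le_one _
    have h2' : |(2 : ℝ)| = 2 := by norm_num
    rw [h2']
    have a1 : |Real.cos (Real.pi * z.re)| * |Real.sinh (Real.pi * z.im)| ≤ 1 * (34 / 100 * Real.cosh (Real.pi * z.im)) :=
      mul_le_mul hc hth (abs_nonneg _) (by norm_num)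
    have a2 : 34 / 100 * Real.cosh (Real.pi * z.im) ≤ Real.sin (Real.pi * z.re) * Real.cosh (Real.pi * z.im) :=
      mul_le_mul_of_nonneg_right hsin hcosh.le
    linarith
  unfold hh
  rw [← hW, Complex.log_im, Complex.arg_of_re_nonneg hWre.le]
  have hWn : 0 < ‖W‖ := by
    apply norm_pos_iff.2
    intro h
    rw [h] at hWre
    simp at hWre
  have hsq : ‖W‖ ^ 2 = W.re ^ 2 + W.im ^ 2 := by
    rw [Complex.sq_norm, Complex.normSq_apply]; ring
  have hs2 : (0 : ℝ) ≤ √2 := Real.sqrt_nonneg 2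
  have hs22 : √2 ^ 2 = 2 := Real.sq_sqrt (by norm_num)
  have hle : |W.im| ≤ √2 / 2 * ‖W‖ := by
    apply abs_le_of_sq_le_sq' _ (by positivity) |> abs_le.2
    have := abs_le.1 hWle
    have h8 : W.im ^ 2 ≤ W.re ^ 2 := by
      rw [← sq_abs W.im]
      exact pow_le_pow_left₀ (abs_nonneg _) hWle 2
    nlinarith
  have hpi4 : Real.pi / 4 ≤ Real.pi / 2 := by linarith
  rw [abs_le]
  have hq := abs_le.1 hle
  constructor
  · rw [show -(Real.pi / 4) = Real.arcsin (Real.sin (-(Real.pi / 4))) by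
      rw [Real.arcsin_sin] <;> linarith]
    apply Real.arcsin_le_arcsin
    rw [Real.sin_neg, Real.sin_pi_div_four, le_div_iff₀ hWn]
    linarith
  · rw [show Real.pi / 4 = Real.arcsin (Real.sin (Real.pi / 4)) by
      rw [Real.arcsin_sin] <;> linarith]
    apply Real.arcsin_le_arcsin
    rw [Real.sin_pi_div_four, div_le_iff₀ hWn]
    linarith

theorem SlotA_uniq {x y : ℂ} (h : exp x = exp y) (hi : |x.im - y.im| < 2 * Real.pi) : x = y := by
  obtain ⟨n, hn⟩ := Complex.exp_eq_exp_iff_exists_int.1 h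
  have h1 : x.im - y.im = n * (2 * Real.pi) := by
    rw [hn]
    simp
  rw [h1, abs_mul, abs_of_pos (by positivity : (0 : ℝ) < 2 * Real.pi)] at hi
  have h2 : |(n : ℝ)| < 1 := by
    have hp : 0 < 2 * Real.pi := by positivity
    by_contra hcon
    push Not at hcon
    nlinarith
  have h3 : n = 0 := by
    have : |n| < 1 := by exact_mod_cast h2
    rwa [Int.abs_lt_one_iff] at this
  rw [hn, h3]
  simp

theorem SlotA_pts {v y : ℂ} (hv : ‖v‖ ≤ 7 / 100) (hy : ‖y - 1 / 4‖ ≤ 1 / 100) :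
    (17 / 100 ≤ (y + v).re ∧ (y + v).re ≤ 33 / 100 ∧ |(y + v).im| ≤ 8 / 100) ∧
    (17 / 100 ≤ (y - v).re ∧ (y - v).re ≤ 33 / 100 ∧ |(y - v).im| ≤ 8 / 100) ∧
    (17 / 100 ≤ (y + 1 / 2).re ∧ (y + 1 / 2).re ≤ 83 / 100 ∧ |(y + 1 / 2).im| ≤ 8 / 100) ∧
    (17 / 100 ≤ (v + 1 / 2).re ∧ (v + 1 / 2).re ≤ 83 / 100 ∧ |(v + 1 / 2).im| ≤ 8 / 100) := by
  have a := SlotA_re_im hy
  have a4 : ((1 : ℂ) / 4).re = 1 / 4 := by norm_num
  have a4' : ((1 : ℂ) / 4).im = 0 := by norm_num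
  have a2 : ((1 : ℂ) / 2).re = 1 / 2 := by norm_num
  have a2' : ((1 : ℂ) / 2).im = 0 := by norm_num
  rw [a4, a4', sub_zero] at a
  have b1 := (Complex.abs_re_le_norm v).trans hv
  have b2 := (Complex.abs_im_le_norm v).trans hv
  obtain ⟨a1, a3⟩ := a
  rw [abs_le] at a1 a3 b1 b2
  simp only [add_re, add_im, sub_re, sub_im, a2, a2', abs_le]
  refine ⟨⟨?_, ?_, ?_, ?_⟩, ⟨?_, ?_, ?_, ?_⟩, ⟨?_, ?_, ?_, ?_⟩, ⟨?_, ?_, ?_, ?_⟩⟩ <;> linarith

theorem SlotA_mm {v y : ℂ} (hv : ‖v‖ ≤ 7 / 100) (hy : ‖y - 1 / 4‖ ≤ 1 / 100) :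
    |(mm v y).im| ≤ Real.pi / 4 := by
  obtain ⟨⟨p1, p2, p3⟩, ⟨q1, q2, q3⟩, -, -⟩ := SlotA_pts hv hy
  have h1 := SlotA_im p1 (by linarith) p3
  have h2 := SlotA_im q1 (by linarith) q3
  have e : (mm v y).im = ((hh (y - v)).im + (hh (y + v)).im) / 2 := by
    unfold mm
    rw [show (hh (y - v) + hh (y + v)) / 2 = (hh (y - v) + hh (y + v)) * ((1 / 2 : ℝ) : ℂ) by push_cast; ring,
      Complex.im_mul_ofReal, add_im]
    ring
  rw [e]
  rw [abs_le] at h1 h2 ⊢
  constructor <;> linarith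

/-- `e^{i π b}` times `e^m` and `e^{-i π b}` times `e^m` -/
theorem SlotA_eb {v y b : ℂ} (hv : ‖v‖ ≤ 7 / 100) (hy : ‖y - 1 / 4‖ ≤ 1 / 100)
    (hb : b = bet v (some y) / (2 * Real.pi)) :
    exp (Real.pi * b * I) * exp (mm v y) = 2 * sin (Real.pi * (y + v)) ∧
    exp (-(Real.pi * b) * I) * exp (mm v y) = 2 * sin (Real.pi * (y - v)) := by
  obtain ⟨⟨p1, p2, p3⟩, ⟨q1, q2, q3⟩, -, -⟩ := SlotA_pts hv hy
  have hpi0 : (Real.pi : ℂ) ≠ 0 := by exact_mod_cast Real.pi_ne_zero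
  have e1 : (Real.pi : ℂ) * b * I = (hh (y + v) - hh (y - v)) / 2 := by
    rw [hb]
    simp only [bet]
    field_simp
    linear_combination (-(hh (y + v) - hh (y - v))) * I_sq
  constructor
  · rw [e1, ← Complex.exp_add, ← hh_exp (y + v) (by linarith) (by linarith)]
    congr 1
    unfold mm
    ring
  · rw [show -((Real.pi : ℂ) * b) * I = -((Real.pi : ℂ) * b * I) by ring, e1, ← Complex.exp_add,
      ← hh_exp (y - v) (by linarith) (by linarith)]
    congr 1
    unfold mm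
    ring

theorem SlotA_sI {s : ℝ} (hs : s = 1 ∨ s = -1) : exp (-(s * Real.pi * I / 2)) = -(s * I) := by
  rcases hs with rfl | rfl
  · rw [show (-(((1 : ℝ) : ℂ) * Real.pi * I / 2)) = -(Real.pi / 2 * I) by push_cast; ring, Complex.exp_neg,
      Complex.exp_pi_div_two_mul_I]
    simp
  · rw [show (-(((-1 : ℝ) : ℂ) * Real.pi * I / 2)) = Real.pi / 2 * I by push_cast; ring,
      Complex.exp_pi_div_two_mul_I]
    simp

theorem slot_h0 (s : ℝ) (v y b : ℂ) (hv : ‖v‖ ≤ 7 / 100) (hy : ‖y - 1 / 4‖ ≤ 1 / 100)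
    (hb : b = bet v (some y) / (2 * Real.pi)) (hd : Dm s (s * v) b) :
    hh b - hh (s * v) = hh (y + 1 / 2) - mm v y - s * Real.pi * I / 2 := by
  obtain ⟨hs, w1, w2, b1, b2, b3, b4⟩ := hd
  obtain ⟨E1, E2⟩ := SlotA_eb hv hy hb
  obtain ⟨⟨p1, p2, p3⟩, ⟨q1, q2, q3⟩, ⟨r1, r2, r3⟩, -⟩ := SlotA_pts hv hy
  have hw := HS_w s hs (s * v) w1
  have hb1 : HS s (1 - b) := by
    have := HS_add s _ _ b2 hw
    rwa [show 1 - (s : ℂ) * v - b + s * v = 1 - b by ring] at this
  have hw1 : HS s (1 - s * v) := by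
    have := HS_add s _ _ b2 b1
    rwa [show 1 - (s : ℂ) * v - b + b = 1 - s * v by ring] at this
  have hwim : |((s : ℂ) * v).im| < 1 / 2 := by linarith
  have X1 := hhx_exp s hs b b1 hb1 b3
  have X2 := hhx_exp s hs (s * v) hw hw1 hwim
  have X3 := hh_exp (y + 1 / 2) (by linarith) (by linarith)
  have I1 := hhx_im s hs b b1 hb1 b3
  have I2 := hhw_im (s * v) w1 w2
  have I3 := SlotA_im r1 r2 r3
  have I4 := SlotA_mm hv hy
  have hX3 : 2 * sin (Real.pi * (y + 1 / 2)) = 2 * cos (Real.pi * y) := by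
    rw [show (Real.pi : ℂ) * (y + 1 / 2) = Real.pi * y + Real.pi / 2 by ring, Complex.sin_add_pi_div_two]
  rw [hX3] at X3
  have key : hh b = hh (s * v) + hh (y + 1 / 2) - mm v y - s * Real.pi * I / 2 := by
    apply SlotA_uniq
    · have hm : exp (mm v y) ≠ 0 := Complex.exp_ne_zero _
      have hsv : (s : ℂ) * sin (Real.pi * (s * v)) = sin (Real.pi * v) := by
        rcases hs with rfl | rfl
        · simp
        · push_cast
          rw [show (Real.pi : ℂ) * (-1 * v) = -(Real.pi * v) by ring, Complex.sin_neg]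
          ring
      have hR : exp (hh (s * v) + hh (y + 1 / 2) - mm v y - s * Real.pi * I / 2) * exp (mm v y) =
          exp (hh (s * v)) * exp (hh (y + 1 / 2)) * exp (-(s * Real.pi * I / 2)) := by
        rw [← Complex.exp_add, ← Complex.exp_add, ← Complex.exp_add]
        congr 1
        ring
      apply mul_right_cancel₀ hm
      rw [hR, X1, X2, X3, SlotA_sI hs]
      have hL : 2 * sin (Real.pi * b) * exp (mm v y) =
          (exp (-(Real.pi * b) * I) * exp (mm v y) - exp (Real.pi * b * I) * exp (mm v y)) * I := by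
        rw [Complex.sin]
        ring
      rw [hL, E1, E2, show (Real.pi : ℂ) * (y - v) = Real.pi * y - Real.pi * v by ring,
        show (Real.pi : ℂ) * (y + v) = Real.pi * y + Real.pi * v by ring, Complex.sin_sub, Complex.sin_add]
      linear_combination (-4 * cos (Real.pi * y) * I) * (-hsv)
    · have hsi : (s * Real.pi * I / 2 : ℂ).im = s * Real.pi / 2 := by
        rw [show (s * Real.pi * I / 2 : ℂ) = ((s * Real.pi / 2 : ℝ) : ℂ) * I by push_cast; ring]
        simp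
      have hI : (hh (s * v) + hh (y + 1 / 2) - mm v y - s * Real.pi * I / 2).im =
          (hh (s * v)).im + (hh (y + 1 / 2)).im - (mm v y).im - s * Real.pi / 2 := by
        rw [sub_im, sub_im, add_im, hsi]
      rw [hI]
      have hpi := Real.pi_pos
      rw [abs_le] at I1 I2 I3 I4
      rw [abs_lt]
      rcases hs with rfl | rfl <;> constructor <;> linarith
  rw [key]
  ring

theorem slot_h1 (s : ℝ) (v y b : ℂ) (hv : ‖v‖ ≤ 7 / 100) (hy : ‖y - 1 / 4‖ ≤ 1 / 100)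
    (hb : b = bet v (some y) / (2 * Real.pi)) (hd : Dm s (s * v) b) :
    hh (s * v + b) - hh (s * v) =
      hh (v + 1 / 2) - mm v y - s * Real.pi * I / 2 + s * Real.pi * I * y := by
  obtain ⟨hs, w1, w2, b1, b2, b3, b4⟩ := hd
  obtain ⟨E1, E2⟩ := SlotA_eb hv hy hb
  have hyr := SlotA_re_im hy
  have a4 : ((1 : ℂ) / 4).re = 1 / 4 := by norm_num
  rw [a4] at hyr
  have hyr1 := abs_le.1 hyr.1
  obtain ⟨⟨p1, p2, p3⟩, ⟨q1, q2, q3⟩, -, ⟨r1, r2, r3⟩⟩ := SlotA_pts hv hy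
  have hw := HS_w s hs (s * v) w1
  have hw1 : HS s (1 - s * v) := by
    have := HS_add s _ _ b2 b1
    rwa [show 1 - (s : ℂ) * v - b + b = 1 - s * v by ring] at this
  have hwb := HS_add s _ _ hw b1
  have hwb1 : HS s (1 - (s * v + b)) := by
    rwa [show 1 - ((s : ℂ) * v + b) = 1 - s * v - b by ring]
  have hwim : |((s : ℂ) * v).im| < 1 / 2 := by linarith
  have X1 := hhx_exp s hs (s * v + b) hwb hwb1 b4
  have X2 := hhx_exp s hs (s * v) hw hw1 hwim
  have X3 := hh_exp (v + 1 / 2) (by linarith) (by linarith)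
  have I1 := hhx_im s hs (s * v + b) hwb hwb1 b4
  have I2 := hhw_im (s * v) w1 w2
  have I3 := SlotA_im r1 r2 r3
  have I4 := SlotA_mm hv hy
  have hX3 : 2 * sin (Real.pi * (v + 1 / 2)) = 2 * cos (Real.pi * v) := by
    rw [show (Real.pi : ℂ) * (v + 1 / 2) = Real.pi * v + Real.pi / 2 by ring, Complex.sin_add_pi_div_two]
  rw [hX3] at X3
  have key : hh (s * v + b) = hh (s * v) + hh (v + 1 / 2) - mm v y - s * Real.pi * I / 2 +
      s * Real.pi * I * y := by
    apply SlotA_uniq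
    · have hm : exp (mm v y) ≠ 0 := Complex.exp_ne_zero _
      have hR : exp (hh (s * v) + hh (v + 1 / 2) - mm v y - s * Real.pi * I / 2 + s * Real.pi * I * y) *
          exp (mm v y) = exp (hh (s * v)) * exp (hh (v + 1 / 2)) * exp (-(s * Real.pi * I / 2)) *
            exp (s * Real.pi * y * I) := by
        rw [← Complex.exp_add, ← Complex.exp_add, ← Complex.exp_add, ← Complex.exp_add]
        congr 1
        ring
      apply mul_right_cancel₀ hm
      rw [hR, X1, X2, X3, SlotA_sI hs]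
      have hL : 2 * sin (Real.pi * (s * v + b)) * exp (mm v y) =
          (exp (-(Real.pi * (s * v)) * I) * (exp (-(Real.pi * b) * I) * exp (mm v y)) -
            exp (Real.pi * (s * v) * I) * (exp (Real.pi * b * I) * exp (mm v y))) * I := by
        have k1 : exp (-(Real.pi * (s * v + b)) * I) = exp (-(Real.pi * (s * v)) * I) * exp (-(Real.pi * b) * I) := by
          rw [← Complex.exp_add]
          congr 1
          ring
        have k2 : exp (Real.pi * (s * v + b) * I) = exp (Real.pi * (s * v) * I) * exp (Real.pi * b * I) := by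
          rw [← Complex.exp_add]
          congr 1
          ring
        rw [Complex.sin, k1, k2]
        ring
      rw [hL, E1, E2, show (Real.pi : ℂ) * (y - v) = Real.pi * y - Real.pi * v by ring,
        show (Real.pi : ℂ) * (y + v) = Real.pi * y + Real.pi * v by ring, Complex.sin_sub, Complex.sin_add,
        Complex.exp_mul_I, Complex.exp_mul_I, Complex.exp_mul_I, Complex.cos_neg, Complex.sin_neg]
      rcases hs with rfl | rfl
      · push_cast
        simp only [one_mul]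
        ring
      · push_cast
        rw [show (Real.pi : ℂ) * (-1 * v) = -(Real.pi * v) by ring,
          show (-1 : ℂ) * Real.pi * y = -(Real.pi * y) by ring, Complex.cos_neg, Complex.sin_neg,
          Complex.cos_neg, Complex.sin_neg]
        ring
    · have hsi : (s * Real.pi * I / 2 : ℂ).im = s * Real.pi / 2 := by
        rw [show (s * Real.pi * I / 2 : ℂ) = ((s * Real.pi / 2 : ℝ) : ℂ) * I by push_cast; ring]
        simp
      have hsy : (s * Real.pi * I * y : ℂ).im = s * Real.pi * y.re := by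
        rw [show (s * Real.pi * I * y : ℂ) = ((s * Real.pi : ℝ) : ℂ) * (I * y) by push_cast; ring,
          Complex.im_ofReal_mul]
        simp
      have hI : (hh (s * v) + hh (v + 1 / 2) - mm v y - s * Real.pi * I / 2 + s * Real.pi * I * y).im =
          (hh (s * v)).im + (hh (v + 1 / 2)).im - (mm v y).im - s * Real.pi / 2 + s * Real.pi * y.re := by
        rw [add_im, sub_im, sub_im, add_im, hsi, hsy]
      rw [hI]
      have hpi := Real.pi_pos
      have hpy1 : Real.pi * y.re ≤ Real.pi * (26 / 100) :=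
        mul_le_mul_of_nonneg_left (by linarith) hpi.le
      have hpy2 : Real.pi * (24 / 100) ≤ Real.pi * y.re :=
        mul_le_mul_of_nonneg_left (by linarith) hpi.le
      rw [abs_le] at I1 I2 I3 I4
      rw [abs_lt]
      rcases hs with rfl | rfl <;> constructor <;> linarith
  rw [key]
  ring

end Pool.Agent.H63.VC5
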