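import Pool.Agent.H63.VC3.Clausen
import Pool.Agent.H63.VC5.Rog

/-! # The identities of a vertex -/

namespace Pool.Agent.H63.VC5

open Pool.Agent.H63.VC Pool.Agent.H63.VC3 Pool.Agent.H63.VC4 Complex Filter Topology
open scoped BigOperators

theorem Vtx_cos {x : ℂ} {r : ℝ} (hx : ‖x‖ ≤ r) (hr : r ≤ 1) :
    ‖cos x - 1‖ ≤ r ^ 2 / 2 + r ^ 4 * (5 / 96) := by
  have h := Complex.cos_bound (hx.trans hr)
  have h1 : cos x - 1 = (cos x - (1 - x ^ 2 / 2)) + -(x ^ 2 / 2) := by ring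
  have h2 : ‖-(x ^ 2 / 2)‖ ≤ r ^ 2 / 2 := by
    rw [norm_neg, norm_div, norm_pow]
    have : ‖(2 : ℂ)‖ = 2 := by norm_num
    rw [this]
    have := pow_le_pow_left₀ (norm_nonneg x) hx 2
    linarith
  have h3 : ‖x‖ ^ 4 * (5 / 96) ≤ r ^ 4 * (5 / 96) :=
    mul_le_mul_of_nonneg_right (pow_le_pow_left₀ (norm_nonneg x) hx 4) (by norm_num)
  rw [h1]
  calc _ ≤ ‖cos x - (1 - x ^ 2 / 2)‖ + ‖-(x ^ 2 / 2)‖ := norm_add_le _ _
    _ ≤ _ := by linarith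

theorem Vtx_sin {x : ℂ} {r : ℝ} (hx : ‖x‖ ≤ r) (hr : r ≤ 1) :
    ‖sin x‖ ≤ r + r ^ 3 / 6 + r ^ 5 / 100 := by
  have h := Complex.sin_bound (hx.trans hr)
  have h1 : sin x = (sin x - (x - x ^ 3 / 6)) + (x + -(x ^ 3 / 6)) := by ring
  have h2 : ‖-(x ^ 3 / 6)‖ ≤ r ^ 3 / 6 := by
    rw [norm_neg, norm_div, norm_pow]
    have : ‖(6 : ℂ)‖ = 6 := by norm_num
    rw [this]
    have := pow_le_pow_left₀ (norm_nonneg x) hx 3
    linarith
  have h3 : ‖x‖ ^ 5 / 100 ≤ r ^ 5 / 100 := by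
    have := pow_le_pow_left₀ (norm_nonneg x) hx 5
    linarith
  rw [h1]
  calc _ ≤ ‖sin x - (x - x ^ 3 / 6)‖ + ‖x + -(x ^ 3 / 6)‖ := norm_add_le _ _
    _ ≤ ‖sin x - (x - x ^ 3 / 6)‖ + (‖x‖ + ‖-(x ^ 3 / 6)‖) := by
      have := norm_add_le x (-(x ^ 3 / 6))
      linarith
    _ ≤ _ := by linarith

theorem Vtx_log {δ : ℂ} {r : ℝ} (hδ : ‖δ‖ ≤ r) (hr : r ≤ 1 / 4) :
    |(Complex.log (1 + δ)).im| ≤ r ^ 2 * (2 / 3) + r := by
  have h1 : ‖δ‖ < 1 := by linarith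
  have h2 := Complex.norm_log_one_add_le h1
  have h3 := Complex.abs_im_le_norm (Complex.log (1 + δ))
  have h4 : (1 - ‖δ‖)⁻¹ ≤ 4 / 3 := by
    rw [inv_le_comm₀ (by linarith) (by norm_num)]
    norm_num
    linarith
  have h5 : ‖δ‖ ^ 2 * (1 - ‖δ‖)⁻¹ / 2 ≤ r ^ 2 * (4 / 3) / 2 := by
    have h6 : ‖δ‖ ^ 2 * (1 - ‖δ‖)⁻¹ ≤ r ^ 2 * (4 / 3) := by
      apply mul_le_mul (pow_le_pow_left₀ (norm_nonneg δ) hδ 2) h4
      · exact inv_nonneg.2 (by linarith)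
      · positivity
    linarith
  linarith

theorem Vtx_log_mul {c : ℝ} (hc : 0 < c) {δ : ℂ} {r : ℝ} (hδ : ‖δ‖ ≤ r) (hr : r ≤ 1 / 4) :
    |(Complex.log (c * (1 + δ))).im| ≤ r ^ 2 * (2 / 3) + r := by
  have h0 : (1 : ℂ) + δ ≠ 0 := by
    intro h
    have h1 : δ = -1 := by linear_combination h
    rw [h1, norm_neg, norm_one] at hδ
    linarith
  rw [Complex.log_ofReal_mul hc h0, Complex.add_im, Complex.ofReal_im, zero_add]
  exact Vtx_log hδ hr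

theorem Vtx_pi_norm {t : ℂ} {a b : ℝ} (ht : ‖t‖ ≤ a) (h : 3.1416 * a ≤ b) (ha : 0 ≤ a) :
    ‖(Real.pi : ℂ) * t‖ ≤ b := by
  rw [norm_mul, Complex.norm_real, Real.norm_eq_abs, abs_of_pos Real.pi_pos]
  calc Real.pi * ‖t‖ ≤ 3.1416 * a :=
        mul_le_mul Real.pi_lt_d4.le ht (norm_nonneg t) (by norm_num)
    _ ≤ b := h

theorem Vtx_hh_quarter {z : ℂ} (hz : ‖z - 1 / 4‖ ≤ 66 / 1000) : |(hh z).im| ≤ 3 / 10 := by
  obtain ⟨t, ht⟩ : ∃ t, t = z - 1 / 4 := ⟨_, rfl⟩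
  rw [← ht] at hz
  have h1 : ‖(Real.pi : ℂ) * t‖ ≤ 2074 / 10000 := Vtx_pi_norm hz (by norm_num) (by norm_num)
  have h2 := Vtx_cos h1 (by norm_num)
  have h3 := Vtx_sin h1 (by norm_num)
  have h4 : 2 * Complex.sin (Real.pi * z) = ((Real.sqrt 2 : ℝ) : ℂ) *
      (1 + ((cos (Real.pi * t) - 1) + sin (Real.pi * t))) := by
    have e : (Real.pi : ℂ) * z = ((Real.pi / 4 : ℝ) : ℂ) + Real.pi * t := by
      rw [ht]
      push_cast
      ring
    rw [e, Complex.sin_add, ← Complex.ofReal_sin, ← Complex.ofReal_cos, Real.sin_pi_div_four,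
      Real.cos_pi_div_four]
    push_cast
    ring
  rw [hh, h4]
  have h5 : ‖(cos (Real.pi * t) - 1) + sin (Real.pi * t)‖ ≤ 1 / 4 := by
    refine (norm_add_le _ _).trans ?_
    norm_num at h2 h3 ⊢
    linarith
  refine (Vtx_log_mul (Real.sqrt_pos.2 (by norm_num)) h5 le_rfl).trans ?_
  norm_num

theorem Vtx_hh_half {v : ℂ} (hv : ‖v‖ ≤ 6 / 100) : |(hh (v + 1 / 2)).im| ≤ 3 / 10 := by
  have h1 : ‖(Real.pi : ℂ) * v‖ ≤ 1885 / 10000 := Vtx_pi_norm hv (by norm_num) (by norm_num)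
  have h2 := Vtx_cos h1 (by norm_num)
  have h4 : 2 * Complex.sin (Real.pi * (v + 1 / 2)) = ((2 : ℝ) : ℂ) *
      (1 + (cos (Real.pi * v) - 1)) := by
    have e : (Real.pi : ℂ) * (v + 1 / 2) = Real.pi * v + Real.pi / 2 := by ring
    rw [e, Complex.sin_add_pi_div_two]
    push_cast
    ring
  rw [hh, h4]
  have h5 : ‖cos (Real.pi * v) - 1‖ ≤ 1 / 4 := by
    norm_num at h2 ⊢
    linarith
  refine (Vtx_log_mul (by norm_num) h5 le_rfl).trans ?_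
  norm_num

theorem Vtx_re {t : ℂ} {a : ℝ} (ht : ‖t‖ ≤ a) : -a ≤ t.re ∧ t.re ≤ a :=
  abs_le.1 ((Complex.abs_re_le_norm t).trans ht)

theorem Vtx_y {v y : ℂ} (hv : ‖v‖ ≤ 6 / 100) (hy : ‖y - 1 / 4‖ ≤ 6 / 1000) :
    (‖(y - v) - 1 / 4‖ ≤ 66 / 1000) ∧ (‖(y + v) - 1 / 4‖ ≤ 66 / 1000) := by
  constructor
  · have e : (y - v) - 1 / 4 = (y - 1 / 4) - v := by ring
    rw [e]
    refine (norm_sub_le _ _).trans ?_
    linarith
  · have e : (y + v) - 1 / 4 = (y - 1 / 4) + v := by ring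
    rw [e]
    refine (norm_add_le _ _).trans ?_
    linarith

theorem Vtx_quarter_re {z : ℂ} (hz : ‖z - 1 / 4‖ ≤ 66 / 1000) : 0 < z.re ∧ z.re < 1 := by
  have h := Vtx_re hz
  have e : (z - 1 / 4).re = z.re - 1 / 4 := by
    rw [Complex.sub_re]
    norm_num
  rw [e] at h
  constructor <;> linarith

theorem Vtx_e_im {y : ℂ} (hy : ‖y - 1 / 4‖ ≤ 6 / 1000) : |(hh (y + 1 / 2)).im| ≤ 3 / 10 := by
  have h : hh (y + 1 / 2) = hh (1 / 2 - y) := by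
    rw [hh, hh]
    have e1 : (Real.pi : ℂ) * (y + 1 / 2) = Real.pi * y + Real.pi / 2 := by ring
    have e2 : (Real.pi : ℂ) * (1 / 2 - y) = Real.pi / 2 - Real.pi * y := by ring
    rw [e1, e2, Complex.sin_add_pi_div_two, Complex.sin_pi_div_two_sub]
  rw [h]
  apply Vtx_hh_quarter
  have e : (1 / 2 - y) - 1 / 4 = -(y - 1 / 4) := by ring
  rw [e, norm_neg]
  linarith

theorem Vtx_exp_m {v y : ℂ} (hv : ‖v‖ ≤ 6 / 100) (hy : ‖y - 1 / 4‖ ≤ 6 / 1000) :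
    exp (2 * mm v y) = 2 * (cos (2 * Real.pi * v) - cos (2 * Real.pi * y)) := by
  obtain ⟨h1, h2⟩ := Vtx_y hv hy
  have e : 2 * mm v y = hh (y - v) + hh (y + v) := by
    rw [mm]
    ring
  rw [e, Complex.exp_add, hh_exp _ (Vtx_quarter_re h1).1 (Vtx_quarter_re h1).2,
    hh_exp _ (Vtx_quarter_re h2).1 (Vtx_quarter_re h2).2]
  have e1 : (2 * Real.pi * v : ℂ) = Real.pi * (y + v) - Real.pi * (y - v) := by ring
  have e2 : (2 * Real.pi * y : ℂ) = Real.pi * (y + v) + Real.pi * (y - v) := by ring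
  rw [e1, e2, Complex.cos_sub, Complex.cos_add]
  ring

theorem Vtx_exp_half {v : ℂ} (h0 : 0 < (v + 1 / 2).re) (h1 : (v + 1 / 2).re < 1) :
    exp (2 * hh (v + 1 / 2)) = 2 * (1 + cos (2 * Real.pi * v)) := by
  have e : 2 * hh (v + 1 / 2) = hh (v + 1 / 2) + hh (v + 1 / 2) := by ring
  rw [e, Complex.exp_add, hh_exp _ h0 h1]
  have e1 : (Real.pi : ℂ) * (v + 1 / 2) = Real.pi * v + Real.pi / 2 := by ring
  have e2 : (2 * Real.pi * v : ℂ) = 2 * (Real.pi * v) := by ring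
  rw [e1, e2, Complex.sin_add_pi_div_two, Complex.cos_two_mul]
  ring

theorem Vtx_im {z : ℂ} {F δ : ℂ} {c r : ℝ} (hz : |z.im| < Real.pi) (h : exp z = F)
    (hc : 0 < c) (hF : F = c * (1 + δ)) (hδ : ‖δ‖ ≤ r) (hr : r ≤ 1 / 4) :
    |z.im| ≤ r ^ 2 * (2 / 3) + r := by
  have h1 : Complex.log (exp z) = z :=
    Complex.log_exp (by linarith [(abs_lt.1 hz).1]) (abs_lt.1 hz).2.le
  rw [← h1, h, hF]
  exact Vtx_log_mul hc hδ hr

theorem Vtx_data {v y : ℂ} (hv : ‖v‖ ≤ 6 / 100) (hy : ‖y - 1 / 4‖ ≤ 6 / 1000) :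
    ∃ a s : ℂ, cos (2 * Real.pi * v) = 1 + a ∧ cos (2 * Real.pi * y) = -s ∧
      ‖a‖ ≤ 722 / 10000 ∧ ‖s‖ ≤ 378 / 10000 := by
  refine ⟨cos (2 * Real.pi * v) - 1, sin (2 * Real.pi * (y - 1 / 4)), by ring, ?_, ?_, ?_⟩
  · have e : (2 * Real.pi * y : ℂ) = 2 * Real.pi * (y - 1 / 4) + Real.pi / 2 := by ring
    rw [e, Complex.cos_add_pi_div_two]
  · have h1 : ‖(2 * Real.pi * v : ℂ)‖ ≤ 37700 / 100000 := by
      have e : (2 * Real.pi * v : ℂ) = Real.pi * (2 * v) := by ring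
      rw [e]
      apply Vtx_pi_norm (a := 12 / 100) _ (by norm_num) (by norm_num)
      rw [norm_mul]
      have : ‖(2 : ℂ)‖ = 2 := by norm_num
      rw [this]
      linarith
    refine (Vtx_cos h1 (by norm_num)).trans ?_
    norm_num
  · have h1 : ‖(2 * Real.pi * (y - 1 / 4) : ℂ)‖ ≤ 37700 / 1000000 := by
      have e : (2 * Real.pi * (y - 1 / 4) : ℂ) = Real.pi * (2 * (y - 1 / 4)) := by ring
      rw [e]
      apply Vtx_pi_norm (a := 12 / 1000) _ (by norm_num) (by norm_num)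
      rw [norm_mul]
      have : ‖(2 : ℂ)‖ = 2 := by norm_num
      rw [this]
      linarith
    refine (Vtx_sin h1 (by norm_num)).trans ?_
    norm_num

theorem Vtx_one_sub {s : ℂ} (hs : ‖s‖ ≤ 378 / 10000) :
    (1 - s ≠ 0) ∧ 9622 / 10000 ≤ ‖1 - s‖ := by
  have h1 : 9622 / 10000 ≤ ‖1 - s‖ := by
    have := norm_sub_norm_le (1 : ℂ) s
    rw [norm_one] at this
    linarith
  refine ⟨?_, h1⟩
  intro h
  rw [h, norm_zero] at h1
  norm_num at h1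

theorem Vtx_half_re {v : ℂ} (hv : ‖v‖ ≤ 3 / 10) : 0 < (v + 1 / 2).re ∧ (v + 1 / 2).re < 1 := by
  have h := Vtx_re hv
  have e : (v + 1 / 2).re = v.re + 1 / 2 := by
    rw [Complex.add_re]
    norm_num
  rw [e]
  constructor <;> linarith

theorem Vtx_y_half {y : ℂ} (hy : ‖y - 1 / 4‖ ≤ 6 / 1000) : ‖y‖ ≤ 3 / 10 := by
  have e : y = (y - 1 / 4) + 1 / 4 := by ring
  rw [e]
  refine (norm_add_le _ _).trans ?_
  have : ‖(1 / 4 : ℂ)‖ = 1 / 4 := by norm_num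
  rw [this]
  linarith

theorem vertex_small (v y : ℂ) (hv : ‖v‖ ≤ 6 / 100) (hy : ‖y - 1 / 4‖ ≤ 6 / 1000) :
    |(2 * (mm v y - hh (y + 1 / 2))).im| ≤ 1 / 5 ∧
    |(2 * (hh (v + 1 / 2) - hh (y + 1 / 2))).im| ≤ 1 / 5 ∧
    1 - -exp (2 * (mm v y - hh (y + 1 / 2))) =
      exp (2 * (hh (v + 1 / 2) - hh (y + 1 / 2))) := by
  obtain ⟨a, s, hca, hcs, ha, hs⟩ := Vtx_data hv hy
  obtain ⟨hs0, hs1⟩ := Vtx_one_sub hs
  obtain ⟨hyv1, hyv2⟩ := Vtx_y hv hy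
  have hyr := Vtx_half_re (Vtx_y_half hy)
  have hvr := Vtx_half_re (hv.trans (by norm_num : (6 : ℝ) / 100 ≤ 3 / 10))
  have hm := Vtx_exp_m hv hy
  have he := Vtx_exp_half hyr.1 hyr.2
  have hd := Vtx_exp_half hvr.1 hvr.2
  rw [hca, hcs] at hm
  rw [hcs, ← sub_eq_add_neg] at he
  rw [hca] at hd
  have hE : exp (2 * (mm v y - hh (y + 1 / 2))) = ((1 : ℝ) : ℂ) * (1 + (a + 2 * s) / (1 - s)) := by
    rw [mul_sub, Complex.exp_sub, hm, he]
    push_cast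
    field_simp
    ring
  have hF : exp (2 * (hh (v + 1 / 2) - hh (y + 1 / 2))) =
      ((2 : ℝ) : ℂ) * (1 + (a / 2 + s) / (1 - s)) := by
    rw [mul_sub, Complex.exp_sub, hd, he]
    push_cast
    field_simp
    ring
  have im1 := Vtx_hh_quarter hyv1
  have im2 := Vtx_hh_quarter hyv2
  have im3 := Vtx_e_im hy
  have im4 := Vtx_hh_half hv
  have hpi := Real.pi_gt_three
  rw [abs_le] at im1 im2 im3 im4
  have hmm : (2 * (mm v y - hh (y + 1 / 2))).im =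
      (hh (y - v)).im + (hh (y + v)).im - 2 * (hh (y + 1 / 2)).im := by
    have e : 2 * (mm v y - hh (y + 1 / 2)) = hh (y - v) + hh (y + v) -
        ((2 : ℝ) : ℂ) * hh (y + 1 / 2) := by
      rw [mm]
      push_cast
      ring
    rw [e, Complex.sub_im, Complex.add_im, Complex.im_ofReal_mul]
  have hdd : (2 * (hh (v + 1 / 2) - hh (y + 1 / 2))).im =
      2 * (hh (v + 1 / 2)).im - 2 * (hh (y + 1 / 2)).im := by
    have e : 2 * (hh (v + 1 / 2) - hh (y + 1 / 2)) = ((2 : ℝ) : ℂ) * hh (v + 1 / 2) -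
        ((2 : ℝ) : ℂ) * hh (y + 1 / 2) := by
      push_cast
      ring
    rw [e, Complex.sub_im, Complex.im_ofReal_mul, Complex.im_ofReal_mul]
  refine ⟨?_, ?_, ?_⟩
  · refine (Vtx_im (r := 16 / 100) ?_ hE (by norm_num) rfl ?_ (by norm_num)).trans (by norm_num)
    · rw [abs_lt, hmm]
      constructor <;> linarith
    · rw [norm_div, div_le_iff₀ (by linarith)]
      have h1 : ‖a + 2 * s‖ ≤ ‖a‖ + 2 * ‖s‖ := by
        refine (norm_add_le _ _).trans ?_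
        rw [norm_mul]
        norm_num
      nlinarith
  · refine (Vtx_im (r := 8 / 100) ?_ hF (by norm_num) rfl ?_ (by norm_num)).trans (by norm_num)
    · rw [abs_lt, hdd]
      constructor <;> linarith
    · rw [norm_div, div_le_iff₀ (by linarith)]
      have h1 : ‖a / 2 + s‖ ≤ ‖a‖ / 2 + ‖s‖ := by
        refine (norm_add_le _ _).trans ?_
        rw [norm_div]
        norm_num
      nlinarith
  · rw [hE, hF]
    push_cast
    field_simp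
    ring

theorem vertex_d (v v' y : ℂ) (hv : ‖v‖ ≤ 6 / 100) (hv' : ‖v'‖ ≤ 6 / 100)
    (hy : ‖y - 1 / 4‖ ≤ 6 / 1000) (h : 2 * hh (y + 1 / 2) = mm v y + mm v' y) :
    hh (v' + 1 / 2) = hh (v + 1 / 2) + hh (y + 1 / 2) - mm v y := by
  obtain ⟨h1, h2, h3⟩ := vertex_small v y hv hy
  obtain ⟨-, h2', h3'⟩ := vertex_small v' y hv' hy
  obtain ⟨M, hM⟩ : ∃ M, M = 2 * (mm v y - hh (y + 1 / 2)) := ⟨_, rfl⟩
  obtain ⟨D, hD⟩ : ∃ D, D = 2 * (hh (v + 1 / 2) - hh (y + 1 / 2)) := ⟨_, rfl⟩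
  obtain ⟨D', hD'⟩ : ∃ D', D' = 2 * (hh (v' + 1 / 2) - hh (y + 1 / 2)) := ⟨_, rfl⟩
  have hM' : 2 * (mm v' y - hh (y + 1 / 2)) = -M := by
    rw [hM]
    linear_combination (-2) * h
  rw [hM', ← hD'] at h3'
  rw [← hM, ← hD] at h3
  rw [← hM] at h1
  rw [← hD] at h2
  rw [← hD'] at h2'
  have h4 : exp D' = exp (D - M) := by
    rw [Complex.exp_sub, ← h3, ← h3', Complex.exp_neg]
    have := Complex.exp_ne_zero M
    field_simp
    ring
  have h5 : Complex.log (exp D') = Complex.log (exp (D - M)) := by rw [h4]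
  have hpi := Real.pi_gt_three
  rw [abs_le] at h1 h2 h2'
  rw [Complex.log_exp (by linarith) (by linarith), Complex.log_exp
    (by rw [Complex.sub_im]; linarith) (by rw [Complex.sub_im]; linarith)] at h5
  rw [hD', hD, hM] at h5
  linear_combination h5 / 2

theorem vertex_XX (v v' y : ℂ) (hv : ‖v‖ ≤ 6 / 100) (hv' : ‖v'‖ ≤ 6 / 100)
    (hy : ‖y - 1 / 4‖ ≤ 6 / 1000) (h : 2 * hh (y + 1 / 2) = mm v y + mm v' y) :
    XX v y + XX v' y = -((Real.pi : ℂ) ^ 2 / 6) := by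
  obtain ⟨h1, -, -⟩ := vertex_small v y hv hy
  have hd := vertex_d v v' y hv hv' hy h
  have hM' : 2 * (mm v' y - hh (y + 1 / 2)) = -(2 * (mm v y - hh (y + 1 / 2))) := by
    linear_combination (-2) * h
  obtain ⟨M, hM⟩ : ∃ M, M = 2 * (mm v y - hh (y + 1 / 2)) := ⟨_, rfl⟩
  have hpi := Real.pi_gt_three
  rw [← hM, abs_le] at h1
  have hlog : Complex.log (exp M) = M :=
    Complex.log_exp (by linarith) (by linarith)
  have h2 : - -exp M ∈ slitPlane := by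
    rw [neg_neg, Complex.mem_slitPlane_iff_arg]
    refine ⟨?_, Complex.exp_ne_zero M⟩
    rw [← Complex.log_im, hlog]
    intro h3
    rw [h3] at h1
    linarith [h1.2]
  have h3 := dilog_inv (-exp M) h2
  rw [neg_neg, hlog] at h3
  have h4 : (-exp M)⁻¹ = -exp (-M) := by
    rw [Complex.exp_neg, inv_neg]
  rw [h4] at h3
  rw [XX, XX, hM', ← hM, hd]
  rw [hM] at h3 ⊢
  linear_combination h3

/-- The tetrahedra of a hinge between regions of opposite signs. -/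
theorem vertex_hinge (v y z : ℂ) (hv : ‖v‖ ≤ 6 / 100) (hy : ‖y - 1 / 4‖ ≤ 6 / 1000)
    (hz : z = -exp (2 * (mm v y - hh (y + 1 / 2)))) (P Q : ℤ)
    (hP : Complex.log z + P * (Real.pi * I) = 2 * (mm v y - hh (y + 1 / 2)))
    (hQ : -Complex.log (1 - z) + Q * (Real.pi * I) =
      -(2 * (hh (v + 1 / 2) - hh (y + 1 / 2)))) :
    rogers z P Q = XX v y - (Real.pi : ℂ) ^ 2 / 6 := by
  obtain ⟨-, h2, h3⟩ := vertex_small v y hv hy
  have hpi := Real.pi_gt_three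
  rw [abs_le] at h2
  have hlog : Complex.log (1 - z) = 2 * (hh (v + 1 / 2) - hh (y + 1 / 2)) := by
    rw [hz, h3]
    exact Complex.log_exp (by linarith) (by linarith)
  rw [rogers_logs z P Q _ _ hP hQ, hlog, XX, ← hz]
  ring

theorem slotT_sum (s s' : ℝ) (v v' y : ℂ) (h : 2 * hh (y + 1 / 2) = mm v y + mm v' y) :
    SlotT s v y + SlotT s' v' y =
      2 * Real.pi * I * (4 * ff (y + 1 / 2) - ff (y - v) - ff (y + v) - ff (y - v') - ff (y + v')) -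
        s * XX v y - s' * XX v' y + (s + s') * (Real.pi : ℂ) ^ 2 / 2 := by
  rw [SlotT, SlotT]
  linear_combination (-(Real.pi * I * (2 * y - 1))) * h

end Pool.Agent.H63.VC5
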