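import Pool.Agent.H63.VC4.Defs
import Pool.Agent.H63.VC5.CVDefs

/-! # The dilogarithm -/

namespace Pool.Agent.H63.VC5

open Pool.Agent.H63.VC Pool.Agent.H63.VC3 Pool.Agent.H63.VC4 Complex Filter Topology
open scoped BigOperators

theorem DilogA_slit {z : ℂ} (h : 1 - z ∈ slitPlane) {t : ℝ} (ht0 : 0 ≤ t) (ht1 : t ≤ 1) :
    1 - t * z ∈ slitPlane := by
  have h1 : (1 : ℂ) - t * z = (1 - t : ℝ) • (1 : ℂ) + t • (1 - z) := by
    simp only [real_smul]
    push_cast
    ring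
  rw [h1]
  exact starConvex_one_slitPlane h (by linarith) ht0 (by ring)

/-- uniform lower bound -/
theorem DilogA_bound {z : ℂ} (h : 1 - z ∈ slitPlane) : ∃ s ∈ 𝓝 z, ∃ c > 0,
    (∀ w ∈ s, 1 - w ∈ slitPlane) ∧
      ∀ w ∈ s, ∀ t : ℝ, 0 ≤ t → t ≤ 1 → c ≤ ‖(1 : ℂ) - t * w‖ := by
  have hopen : IsOpen {w : ℂ | 1 - w ∈ slitPlane} :=
    isOpen_slitPlane.preimage (by fun_prop : Continuous fun w : ℂ => 1 - w)
  obtain ⟨ε, hε, hsub⟩ := Metric.nhds_basis_closedBall.mem_iff.1 (hopen.mem_nhds h)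
  have hK : IsCompact ((Set.Icc (0 : ℝ) 1) ×ˢ Metric.closedBall z ε) :=
    isCompact_Icc.prod (isCompact_closedBall z ε)
  have hne : ((Set.Icc (0 : ℝ) 1) ×ˢ Metric.closedBall z ε).Nonempty :=
    ⟨(0, z), ⟨by simp, Metric.mem_closedBall_self hε.le⟩⟩
  have hcont : ContinuousOn (fun p : ℝ × ℂ => ‖(1 : ℂ) - p.1 * p.2‖)
      ((Set.Icc (0 : ℝ) 1) ×ˢ Metric.closedBall z ε) := by
    apply Continuous.continuousOn
    fun_prop
  obtain ⟨p, hp, hmin⟩ := hK.exists_isMinOn hne hcont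
  have hmin' := isMinOn_iff.1 hmin
  refine ⟨Metric.closedBall z ε, Metric.closedBall_mem_nhds z hε, ‖(1 : ℂ) - p.1 * p.2‖, ?_,
    fun w hw => hsub hw, fun w hw t ht0 ht1 => hmin' (t, w) ⟨⟨ht0, ht1⟩, hw⟩⟩
  rw [gt_iff_lt, norm_pos_iff]
  exact slitPlane_ne_zero (DilogA_slit (hsub hp.2) hp.1.1 hp.1.2)

theorem DilogA_log_hasDerivAt {z : ℂ} (h : 1 - z ∈ slitPlane) {t : ℝ} (ht0 : 0 ≤ t)
    (ht1 : t ≤ 1) : HasDerivAt (fun t : ℝ => Complex.log (1 - t * z)) (-z / (1 - t * z)) t := by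
  have h1 : HasDerivAt (fun t : ℝ => (1 : ℂ) - t * z) (-z) t := by
    have h2 := ((hasDerivAt_id t).ofReal_comp).mul_const z
    have h3 := h2.const_sub 1
    simpa using h3
  exact h1.clog_real (DilogA_slit h ht0 ht1)

theorem DilogA_log_le {z : ℂ} (h : 1 - z ∈ slitPlane) {c : ℝ} (hc : 0 < c)
    (hb : ∀ t : ℝ, 0 ≤ t → t ≤ 1 → c ≤ ‖(1 : ℂ) - t * z‖) {t : ℝ} (ht0 : 0 ≤ t) (ht1 : t ≤ 1) :
    ‖Complex.log (1 - t * z)‖ ≤ ‖z‖ / c * t := by
  have h1 := (convex_Icc (0 : ℝ) t).norm_image_sub_le_of_norm_hasDerivWithin_le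
    (f := fun t : ℝ => Complex.log (1 - t * z)) (f' := fun t : ℝ => -z / (1 - t * z))
    (C := ‖z‖ / c) (x := 0) (y := t)
    (fun s hs => (DilogA_log_hasDerivAt h hs.1 (hs.2.trans ht1)).hasDerivWithinAt)
    (fun s hs => by
      rw [norm_div, norm_neg]
      exact div_le_div_of_nonneg_left (norm_nonneg _) hc (hb s hs.1 (hs.2.trans ht1)))
    (by simp [ht0]) (by simp [ht0])
  simpa [abs_of_nonneg ht0] using h1

theorem DilogA_meas (z : ℂ) : Measurable (fun t : ℝ => Complex.log (1 - t * z) / t) := by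
  fun_prop

theorem DilogA_intervalIntegrable {z : ℂ} (h : 1 - z ∈ slitPlane) :
    IntervalIntegrable (fun t : ℝ => Complex.log (1 - t * z) / t) MeasureTheory.volume 0 1 := by
  obtain ⟨s, hs, c, hc, hs1, hs2⟩ := DilogA_bound h
  have hz := mem_of_mem_nhds hs
  have h1 : IntervalIntegrable (fun _ : ℝ => ‖z‖ / c) MeasureTheory.volume 0 1 :=
    intervalIntegrable_const
  refine h1.mono_fun' (DilogA_meas z).aestronglyMeasurable ?_
  rw [Set.uIoc_of_le zero_le_one]
  refine (MeasureTheory.ae_restrict_mem measurableSet_Ioc).mono fun t ht => ?_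
  have h2 := DilogA_log_le (hs1 z hz) hc (hs2 z hz) ht.1.le ht.2
  have h3 : ‖(t : ℂ)‖ = t := by rw [norm_real, Real.norm_of_nonneg ht.1.le]
  change ‖Complex.log (1 - t * z) / t‖ ≤ ‖z‖ / c
  rw [norm_div, h3, div_le_iff₀ ht.1]
  exact h2

theorem DilogA_hasDerivAt (z : ℂ) (h : 1 - z ∈ slitPlane) :
    HasDerivAt dilog (∫ t in (0 : ℝ)..1, 1 / (1 - t * z)) z := by
  obtain ⟨s, hs, c, hc, hs1, hs2⟩ := DilogA_bound h
  have hz := mem_of_mem_nhds hs
  have h1 := intervalIntegral.hasDerivAt_integral_of_dominated_loc_of_deriv_le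
    (μ := MeasureTheory.volume) (a := 0) (b := 1) (x₀ := z) (s := s)
    (F := fun (w : ℂ) (t : ℝ) => Complex.log (1 - t * w) / t)
    (F' := fun (w : ℂ) (t : ℝ) => -(1 / (1 - t * w))) (bound := fun _ => 1 / c) hs
    (Eventually.of_forall fun w => (DilogA_meas w).aestronglyMeasurable)
    (DilogA_intervalIntegrable h)
    (by
      apply Measurable.aestronglyMeasurable
      fun_prop)
    (by
      refine Eventually.of_forall fun t ht w hw => ?_
      rw [Set.uIoc_of_le zero_le_one] at ht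
      rw [norm_neg, norm_div, norm_one]
      exact div_le_div_of_nonneg_left zero_le_one hc (hs2 w hw t ht.1.le ht.2))
    intervalIntegrable_const
    (by
      refine Eventually.of_forall fun t ht w hw => ?_
      rw [Set.uIoc_of_le zero_le_one] at ht
      have ht0 : (t : ℂ) ≠ 0 := by exact_mod_cast ht.1.ne'
      have h2 : HasDerivAt (fun w : ℂ => 1 - t * w) (-(t : ℂ)) w := by
        have h3 := ((hasDerivAt_id w).const_mul (t : ℂ)).const_sub 1
        simpa using h3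
      have hsl := DilogA_slit (hs1 w hw) ht.1.le ht.2
      have h3 := (h2.clog hsl).div_const (t : ℂ)
      have h4 := slitPlane_ne_zero hsl
      have h5 : -(t : ℂ) / (1 - t * w) / t = -(1 / (1 - t * w)) := by
        rw [div_div, mul_comm, ← div_div, neg_div, div_self ht0, neg_div]
      rw [h5] at h3
      exact h3)
  have h2 := h1.2.neg
  have h3 : -∫ t in (0 : ℝ)..1, -(1 / (1 - t * z)) = ∫ t in (0 : ℝ)..1, 1 / (1 - t * z) := by
    rw [intervalIntegral.integral_neg, neg_neg]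
  rw [h3] at h2
  exact h2

theorem dilog_hasDerivAt (z : ℂ) (hz : z ≠ 0) (h : 1 - z ∈ slitPlane) :
    HasDerivAt dilog (-(Complex.log (1 - z) / z)) z := by
  have h1 := DilogA_hasDerivAt z h
  have h2 : ∫ t in (0 : ℝ)..1, -z / (1 - t * z) = Complex.log (1 - z) := by
    have h3 := intervalIntegral.integral_eq_sub_of_hasDerivAt
      (f := fun t : ℝ => Complex.log (1 - t * z)) (f' := fun t : ℝ => -z / (1 - t * z))
      (a := 0) (b := 1)
      (fun t ht => by
        rw [Set.uIcc_of_le zero_le_one] at ht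
        exact DilogA_log_hasDerivAt h ht.1 ht.2)
      (by
        apply ContinuousOn.intervalIntegrable
        intro t ht
        rw [Set.uIcc_of_le zero_le_one] at ht
        apply ContinuousAt.continuousWithinAt
        have hne := slitPlane_ne_zero (DilogA_slit h ht.1 ht.2)
        have hc : ContinuousAt (fun t : ℝ => (1 : ℂ) - t * z) t := by fun_prop
        exact continuousAt_const.div hc hne)
    rw [h3]
    simp
  have h3 : ∫ t in (0 : ℝ)..1, 1 / (1 - t * z) = -(Complex.log (1 - z) / z) := by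
    rw [← h2]
    have h4 : ∀ t : ℝ, -z / (1 - t * z) = -z * (1 / (1 - t * z)) := by
      intro t
      ring
    simp_rw [h4]
    rw [intervalIntegral.integral_const_mul, neg_mul, neg_div, neg_neg, mul_div_assoc,
      mul_div_left_comm, div_self hz, mul_one]
  rw [← h3]
  exact h1

theorem dilog_zero : dilog 0 = 0 := by
  unfold dilog
  simp

theorem dilog_continuous_zero : ContinuousAt dilog 0 :=
  (DilogA_hasDerivAt 0 (by simp)).continuousAt

theorem DilogA_hasSum {x : ℝ} (hx0 : 0 ≤ x) (hx1 : x ≤ 1) :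
    HasSum (fun n : ℕ => ((x ^ (n + 1) / ((n : ℝ) + 1) ^ 2 : ℝ) : ℂ)) (dilog x) := by
  set μ := MeasureTheory.volume.restrict (Set.Ioc (0 : ℝ) 1) with hμ
  set F : ℕ → ℝ → ℂ := fun n t => ((t ^ n * (x ^ (n + 1) / ((n : ℝ) + 1)) : ℝ) : ℂ) with hF
  have hFi : ∀ n, MeasureTheory.Integrable (F n) μ := by
    intro n
    have hc : Continuous (F n) := by
      rw [hF]
      fun_prop
    exact hc.integrableOn_Ioc
  have hint : ∀ n, ∫ t, F n t ∂μ = ((x ^ (n + 1) / ((n : ℝ) + 1) ^ 2 : ℝ) : ℂ) := by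
    intro n
    rw [hμ, ← intervalIntegral.integral_of_le zero_le_one]
    have h1 : ∫ t in (0 : ℝ)..1, F n t =
        ((∫ t in (0 : ℝ)..1, t ^ n * (x ^ (n + 1) / ((n : ℝ) + 1)) : ℝ) : ℂ) :=
      intervalIntegral.integral_ofReal
    rw [h1, intervalIntegral.integral_mul_const, integral_pow]
    congr 1
    have : ((n : ℝ) + 1) ≠ 0 := by positivity
    field_simp
    simp
  have hnorm : ∀ n, ∫ t, ‖F n t‖ ∂μ = x ^ (n + 1) / ((n : ℝ) + 1) ^ 2 := by
    intro n
    have h1 : ∫ t, ‖F n t‖ ∂μ = ∫ t, t ^ n * (x ^ (n + 1) / ((n : ℝ) + 1)) ∂μ := by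
      refine MeasureTheory.integral_congr_ae ?_
      refine (MeasureTheory.ae_restrict_mem measurableSet_Ioc).mono fun t ht => ?_
      change ‖F n t‖ = _
      rw [hF]
      simp only
      rw [norm_real, Real.norm_of_nonneg]
      have := ht.1.le
      positivity
    rw [h1, hμ, ← intervalIntegral.integral_of_le zero_le_one,
      intervalIntegral.integral_mul_const, integral_pow]
    have : ((n : ℝ) + 1) ≠ 0 := by positivity
    field_simp
    simp
  have hsum : Summable fun n => ∫ t, ‖F n t‖ ∂μ := by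
    simp_rw [hnorm]
    have h1 : Summable fun n : ℕ => 1 / ((n : ℝ) + 1) ^ 2 := by
      have h2 := (summable_nat_add_iff 1).2 (Real.summable_one_div_nat_pow.2 one_lt_two)
      simpa using h2
    refine Summable.of_nonneg_of_le (fun n => by positivity) (fun n => ?_) h1
    have h3 : x ^ (n + 1) ≤ 1 := pow_le_one₀ hx0 hx1
    gcongr
  have h1 := MeasureTheory.hasSum_integral_of_summable_integral_norm hFi hsum
  simp_rw [hint] at h1
  have h2 : ∫ t, ∑' n, F n t ∂μ = dilog x := by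
    unfold dilog
    rw [intervalIntegral.integral_of_le zero_le_one, ← MeasureTheory.integral_neg]
    refine MeasureTheory.integral_congr_ae ?_
    have hae : ∀ᵐ t ∂μ, t ≠ 1 := by
      refine MeasureTheory.ae_restrict_of_ae ?_
      exact MeasureTheory.Measure.ae_ne MeasureTheory.volume 1
    filter_upwards [MeasureTheory.ae_restrict_mem measurableSet_Ioc, hae] with t ht ht1
    have htlt : t < 1 := lt_of_le_of_ne ht.2 ht1
    have htx : t * x < 1 := by nlinarith [ht.1]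
    have htx0 : 0 ≤ t * x := mul_nonneg ht.1.le hx0
    have h3 := Real.hasSum_pow_div_log_of_abs_lt_one (x := t * x) (by
      rw [abs_of_nonneg htx0]
      exact htx)
    have h4 : HasSum (fun n : ℕ => t ^ n * (x ^ (n + 1) / ((n : ℝ) + 1)))
        (-Real.log (1 - t * x) / t) := by
      have h5 := h3.div_const t
      refine h5.congr_fun ?_
      intro n
      rw [mul_pow, pow_succ t n]
      have := ht.1.ne'
      have : ((n : ℝ) + 1) ≠ 0 := by positivity
      field_simp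
    have h6 : HasSum (fun n : ℕ => F n t) ((-Real.log (1 - t * x) / t : ℝ) : ℂ) := by
      have h7 := (Complex.hasSum_ofReal).2 h4
      exact h7
    rw [h6.tsum_eq]
    push_cast
    rw [Complex.ofReal_log (by linarith)]
    push_cast
    ring
  rw [h2] at h1
  exact h1

theorem dilog_one : dilog 1 = (Real.pi : ℂ) ^ 2 / 6 := by
  have h1 := DilogA_hasSum (x := 1) zero_le_one le_rfl
  have h2 : HasSum (fun n : ℕ => 1 / ((n : ℝ) + 1) ^ 2) (Real.pi ^ 2 / 6) := by
    have h3 := hasSum_zeta_two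
    have h4 := (hasSum_nat_add_iff' (f := fun n : ℕ => 1 / (n : ℝ) ^ 2) 1).2 h3
    simpa using h4
  have h3 : HasSum (fun n : ℕ => (((1 : ℝ) ^ (n + 1) / ((n : ℝ) + 1) ^ 2 : ℝ) : ℂ))
      ((Real.pi ^ 2 / 6 : ℝ) : ℂ) := by
    refine (Complex.hasSum_ofReal).2 ?_
    simpa using h2
  have h4 := h1.unique h3
  rw [ofReal_one] at h4
  rw [h4]
  push_cast
  ring

theorem dilog_one_lim :
    Tendsto (fun x : ℝ => dilog (x : ℂ)) (𝓝[<] 1) (𝓝 ((Real.pi : ℂ) ^ 2 / 6)) := by
  have h1 : Summable fun n : ℕ => 1 / ((n : ℝ) + 1) ^ 2 := by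
    have h2 := (summable_nat_add_iff 1).2 (Real.summable_one_div_nat_pow.2 one_lt_two)
    simpa using h2
  have h2 : Tendsto (fun x : ℝ => ∑' n : ℕ, ((x ^ (n + 1) / ((n : ℝ) + 1) ^ 2 : ℝ) : ℂ)) (𝓝[<] 1)
      (𝓝 (∑' n : ℕ, (((1 : ℝ) ^ (n + 1) / ((n : ℝ) + 1) ^ 2 : ℝ) : ℂ))) := by
    refine tendsto_tsum_of_dominated_convergence h1 ?_ ?_
    · intro n
      refine Tendsto.mono_left ?_ nhdsWithin_le_nhds
      have hc : Continuous fun x : ℝ => ((x ^ (n + 1) / ((n : ℝ) + 1) ^ 2 : ℝ) : ℂ) := by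
        fun_prop
      exact hc.tendsto 1
    · have h3 : ∀ᶠ x : ℝ in 𝓝[<] 1, 0 ≤ x ∧ x ≤ 1 := by
        have h4 : ∀ᶠ x : ℝ in 𝓝[<] 1, x ∈ Set.Ioo (0 : ℝ) 1 := Ioo_mem_nhdsLT one_pos
        exact h4.mono fun x hx => ⟨hx.1.le, hx.2.le⟩
      filter_upwards [h3] with x hx n
      rw [norm_real, Real.norm_of_nonneg (by have := hx.1; positivity)]
      have h5 : x ^ (n + 1) ≤ 1 := pow_le_one₀ hx.1 hx.2
      gcongr
  have h3 : (∑' n : ℕ, (((1 : ℝ) ^ (n + 1) / ((n : ℝ) + 1) ^ 2 : ℝ) : ℂ)) =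
      (Real.pi : ℂ) ^ 2 / 6 := by
    rw [(DilogA_hasSum (x := 1) zero_le_one le_rfl).tsum_eq, ofReal_one, dilog_one]
  rw [h3] at h2
  refine h2.congr' ?_
  have h3 : ∀ᶠ x : ℝ in 𝓝[<] 1, x ∈ Set.Ioo (0 : ℝ) 1 := Ioo_mem_nhdsLT one_pos
  filter_upwards [h3] with x hx
  exact (DilogA_hasSum hx.1.le hx.2.le).tsum_eq

end Pool.Agent.H63.VC5
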