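import Pool.Agent.H63.VC5.GGa
import Pool.Agent.H63.VC5.DilogA

/-! # GG and the dilogarithm -/

namespace Pool.Agent.H63.VC5

open Pool.Agent.H63.VC Pool.Agent.H63.VC3 Pool.Agent.H63.VC4 Complex Filter Topology
open scoped BigOperators

theorem GGdilog_exp_lt {x : ℝ} (hx : x < 0) : Real.exp x < 1 := by
  rw [← Real.exp_zero]
  exact Real.exp_lt_exp.mpr hx

/-- On the strip minus `[0, ∞)` the argument of the logarithm is in the slit plane. -/
theorem GGdilog_slit (w : ℂ) (h : |w.im| < 2 * Real.pi) (h' : w.im ≠ 0 ∨ w.re < 0) :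
    1 - exp w ∈ slitPlane := by
  by_contra hcon
  rw [Complex.mem_slitPlane_iff, not_or, not_lt, not_not] at hcon
  obtain ⟨h1, h2⟩ := hcon
  rw [Complex.sub_re, Complex.one_re, Complex.exp_re] at h1
  rw [Complex.sub_im, Complex.one_im, Complex.exp_im, zero_sub, neg_eq_zero] at h2
  have hpos := Real.exp_pos w.re
  have hsin : Real.sin w.im = 0 := by
    rcases mul_eq_zero.mp h2 with h3 | h3
    · exact absurd h3 hpos.ne'
    · exact h3
  have hcos : 0 < Real.cos w.im := by
    by_contra hc
    push Not at hc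
    have := mul_nonpos_of_nonneg_of_nonpos hpos.le hc
    linarith
  have hc1 : Real.cos w.im = 1 := by
    have := Real.sin_sq_add_cos_sq w.im
    rw [hsin] at this
    nlinarith
  have him : w.im = 0 := by
    obtain ⟨n, hn⟩ := (Real.cos_eq_one_iff _).mp hc1
    have hpi := Real.pi_pos
    rw [← hn, abs_mul, abs_of_pos (by positivity : (0 : ℝ) < 2 * Real.pi)] at h
    have h3 : |(n : ℝ)| < 1 := by
      by_contra hc
      push Not at hc
      nlinarith
    have h4 : n = 0 := by
      rw [← Int.cast_abs] at h3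
      have h5 : |n| < 1 := by exact_mod_cast h3
      exact Int.abs_lt_one_iff.mp h5
    rw [← hn, h4]
    simp
  rcases h' with h' | h'
  · exact h' him
  · rw [hc1, mul_one] at h1
    have : Real.exp w.re < 1 := GGdilog_exp_lt h'
    linarith

/-- The difference of both sides. -/
noncomputable def GGdilog_D (w : ℂ) : ℂ :=
  GG w - dilog (exp w) - w * Complex.log (1 - exp w)

theorem GGdilog_deriv (w : ℂ) (h : |w.im| < 2 * Real.pi) (h' : w.im ≠ 0 ∨ w.re < 0) :
    HasDerivAt GGdilog_D 0 w := by
  have hs := GGdilog_slit w h h'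
  have hw0 : w ≠ 0 := by
    rintro rfl
    simp at h'
  have hne : 1 - exp w ≠ 0 := Complex.slitPlane_ne_zero hs
  have h1 := GG_hasDerivAt w h
  have h2 : HasDerivAt (fun w => dilog (exp w))
      (-(Complex.log (1 - exp w) / exp w) * exp w) w :=
    (dilog_hasDerivAt (exp w) (Complex.exp_ne_zero w) hs).comp w (Complex.hasDerivAt_exp w)
  have h3 : HasDerivAt (fun w => 1 - exp w) (-exp w) w := by
    simpa using (Complex.hasDerivAt_exp w).const_sub 1
  have h4 : HasDerivAt (fun w => Complex.log (1 - exp w)) (-exp w / (1 - exp w)) w :=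
    h3.clog hs
  have h5 : HasDerivAt (fun w => w * Complex.log (1 - exp w))
      (1 * Complex.log (1 - exp w) + w * (-exp w / (1 - exp w))) w :=
    (hasDerivAt_id w).mul h4
  have h6 := (h1.sub h2).sub h5
  refine h6.congr_deriv ?_
  rw [phi_of_ne w hw0, Complex.exp_neg]
  have hE := Complex.exp_ne_zero w
  have h7 : 1 - (exp w)⁻¹ ≠ 0 := by
    intro h8
    apply hne
    have : (exp w)⁻¹ = 1 := by linear_combination -h8
    rw [← inv_inv (exp w), this, inv_one, sub_self]
  have h8 : exp w - 1 ≠ 0 := fun h9 => hne (by linear_combination -h9)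
  field_simp
  ring

theorem GGdilog_const (w : ℂ) (h : |w.im| < 2 * Real.pi) (h' : w.im ≠ 0 ∨ w.re < 0) :
    GGdilog_D w = GGdilog_D (-1) := by
  set c : ℝ → ℂ := fun t => -1 + (t : ℂ) * (w + 1) with hc
  have hcd : ∀ t, HasDerivAt c (w + 1) t := by
    intro t
    have h1 : HasDerivAt (fun t : ℝ => (t : ℂ)) 1 t := Complex.ofRealCLM.hasDerivAt
    have h2 := (h1.mul_const (w + 1)).const_add (-1)
    rw [one_mul] at h2
    exact h2
  have him : ∀ t, (c t).im = t * w.im := by
    intro t
    simp [hc]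
  have hre : ∀ t, (c t).re = -1 + t * (w.re + 1) := by
    intro t
    simp [hc]
  have hdom : ∀ t ∈ Set.Icc (0 : ℝ) 1, |(c t).im| < 2 * Real.pi ∧ ((c t).im ≠ 0 ∨ (c t).re < 0) := by
    intro t ht
    rw [him, hre]
    constructor
    · rw [abs_mul, abs_of_nonneg ht.1]
      have h0 := abs_nonneg w.im
      have hpi := Real.pi_pos
      nlinarith [ht.2, mul_le_mul_of_nonneg_right ht.2 h0]
    · rcases eq_or_lt_of_le ht.1 with h0 | h0
      · right
        rw [← h0]
        norm_num
      · rcases h' with h' | h'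
        · left
          exact mul_ne_zero h0.ne' h'
        · right
          nlinarith [ht.2, mul_pos h0 (neg_pos.mpr h')]
  have hD : ∀ t ∈ Set.Icc (0 : ℝ) 1, HasDerivAt (fun t => GGdilog_D (c t)) 0 t := by
    intro t ht
    obtain ⟨h1, h2⟩ := hdom t ht
    have h3 := (GGdilog_deriv (c t) h1 h2).scomp t (hcd t)
    rw [smul_zero] at h3
    exact h3
  have hconst := constant_of_has_deriv_right_zero (f := fun t => GGdilog_D (c t)) (a := 0) (b := 1)
    (fun t ht => (hD t ht).continuousAt.continuousWithinAt)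
    (fun t ht => (hD t ⟨ht.1, ht.2.le⟩).hasDerivWithinAt) 1 ⟨zero_le_one, le_rfl⟩
  have e1 : c 1 = w := by simp [hc]
  have e0 : c 0 = -1 := by simp [hc]
  simpa [e1, e0] using hconst

theorem GGdilog_lim :
    Tendsto (fun x : ℝ => x * Real.log (1 - Real.exp x)) (𝓝[<] 0) (𝓝 0) := by
  have h1 : Tendsto (fun x : ℝ => (slope Real.exp 0 x)⁻¹) (𝓝[<] 0) (𝓝 1) := by
    have h2 := (Real.hasDerivAt_exp 0).tendsto_slope
    rw [Real.exp_zero] at h2
    have h3 := h2.inv₀ one_ne_zero
    rw [inv_one] at h3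
    exact h3.mono_left (nhdsWithin_mono _ (fun x hx => ne_of_lt hx))
  have h2 : Tendsto (fun x : ℝ => (1 - Real.exp x) * Real.log (1 - Real.exp x)) (𝓝[<] 0) (𝓝 0) := by
    have h3 : Continuous fun x : ℝ => (1 - Real.exp x) * Real.log (1 - Real.exp x) :=
      Real.continuous_mul_log.comp (continuous_const.sub Real.continuous_exp)
    have h4 := h3.tendsto 0
    simp only [Real.exp_zero, sub_self, zero_mul] at h4
    exact h4.mono_left nhdsWithin_le_nhds
  have h3 := (h1.mul h2).neg
  rw [mul_zero, neg_zero] at h3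
  refine h3.congr' ?_
  filter_upwards [self_mem_nhdsWithin] with x hx
  have hx0 : x < 0 := hx
  have hE : 0 < 1 - Real.exp x := by
    have := GGdilog_exp_lt hx0
    linarith
  rw [slope_def_field, Real.exp_zero, sub_zero, inv_div]
  have hne : Real.exp x - 1 ≠ 0 := by linarith
  have e1 : Real.exp x - 1 = -(1 - Real.exp x) := by ring
  rw [e1, div_neg]
  field_simp

theorem GG_dilog (w : ℂ) (h : |w.im| < 2 * Real.pi) (h' : w.im ≠ 0 ∨ w.re < 0) :
    GG w = dilog (exp w) + w * Complex.log (1 - exp w) := by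
  have hpi := Real.pi_pos
  have hlim : Tendsto (fun x : ℝ => GGdilog_D (x : ℂ)) (𝓝[<] 0) (𝓝 0) := by
    have c1 : Tendsto (fun x : ℝ => GG (x : ℂ)) (𝓝[<] 0) (𝓝 ((Real.pi : ℂ) ^ 2 / 6)) := by
      have h1 : ContinuousAt GG 0 := (GG_hasDerivAt 0 (by simpa using hpi)).continuousAt
      have h2 : ContinuousAt (fun x : ℝ => (x : ℂ)) 0 := Complex.continuous_ofReal.continuousAt
      have h3 : Tendsto (fun x : ℝ => GG (x : ℂ)) (𝓝 0) (𝓝 (GG 0)) := by
        have h4 : ContinuousAt GG ((0 : ℝ) : ℂ) := by simpa using h1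
        have h5 := (h4.comp (f := fun x : ℝ => (x : ℂ)) h2).tendsto
        simp only [Function.comp_apply, Complex.ofReal_zero] at h5
        exact h5
      rw [GG_zero] at h3
      exact h3.mono_left nhdsWithin_le_nhds
    have c2 : Tendsto (fun x : ℝ => dilog (exp (x : ℂ))) (𝓝[<] 0) (𝓝 ((Real.pi : ℂ) ^ 2 / 6)) := by
      have h1 : Tendsto Real.exp (𝓝[<] 0) (𝓝[<] 1) := by
        rw [tendsto_nhdsWithin_iff]
        constructor
        · have := (Real.continuous_exp.tendsto 0)
          rw [Real.exp_zero] at this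
          exact this.mono_left nhdsWithin_le_nhds
        · filter_upwards [self_mem_nhdsWithin] with x hx
          exact GGdilog_exp_lt hx
      have h2 := dilog_one_lim.comp h1
      refine h2.congr ?_
      intro x
      simp
    have c3 : Tendsto (fun x : ℝ => (x : ℂ) * Complex.log (1 - exp (x : ℂ))) (𝓝[<] 0) (𝓝 0) := by
      have h1 : Tendsto (fun x : ℝ => ((x * Real.log (1 - Real.exp x) : ℝ) : ℂ)) (𝓝[<] 0)
          (𝓝 ((0 : ℝ) : ℂ)) := (Complex.continuous_ofReal.tendsto 0).comp GGdilog_lim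
      rw [Complex.ofReal_zero] at h1
      refine h1.congr' ?_
      filter_upwards [self_mem_nhdsWithin] with x hx
      have hx0 : x < 0 := hx
      have hE : 0 ≤ 1 - Real.exp x := by
        have := GGdilog_exp_lt hx0
        linarith
      rw [Complex.ofReal_mul, Complex.ofReal_log hE]
      push_cast
      rfl
    have := (c1.sub c2).sub c3
    simpa [GGdilog_D] using this
  have hconst : ∀ᶠ x : ℝ in 𝓝[<] 0, GGdilog_D (-1) = GGdilog_D (x : ℂ) := by
    filter_upwards [self_mem_nhdsWithin] with x hx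
    have hx0 : x < 0 := hx
    exact (GGdilog_const (x : ℂ) (by simpa using hpi) (Or.inr (by simpa using hx0))).symm
  have hD0 : GGdilog_D (-1) = 0 :=
    tendsto_nhds_unique (tendsto_const_nhds.congr' hconst) hlim
  have hw := GGdilog_const w h h'
  rw [hD0] at hw
  unfold GGdilog_D at hw
  linear_combination hw

end Pool.Agent.H63.VC5
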