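import Pool.Agent.H63.VC5.FFdilog
import Pool.Agent.H63.VC5.GGdilog
import Pool.Agent.H63.VC5.HHx

/-! # The identity of a slot -/

namespace Pool.Agent.H63.VC5

open Pool.Agent.H63.VC Pool.Agent.H63.VC3 Pool.Agent.H63.VC4 Complex Filter Topology
open scoped BigOperators

/-- Half of the difference of the logarithms of a slot. -/
noncomputable def dl (v y : ℂ) : ℂ := (hh (y + v) - hh (y - v)) / 2

/-- `Lam` in the variables of a slot. -/
noncomputable def LamT (s : ℝ) (w y : ℂ) : ℂ :=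
  -(GG (hh (w + 1 / 2) - mm w y - s * Real.pi * I / 2 + s * Real.pi * I * y + s * dl w y) +
      (hh (w + 1 / 2) - mm w y - s * Real.pi * I / 2 + s * Real.pi * I * y + s * dl w y) *
        (-(hh (y + 1 / 2) - mm w y - s * Real.pi * I / 2) - Real.pi * I * w - s * dl w y +
          Real.pi * I) / 2) +
    (GG (hh (w + 1 / 2) - hh (y + 1 / 2) + s * Real.pi * I * y + Real.pi * I * w) +
      (hh (w + 1 / 2) - hh (y + 1 / 2) + s * Real.pi * I * y + Real.pi * I * w) *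
        (hh (y + 1 / 2) - mm w y - s * Real.pi * I / 2 - Real.pi * I * w - s * dl w y +
          Real.pi * I) / 2) +
    ((Real.pi : ℂ) ^ 2 / 2 * w + Real.pi * I / 2 * s * dl w y) +
    Real.pi * I / 2 * (hh (y + 1 / 2) - mm w y - s * Real.pi * I / 2) + (Real.pi : ℂ) ^ 2 / 6

/-! ### Auxiliary facts -/

theorem SlotB_re (w y : ℂ) (hw : ‖w‖ < 8 / 100) (hy : ‖y - 1 / 4‖ < 2 / 100) :
    (0 < (y - w).re ∧ (y - w).re < 1) ∧ (0 < (y + w).re ∧ (y + w).re < 1) ∧
    (0 < (y + 1 / 2).re ∧ (y + 1 / 2).re < 1) ∧ (0 < (w + 1 / 2).re ∧ (w + 1 / 2).re < 1) ∧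
    |w.re| < 8 / 100 ∧ |y.re - 1 / 4| < 2 / 100 ∧ |w.im| < 8 / 100 ∧ |y.im| < 8 / 100 := by
  have h1 := Complex.abs_re_le_norm w
  have h2 := Complex.abs_re_le_norm (y - 1 / 4)
  have h3 := Complex.abs_im_le_norm w
  have h4 := Complex.abs_im_le_norm (y - 1 / 4)
  have e1 : ((1 : ℂ) / 4).re = 1 / 4 := by
    rw [show ((1 : ℂ) / 4) = ((1 / 4 : ℝ) : ℂ) by push_cast; ring, Complex.ofReal_re]
  have e2 : ((1 : ℂ) / 4).im = 0 := by
    rw [show ((1 : ℂ) / 4) = ((1 / 4 : ℝ) : ℂ) by push_cast; ring, Complex.ofReal_im]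
  have e3 : ((1 : ℂ) / 2).re = 1 / 2 := by
    rw [show ((1 : ℂ) / 2) = ((1 / 2 : ℝ) : ℂ) by push_cast; ring, Complex.ofReal_re]
  rw [Complex.sub_re, e1] at h2
  rw [Complex.sub_im, e2, sub_zero] at h4
  have h5 : |w.re| < 8 / 100 := h1.trans_lt hw
  have h6 : |y.re - 1 / 4| < 2 / 100 := h2.trans_lt hy
  have h7 := abs_lt.1 h5
  have h8 := abs_lt.1 h6
  simp only [Complex.sub_re, Complex.add_re, e3]
  refine ⟨⟨?_, ?_⟩, ⟨?_, ?_⟩, ⟨?_, ?_⟩, ⟨?_, ?_⟩, h5, h6, h3.trans_lt hw, ?_⟩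
  all_goals linarith [h7.1, h7.2, h8.1, h8.2]

theorem SlotB_cos (w : ℂ) (h0 : 0 < (w + 1 / 2).re) (h1 : (w + 1 / 2).re < 1) :
    exp (hh (w + 1 / 2)) = 2 * cos (Real.pi * w) := by
  rw [hh_exp _ h0 h1, mul_add, mul_one_div, Complex.sin_add_pi_div_two]

theorem SlotB_exp_half : exp (-(Real.pi / 2) * I) = -I := by
  rw [Complex.exp_mul_I, Complex.cos_neg, Complex.sin_neg, Complex.cos_pi_div_two,
    Complex.sin_pi_div_two]
  ring

theorem SlotB_exp_half' : exp ((Real.pi / 2) * I) = I := by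
  rw [Complex.exp_mul_I, Complex.cos_pi_div_two, Complex.sin_pi_div_two]
  ring

theorem SlotB_exp_pi : exp (-(Real.pi * I)) = -1 := by
  rw [Complex.exp_neg, Complex.exp_pi_mul_I]
  norm_num

theorem SlotB_rel1 (s : ℝ) (hs : s = 1 ∨ s = -1) (w y : ℂ) (hw : ‖w‖ < 8 / 100)
    (hy : ‖y - 1 / 4‖ < 2 / 100) :
    exp (hh (w + 1 / 2) - mm w y - s * Real.pi * I / 2 + s * Real.pi * I * y + s * dl w y) +
      exp (-(-(hh (y + 1 / 2) - mm w y - s * Real.pi * I / 2) - Real.pi * I * w - s * dl w y +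
          Real.pi * I)) = 1 := by
  obtain ⟨⟨n0, n1⟩, ⟨p0, p1⟩, ⟨e0, e1⟩, ⟨d0, d1⟩, -⟩ := SlotB_re w y hw hy
  have hn := hh_exp (y - w) n0 n1
  have hp := hh_exp (y + w) p0 p1
  have he := SlotB_cos y e0 e1
  have hd := SlotB_cos w d0 d1
  rw [mul_sub, Complex.sin_sub] at hn
  rw [mul_add, Complex.sin_add] at hp
  have n3 : exp (hh (y - w)) ≠ 0 := Complex.exp_ne_zero _
  have p3 : exp (hh (y + w)) ≠ 0 := Complex.exp_ne_zero _
  unfold mm dl
  rcases hs with rfl | rfl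
  · have x1 : hh (w + 1 / 2) - (hh (y - w) + hh (y + w)) / 2 - (1 : ℝ) * Real.pi * I / 2 +
        (1 : ℝ) * Real.pi * I * y + (1 : ℝ) * ((hh (y + w) - hh (y - w)) / 2) =
        hh (w + 1 / 2) + (-(Real.pi / 2) * I) + (Real.pi * y) * I - hh (y - w) := by
      push_cast; ring
    have x2 : -(-(hh (y + 1 / 2) - (hh (y - w) + hh (y + w)) / 2 - (1 : ℝ) * Real.pi * I / 2) -
        Real.pi * I * w - (1 : ℝ) * ((hh (y + w) - hh (y - w)) / 2) + Real.pi * I) =
        hh (y + 1 / 2) + (-(Real.pi / 2) * I) + (Real.pi * w) * I + (-(Real.pi * I)) - hh (y - w) := by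
      push_cast; ring
    rw [x1, x2]
    simp only [Complex.exp_sub, Complex.exp_add]
    rw [SlotB_exp_half, SlotB_exp_pi, Complex.exp_mul_I, Complex.exp_mul_I, he, hd]
    rw [← add_div, div_eq_one_iff_eq n3, hn]
    linear_combination (2 * sin (Real.pi * w) * cos (Real.pi * y) -
      2 * cos (Real.pi * w) * sin (Real.pi * y)) * I_sq
  · have x1 : hh (w + 1 / 2) - (hh (y - w) + hh (y + w)) / 2 - (-1 : ℝ) * Real.pi * I / 2 +
        (-1 : ℝ) * Real.pi * I * y + (-1 : ℝ) * ((hh (y + w) - hh (y - w)) / 2) =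
        hh (w + 1 / 2) + ((Real.pi / 2) * I) + -(Real.pi * y) * I - hh (y + w) := by
      push_cast; ring
    have x2 : -(-(hh (y + 1 / 2) - (hh (y - w) + hh (y + w)) / 2 - (-1 : ℝ) * Real.pi * I / 2) -
        Real.pi * I * w - (-1 : ℝ) * ((hh (y + w) - hh (y - w)) / 2) + Real.pi * I) =
        hh (y + 1 / 2) + ((Real.pi / 2) * I) + (Real.pi * w) * I + (-(Real.pi * I)) - hh (y + w) := by
      push_cast; ring
    rw [x1, x2]
    simp only [Complex.exp_sub, Complex.exp_add]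
    rw [SlotB_exp_half', SlotB_exp_pi, Complex.exp_mul_I, Complex.exp_mul_I, he, hd, Complex.cos_neg,
      Complex.sin_neg]
    rw [← add_div, div_eq_one_iff_eq p3, hp]
    linear_combination (-2 * sin (Real.pi * w) * cos (Real.pi * y) -
      2 * cos (Real.pi * w) * sin (Real.pi * y)) * I_sq

theorem SlotB_rel2 (s : ℝ) (hs : s = 1 ∨ s = -1) (w y : ℂ) (hw : ‖w‖ < 8 / 100)
    (hy : ‖y - 1 / 4‖ < 2 / 100) :
    exp (hh (w + 1 / 2) - hh (y + 1 / 2) + s * Real.pi * I * y + Real.pi * I * w) +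
      exp (-(hh (y + 1 / 2) - mm w y - s * Real.pi * I / 2 - Real.pi * I * w - s * dl w y +
          Real.pi * I)) = 1 := by
  obtain ⟨⟨n0, n1⟩, ⟨p0, p1⟩, ⟨e0, e1⟩, ⟨d0, d1⟩, -⟩ := SlotB_re w y hw hy
  have hn := hh_exp (y - w) n0 n1
  have hp := hh_exp (y + w) p0 p1
  have he := SlotB_cos y e0 e1
  have hd := SlotB_cos w d0 d1
  rw [mul_sub, Complex.sin_sub] at hn
  rw [mul_add, Complex.sin_add] at hp
  have e3 : exp (hh (y + 1 / 2)) ≠ 0 := Complex.exp_ne_zero _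
  have hcs := Complex.sin_sq_add_cos_sq (Real.pi * w)
  unfold mm dl
  rcases hs with rfl | rfl
  · have x1 : hh (w + 1 / 2) - hh (y + 1 / 2) + (1 : ℝ) * Real.pi * I * y + Real.pi * I * w =
        hh (w + 1 / 2) + (Real.pi * y) * I + (Real.pi * w) * I - hh (y + 1 / 2) := by
      push_cast; ring
    have x2 : -(hh (y + 1 / 2) - (hh (y - w) + hh (y + w)) / 2 - (1 : ℝ) * Real.pi * I / 2 -
        Real.pi * I * w - (1 : ℝ) * ((hh (y + w) - hh (y - w)) / 2) + Real.pi * I) =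
        hh (y + w) + ((Real.pi / 2) * I) + (Real.pi * w) * I + (-(Real.pi * I)) - hh (y + 1 / 2) := by
      push_cast; ring
    rw [x1, x2]
    simp only [Complex.exp_sub, Complex.exp_add]
    rw [SlotB_exp_half', SlotB_exp_pi, Complex.exp_mul_I, Complex.exp_mul_I]
    rw [← add_div, div_eq_one_iff_eq e3, he, hp, hd]
    linear_combination (2 * cos (Real.pi * y)) * hcs - (2 * cos (Real.pi * y) * sin (Real.pi * w) ^ 2) * I_sq
  · have x1 : hh (w + 1 / 2) - hh (y + 1 / 2) + (-1 : ℝ) * Real.pi * I * y + Real.pi * I * w =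
        hh (w + 1 / 2) + -(Real.pi * y) * I + (Real.pi * w) * I - hh (y + 1 / 2) := by
      push_cast; ring
    have x2 : -(hh (y + 1 / 2) - (hh (y - w) + hh (y + w)) / 2 - (-1 : ℝ) * Real.pi * I / 2 -
        Real.pi * I * w - (-1 : ℝ) * ((hh (y + w) - hh (y - w)) / 2) + Real.pi * I) =
        hh (y - w) + (-(Real.pi / 2) * I) + (Real.pi * w) * I + (-(Real.pi * I)) - hh (y + 1 / 2) := by
      push_cast; ring
    rw [x1, x2]
    simp only [Complex.exp_sub, Complex.exp_add]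
    rw [SlotB_exp_half, SlotB_exp_pi, Complex.exp_mul_I, Complex.exp_mul_I, Complex.cos_neg,
      Complex.sin_neg]
    rw [← add_div, div_eq_one_iff_eq e3, he, hn, hd]
    linear_combination (2 * cos (Real.pi * y)) * hcs - (2 * cos (Real.pi * y) * sin (Real.pi * w) ^ 2) * I_sq

theorem SlotB_cos2 (z : ℂ) (h1 : |z.re| ≤ 27 / 100) (h2 : |z.im| ≤ 8 / 100) :
    0 < ((2 * cos (Real.pi * z)) * (2 * cos (Real.pi * z))).re := by
  have e1 : (2 * cos (Real.pi * z)) * (2 * cos (Real.pi * z)) = 2 * (1 + cos (2 * (Real.pi * z))) := by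
    rw [Complex.cos_two_mul]; ring
  have e2 : (2 * (Real.pi * z) : ℂ) = ((2 * Real.pi * z.re : ℝ) : ℂ) + ((2 * Real.pi * z.im : ℝ) : ℂ) * I := by
    apply Complex.ext <;> simp <;> ring
  rw [e1, e2, Complex.cos_add_mul_I, ← Complex.ofReal_sin, ← Complex.ofReal_cosh, ← Complex.ofReal_cos,
    ← Complex.ofReal_sinh]
  have h3 : ∀ a b c d : ℝ, (2 * (1 + ((a : ℂ) * b - (c : ℂ) * d * I))).re = 2 * (1 + a * b) := by
    intro a b c d
    simp
  rw [h3]
  set x := 2 * Real.pi * z.re with hx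
  set y := 2 * Real.pi * z.im with hy
  have hpi := Real.pi_lt_d2
  have hpi0 := Real.pi_pos
  have hxb : |x| ≤ 171 / 100 := by
    rw [hx, abs_mul, abs_of_pos (by positivity)]
    nlinarith [abs_nonneg z.re]
  have hyb : |y| ≤ 51 / 100 := by
    rw [hy, abs_mul, abs_of_pos (by positivity)]
    nlinarith [abs_nonneg z.im]
  have c1 := Real.one_sub_sq_div_two_le_cos (x := x)
  have c2 : x ^ 2 ≤ (171 / 100) ^ 2 := by
    rw [← sq_abs]; exact pow_le_pow_left₀ (abs_nonneg _) hxb 2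
  have c3 : y ^ 2 ≤ (51 / 100) ^ 2 := by
    rw [← sq_abs]; exact pow_le_pow_left₀ (abs_nonneg _) hyb 2
  have c4 : Real.cosh y ≤ 2 := by
    refine (Real.cosh_le_exp_half_sq y).trans ?_
    have c5 : Real.exp (y ^ 2 / 2) ≤ Real.exp (Real.log 2) := by
      rw [Real.exp_le_exp]
      have := Real.log_two_gt_d9
      linarith
    rwa [Real.exp_log (by norm_num)] at c5
  have c6 := Real.one_le_cosh y
  nlinarith [mul_nonneg (sub_nonneg.2 c6) (sub_nonneg.2 c4)]

theorem SlotB_im4 (z : ℂ) (h0 : 0 < (z + 1 / 2).re) (h1 : (z + 1 / 2).re < 1) (h2 : |z.re| ≤ 27 / 100)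
    (h3 : |z.im| ≤ 8 / 100) : |(2 * hh (z + 1 / 2)).im| < Real.pi / 2 := by
  have e1 : 2 * Complex.sin (Real.pi * (z + 1 / 2)) = 2 * cos (Real.pi * z) := by
    rw [mul_add, mul_one_div, Complex.sin_add_pi_div_two]
  have h4 := Clausen_sin_re (z + 1 / 2) h0 h1
  rw [e1] at h4
  have h5 : |(2 * cos (Real.pi * z)).arg| < Real.pi / 2 :=
    Complex.abs_arg_lt_pi_div_two_iff.2 (Or.inl h4)
  have h6 : 2 * cos (Real.pi * z) ≠ 0 := by
    intro h; rw [h] at h4; simp at h4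
  have h7 := (Complex.log_mul_eq_add_log_iff h6 h6).2 (by
    rw [abs_lt] at h5
    constructor
    · linarith [h5.1]
    · linarith [h5.2])
  have h8 : 2 * hh (z + 1 / 2) = Complex.log ((2 * cos (Real.pi * z)) * (2 * cos (Real.pi * z))) := by
    rw [h7]
    unfold hh
    rw [e1]
    ring
  rw [h8, Complex.log_im]
  exact Complex.abs_arg_lt_pi_div_two_iff.2 (Or.inl (SlotB_cos2 z h2 h3))

theorem SlotB_U (w y : ℂ) (hw : ‖w‖ < 8 / 100) (hy : ‖y - 1 / 4‖ < 2 / 100) :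
    1 - -exp (2 * (mm w y - hh (y + 1 / 2))) = exp (2 * (hh (w + 1 / 2) - hh (y + 1 / 2))) ∧
    1 - -exp (2 * (mm w y - hh (y + 1 / 2))) ∈ slitPlane ∧
    Complex.log (1 - -exp (2 * (mm w y - hh (y + 1 / 2)))) = 2 * (hh (w + 1 / 2) - hh (y + 1 / 2)) := by
  obtain ⟨⟨n0, n1⟩, ⟨p0, p1⟩, ⟨e0, e1⟩, ⟨d0, d1⟩, wr, yr, wi, yi⟩ := SlotB_re w y hw hy
  have hn := hh_exp (y - w) n0 n1
  have hp := hh_exp (y + w) p0 p1
  have he := SlotB_cos y e0 e1
  have hd := SlotB_cos w d0 d1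
  rw [mul_sub, Complex.sin_sub] at hn
  rw [mul_add, Complex.sin_add] at hp
  have e3 : exp (hh (y + 1 / 2)) ≠ 0 := Complex.exp_ne_zero _
  have main : 1 - -exp (2 * (mm w y - hh (y + 1 / 2))) =
      exp (2 * (hh (w + 1 / 2) - hh (y + 1 / 2))) := by
    have x1 : 2 * (mm w y - hh (y + 1 / 2)) =
        hh (y - w) + hh (y + w) - (hh (y + 1 / 2) + hh (y + 1 / 2)) := by
      unfold mm; ring
    have x2 : 2 * (hh (w + 1 / 2) - hh (y + 1 / 2)) =
        hh (w + 1 / 2) + hh (w + 1 / 2) - (hh (y + 1 / 2) + hh (y + 1 / 2)) := by ring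
    rw [x1, x2]
    simp only [Complex.exp_sub, Complex.exp_add]
    rw [sub_neg_eq_add, eq_div_iff (mul_ne_zero e3 e3), add_mul, one_mul,
      div_mul_cancel₀ _ (mul_ne_zero e3 e3), he, hp, hn, hd]
    have s1 := Complex.sin_sq_add_cos_sq (Real.pi * w)
    have s2 := Complex.sin_sq_add_cos_sq (Real.pi * y)
    linear_combination (4 * cos (Real.pi * w) ^ 2) * s2 - (4 * cos (Real.pi * y) ^ 2) * s1
  have i1 := SlotB_im4 w d0 d1 (by linarith) wi.le
  have i2 := SlotB_im4 y e0 e1 (by rw [abs_le]; rw [abs_lt] at yr; constructor <;> linarith [yr.1, yr.2]) yi.le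
  have i3 : |(2 * (hh (w + 1 / 2) - hh (y + 1 / 2))).im| < Real.pi := by
    rw [mul_sub, Complex.sub_im]
    refine (abs_sub _ _).trans_lt ?_
    linarith
  rw [abs_lt] at i3
  refine ⟨main, ?_, ?_⟩
  · rw [main, Complex.mem_slitPlane_iff_arg]
    refine ⟨?_, Complex.exp_ne_zero _⟩
    have hl := Complex.log_exp i3.1 i3.2.le
    have h9 : (exp (2 * (hh (w + 1 / 2) - hh (y + 1 / 2)))).arg =
        (2 * (hh (w + 1 / 2) - hh (y + 1 / 2))).im := by
      rw [← Complex.log_im, hl]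
    rw [h9]
    exact i3.2.ne
  · rw [main, Complex.log_exp i3.1 i3.2.le]

theorem SlotB_im (w y : ℂ) (hw : ‖w‖ < 8 / 100) (hy : ‖y - 1 / 4‖ < 2 / 100) (s : ℝ)
    (hs : s = 1 ∨ s = -1) :
    |(hh (w + 1 / 2) - mm w y - s * Real.pi * I / 2 + s * Real.pi * I * y + s * dl w y).im| <
        2 * Real.pi ∧
    |(hh (w + 1 / 2) - hh (y + 1 / 2) + s * Real.pi * I * y + Real.pi * I * w).im| <
        2 * Real.pi := by
  obtain ⟨⟨n0, n1⟩, ⟨p0, p1⟩, ⟨e0, e1⟩, ⟨d0, d1⟩, wr, yr, wi, yi⟩ := SlotB_re w y hw hy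
  have key : ∀ z : ℂ, 0 < z.re → z.re < 1 → |(hh z).im| < Real.pi / 2 := by
    intro z h0 h1
    unfold hh
    rw [Complex.log_im]
    exact Complex.abs_arg_lt_pi_div_two_iff.2 (Or.inl (Clausen_sin_re z h0 h1))
  have kn := abs_lt.1 (key _ n0 n1)
  have kp := abs_lt.1 (key _ p0 p1)
  have ke := abs_lt.1 (key _ e0 e1)
  have kd := abs_lt.1 (key _ d0 d1)
  have hwr := abs_lt.1 wr
  have hyr := abs_lt.1 yr
  have hpi0 := Real.pi_pos
  have q1 : ∀ (c : ℝ) (z : ℂ), (c * Real.pi * I * z).im = c * Real.pi * z.re := by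
    intro c z
    simp
  have q2 : (Real.pi * I * w).im = Real.pi * w.re := by simp
  have q3 : ∀ c : ℝ, (c * Real.pi * I / 2).im = c * Real.pi / 2 := by
    intro c
    have : (c * Real.pi * I / 2 : ℂ) = ((c * Real.pi / 2 : ℝ) : ℂ) * I := by push_cast; ring
    rw [this]; simp
  constructor
  · rcases hs with rfl | rfl
    · have x1 : hh (w + 1 / 2) - mm w y - (1 : ℝ) * Real.pi * I / 2 + (1 : ℝ) * Real.pi * I * y +
          (1 : ℝ) * dl w y = hh (w + 1 / 2) - hh (y - w) - (1 : ℝ) * Real.pi * I / 2 +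
            (1 : ℝ) * Real.pi * I * y := by
        unfold mm dl; push_cast; ring
      rw [x1, Complex.add_im, Complex.sub_im, Complex.sub_im, q1, q3, abs_lt]
      constructor <;> nlinarith [kn.1, kn.2, kd.1, kd.2, hyr.1, hyr.2]
    · have x1 : hh (w + 1 / 2) - mm w y - (-1 : ℝ) * Real.pi * I / 2 + (-1 : ℝ) * Real.pi * I * y +
          (-1 : ℝ) * dl w y = hh (w + 1 / 2) - hh (y + w) - (-1 : ℝ) * Real.pi * I / 2 +
            (-1 : ℝ) * Real.pi * I * y := by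
        unfold mm dl; push_cast; ring
      rw [x1, Complex.add_im, Complex.sub_im, Complex.sub_im, q1, q3, abs_lt]
      constructor <;> nlinarith [kp.1, kp.2, kd.1, kd.2, hyr.1, hyr.2]
  · rw [Complex.add_im, Complex.add_im, Complex.sub_im, q1, q2, abs_lt]
    rcases hs with rfl | rfl
    · constructor <;> nlinarith [ke.1, ke.2, kd.1, kd.2, hyr.1, hyr.2, hwr.1, hwr.2]
    · constructor <;> nlinarith [ke.1, ke.2, kd.1, kd.2, hyr.1, hyr.2, hwr.1, hwr.2]

theorem SlotB_hh (f : ℂ → ℂ) (f' t : ℂ) (hf : HasDerivAt f f' t) (h0 : 0 < (f t).re)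
    (h1 : (f t).re < 1) : ∃ g', HasDerivAt (fun u => hh (f u)) g' t :=
  ⟨_, HasDerivAt.comp (h₂ := hh) (h := f) t (hh_hasDerivAt (f t) h0 h1) hf⟩

theorem SlotB_ff (f : ℂ → ℂ) (f' t : ℂ) (hf : HasDerivAt f f' t) (h0 : 0 < (f t).re)
    (h1 : (f t).re < 1) : HasDerivAt (fun u => ff (f u)) (hh (f t) * f') t :=
  HasDerivAt.comp (h₂ := ff) (h := f) t (ff_hasDerivAt (f t) h0 h1) hf

/-- The difference of the two sides. -/
noncomputable def SlotB_F (s : ℝ) (w y : ℂ) : ℂ := 2 * LamT s w y -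
      (s * (-(2 * Real.pi * I * (ff (y - w) + ff (y + w))) + 4 * Real.pi * I * ff (y + 1 / 2) +
        Real.pi * I * (2 * y * (mm w y - hh (y + 1 / 2)) + 2 * w * dl w y - hh (w + 1 / 2) +
          hh (y + 1 / 2))) + (Real.pi : ℂ) ^ 2 * y - XX w y)

theorem SlotB_deriv (s : ℝ) (hs : s = 1 ∨ s = -1) (W Y : ℂ → ℂ) (W' Y' t : ℂ)
    (hW : HasDerivAt W W' t) (hY : HasDerivAt Y Y' t) (bW : ‖W t‖ < 8 / 100)
    (bY : ‖Y t - 1 / 4‖ < 2 / 100) :
    HasDerivAt (fun u => SlotB_F s (W u) (Y u)) 0 t := by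
  obtain ⟨⟨n0, n1⟩, ⟨p0, p1⟩, ⟨e0, e1⟩, ⟨d0, d1⟩, -⟩ := SlotB_re (W t) (Y t) bW bY
  have nb : ∀ᶠ u in 𝓝 t, ‖W u‖ < 8 / 100 ∧ ‖Y u - 1 / 4‖ < 2 / 100 := by
    have c1 : ContinuousAt (fun u => ‖W u‖) t := hW.continuousAt.norm
    have c2 : ContinuousAt (fun u => ‖Y u - 1 / 4‖) t :=
      (hY.continuousAt.sub continuousAt_const).norm
    exact (c1.eventually (eventually_lt_nhds bW)).and (c2.eventually (eventually_lt_nhds bY))
  obtain ⟨n', hn⟩ : ∃ n', HasDerivAt (fun u => hh (Y u - W u)) n' t :=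
    SlotB_hh (fun u => Y u - W u) _ t (hY.sub hW) n0 n1
  obtain ⟨p', hp⟩ : ∃ p', HasDerivAt (fun u => hh (Y u + W u)) p' t :=
    SlotB_hh (fun u => Y u + W u) _ t (hY.add hW) p0 p1
  obtain ⟨e', he⟩ : ∃ e', HasDerivAt (fun u => hh (Y u + 1 / 2)) e' t :=
    SlotB_hh (fun u => Y u + 1 / 2) _ t (hY.add_const _) e0 e1
  obtain ⟨d', hd⟩ : ∃ d', HasDerivAt (fun u => hh (W u + 1 / 2)) d' t :=
    SlotB_hh (fun u => W u + 1 / 2) _ t (hW.add_const _) d0 d1
  have fn : HasDerivAt (fun u => ff (Y u - W u)) (hh (Y t - W t) * (Y' - W')) t :=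
    SlotB_ff (fun u => Y u - W u) _ t (hY.sub hW) n0 n1
  have fp : HasDerivAt (fun u => ff (Y u + W u)) (hh (Y t + W t) * (Y' + W')) t :=
    SlotB_ff (fun u => Y u + W u) _ t (hY.add hW) p0 p1
  have fe : HasDerivAt (fun u => ff (Y u + 1 / 2)) (hh (Y t + 1 / 2) * Y') t :=
    SlotB_ff (fun u => Y u + 1 / 2) _ t (hY.add_const _) e0 e1
  have hm : HasDerivAt (fun u => mm (W u) (Y u)) ((n' + p') / 2) t := (hn.add hp).div_const 2
  have hδ : HasDerivAt (fun u => dl (W u) (Y u)) ((p' - n') / 2) t := (hp.sub hn).div_const 2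
  -- the Rogers pairs
  have hA : HasDerivAt (fun u => hh (W u + 1 / 2) - mm (W u) (Y u) - s * Real.pi * I / 2 +
      s * Real.pi * I * Y u + s * dl (W u) (Y u))
      (d' - (n' + p') / 2 + s * Real.pi * I * Y' + s * ((p' - n') / 2)) t :=
    (((hd.sub hm).sub_const _).add (hY.const_mul _)).add (hδ.const_mul _)
  have hB : HasDerivAt (fun u => -(hh (Y u + 1 / 2) - mm (W u) (Y u) - s * Real.pi * I / 2) -
      Real.pi * I * W u - s * dl (W u) (Y u) + Real.pi * I)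
      (-(e' - (n' + p') / 2) - Real.pi * I * W' - s * ((p' - n') / 2)) t :=
    ((((he.sub hm).sub_const _).neg.sub (hW.const_mul _)).sub (hδ.const_mul _)).add_const _
  have hC : HasDerivAt (fun u => hh (W u + 1 / 2) - hh (Y u + 1 / 2) + s * Real.pi * I * Y u +
      Real.pi * I * W u) (d' - e' + s * Real.pi * I * Y' + Real.pi * I * W') t :=
    ((hd.sub he).add (hY.const_mul _)).add (hW.const_mul _)
  have hD : HasDerivAt (fun u => hh (Y u + 1 / 2) - mm (W u) (Y u) - s * Real.pi * I / 2 -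
      Real.pi * I * W u - s * dl (W u) (Y u) + Real.pi * I)
      (e' - (n' + p') / 2 - Real.pi * I * W' - s * ((p' - n') / 2)) t :=
    ((((he.sub hm).sub_const _).sub (hW.const_mul _)).sub (hδ.const_mul _)).add_const _
  have im := SlotB_im (W t) (Y t) bW bY s hs
  have R1 := RG_hasDerivAt _ _ _ _ t hA hB
    (nb.mono fun u hu => SlotB_rel1 s hs (W u) (Y u) hu.1 hu.2) im.1
  have R2 := RG_hasDerivAt _ _ _ _ t hC hD
    (nb.mono fun u hu => SlotB_rel2 s hs (W u) (Y u) hu.1 hu.2) im.2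
  -- the dilogarithm
  have hme : HasDerivAt (fun u => 2 * (mm (W u) (Y u) - hh (Y u + 1 / 2)))
      (2 * ((n' + p') / 2 - e')) t := (hm.sub he).const_mul 2
  have hU : HasDerivAt (fun u => -exp (2 * (mm (W u) (Y u) - hh (Y u + 1 / 2))))
      (-(exp (2 * (mm (W t) (Y t) - hh (Y t + 1 / 2))) * (2 * ((n' + p') / 2 - e')))) t :=
    hme.cexp.neg
  obtain ⟨u1, u2, u3⟩ := SlotB_U (W t) (Y t) bW bY
  have hne : exp (2 * (mm (W t) (Y t) - hh (Y t + 1 / 2))) ≠ 0 := Complex.exp_ne_zero _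
  have hdil : HasDerivAt (fun u => dilog (-exp (2 * (mm (W u) (Y u) - hh (Y u + 1 / 2)))))
      (-(2 * (hh (W t + 1 / 2) - hh (Y t + 1 / 2))) * (2 * ((n' + p') / 2 - e'))) t := by
    have h1 := (dilog_hasDerivAt (-exp (2 * (mm (W t) (Y t) - hh (Y t + 1 / 2))))
      (neg_ne_zero.2 hne) u2).comp t hU
    rw [u3] at h1
    refine h1.congr_deriv ?_
    field_simp
  have hXX : HasDerivAt (fun u => XX (W u) (Y u))
      (-(2 * (hh (W t + 1 / 2) - hh (Y t + 1 / 2))) * (2 * ((n' + p') / 2 - e')) +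
        (2 * ((n' + p') / 2 - e') * (hh (W t + 1 / 2) - hh (Y t + 1 / 2)) +
          2 * (mm (W t) (Y t) - hh (Y t + 1 / 2)) * (d' - e'))) t :=
    hdil.add (hme.mul (hd.sub he))
  -- assembly
  have hL : HasDerivAt (fun u => LamT s (W u) (Y u)) _ t :=
    (((R1.neg.add R2).add ((hW.const_mul ((Real.pi : ℂ) ^ 2 / 2)).add
      (hδ.const_mul (Real.pi * I / 2 * s)))).add
      (((he.sub hm).sub_const (s * Real.pi * I / 2)).const_mul (Real.pi * I / 2))).add_const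
      ((Real.pi : ℂ) ^ 2 / 6)
  have hR := ((((((fn.add fp).const_mul (2 * Real.pi * I)).neg.add
    (fe.const_mul (4 * Real.pi * I))).add
    (((((hY.const_mul 2).mul (hm.sub he)).add ((hW.const_mul 2).mul hδ)).sub hd).add he |>.const_mul
      (Real.pi * I))).const_mul (s : ℂ)).add (hY.const_mul ((Real.pi : ℂ) ^ 2))).sub hXX
  have hF := (hL.const_mul 2).sub hR
  refine HasDerivAt.congr_deriv (f := fun u => SlotB_F s (W u) (Y u)) hF ?_
  have z1 : mm (W t) (Y t) = (hh (Y t - W t) + hh (Y t + W t)) / 2 := rfl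
  have z2 : dl (W t) (Y t) = (hh (Y t + W t) - hh (Y t - W t)) / 2 := rfl
  simp only [Pi.sub_apply, z1, z2]
  generalize hh (Y t - W t) = n
  generalize hh (Y t + W t) = p
  generalize hh (Y t + 1 / 2) = e
  generalize hh (W t + 1 / 2) = d
  rcases hs with rfl | rfl
  · push_cast
    ring_nf
    simp only [I_sq]
    ring
  · push_cast
    ring_nf
    simp only [I_sq]
    ring

theorem SlotB_hh4 : hh (1 / 4) = (Real.log 2 : ℂ) / 2 := by
  have h := hh_real (1 / 4) (by norm_num) (by norm_num)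
  have e : ((1 / 4 : ℝ) : ℂ) = 1 / 4 := by push_cast; ring
  rw [e] at h
  rw [h]
  have e2 : Real.pi * (1 / 4) = Real.pi / 4 := by ring
  rw [e2, Real.sin_pi_div_four]
  have e3 : 2 * (Real.sqrt 2 / 2) = Real.sqrt 2 := by ring
  rw [e3, Real.log_sqrt (by norm_num)]
  push_cast
  ring

theorem SlotB_hh2 : hh (1 / 2) = (Real.log 2 : ℂ) := by
  have h := hh_real (1 / 2) (by norm_num) (by norm_num)
  have e : ((1 / 2 : ℝ) : ℂ) = 1 / 2 := by push_cast; ring
  rw [e] at h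
  rw [h]
  have e2 : Real.pi * (1 / 2) = Real.pi / 2 := by ring
  rw [e2, Real.sin_pi_div_two, mul_one]

theorem SlotB_exp (s : ℝ) (hs : s = 1 ∨ s = -1) :
    exp ((Real.log 2 : ℂ) / 2 + s * (Real.pi * I / 4)) = 1 + s * I := by
  have h1 : exp ((Real.log 2 : ℂ) / 2) = ((Real.sqrt 2 : ℝ) : ℂ) := by
    have : ((Real.log 2 : ℂ) / 2) = ((Real.log 2 / 2 : ℝ) : ℂ) := by push_cast; ring
    rw [this, ← Complex.ofReal_exp, Real.exp_half, Real.exp_log (by norm_num)]
  have h2 : exp (s * (Real.pi * I / 4)) =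
      ((Real.sqrt 2 / 2 : ℝ) : ℂ) + s * ((Real.sqrt 2 / 2 : ℝ) : ℂ) * I := by
    have e4 : (Real.pi / 4 : ℂ) = ((Real.pi / 4 : ℝ) : ℂ) := by push_cast; ring
    rcases hs with rfl | rfl
    · have : (((1 : ℝ) : ℂ) * (Real.pi * I / 4)) = (Real.pi / 4 : ℂ) * I := by push_cast; ring
      rw [this, Complex.exp_mul_I, e4, ← Complex.ofReal_cos, ← Complex.ofReal_sin,
        Real.cos_pi_div_four, Real.sin_pi_div_four]
      push_cast
      ring
    · have : (((-1 : ℝ) : ℂ) * (Real.pi * I / 4)) = -(Real.pi / 4 : ℂ) * I := by push_cast; ring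
      rw [this, Complex.exp_mul_I, Complex.cos_neg, Complex.sin_neg, e4, ← Complex.ofReal_cos,
        ← Complex.ofReal_sin, Real.cos_pi_div_four, Real.sin_pi_div_four]
      push_cast
      ring
  rw [Complex.exp_add, h1, h2]
  have h3 : ((Real.sqrt 2 : ℝ) : ℂ) * ((Real.sqrt 2 : ℝ) : ℂ) = 2 := by
    rw [← Complex.ofReal_mul, Real.mul_self_sqrt (by norm_num)]
    norm_num
  push_cast
  linear_combination (1 / 2 + s * I / 2) * h3

theorem SlotB_log (s : ℝ) (hs : s = 1 ∨ s = -1) : Complex.log (-(s * I)) = -(s * (Real.pi / 2) * I) := by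
  rcases hs with rfl | rfl
  · have : -(((1 : ℝ) : ℂ) * I) = -I := by push_cast; ring
    rw [this, Complex.log_neg_I]
    push_cast
    ring
  · have : -(((-1 : ℝ) : ℂ) * I) = I := by push_cast; ring
    rw [this, Complex.log_I]
    push_cast
    ring

theorem SlotB_GG (s : ℝ) (hs : s = 1 ∨ s = -1) :
    GG ((Real.log 2 : ℂ) / 2 + s * (Real.pi * I / 4)) =
      (Real.pi : ℂ) ^ 2 / 6 - dilog (-(s * I)) := by
  have him : ((Real.log 2 : ℂ) / 2 + s * (Real.pi * I / 4)).im = s * Real.pi / 4 := by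
    have : ((Real.log 2 : ℂ) / 2 + s * (Real.pi * I / 4)) =
        ((Real.log 2 / 2 : ℝ) : ℂ) + ((s * Real.pi / 4 : ℝ) : ℂ) * I := by push_cast; ring
    rw [this]
    simp only [Complex.add_im, Complex.mul_im, Complex.ofReal_im, Complex.ofReal_re, Complex.I_im,
      Complex.I_re]
    ring
  have hpi := Real.pi_pos
  have hims : |s * Real.pi / 4| = Real.pi / 4 := by
    rcases hs with rfl | rfl
    · rw [one_mul, abs_of_pos (by positivity)]
    · rw [neg_one_mul, neg_div, abs_neg, abs_of_pos (by positivity)]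
  have h1 := GG_dilog ((Real.log 2 : ℂ) / 2 + s * (Real.pi * I / 4)) (by
    rw [him, hims]; linarith) (Or.inl (by
      rw [him]
      intro h
      rw [h] at hims
      simp at hims
      linarith))
  have hb := abs_le.1 hims.le
  have hlog : Complex.log (1 + s * I) = (Real.log 2 : ℂ) / 2 + s * (Real.pi * I / 4) := by
    rw [← SlotB_exp s hs, Complex.log_exp]
    · rw [him]; linarith [hb.1]
    · rw [him]; linarith [hb.2]
  have hslit1 : -(s * I) ∈ slitPlane := by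
    right
    rcases hs with rfl | rfl <;> simp
  have hslit2 : 1 - -(s * I) ∈ slitPlane := by
    left
    simp
  have h2 := dilog_compl (-(s * I)) hslit1 hslit2
  rw [SlotB_log s hs, sub_neg_eq_add, hlog] at h2
  rw [h1, SlotB_exp s hs]
  have h3 : 1 - (1 + s * I) = -(s * I) := by ring
  rw [h3, SlotB_log s hs]
  linear_combination h2

theorem SlotB_ff4 : 2 * Real.pi * I * ff (1 / 4) = -dilog I + (Real.pi : ℂ) ^ 2 * (-1 / 48) := by
  have e : ((1 / 4 : ℂ)).re = 1 / 4 := by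
    rw [show ((1 : ℂ) / 4) = ((1 / 4 : ℝ) : ℂ) by push_cast; ring, Complex.ofReal_re]
  have h := ff_dilog (1 / 4) (by rw [e]; norm_num) (by rw [e]; norm_num)
  have e2 : exp (2 * Real.pi * I * (1 / 4)) = I := by
    rw [show (2 * Real.pi * I * (1 / 4) : ℂ) = (Real.pi / 2) * I by ring, SlotB_exp_half']
  rw [e2] at h
  rw [h]
  ring

theorem SlotB_ff34 : 2 * Real.pi * I * ff (1 / 4) = dilog (-I) + (Real.pi : ℂ) ^ 2 * (1 / 48) := by
  have e : ((3 / 4 : ℂ)).re = 3 / 4 := by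
    rw [show ((3 : ℂ) / 4) = ((3 / 4 : ℝ) : ℂ) by push_cast; ring, Complex.ofReal_re]
  have h := ff_dilog (3 / 4) (by rw [e]; norm_num) (by rw [e]; norm_num)
  have e2 : exp (2 * Real.pi * I * (3 / 4)) = -I := by
    rw [show (2 * Real.pi * I * (3 / 4) : ℂ) = Real.pi * I + (Real.pi / 2) * I by ring,
      Complex.exp_add, SlotB_exp_half', Complex.exp_pi_mul_I]
    ring
  have e3 : ff (3 / 4) = -ff (1 / 4) := by
    rw [← ff_reflect]
    congr 1
    norm_num
  rw [e2, e3] at h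
  linear_combination -h

theorem SlotB_const (s : ℝ) (hs : s = 1 ∨ s = -1) : SlotB_F s 0 (1 / 4) = 0 := by
  have a1 : mm 0 (1 / 4) = (Real.log 2 : ℂ) / 2 := by
    unfold mm
    rw [sub_zero, add_zero, SlotB_hh4]
    ring
  have a2 : dl 0 (1 / 4) = 0 := by
    unfold dl
    rw [sub_zero, add_zero]
    ring
  have a3 : hh ((1 : ℂ) / 4 + 1 / 2) = (Real.log 2 : ℂ) / 2 := by
    rw [← SlotB_hh4, ← hhx_refl]
    congr 1
    norm_num
  have a4 : ff ((1 : ℂ) / 4 + 1 / 2) = -ff (1 / 4) := by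
    rw [← ff_reflect]
    congr 1
    norm_num
  have a5 : XX 0 (1 / 4) = -((Real.pi : ℂ) ^ 2 / 12) := by
    unfold XX
    rw [a1, a3, sub_self, mul_zero, Complex.exp_zero, dilog_neg_one]
    ring
  unfold SlotB_F LamT
  rw [a1, a2, a3, a4, a5, zero_add, SlotB_hh2, sub_zero, add_zero]
  have b1 : (Real.log 2 : ℂ) - (Real.log 2 : ℂ) / 2 - s * Real.pi * I / 2 + s * Real.pi * I * (1 / 4) +
      s * 0 = (Real.log 2 : ℂ) / 2 + ((-s : ℝ) : ℂ) * (Real.pi * I / 4) := by push_cast; ring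
  have b2 : (Real.log 2 : ℂ) - (Real.log 2 : ℂ) / 2 + s * Real.pi * I * (1 / 4) + Real.pi * I * 0 =
      (Real.log 2 : ℂ) / 2 + (s : ℂ) * (Real.pi * I / 4) := by ring
  have hs' : -s = 1 ∨ -s = -1 := by
    rcases hs with rfl | rfl
    · right; rfl
    · left; norm_num
  rw [b1, b2, SlotB_GG s hs, SlotB_GG (-s) hs']
  have c1 := SlotB_ff4
  have c2 := SlotB_ff34
  rcases hs with rfl | rfl
  · have d1 : -((((-(1 : ℝ)) : ℝ) : ℂ) * I) = I := by push_cast; ring
    have d2 : -(((1 : ℝ) : ℂ) * I) = -I := by push_cast; ring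
    rw [d1, d2]
    push_cast
    linear_combination (2 : ℂ) * c1 + (2 : ℂ) * c2
  · have d1 : -((((-(-1 : ℝ)) : ℝ) : ℂ) * I) = -I := by push_cast; ring
    have d2 : -(((-1 : ℝ) : ℂ) * I) = I := by push_cast; ring
    rw [d1, d2]
    push_cast
    linear_combination (-2 : ℂ) * c1 + (-2 : ℂ) * c2

theorem slot_comp (s : ℝ) (hs : s = 1 ∨ s = -1) (w y : ℂ) (hw : ‖w‖ ≤ 7 / 100)
    (hy : ‖y - 1 / 4‖ ≤ 1 / 100) :
    2 * LamT s w y =
      s * (-(2 * Real.pi * I * (ff (y - w) + ff (y + w))) + 4 * Real.pi * I * ff (y + 1 / 2) +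
        Real.pi * I * (2 * y * (mm w y - hh (y + 1 / 2)) + 2 * w * dl w y - hh (w + 1 / 2) +
          hh (y + 1 / 2))) + (Real.pi : ℂ) ^ 2 * y - XX w y := by
  have key : ∀ t ∈ Metric.closedBall (0 : ℂ) 1,
      HasDerivAt (fun u => SlotB_F s (u * w) (1 / 4 + u * (y - 1 / 4))) 0 t := by
    intro t ht
    rw [mem_closedBall_zero_iff] at ht
    refine SlotB_deriv s hs (fun u => u * w) (fun u => 1 / 4 + u * (y - 1 / 4)) w (y - 1 / 4) t
      ?_ ?_ ?_ ?_
    · simpa using (hasDerivAt_id t).mul_const w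
    · simpa using ((hasDerivAt_id t).mul_const (y - 1 / 4)).const_add (1 / 4)
    · simp only [norm_mul]
      nlinarith [norm_nonneg w, norm_nonneg t]
    · simp only [add_sub_cancel_left, norm_mul]
      nlinarith [norm_nonneg (y - 1 / 4), norm_nonneg t]
  have h := (convex_closedBall (0 : ℂ) 1).norm_image_sub_le_of_norm_hasDerivWithin_le
    (f := fun u => SlotB_F s (u * w) (1 / 4 + u * (y - 1 / 4))) (f' := fun _ => 0) (C := 0)
    (fun t ht => (key t ht).hasDerivWithinAt) (fun _ _ => by simp)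
    (Metric.mem_closedBall_self zero_le_one) (show (1 : ℂ) ∈ Metric.closedBall 0 1 by simp)
  simp only [zero_mul, add_zero, one_mul, add_sub_cancel] at h
  rw [SlotB_const s hs, sub_zero] at h
  have h2 : SlotB_F s w y = 0 := norm_le_zero_iff.1 h
  unfold SlotB_F at h2
  exact sub_eq_zero.1 h2

end Pool.Agent.H63.VC5
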