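import Pool.Agent.H63.VC5.SlotA
import Pool.Agent.H63.VC5.SlotB

/-! # The contribution of a slot -/

namespace Pool.Agent.H63.VC5

open Pool.Agent.H63.VC Pool.Agent.H63.VC3 Pool.Agent.H63.VC4 Complex Filter Topology
open scoped BigOperators

theorem SlotC_mm (v y : ℂ) : mm (-v) y = mm v y := by
  unfold mm
  rw [sub_neg_eq_add, ← sub_eq_add_neg, add_comm]

theorem SlotC_dl (v y : ℂ) : dl (-v) y = -dl v y := by
  unfold dl
  rw [sub_neg_eq_add, ← sub_eq_add_neg]
  ring

theorem SlotC_hh (v : ℂ) : hh (-v + 1 / 2) = hh (v + 1 / 2) := by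
  rw [← hhx_refl (v + 1 / 2)]
  congr 1
  ring

theorem SlotC_bet (v y b : ℂ) (hb : b = bet v (some y) / (2 * Real.pi)) :
    Real.pi * I * b = dl v y := by
  have hpi : (Real.pi : ℂ) ≠ 0 := Complex.ofReal_ne_zero.2 Real.pi_ne_zero
  rw [hb]
  unfold bet dl
  field_simp
  linear_combination (-(hh (y + v) - hh (y - v))) * Complex.I_sq

theorem slot_lam (s : ℝ) (v y b : ℂ) (hv : ‖v‖ ≤ 7 / 100) (hy : ‖y - 1 / 4‖ ≤ 1 / 100)
    (hb : b = bet v (some y) / (2 * Real.pi)) (hd : Dm s (s * v) b) :
    s * (2 * Lam (s * v) b) + Real.pi * I * (hh (s * v + b) - hh (s * v)) =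
      SlotT s v y - Real.pi * v * bet v (some y) := by
  have h0 := slot_h0 s v y b hv hy hb hd
  have h1 := slot_h1 s v y b hv hy hb hd
  have hpb := SlotC_bet v y b hb
  have hbet : Real.pi * v * bet v (some y) = -(2 * Real.pi * I * v * dl v y) := by
    unfold bet dl
    ring
  have hI : I * I = -1 := Complex.I_mul_I
  have hds : (s : ℂ) * dl (s * v) y = dl v y := by
    rcases hd.hs with rfl | rfl
    · simp
    · push_cast
      rw [neg_one_mul, neg_one_mul, SlotC_dl, neg_neg]
  have hms : mm (s * v) y = mm v y := by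
    rcases hd.hs with rfl | rfl
    · simp
    · push_cast
      rw [neg_one_mul, SlotC_mm]
  have hhs : hh (s * v + 1 / 2) = hh (v + 1 / 2) := by
    rcases hd.hs with rfl | rfl
    · simp
    · push_cast
      rw [neg_one_mul, SlotC_hh]
  have hss : (s : ℂ) * s = 1 := by
    rcases hd.hs with rfl | rfl
    · simp
    · push_cast; ring
  have hsv : ‖(s : ℂ) * v‖ ≤ 7 / 100 := by
    rcases hd.hs with rfl | rfl
    · simpa using hv
    · simpa using hv
  have hXX : XX (s * v) y = XX v y := by
    unfold XX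
    rw [hms, hhs]
  have hLT : Lam (s * v) b = LamT s (s * v) y := by
    unfold Lam LamT
    have e1 : hh (s * v + b) - hh (s * v) + Real.pi * I * b =
        hh (s * v + 1 / 2) - mm (s * v) y - s * Real.pi * I / 2 + s * Real.pi * I * y +
          s * dl (s * v) y := by
      rw [h1, hpb, hds, hms, hhs]
    have e2 : hh (s * v + b) - hh b + Real.pi * I * (s * v) =
        hh (s * v + 1 / 2) - hh (y + 1 / 2) + s * Real.pi * I * y + Real.pi * I * (s * v) := by
      rw [hhs]
      linear_combination h1 - h0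
    rw [e1, e2]
    have e3 : hh b - hh (s * v) = hh (y + 1 / 2) - mm (s * v) y - s * Real.pi * I / 2 := by
      rw [hms]; exact h0
    rw [e3]
    have e4 : (Real.pi : ℂ) * I * b = s * dl (s * v) y := by rw [hds, hpb]
    have e5 : (Real.pi : ℂ) ^ 2 / 2 * (s * v - b) =
        (Real.pi : ℂ) ^ 2 / 2 * (s * v) + Real.pi * I / 2 * s * dl (s * v) y := by
      linear_combination (Real.pi * I / 2) * e4 - ((Real.pi : ℂ) ^ 2 / 2 * b) * hI
    rw [e5]
    have e6 : -(hh (y + 1 / 2) - mm (s * v) y - s * Real.pi * I / 2) -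
        Real.pi * I * (s * v + b) + Real.pi * I =
        -(hh (y + 1 / 2) - mm (s * v) y - s * Real.pi * I / 2) -
        Real.pi * I * (s * v) - s * dl (s * v) y + Real.pi * I := by
      linear_combination -e4
    have e7 : hh (y + 1 / 2) - mm (s * v) y - s * Real.pi * I / 2 -
        Real.pi * I * (s * v + b) + Real.pi * I =
        hh (y + 1 / 2) - mm (s * v) y - s * Real.pi * I / 2 -
        Real.pi * I * (s * v) - s * dl (s * v) y + Real.pi * I := by
      linear_combination -e4
    rw [e6, e7]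
  have hc := slot_comp s hd.hs (s * v) y hsv hy
  have hff : ff (y - s * v) + ff (y + s * v) = ff (y - v) + ff (y + v) := by
    rcases hd.hs with rfl | rfl
    · simp
    · push_cast
      rw [neg_one_mul, sub_neg_eq_add, ← sub_eq_add_neg, add_comm]
  have hvd : s * v * dl (s * v) y = v * dl v y := by
    linear_combination v * hds
  rw [hff, hms, hhs, hXX] at hc
  rw [hLT, hbet, h1, hc]
  unfold SlotT
  linear_combination (-(2 * Real.pi * I * (ff (y - v) + ff (y + v))) +
    4 * Real.pi * I * ff (y + 1 / 2) + Real.pi * I * (2 * y * (mm v y - hh (y + 1 / 2)) +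
      2 * (v * dl v y) - hh (v + 1 / 2) + hh (y + 1 / 2))) * hss +
    (s * s * (Real.pi * I) * 2) * hvd + (s * (Real.pi : ℂ) ^ 2 * (y - 1 / 2)) * hI

end Pool.Agent.H63.VC5
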