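import Pool.Agent.H63.VC4.ChainGeo
import Pool.Agent.H63.VC5.CVDefs

/-! # The Farey path of a chain -/

namespace Pool.Agent.H63.VC5

open Pool.Agent.H63.VC Pool.Agent.H63.VC3 Pool.Agent.H63.VC4 Complex Filter Topology
open scoped BigOperators

/-- The numbers of the pivots. -/
def lp (r : ℕ → ℤ) : ℕ → ℕ
  | 0 => if r 0 < 0 then 1 else 2
  | i + 1 => oo r i + 2 * (r i).natAbs + 1

/-- The numbers of the slopes of a fan. -/
def ls (r : ℕ → ℤ) (i k : ℕ) : ℕ :=
  if k = 0 then (if i = 0 then 0 else lp r (i - 1))
  else if k = 1 then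
    (if i = 0 then (if r 0 < 0 then 2 else 1)
      else if 0 < r (i - 1) * r i then oo r (i - 1) + 2 * (r (i - 1)).natAbs else oo r i + 2)
  else oo r i + k + 1

/-- The class of the slope of the knot. -/
def om (r : ℕ → ℤ) : Fin 3 := if r 0 < 0 then 1 else 2

/-- The classes of the pivots. -/
def cP (r : ℕ → ℤ) (i : ℕ) : Fin 3 := if Even i then om r else 0

/-- The classes of the slopes of a fan. -/
def cS (r : ℕ → ℤ) (i k : ℕ) : Fin 3 :=
  if Even k then (if Even i then 0 else om r) else -om r

theorem Tri_ls_ge (r : ℕ → ℤ) (i k : ℕ) (hk : 2 ≤ k) : ls r i k = oo r i + k + 1 := by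
  unfold ls
  rw [if_neg (by omega), if_neg (by omega)]

theorem Tri_ls_zero (r : ℕ → ℤ) (i : ℕ) : ls r (i + 1) 0 = lp r i := by
  unfold ls
  rw [if_pos rfl, if_neg (by omega)]
  rfl

theorem Tri_ls_one_same (r : ℕ → ℤ) (i : ℕ) (h : 0 < r i * r (i + 1)) :
    ls r (i + 1) 1 = oo r i + 2 * (r i).natAbs := by
  unfold ls
  rw [if_neg one_ne_zero, if_pos rfl, if_neg (by omega)]
  simp only [Nat.add_sub_cancel]
  rw [if_pos h]

theorem Tri_ls_one_opp (r : ℕ → ℤ) (i : ℕ) (h : r i * r (i + 1) < 0) :
    ls r (i + 1) 1 = oo r (i + 1) + 2 := by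
  unfold ls
  rw [if_neg one_ne_zero, if_pos rfl, if_neg (by omega)]
  simp only [Nat.add_sub_cancel]
  rw [if_neg (by omega)]

theorem Tri_cS_succ (r : ℕ → ℤ) (i k : ℕ) : cS r i (k + 2) = cS r i k := by
  unfold cS
  have h : Even (k + 2) ↔ Even k := by
    rw [Nat.even_add]; simp
  simp only [h]

theorem Tri_cS_even (r : ℕ → ℤ) (i k : ℕ) (hk : Even k) : cS r i k = cP r (i + 1) := by
  unfold cS cP
  rw [if_pos hk]
  by_cases h : Even i
  · have h' : ¬ Even (i + 1) := by rw [Nat.even_add_one]; simpa using h
    rw [if_pos h, if_neg h']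
  · have h' : Even (i + 1) := by rw [Nat.even_add_one]; exact h
    rw [if_neg h, if_pos h']

theorem Tri_cS_odd (r : ℕ → ℤ) (i k : ℕ) (hk : ¬ Even k) : cS r i k = -om r := by
  unfold cS
  rw [if_neg hk]

theorem Tri_cS_zero (r : ℕ → ℤ) (i : ℕ) : cS r (i + 1) 0 = cP r i := by
  rw [Tri_cS_even r (i + 1) 0 (by simp)]
  unfold cP
  have h : Even (i + 1 + 1) ↔ Even i := by
    rw [Nat.even_add_one, Nat.even_add_one]; simp
  simp only [h]

theorem Tri_main (r : ℕ → ℤ) (R : ℕ) (hr : ∀ i, i < R + 1 → 2 ≤ (r i).natAbs)
    (hr0 : ∀ i, i < R → r i * r (i + 1) ≠ 0) (idx : ℕ) : ∀ (i k : ℕ) (_hi : i ≤ R) (_hk : 1 ≤ k)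
    (_hidx : idx + 1 = oo r i + k) (_h2 : i < R → oo r i + k ≤ oo r (i + 1)),
    slo (turn (conway ((List.range (R + 1)).map r)) (decide (r 0 < 0))) idx =
      (if r i < 0 then (lp r i, ls r i k, ls r i (k - 1))
        else (ls r i k, lp r i, ls r i (k - 1))) ∧
    cls (turn (conway ((List.range (R + 1)).map r)) (decide (r 0 < 0))) idx =
      (if r i < 0 then (cP r i, cS r i k, cS r i (k - 1))
        else (cS r i k, cP r i, cS r i (k - 1))) ∧
    turn (conway ((List.range (R + 1)).map r)) (decide (r 0 < 0)) idx =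
      (if i < R ∧ oo r i + k = oo r (i + 1) then !(decide (r i < 0)) else decide (r i < 0)) := by
  induction idx with
  | zero =>
    intro i k hi hk hidx h2
    have hi0 : i = 0 := by
      by_contra h
      have h3 := ChainGeo_oo_strict hr (i := 0) (j := i) (by omega) (by omega)
      omega
    subst hi0
    have h00 : oo r 0 = 0 := rfl
    have hk1 : k = 1 := by omega
    subst hk1
    have hlast : ¬(0 < R ∧ oo r 0 + 1 = oo r (0 + 1)) := by
      rintro ⟨h3, h4⟩
      have h5 := ChainGeo_oo_strict hr (i := 0) (j := 0 + 1) (by omega) (by omega)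
      omega
    refine ⟨?_, ?_, ?_⟩
    · by_cases h : r 0 < 0
      · simp [slo, lp, ls, h]
      · simp [slo, lp, ls, h]
    · by_cases h : r 0 < 0
      · simp [cls, cP, cS, om, h]
        decide
      · simp [cls, cP, cS, om, h]
        decide
    · rw [if_neg hlast]
      rfl
  | succ idx ih =>
    intro i k hi hk hidx h2
    have hhinge := ChainGeo_hinge hr hi hk hidx h2
    rcases Nat.lt_or_ge 1 k with hk2 | hk1
    · -- the same region
      obtain ⟨k, rfl⟩ : ∃ k', k = k' + 1 := ⟨k - 1, by omega⟩
      have h2' : i < R → oo r i + k ≤ oo r (i + 1) := fun h => by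
        have := h2 h
        omega
      obtain ⟨g1, g2, g3⟩ := ih i k hi (by omega) (by omega) h2'
      have hnl : ¬(i < R ∧ oo r i + k = oo r (i + 1)) := by
        rintro ⟨h3, h4⟩
        have := h2 h3
        omega
      rw [if_neg hnl] at g3
      have hls : ls r i (k + 1) = idx + 3 := by
        rw [Tri_ls_ge r i (k + 1) (by omega)]
        omega
      have hcs : cS r i (k - 1) = cS r i (k + 1) := by
        obtain ⟨k', rfl⟩ : ∃ k', k = k' + 1 := ⟨k - 1, by omega⟩
        rw [Nat.add_sub_cancel, Tri_cS_succ]
      refine ⟨?_, ?_, ?_⟩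
      · rw [slo, g1, g3, Nat.add_sub_cancel, hls]
        by_cases h : r i < 0
        · simp [h]
        · simp [h]
      · rw [cls, g2, g3, Nat.add_sub_cancel, hcs]
        by_cases h : r i < 0
        · simp [h]
        · simp [h]
      · rw [turn, g3]
        by_cases h : i < R ∧ oo r i + (k + 1) = oo r (i + 1)
        · rw [if_pos (hhinge.2 (Or.inl h)), if_pos h]
        · rw [if_neg h, if_neg]
          intro h'
          rcases hhinge.1 h' with h'' | h''
          · exact h h''
          · omega
    · -- the first layer of a region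
      have hk1 : k = 1 := by omega
      subst hk1
      have h00 : oo r 0 = 0 := rfl
      have hi0 : i ≠ 0 := by
        rintro rfl
        omega
      obtain ⟨j, rfl⟩ : ∃ j, i = j + 1 := ⟨i - 1, by omega⟩
      have hpj := hr j (by omega)
      have hjle := ChainGeo_oo_step hr (i := j) (by omega)
      have hnl : ¬(j + 1 < R ∧ oo r (j + 1) + 1 = oo r (j + 1 + 1)) := by
        rintro ⟨h3, h4⟩
        have := ChainGeo_oo_strict hr (i := j + 1) (j := j + 1 + 1) (by omega) (by omega)
        omega
      rw [if_neg hnl]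
      rcases lt_or_gt_of_ne (hr0 j (by omega)) with hs | hs
      · -- opposite signs
        have h7 := ChainGeo_oo_opp r hs
        obtain ⟨g1, g2, g3⟩ := ih j (2 * (r j).natAbs) (by omega) (by omega) (by omega)
          (fun _ => by omega)
        rw [if_pos ⟨by omega, by omega⟩] at g3
        have e1 : ls r j (2 * (r j).natAbs) = lp r (j + 1) := by
          rw [Tri_ls_ge r j _ (by omega)]
          rfl
        have e2 : ls r (j + 1) 1 = idx + 3 := by
          rw [Tri_ls_one_opp r j hs]
          omega
        have e3 : ls r (j + 1) (1 - 1) = lp r j := Tri_ls_zero r j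
        have e4 : cS r j (2 * (r j).natAbs) = cP r (j + 1) := Tri_cS_even r j _ (by simp)
        have e5 : cS r j (2 * (r j).natAbs - 1) = cS r (j + 1) 1 := by
          rw [Tri_cS_odd r (j + 1) 1 (by simp), Tri_cS_odd r j]
          rw [Nat.not_even_iff_odd]
          exact ⟨(r j).natAbs - 1, by omega⟩
        have e6 : cS r (j + 1) (1 - 1) = cP r j := Tri_cS_zero r j
        rw [e1] at g1
        rw [e4, e5] at g2
        have hnh : ¬ IsHinge (conway ((List.range (R + 1)).map r)) (idx + 1) := by
          intro h
          rcases hhinge.1 h with h' | h'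
          · exact hnl h'
          · have h9 := h'.2.2
            rw [Nat.add_sub_cancel] at h9
            omega
        have hsign : (r (j + 1) < 0) ↔ ¬ (r j < 0) := by
          constructor
          · intro h h'
            have := mul_pos_of_neg_of_neg h' h
            omega
          · intro h
            by_contra h'
            have := mul_nonneg (not_lt.1 h) (not_lt.1 h')
            omega
        refine ⟨?_, ?_, ?_⟩
        · rw [slo, g1, g3, e2, e3]
          by_cases h : r j < 0
          · simp [h, hsign]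
          · simp [h, hsign]
        · rw [cls, g2, g3, e6]
          by_cases h : r j < 0
          · simp [h, hsign]
          · simp [h, hsign]
        · rw [turn, if_neg hnh, g3]
          by_cases h : r j < 0
          · simp [h, hsign]
          · simp [h, hsign]
      · -- equal signs
        have h7 := ChainGeo_oo_same r hs
        obtain ⟨g1, g2, g3⟩ := ih j (2 * (r j).natAbs - 1) (by omega) (by omega) (by omega)
          (fun _ => by omega)
        rw [if_pos ⟨by omega, by omega⟩] at g3
        have e1 : ls r j (2 * (r j).natAbs - 1) = ls r (j + 1) 1 := by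
          rw [Tri_ls_ge r j _ (by omega), Tri_ls_one_same r j hs]
          omega
        have e2 : lp r (j + 1) = idx + 3 := by
          show oo r j + 2 * (r j).natAbs + 1 = idx + 3
          omega
        have e3 : ls r (j + 1) (1 - 1) = lp r j := Tri_ls_zero r j
        have e4 : cS r j (2 * (r j).natAbs - 1) = cS r (j + 1) 1 := by
          rw [Tri_cS_odd r (j + 1) 1 (by simp), Tri_cS_odd r j]
          rw [Nat.not_even_iff_odd]
          exact ⟨(r j).natAbs - 1, by omega⟩
        have e5 : cS r j (2 * (r j).natAbs - 1 - 1) = cP r (j + 1) := by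
          rw [show 2 * (r j).natAbs - 1 - 1 = 2 * ((r j).natAbs - 1) by omega]
          exact Tri_cS_even r j _ (by simp)
        have e6 : cS r (j + 1) (1 - 1) = cP r j := Tri_cS_zero r j
        rw [e1] at g1
        rw [e4, e5] at g2
        have hh : IsHinge (conway ((List.range (R + 1)).map r)) (idx + 1) :=
          hhinge.2 (Or.inr ⟨by omega, rfl, by simpa using hs⟩)
        have hsign : (r (j + 1) < 0) ↔ (r j < 0) := by
          constructor
          · intro h
            by_contra h'
            have := mul_nonpos_of_nonneg_of_nonpos (not_lt.1 h') h.le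
            omega
          · intro h
            by_contra h'
            have := mul_nonpos_of_nonpos_of_nonneg h.le (not_lt.1 h')
            omega
        refine ⟨?_, ?_, ?_⟩
        · rw [slo, g1, g3, e2, e3]
          by_cases h : r j < 0
          · simp [h, hsign]
          · simp [h, hsign]
        · rw [cls, g2, g3, e6]
          by_cases h : r j < 0
          · simp [h, hsign]
          · simp [h, hsign]
        · rw [turn, if_pos hh, g3]
          by_cases h : r j < 0
          · simp [h, hsign]
          · simp [h, hsign]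

theorem tri_layer (r : ℕ → ℤ) (R : ℕ) (hR : 1 ≤ R) (hr : ∀ i, i < R + 1 → 2 ≤ (r i).natAbs)
    (hr0 : ∀ i, i < R → r i * r (i + 1) ≠ 0) (i k idx : ℕ) (hi : i ≤ R) (hk : 1 ≤ k)
    (hidx : idx + 1 = oo r i + k) (h2 : i < R → oo r i + k ≤ oo r (i + 1))
    (h3 : i = R → k ≤ 2 * (r R).natAbs - 1) :
    slo (turn (conway ((List.range (R + 1)).map r)) (decide (r 0 < 0))) idx =
      (if r i < 0 then (lp r i, ls r i k, ls r i (k - 1))
        else (ls r i k, lp r i, ls r i (k - 1))) ∧
    cls (turn (conway ((List.range (R + 1)).map r)) (decide (r 0 < 0))) idx =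
      (if r i < 0 then (cP r i, cS r i k, cS r i (k - 1))
        else (cS r i k, cP r i, cS r i (k - 1))) := by
  obtain ⟨g1, g2, -⟩ := Tri_main r R hr hr0 idx i k hi hk hidx h2
  exact ⟨g1, g2⟩

end Pool.Agent.H63.VC5
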