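import Pool.Agent.H63.VC5.Defs
import Pool.Agent.H63.VC5.Tri

/-! # The labels of the slopes -/

namespace Pool.Agent.H63.VC5

open Pool.Agent.H63.VC Pool.Agent.H63.VC3 Pool.Agent.H63.VC4 Complex Filter Topology
open scoped BigOperators

/-- The label function. -/
noncomputable def Lab_l (r : ℕ → ℤ) (R : ℕ) (LP : ℕ → ℂ) (lam : ℕ → ℕ → ℂ) (n : ℕ) : ℂ :=
  if n ≤ 1 then LP 0
  else if 0 < ChainGeo_reg r R (n - 2) ∧ n - 1 - oo r (ChainGeo_reg r R (n - 2)) = 1 ∧
      0 < r (ChainGeo_reg r R (n - 2) - 1) * r (ChainGeo_reg r R (n - 2)) then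
    LP (ChainGeo_reg r R (n - 2))
  else lam (ChainGeo_reg r R (n - 2)) (n - 1 - oo r (ChainGeo_reg r R (n - 2)))

theorem Lab_gen {r : ℕ → ℤ} {R : ℕ} (hr : ∀ i, i < R + 1 → 2 ≤ (r i).natAbs) (LP : ℕ → ℂ)
    (lam : ℕ → ℕ → ℂ) {i k n : ℕ} (hi : i ≤ R) (hk : 1 ≤ k) (hn : n = oo r i + k + 1)
    (h2 : i < R → oo r i + k ≤ oo r (i + 1)) (hsp : ¬(0 < i ∧ k = 1 ∧ 0 < r (i - 1) * r i)) :
    Lab_l r R LP lam n = lam i k := by
  have h := ChainGeo_reg_eq (idx := n - 2) hr hi hk (by omega) h2
  have e : n - 1 - oo r i = k := by omega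
  unfold Lab_l
  rw [if_neg (by omega), h, e, if_neg hsp]

theorem Lab_spec {r : ℕ → ℤ} {R : ℕ} (hr : ∀ i, i < R + 1 → 2 ≤ (r i).natAbs) (LP : ℕ → ℂ)
    (lam : ℕ → ℕ → ℂ) {i n : ℕ} (hi : i < R) (hn : n = oo r (i + 1) + 2)
    (hs : 0 < r i * r (i + 1)) :
    Lab_l r R LP lam n = LP (i + 1) := by
  have h := ChainGeo_reg_eq (idx := n - 2) (i := i + 1) (k := 1) hr (by omega) le_rfl (by omega)
    (fun _ => by
      have := ChainGeo_oo_strict hr (i := i + 1) (j := i + 1 + 1) (by omega) (by omega)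
      omega)
  have e : n - 1 - oo r (i + 1) = 1 := by omega
  unfold Lab_l
  rw [if_neg (by omega), h, e, if_pos ⟨by omega, rfl, by simpa using hs⟩]

/-- A function on the labels with prescribed values. -/
theorem exists_lab (r : ℕ → ℤ) (R : ℕ) (hR : 1 ≤ R) (hr : ∀ i, i < R + 1 → 2 ≤ (r i).natAbs)
    (hr0 : ∀ i, i < R → r i * r (i + 1) ≠ 0) (LP : ℕ → ℂ) (lam : ℕ → ℕ → ℂ)
    (h01 : lam 0 1 = LP 0) (hend : lam R (2 * (r R).natAbs - 1) = LP R)
    (hl : ∀ i, i < R → lam (i + 1) 0 = LP i)
    (hrr : ∀ i, i < R → lam i (2 * (r i).natAbs) = LP (i + 1))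
    (hsame : ∀ i, i < R → 0 < r i * r (i + 1) →
      lam i (2 * (r i).natAbs - 1) = lam (i + 1) 1) :
    ∃ l : ℕ → ℂ, l 1 = l 2 ∧
      (∀ i, i ≤ R → l (lp r i) = LP i) ∧
      (∀ i k, i ≤ R → 1 ≤ k → (i < R → oo r i + k ≤ oo r (i + 1)) →
        (i = R → k ≤ 2 * (r R).natAbs - 1) →
        l (ls r i k) = lam i k ∧ (1 ≤ i ∨ 2 ≤ k → l (ls r i (k - 1)) = lam i (k - 1)) ∧
        (i = R → k ≤ 2 * (r R).natAbs - 2 → l (oo r i + k + 2) = lam i (k + 1)) ∧
        (i < R → l (oo r i + k + 2) = lgN r lam i k)) := by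
  have l1 : Lab_l r R LP lam 1 = LP 0 := by
    unfold Lab_l
    rw [if_pos le_rfl]
  have l2 : Lab_l r R LP lam 2 = lam 0 1 :=
    Lab_gen hr LP lam (i := 0) (k := 1) (by omega) le_rfl (by simp [oo])
      (fun _ => by
        have := ChainGeo_oo_strict hr (i := 0) (j := 0 + 1) (by omega) (by omega)
        omega) (fun h => by omega)
  -- the pivots
  have hP : ∀ i, i ≤ R → Lab_l r R LP lam (lp r i) = LP i := by
    intro i hi
    rcases i with _ | i
    · unfold lp
      split_ifs
      · exact l1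
      · rw [l2, h01]
    · have hpi := hr i (by omega)
      have e : lp r (i + 1) = oo r i + 2 * (r i).natAbs + 1 := rfl
      rw [e]
      rcases lt_or_gt_of_ne (hr0 i (by omega)) with h | h
      · have h3 := ChainGeo_oo_opp r h
        rw [Lab_gen hr LP lam (i := i) (k := 2 * (r i).natAbs) (by omega) (by omega) rfl
          (fun _ => by omega) (fun h => by omega)]
        exact hrr i (by omega)
      · have h3 := ChainGeo_oo_same r h
        exact Lab_spec hr LP lam (i := i) (by omega) (by omega) h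
  -- the slopes of the fans
  have hS : ∀ i k, i ≤ R → 1 ≤ k → (i < R → oo r i + k ≤ oo r (i + 1)) →
      (i = R → k ≤ 2 * (r R).natAbs - 1) → Lab_l r R LP lam (ls r i k) = lam i k := by
    intro i k hi hk h2 h3
    unfold ls
    rw [if_neg (by omega)]
    split_ifs with hk1 hi0 hr00 hs
    · rw [hk1, hi0]
      exact l2
    · rw [hk1, hi0, h01]
      exact l1
    · obtain ⟨i', rfl⟩ : ∃ i', i = i' + 1 := ⟨i - 1, by omega⟩
      have hs' : 0 < r i' * r (i' + 1) := by simpa using hs
      have hpi := hr i' (by omega)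
      have h4 := ChainGeo_oo_same r hs'
      have e : i' + 1 - 1 = i' := by omega
      rw [e, hk1, ← hsame i' (by omega) hs']
      exact Lab_gen hr LP lam (i := i') (k := 2 * (r i').natAbs - 1) (by omega) (by omega)
        (by omega) (fun _ => by omega) (fun h => by omega)
    · rw [hk1]
      exact Lab_gen hr LP lam hi le_rfl rfl (fun h => by
        have := h2 h
        omega) (fun h => hs h.2.2)
    · exact Lab_gen hr LP lam hi hk rfl h2 (fun h => hk1 h.2.1)
  refine ⟨Lab_l r R LP lam, by rw [l1, l2, h01], hP, fun i k hi hk h2 h3 =>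
    ⟨hS i k hi hk h2 h3, fun h4 => ?_, fun h4 h5 => ?_, fun h4 => ?_⟩⟩
  · rcases Nat.lt_or_ge k 2 with h5 | h5
    · have h6 : k = 1 := by omega
      obtain ⟨i', rfl⟩ : ∃ i', i = i' + 1 := ⟨i - 1, by omega⟩
      have e : ls r (i' + 1) (k - 1) = lp r i' := by
        unfold ls
        rw [if_pos (by omega), if_neg (by omega)]
        rfl
      rw [e, hP i' (by omega), h6]
      exact (hl i' (by omega)).symm
    · exact hS i (k - 1) hi (by omega) (fun h => by
        have := h2 h
        omega) (fun h => by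
        have := h3 h
        omega)
  · exact Lab_gen hr LP lam hi (by omega) (by omega) (fun h => by omega) (fun h => by omega)
  · unfold lgN
    have hpi := hr i (by omega)
    rcases Nat.lt_or_ge (oo r i + k) (oo r (i + 1)) with h5 | h5
    · have h6 : oo r (i + 1) ≤ oo r i + 2 * (r i).natAbs := by
        rw [ChainGeo_oo_succ]
        omega
      rw [if_neg (by omega)]
      exact Lab_gen hr LP lam hi (by omega) (by omega) (fun _ => by omega) (fun h => by omega)
    · have h7 : oo r i + k = oo r (i + 1) := le_antisymm (h2 h4) h5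
      rcases lt_or_gt_of_ne (hr0 i (by omega)) with h | h
      · have h8 := ChainGeo_oo_opp r h
        rw [if_pos (by omega)]
        exact Lab_gen hr LP lam (i := i + 1) (k := 1) (by omega) le_rfl (by omega)
          (fun _ => by
            have := ChainGeo_oo_strict hr (i := i + 1) (j := i + 1 + 1) (by omega) (by omega)
            omega) (fun h9 => by
            have h10 := h9.2.2
            simp only [Nat.add_sub_cancel] at h10
            omega)
      · have h8 := ChainGeo_oo_same r h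
        have e : k + 1 = 2 * (r i).natAbs := by omega
        rw [if_neg (by omega), e, hrr i h4]
        exact Lab_spec hr LP lam h4 (by omega) h

end Pool.Agent.H63.VC5
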