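import Pool.Agent.H63.VC5.OrdTerm
import Pool.Agent.H63.VC5.Lab

/-! # The complex volume from the fans -/

namespace Pool.Agent.H63.VC5

open Pool.Agent.H63.VC Pool.Agent.H63.VC3 Pool.Agent.H63.VC4 Complex Filter Topology
open scoped BigOperators

theorem ChainCV_om (r : ℕ → ℤ) : om r = 1 ∨ om r = 2 := by
  unfold om
  split_ifs
  · exact Or.inl rfl
  · exact Or.inr rfl

/-- the classes of a layer -/
def ChainCV_c (r : ℕ → ℤ) (i k : ℕ) : Fin 3 × Fin 3 × Fin 3 :=
  if r i < 0 then (cP r i, cS r i k, cS r i (k - 1)) else (cS r i k, cP r i, cS r i (k - 1))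

theorem ChainCV_even_pred {k : ℕ} (hk : 1 ≤ k) : Even (k - 1) ↔ ¬ Even k := by
  obtain ⟨m, rfl⟩ : ∃ m, k = m + 1 := ⟨k - 1, by omega⟩
  rw [Nat.add_sub_cancel, Nat.even_add_one, not_not]

theorem ChainCV_ne (r : ℕ → ℤ) (i k : ℕ) (hk : 1 ≤ k) :
    (ChainCV_c r i k).1 ≠ (ChainCV_c r i k).2.1 ∧ (ChainCV_c r i k).1 ≠ (ChainCV_c r i k).2.2 ∧
      (ChainCV_c r i k).2.1 ≠ (ChainCV_c r i k).2.2 := by
  unfold ChainCV_c cP cS
  simp only [ChainCV_even_pred hk]
  rcases ChainCV_om r with h | h <;> rw [h] <;> by_cases h1 : Even i <;> by_cases h2 : Even k <;>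
    by_cases h3 : r i < 0 <;> simp only [h1, h2, h3, if_true, if_false, not_true_eq_false,
      not_false_eq_true] <;> decide

theorem ChainCV_const (r : ℕ → ℤ) (i k : ℕ) (hk : 1 ≤ k) (h0 : ¬ (i = 0 ∧ k = 2)) (P Q : ℤ) :
    ∃ n : ℤ, ordConst (ChainCV_c r i k) (om r, 0, -om r) P Q +
      ordConst (ChainCV_c r i k) (om r, 0, -om r) P Q = tt r i k + n := by
  unfold ChainCV_c cP cS tt sgr
  simp only [ChainCV_even_pred hk, if_neg h0]
  rcases ChainCV_om r with h | h <;> rw [h] <;> by_cases h1 : Even i <;> by_cases h2 : Even k <;>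
    by_cases h3 : r i < 0 <;> simp only [h1, h2, h3, if_true, if_false, not_true_eq_false,
      not_false_eq_true] <;> unfold ordConst <;> simp (decide := true) only [if_true, if_false] <;>
    first
      | exact ⟨0, by push_cast; ring1⟩
      | exact ⟨Q, by push_cast; ring1⟩
      | exact ⟨P, by push_cast; ring1⟩
      | exact ⟨Q + 1, by push_cast; ring1⟩

theorem ChainCV_const0 (r : ℕ → ℤ) (P Q : ℤ) :
    ordConst (ChainCV_c r 0 2) (0, om r, -om r) P Q +
      ordConst (ChainCV_c r 0 2) (om r, 0, -om r) P Q = P / 2 := by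
  unfold ChainCV_c cP cS
  have h4 : ¬ Even (2 - 1) := by decide
  have h5 : Even 2 := by decide
  have h6 : Even 0 := by decide
  rcases ChainCV_om r with h | h <;> rw [h] <;>
    by_cases h3 : r 0 < 0 <;> simp only [h4, h5, h6, h3, if_true, if_false] <;> unfold ordConst <;>
    simp (decide := true) only [if_true, if_false] <;> ring

theorem ChainCV_mem_lay {r : ℕ → ℤ} {R : ℕ} (hR : 1 ≤ R) (hr : ∀ i, i < R + 1 → 2 ≤ (r i).natAbs)
    (hr0 : ∀ i, i < R → r i * r (i + 1) ≠ 0) {i k : ℕ} (hi : i ≤ R) :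
    k ∈ lay R r i ↔ 1 ≤ k ∧ (i = 0 → 2 ≤ k) ∧ (i = R → k ≤ 2 * (r R).natAbs - 2) ∧
      (i < R → oo r i + k ≤ oo r (i + 1)) := by
  unfold lay
  rw [Finset.mem_Icc, ChainGeo_oo_succ]
  have h2 := hr i (by omega)
  by_cases h0 : i = 0
  · rw [if_pos h0]
    by_cases hiR : i = R
    · omega
    · rw [if_neg hiR]
      have h3 := hr0 i (by omega)
      by_cases h4 : 0 < r i * r (i + 1)
      · rw [if_pos h4, if_neg (by omega)]
        omega
      · rw [if_neg h4, if_pos (by omega)]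
        omega
  · rw [if_neg h0]
    by_cases hiR : i = R
    · subst hiR
      rw [if_pos rfl]
      omega
    · rw [if_neg hiR]
      have h3 := hr0 i (by omega)
      by_cases h4 : 0 < r i * r (i + 1)
      · rw [if_pos h4, if_neg (by omega)]
        omega
      · rw [if_neg h4, if_pos (by omega)]
        omega

theorem ChainCV_dec {r : ℕ → ℤ} {R : ℕ} (hR : 1 ≤ R) (hr : ∀ i, i < R + 1 → 2 ≤ (r i).natAbs)
    (hr0 : ∀ i, i < R → r i * r (i + 1) ≠ 0) {idx : ℕ}
    (hidx : idx ∈ Finset.Icc 1 (oo r R + 2 * (r R).natAbs - 3)) :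
    ∃ i k, i ≤ R ∧ k ∈ lay R r i ∧ 1 ≤ k ∧ idx + 1 = oo r i + k ∧
      (i < R → oo r i + k ≤ oo r (i + 1)) ∧ (i = R → k ≤ 2 * (r R).natAbs - 2) ∧
      ChainGeo_reg r R idx = i ∧ idx + 1 - oo r i = k := by
  rw [Finset.mem_Icc] at hidx
  have hpR := hr R (by omega)
  obtain ⟨i, k, hi, hk, hik, hlt, heq⟩ := ChainGeo_dec (r := r) (R := R) (idx := idx) (by omega)
  have h1 : i = R → k ≤ 2 * (r R).natAbs - 2 := by
    intro h
    subst h
    omega
  refine ⟨i, k, hi, (ChainCV_mem_lay hR hr hr0 hi).2 ⟨hk, ?_, h1, hlt⟩, hk, hik, hlt, h1,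
    ChainGeo_reg_eq hr hi hk hik hlt, by omega⟩
  intro h
  subst h
  have : oo r 0 = 0 := rfl
  omega

theorem ChainCV_sum {r : ℕ → ℤ} {R : ℕ} (hR : 1 ≤ R) (hr : ∀ i, i < R + 1 → 2 ≤ (r i).natAbs)
    (hr0 : ∀ i, i < R → r i * r (i + 1) ≠ 0) (f : ℕ → ℕ → ℂ) :
    ∑ idx ∈ Finset.Icc 1 (oo r R + 2 * (r R).natAbs - 3),
      f (ChainGeo_reg r R idx) (idx + 1 - oo r (ChainGeo_reg r R idx)) =
    ∑ i ∈ Finset.range (R + 1), ∑ k ∈ lay R r i, f i k := by
  rw [Finset.sum_sigma']
  refine Finset.sum_nbij' (fun idx => (⟨ChainGeo_reg r R idx,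
    idx + 1 - oo r (ChainGeo_reg r R idx)⟩ : (_ : ℕ) × ℕ)) (fun x => oo r x.1 + x.2 - 1) ?_ ?_ ?_
    ?_ ?_
  · intro idx hidx
    obtain ⟨i, k, hi, hkl, hk, hik, hlt, heq, hreg, hkk⟩ := ChainCV_dec hR hr hr0 hidx
    rw [Finset.mem_sigma, Finset.mem_range]
    simp only
    rw [hreg, hkk]
    exact ⟨by omega, hkl⟩
  · rintro ⟨i, k⟩ hx
    rw [Finset.mem_sigma, Finset.mem_range] at hx
    simp only at hx ⊢
    obtain ⟨hi, hkl⟩ := hx
    obtain ⟨hk, h0, h1, h2⟩ := (ChainCV_mem_lay hR hr hr0 (by omega)).1 hkl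
    rw [Finset.mem_Icc]
    have hpR := hr R (by omega)
    constructor
    · by_cases hi0 : i = 0
      · have := h0 hi0
        omega
      · have := ChainGeo_oo_strict hr (i := 0) (j := i) (by omega) (by omega)
        omega
    · by_cases hiR : i = R
      · subst hiR
        have := h1 rfl
        omega
      · have := h2 (by omega)
        have h3 := ChainGeo_oo_mono hr (i := i + 1) (j := R) (by omega) (by omega)
        omega
  · intro idx hidx
    obtain ⟨i, k, hi, hkl, hk, hik, hlt, heq, hreg, hkk⟩ := ChainCV_dec hR hr hr0 hidx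
    simp only
    rw [hreg]
    omega
  · rintro ⟨i, k⟩ hx
    rw [Finset.mem_sigma, Finset.mem_range] at hx
    simp only at hx ⊢
    obtain ⟨hi, hkl⟩ := hx
    obtain ⟨hk, h0, h1, h2⟩ := (ChainCV_mem_lay hR hr hr0 (by omega)).1 hkl
    have hreg := ChainGeo_reg_eq hr (i := i) (k := k) (idx := oo r i + k - 1) (by omega) hk
      (by omega) h2
    rw [hreg]
    have e : oo r i + k - 1 + 1 - oo r i = k := by omega
    rw [e]
  · intro idx _
    rfl

theorem ChainCV_cS (r : ℕ → ℤ) (i k : ℕ) (hk : 1 ≤ k) :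
    (ChainCV_c r i k).2.2 = -om r ↔ Even k := by
  unfold ChainCV_c cP cS
  simp only [ChainCV_even_pred hk]
  rcases ChainCV_om r with h | h <;> rw [h] <;> by_cases h1 : Even i <;> by_cases h2 : Even k <;>
    by_cases h3 : r i < 0 <;> simp only [h1, h2, h3, if_true, if_false, not_true_eq_false,
      not_false_eq_true, iff_false] <;> decide

theorem ChainCV_exp (Q : ℤ) : exp (Q * (Real.pi * I)) = 1 ∨ exp (Q * (Real.pi * I)) = -1 := by
  rcases Int.even_or_odd Q with ⟨m, hm⟩ | ⟨m, hm⟩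
  · left
    rw [hm, show (((m + m : ℤ) : ℂ)) * (Real.pi * I) = m * (2 * Real.pi * I) by push_cast; ring,
      Complex.exp_int_mul_two_pi_mul_I]
  · right
    rw [hm, show (((2 * m + 1 : ℤ) : ℂ)) * (Real.pi * I) = m * (2 * Real.pi * I) + Real.pi * I by
      push_cast; ring, Complex.exp_add, Complex.exp_int_mul_two_pi_mul_I, Complex.exp_pi_mul_I,
      one_mul]

theorem ChainCV_ordr (r : ℕ → ℤ) (j idx : ℕ) (h : Bool) :
    (ordr (om r) j idx h).1 ≠ (ordr (om r) j idx h).2.1 ∧
      (ordr (om r) j idx h).1 ≠ (ordr (om r) j idx h).2.2 ∧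
      (ordr (om r) j idx h).2.1 ≠ (ordr (om r) j idx h).2.2 := by
  unfold ordr
  rcases ChainCV_om r with h1 | h1 <;> rw [h1] <;> split_ifs <;> decide

theorem chain_cv (r : ℕ → ℤ) (G : ℕ) (hr : ∀ i, i < 2 * G + 2 → 2 ≤ (r i).natAbs)
    (LP : ℕ → ℂ) (lam : ℕ → ℕ → ℂ) (z : ℕ → ℕ → ℂ) (P Q : ℕ → ℕ → ℤ)
    (h01 : lam 0 1 = LP 0)
    (hend : lam (2 * G + 1) (2 * (r (2 * G + 1)).natAbs - 1) = LP (2 * G + 1))
    (hl : ∀ i, i < 2 * G + 1 → lam (i + 1) 0 = LP i)
    (hrr : ∀ i, i < 2 * G + 1 → lam i (2 * (r i).natAbs) = LP (i + 1))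
    (hsame : ∀ i, i < 2 * G + 1 → 0 < r i * r (i + 1) →
      lam i (2 * (r i).natAbs - 1) = lam (i + 1) 1)
    (hz : ∀ i k, i ≤ 2 * G + 1 → k ∈ lay (2 * G + 1) r i → 0 < (z i k).im ∧
      z i k = (-1) ^ (k + 1) * exp (2 * lgL r LP lam i k - 2 * lgR r LP lam i k))
    (hP : ∀ i k, i ≤ 2 * G + 1 → k ∈ lay (2 * G + 1) r i →
      Complex.log (z i k) + P i k * (Real.pi * I) =
        2 * lgL r LP lam i k - 2 * lgR r LP lam i k)
    (hQ : ∀ i k, i ≤ 2 * G + 1 → k ∈ lay (2 * G + 1) r i →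
      -Complex.log (1 - z i k) + Q i k * (Real.pi * I) =
        2 * lgR r LP lam i k - lam i (k - 1) - lgN r lam i k) :
    ∃ Z : ℂ, IsComplexVolume (conway ((List.range (2 * G + 2)).map r)) (decide (r 0 < 0)) Z ∧
      Cg Z (∑ i ∈ Finset.range (2 * G + 2), ∑ k ∈ lay (2 * G + 1) r i,
        (2 * rogers (z i k) (P i k) (Q i k) + (Real.pi : ℂ) ^ 2 * tt r i k)) := by
  have hr0 : ∀ i, i < 2 * G + 1 → r i * r (i + 1) ≠ 0 := by
    intro i hi h
    rcases mul_eq_zero.1 h with h | h
    · have := hr i (by omega)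
      rw [h] at this
      simp at this
    · have := hr (i + 1) (by omega)
      rw [h] at this
      simp at this
  have hodd : ¬ Even (2 * G + 1) := by simp
  rw [show 2 * G + 2 = (2 * G + 1) + 1 from rfl] at hr ⊢
  generalize 2 * G + 1 = R at *
  have hR : 1 ≤ R := by
    by_contra h
    apply hodd
    have : R = 0 := by omega
    rw [this]
    exact Even.zero
  obtain ⟨l, hl12, hlp, hlam⟩ := exists_lab r R hR hr hr0 LP lam h01 hend hl hrr hsame
  have hsum := conway_sum r R hr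
  have htri := tri_layer r R hR hr hr0
  generalize conway ((List.range (R + 1)).map r) = a at *
  have hpR := hr R (by omega)
  have hooR : 3 ≤ oo r R := by
    have := ChainGeo_oo_strict hr (i := 0) (j := R) (by omega) (by omega)
    omega
  -- the facts about a layer
  have hlay : ∀ i k idx, i ≤ R → k ∈ lay R r i → idx + 1 = oo r i + k →
      l (slo (turn a (decide (r 0 < 0))) idx).1 = lgL r LP lam i k ∧
      l (slo (turn a (decide (r 0 < 0))) idx).2.1 = lgR r LP lam i k ∧
      l (slo (turn a (decide (r 0 < 0))) idx).2.2 = lam i (k - 1) ∧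
      l (idx + 3) = lgN r lam i k ∧
      cls (turn a (decide (r 0 < 0))) idx = ChainCV_c r i k := by
    intro i k idx hi hk hidx
    obtain ⟨hk1, hk0, hkR, hkl⟩ := (ChainCV_mem_lay hR hr hr0 hi).1 hk
    obtain ⟨h1, h2⟩ := htri i k idx hi hk1 hidx hkl (fun h => by
      have := hkR h
      omega)
    obtain ⟨g1, g2, g3, g4⟩ := hlam i k hi hk1 hkl (fun h => by
      have := hkR h
      omega)
    have g2' := g2 (by
      by_cases h0 : i = 0
      · exact Or.inr (hk0 h0)
      · exact Or.inl (by omega))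
    have g5 : l (idx + 3) = lgN r lam i k := by
      rw [show idx + 3 = oo r i + k + 2 by omega]
      by_cases hiR : i = R
      · rw [g3 hiR (hkR hiR)]
        unfold lgN
        rw [if_neg]
        have := hkR hiR
        rw [hiR]
        omega
      · exact g4 (by omega)
    rw [h1, h2]
    unfold lgL lgR ChainCV_c
    by_cases hneg : r i < 0
    · simp only [if_pos hneg]
      exact ⟨hlp i hi, g1, g2', g5, trivial⟩
    · simp only [if_neg hneg]
      exact ⟨g1, hlp i hi, g2', g5, trivial⟩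
  set t := turn a (decide (r 0 < 0)) with ht
  have hdec : ∀ idx ∈ Finset.Icc 1 (a.sum - 3), ∃ i k, i ≤ R ∧ k ∈ lay R r i ∧ 1 ≤ k ∧
      idx + 1 = oo r i + k ∧ ChainGeo_reg r R idx = i ∧ idx + 1 - oo r i = k := by
    intro idx hidx
    rw [hsum] at hidx
    obtain ⟨i, k, h1, h2, h3, h4, -, -, h5, h6⟩ := ChainCV_dec hR hr hr0 hidx
    exact ⟨i, k, h1, h2, h3, h4, h5, h6⟩
  -- the terms
  have hterm : ∀ (idx : ℕ) (h : Bool), ∃ p q : ℤ, idx ∈ Finset.Icc 1 (a.sum - 3) →
      (Complex.log (ordShape (z (ChainGeo_reg r R idx) (idx + 1 - oo r (ChainGeo_reg r R idx)))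
          (cls t idx) (ordr (om r) 1 idx h)) + p * (Real.pi * I) =
        pairSum l (slo t idx) idx (cls t idx) (ordr (om r) 1 idx h).2.2 -
        pairSum l (slo t idx) idx (cls t idx) (ordr (om r) 1 idx h).2.1) ∧
      (-Complex.log (1 - ordShape
          (z (ChainGeo_reg r R idx) (idx + 1 - oo r (ChainGeo_reg r R idx)))
          (cls t idx) (ordr (om r) 1 idx h)) + q * (Real.pi * I) =
        pairSum l (slo t idx) idx (cls t idx) (ordr (om r) 1 idx h).2.1 -
        pairSum l (slo t idx) idx (cls t idx) (ordr (om r) 1 idx h).1) ∧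
      Cg ((ordSign (cls t idx) (ordr (om r) 1 idx h) : ℂ) *
        rogers (ordShape (z (ChainGeo_reg r R idx) (idx + 1 - oo r (ChainGeo_reg r R idx)))
          (cls t idx) (ordr (om r) 1 idx h)) p q)
        (rogers (z (ChainGeo_reg r R idx) (idx + 1 - oo r (ChainGeo_reg r R idx)))
          (P (ChainGeo_reg r R idx) (idx + 1 - oo r (ChainGeo_reg r R idx)))
          (Q (ChainGeo_reg r R idx) (idx + 1 - oo r (ChainGeo_reg r R idx))) +
          (Real.pi : ℂ) ^ 2 * ordConst (cls t idx) (ordr (om r) 1 idx h)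
            (P (ChainGeo_reg r R idx) (idx + 1 - oo r (ChainGeo_reg r R idx)))
            (Q (ChainGeo_reg r R idx) (idx + 1 - oo r (ChainGeo_reg r R idx)))) := by
    intro idx h
    by_cases hidx : idx ∈ Finset.Icc 1 (a.sum - 3)
    · obtain ⟨i, k, hi, hkl, hk, hik, hreg, hkk⟩ := hdec idx hidx
      obtain ⟨g1, g2, g3, g4, g5⟩ := hlay i k idx hi hkl hik
      have hzi := hz i k hi hkl
      obtain ⟨p, q, f1, f2, f3⟩ := ord_term (z i k) hzi.1 (P i k) (Q i k) (lgL r LP lam i k)
        (lgR r LP lam i k) (lam i (k - 1)) (lgN r lam i k) (hP i k hi hkl) (hQ i k hi hkl)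
        (cls t idx) (ordr (om r) 1 idx h) (by rw [g5]; exact ChainCV_ne r i k hk)
        (ChainCV_ordr r 1 idx h) (pairSum l (slo t idx) idx (cls t idx)) (by
          intro X
          rw [← g1, ← g2, ← g3, ← g4]
          rfl)
      refine ⟨p, q, fun _ => ?_⟩
      rw [hreg, hkk]
      exact ⟨f1, f2, f3⟩
    · exact ⟨0, 0, fun h => absurd h hidx⟩
  choose p q hpq using hterm
  refine ⟨_, ⟨l, fun idx => z (ChainGeo_reg r R idx) (idx + 1 - oo r (ChainGeo_reg r R idx)), om r,
    1, p, q, ?_, ?_, hl12, ?_, ?_, ?_, ?_, ?_, rfl⟩, ?_⟩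
  · -- the class of the last slope
    obtain ⟨-, h2⟩ := htri R (2 * (r R).natAbs - 1) (a.sum - 2) le_rfl (by omega) (by omega)
      (fun h => absurd h (lt_irrefl R)) (fun _ => le_rfl)
    rw [h2]
    have h3 : ((if r R < 0 then (cP r R, cS r R (2 * (r R).natAbs - 1),
        cS r R (2 * (r R).natAbs - 1 - 1)) else (cS r R (2 * (r R).natAbs - 1), cP r R,
        cS r R (2 * (r R).natAbs - 1 - 1)) : Fin 3 × Fin 3 × Fin 3)).2.2 =
        cS r R (2 * (r R).natAbs - 1 - 1) := by
      split_ifs <;> rfl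
    rw [h3]
    unfold cS
    rw [if_pos (by
      rw [Nat.even_iff]
      omega), if_neg hodd]
  · rcases ChainCV_om r with h | h <;> rw [h] <;> decide
  · -- the last folding
    obtain ⟨h1, -⟩ := htri R (2 * (r R).natAbs - 1) (a.sum - 2) le_rfl (by omega) (by omega)
      (fun h => absurd h (lt_irrefl R)) (fun _ => le_rfl)
    obtain ⟨g1, -, -, -⟩ := hlam R (2 * (r R).natAbs - 1) le_rfl (by omega)
      (fun h => absurd h (lt_irrefl R)) (fun _ => le_rfl)
    rw [h1]
    split_ifs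
    · simp only
      rw [g1, hlp R le_rfl, hend]
    · simp only
      rw [g1, hlp R le_rfl, hend]
  · -- the shapes
    intro idx hidx
    obtain ⟨i, k, hi, hkl, hk, hik, hreg, hkk⟩ := hdec idx hidx
    obtain ⟨g1, g2, g3, g4, g5⟩ := hlay i k idx hi hkl hik
    obtain ⟨hzi, hze⟩ := hz i k hi hkl
    simp only
    rw [hreg, hkk, g1, g2, g3, g4, g5]
    refine ⟨hzi, ?_, ?_⟩
    · rw [hze]
      congr 1
      by_cases hev : Even k
      · rw [if_pos ((ChainCV_cS r i k hk).2 hev), Odd.neg_one_pow (by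
          rw [Nat.odd_add_one, Nat.not_odd_iff_even]
          exact hev)]
      · rw [if_neg (fun h => hev ((ChainCV_cS r i k hk).1 h)), Even.neg_one_pow (by
          rw [Nat.even_add_one]
          exact hev)]
    · have hne : 1 - z i k ≠ 0 := by
        intro h
        have h2 := congrArg Complex.im h
        simp at h2
        linarith
      have h1 : Complex.log (1 - z i k) = Q i k * (Real.pi * I) +
          (lam i (k - 1) + lgN r lam i k - 2 * lgR r LP lam i k) := by
        linear_combination -(hQ i k hi hkl)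
      have h2 : 1 - z i k = exp (Q i k * (Real.pi * I)) *
          exp (lam i (k - 1) + lgN r lam i k - 2 * lgR r LP lam i k) := by
        rw [← Complex.exp_add, ← h1, Complex.exp_log hne]
      rcases ChainCV_exp (Q i k) with h3 | h3
      · left
        rw [h2, h3, one_mul]
      · right
        rw [h2, h3, neg_one_mul]
  · rw [Finset.mem_Icc]
    omega
  · -- the layer 1
    have hk2 : 2 ∈ lay R r 0 := (ChainCV_mem_lay hR hr hr0 (by omega)).2 ⟨by omega, fun _ => le_rfl,
      fun h => by omega, fun _ => by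
        have h3 := ChainGeo_oo_strict hr (i := 0) (j := 0 + 1) (by omega) (by omega)
        omega⟩
    obtain ⟨-, -, -, -, g5⟩ := hlay 0 2 1 (by omega) hk2 rfl
    rw [g5]
    exact (ChainCV_cS r 0 2 (by omega)).2 (by decide)
  · intro idx hidx h
    exact ⟨(hpq idx h hidx).1, (hpq idx h hidx).2.1⟩
  · -- the value
    rw [← ChainCV_sum hR hr hr0 (fun i k =>
      2 * rogers (z i k) (P i k) (Q i k) + (Real.pi : ℂ) ^ 2 * tt r i k), ← hsum]
    apply Cg.sum
    intro idx hidx
    simp only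
    have hT := (hpq idx true hidx).2.2
    have hF := (hpq idx false hidx).2.2
    obtain ⟨i, k, hi, hkl, hk, hik, hreg, hkk⟩ := hdec idx hidx
    obtain ⟨g1, g2, g3, g4, g5⟩ := hlay i k idx hi hkl hik
    rw [Fintype.sum_bool]
    refine (hT.add hF).trans ?_
    rw [hreg, hkk, g5]
    have hidx1 : 1 ≤ idx := (Finset.mem_Icc.1 hidx).1
    have h3 : ∀ h : Bool, ¬ idx = 1 → ordr (om r) 1 idx h = (om r, 0, -om r) := by
      intro h hne
      unfold ordr
      rw [if_neg]
      rintro (h4 | ⟨h4, -⟩)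
      · omega
      · exact hne h4
    by_cases h1 : idx = 1
    · have hi0 : i = 0 := by
        by_contra hne
        have := ChainGeo_oo_strict hr (i := 0) (j := i) (by omega) (by omega)
        omega
      subst hi0
      have hk2 : k = 2 := by
        have : oo r 0 = 0 := rfl
        omega
      subst hk2
      have e1 : ordr (om r) 1 idx true = (0, om r, -om r) := by
        unfold ordr
        rw [if_pos (Or.inr ⟨h1, rfl⟩)]
      have e2 : ordr (om r) 1 idx false = (om r, 0, -om r) := by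
        unfold ordr
        rw [if_neg]
        rintro (h4 | ⟨-, h4⟩)
        · omega
        · exact absurd h4 (by decide)
      rw [e1, e2]
      have hc := ChainCV_const0 r (P 0 2) (Q 0 2)
      obtain ⟨hzi, hze⟩ := hz 0 2 hi hkl
      have hPodd : Odd (P 0 2) := by
        refine (flat_parity (z 0 2) _ (fun h => by rw [h] at hzi; simp at hzi) (P 0 2)
          (hP 0 2 hi hkl)).2 ?_
        rw [hze]
        ring
      obtain ⟨m, hm⟩ := hPodd
      have htt : tt r 0 2 = 1 / 2 := by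
        unfold tt
        rw [if_pos ⟨rfl, rfl⟩]
      refine ⟨m, ?_⟩
      rw [htt]
      have hPc : (P 0 2 : ℂ) = 2 * m + 1 := by
        rw [hm]
        push_cast
        ring
      rw [hPc] at hc
      linear_combination (Real.pi : ℂ) ^ 2 * hc
    · rw [h3 true h1, h3 false h1]
      obtain ⟨n, hn⟩ := ChainCV_const r i k hk (by
        rintro ⟨rfl, rfl⟩
        apply h1
        have : oo r 0 = 0 := rfl
        omega) (P i k) (Q i k)
      refine ⟨n, ?_⟩
      linear_combination (Real.pi : ℂ) ^ 2 * hn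

end Pool.Agent.H63.VC5
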