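import Pool.Agent.H63.VC5.Defs

/-! # The constant -/

namespace Pool.Agent.H63.VC5

open Pool.Agent.H63.VC Pool.Agent.H63.VC3 Pool.Agent.H63.VC4 Complex Filter Topology
open scoped BigOperators

theorem ConstCV_even (c : ℂ) (M : ℕ) :
    ∑ k ∈ Finset.Icc 1 M, (if Even k then c else 0) = ((M / 2 : ℕ) : ℂ) * c := by
  induction M with
  | zero => simp
  | succ M ih =>
    rw [Finset.sum_Icc_succ_top (by omega), ih]
    by_cases h : Even (M + 1)
    · rw [if_pos h]
      have : (M + 1) / 2 = M / 2 + 1 := by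
        obtain ⟨t, ht⟩ := h
        omega
      rw [this]
      push_cast
      ring
    · rw [if_neg h]
      have : (M + 1) / 2 = M / 2 := by
        rw [Nat.not_even_iff_odd] at h
        obtain ⟨t, ht⟩ := h
        omega
      rw [this, add_zero]

theorem ConstCV_first (c : ℂ) {M : ℕ} (h : 2 ≤ M) :
    ∑ k ∈ Finset.Icc 2 M, (if k = 2 then 1 / 2 else c) = 1 / 2 + ((M - 2 : ℕ) : ℂ) * c := by
  induction M, h using Nat.le_induction with
  | base => simp
  | succ M h ih =>
    rw [Finset.sum_Icc_succ_top (by omega), ih, if_neg (by omega),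
      show M + 1 - 2 = (M - 2) + 1 by omega]
    push_cast
    ring

/-- The sign as an integer. -/
def ConstCV_s (r : ℕ → ℤ) (i : ℕ) : ℤ := if r i < 0 then 1 else -1

theorem ConstCV_sgr (r : ℕ → ℤ) (i : ℕ) : (sgr (r i) : ℂ) = (ConstCV_s r i : ℂ) := by
  unfold sgr ConstCV_s
  split_ifs <;> simp

theorem ConstCV_tele (r : ℕ → ℤ) (m : ℕ) :
    ∑ i ∈ Finset.range m, (if Even i then (ConstCV_s r (i + 1) : ℂ) / 6 else
      -((ConstCV_s r i : ℂ) / 6)) = if Even m then 0 else (ConstCV_s r m : ℂ) / 6 := by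
  induction m with
  | zero => simp
  | succ m ih =>
    rw [Finset.sum_range_succ, ih]
    by_cases h : Even m
    · have h1 : ¬ Even (m + 1) := by
        rw [Nat.even_add_one]
        exact not_not.2 h
      rw [if_pos h, if_pos h, if_neg h1, zero_add]
    · have h1 : Even (m + 1) := by
        rw [Nat.even_add_one]
        exact h
      rw [if_neg h, if_neg h, if_pos h1, add_neg_cancel]

/-- The sum of the corrections of a region. -/
theorem ConstCV_lay (G : ℕ) (r : ℕ → ℤ) {i : ℕ} (hi : i < 2 * G + 1) (hr : 2 ≤ (r i).natAbs) :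
    ∑ k ∈ lay (2 * G + 1) r i, tt r i k =
      if i = 0 then 1 / 2 + ((2 * (r i).natAbs - 3 + (if r i * r (i + 1) < 0 then 1 else 0) : ℕ) : ℂ) *
          ((ConstCV_s r i : ℂ) / 3)
      else if Even i then ((2 * (r i).natAbs - 1 + (if r i * r (i + 1) < 0 then 1 else 0) : ℕ) : ℂ) *
          ((ConstCV_s r i : ℂ) / 3)
      else ((((r i).natAbs - 1 + (if r i * r (i + 1) < 0 then 1 else 0) : ℕ)) : ℂ) *
          (-((ConstCV_s r i : ℂ) / 3)) := by
  unfold lay
  rw [if_neg (show ¬ i = 2 * G + 1 by omega)]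
  by_cases h0 : i = 0
  · subst h0
    rw [if_pos rfl, if_pos rfl]
    have h1 : ∀ k, tt r 0 k = if k = 2 then 1 / 2 else (ConstCV_s r 0 : ℂ) / 3 := by
      intro k
      unfold tt
      by_cases hk : k = 2
      · rw [if_pos ⟨rfl, hk⟩, if_pos hk]
      · rw [if_neg (fun h => hk h.2), if_pos Even.zero, if_neg hk, ConstCV_sgr]
    simp_rw [h1]
    rw [ConstCV_first _ (by split_ifs <;> omega)]
    congr 3
    split_ifs <;> omega
  · rw [if_neg h0, if_neg h0]
    by_cases he : Even i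
    · rw [if_pos he]
      have h1 : ∀ k, tt r i k = (ConstCV_s r i : ℂ) / 3 := by
        intro k
        unfold tt
        rw [if_neg (fun h => h0 h.1), if_pos he, ConstCV_sgr]
      simp_rw [h1]
      rw [Finset.sum_const, nsmul_eq_mul, Nat.card_Icc]
      congr 2
      split_ifs <;> omega
    · rw [if_neg he]
      have h1 : ∀ k, tt r i k = if Even k then -((ConstCV_s r i : ℂ) / 3) else 0 := by
        intro k
        unfold tt
        rw [if_neg (fun h => h0 h.1), if_neg he, ConstCV_sgr]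
      simp_rw [h1]
      rw [ConstCV_even]
      congr 2
      split_ifs <;> omega

theorem ConstCV_last (G : ℕ) (r : ℕ → ℤ) (hr : 2 ≤ (r (2 * G + 1)).natAbs) :
    ∑ k ∈ lay (2 * G + 1) r (2 * G + 1), tt r (2 * G + 1) k =
      (((r (2 * G + 1)).natAbs - 1 : ℕ) : ℂ) * (-((ConstCV_s r (2 * G + 1) : ℂ) / 3)) := by
  unfold lay
  rw [if_pos rfl, if_neg (by omega)]
  have he : ¬ Even (2 * G + 1) := by
    rw [Nat.not_even_iff_odd]
    exact ⟨G, rfl⟩
  have h1 : ∀ k, tt r (2 * G + 1) k =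
      if Even k then -((ConstCV_s r (2 * G + 1) : ℂ) / 3) else 0 := by
    intro k
    unfold tt
    rw [if_neg (fun h => by omega), if_neg he, ConstCV_sgr]
  simp_rw [h1]
  rw [ConstCV_even]
  congr 2
  omega

theorem ConstCV_fan (G : ℕ) (r : ℕ → ℤ) {i : ℕ} (hr : 2 ≤ (r i).natAbs) :
    (fan (2 * G + 1) r i).card =
      2 * (r i).natAbs - 1 - (if i = 0 then 1 else 0) - (if i = 2 * G + 1 then 1 else 0) := by
  unfold fan
  rw [Nat.card_Icc]
  split_ifs <;> omega

/-- A region which is not the last one, with its right vertex. -/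
theorem ConstCV_region (G : ℕ) (r : ℕ → ℤ) {i : ℕ} (hi : i < 2 * G + 1) (hr : 2 ≤ (r i).natAbs)
    (hr' : 2 ≤ (r (i + 1)).natAbs) : ∃ n : ℤ,
      ((if i = 0 then (sgr (r i) : ℂ) / 3 else 0) +
        (if i = 2 * G + 1 then (sgr (r i) : ℂ) / 3 else 0) -
        sgr (r i) * ((fan (2 * G + 1) r i).card : ℂ) / 3) +
      (if 0 < r i * r (i + 1) then (sgr (r i) : ℂ) / 6 else -1 / 2) +
      ∑ k ∈ lay (2 * G + 1) r i, tt r i k =
      (if i = 0 then 1 / 2 else 0) + (if Even i then (ConstCV_s r (i + 1) : ℂ) / 6 else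
        -((ConstCV_s r i : ℂ) / 6)) + n := by
  rw [ConstCV_lay G r hi hr, ConstCV_fan G r hr, ConstCV_sgr,
    if_neg (show ¬ i = 2 * G + 1 by omega), if_neg (show ¬ i = 2 * G + 1 by omega)]
  obtain ⟨p, hp⟩ : ∃ p, (r i).natAbs = p + 2 := ⟨(r i).natAbs - 2, by omega⟩
  rw [hp]
  have hp1 : 2 * (p + 2) - 3 = 2 * p + 1 := by omega
  have hp2 : 2 * (p + 2) - 1 = 2 * p + 3 := by omega
  have hp3 : p + 2 - 1 = p + 1 := by omega
  have hne : r i ≠ 0 := by
    rintro h
    rw [h] at hr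
    simp at hr
  have hne' : r (i + 1) ≠ 0 := by
    rintro h
    rw [h] at hr'
    simp at hr'
  rw [hp1, hp2, hp3]
  -- the four sign cases
  have hsign : (r i * r (i + 1) < 0 ∧ ¬ 0 < r i * r (i + 1) ∧ ConstCV_s r (i + 1) = - ConstCV_s r i) ∨
      (¬ r i * r (i + 1) < 0 ∧ 0 < r i * r (i + 1) ∧ ConstCV_s r (i + 1) = ConstCV_s r i) := by
    unfold ConstCV_s
    rcases lt_or_gt_of_ne hne with h1 | h1 <;> rcases lt_or_gt_of_ne hne' with h2 | h2
    · right
      have := mul_pos_of_neg_of_neg h1 h2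
      exact ⟨not_lt.2 this.le, this, by rw [if_pos h1, if_pos h2]⟩
    · left
      have := mul_neg_of_neg_of_pos h1 h2
      exact ⟨this, not_lt.2 this.le, by rw [if_pos h1, if_neg (not_lt.2 h2.le)]⟩
    · left
      have := mul_neg_of_pos_of_neg h1 h2
      exact ⟨this, not_lt.2 this.le, by rw [if_neg (not_lt.2 h1.le), if_pos h2]; rfl⟩
    · right
      have := mul_pos h1 h2
      exact ⟨not_lt.2 this.le, this, by rw [if_neg (not_lt.2 h1.le), if_neg (not_lt.2 h2.le)]⟩
  have hs : ConstCV_s r i = 1 ∨ ConstCV_s r i = -1 := by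
    unfold ConstCV_s
    split_ifs
    · exact Or.inl rfl
    · exact Or.inr rfl
  rcases hsign with ⟨h1, h2, h3⟩ | ⟨h1, h2, h3⟩
  · rw [if_pos h1, if_neg h2, h3]
    by_cases h0 : i = 0
    · subst h0
      rw [if_pos rfl, if_pos rfl, if_pos rfl, if_pos rfl, if_pos Even.zero,
        show 2 * p + 3 - 1 - 0 = 2 * p + 2 by omega]
      rcases hs with h | h <;> rw [h]
      · exact ⟨0, by push_cast; ring⟩
      · exact ⟨-1, by push_cast; ring⟩
    · rw [if_neg h0, if_neg h0, if_neg h0, if_neg h0, show 2 * p + 3 - 0 - 0 = 2 * p + 3 by omega]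
      by_cases he : Even i
      · rw [if_pos he, if_pos he]
        rcases hs with h | h <;> rw [h]
        · exact ⟨0, by push_cast; ring⟩
        · exact ⟨-1, by push_cast; ring⟩
      · rw [if_neg he, if_neg he]
        rcases hs with h | h <;> rw [h]
        · exact ⟨-(p + 2), by push_cast; ring⟩
        · exact ⟨p + 1, by push_cast; ring⟩
  · rw [if_neg h1, if_pos h2, h3]
    by_cases h0 : i = 0
    · subst h0
      rw [if_pos rfl, if_pos rfl, if_pos rfl, if_pos rfl, if_pos Even.zero,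
        show 2 * p + 3 - 1 - 0 = 2 * p + 2 by omega]
      rcases hs with h | h <;> rw [h]
      · exact ⟨0, by push_cast; ring⟩
      · exact ⟨0, by push_cast; ring⟩
    · rw [if_neg h0, if_neg h0, if_neg h0, if_neg h0, show 2 * p + 3 - 0 - 0 = 2 * p + 3 by omega]
      by_cases he : Even i
      · rw [if_pos he, if_pos he]
        rcases hs with h | h <;> rw [h]
        · exact ⟨0, by push_cast; ring⟩
        · exact ⟨0, by push_cast; ring⟩
      · rw [if_neg he, if_neg he]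
        rcases hs with h | h <;> rw [h]
        · exact ⟨-(p + 1), by push_cast; ring⟩
        · exact ⟨p + 1, by push_cast; ring⟩

/-- The sum of all the corrections is an integer. -/
theorem const_int (G : ℕ) (r : ℕ → ℤ) (hr : ∀ i, i ≤ 2 * G + 1 → 2 ≤ (r i).natAbs) :
    ∃ n : ℤ, (∑ i ∈ Finset.range (2 * G + 2), ((if i = 0 then (sgr (r i) : ℂ) / 3 else 0) +
        (if i = 2 * G + 1 then (sgr (r i) : ℂ) / 3 else 0) -
        sgr (r i) * ((fan (2 * G + 1) r i).card : ℂ) / 3)) +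
      (∑ j ∈ Finset.range (2 * G + 1),
        (if 0 < r j * r (j + 1) then (sgr (r j) : ℂ) / 6 else -1 / 2)) +
      (∑ i ∈ Finset.range (2 * G + 2), ∑ k ∈ lay (2 * G + 1) r i, tt r i k) = n := by
  have hreg : ∀ i ∈ Finset.range (2 * G + 1), ∃ n : ℤ,
      ((if i = 0 then (sgr (r i) : ℂ) / 3 else 0) +
        (if i = 2 * G + 1 then (sgr (r i) : ℂ) / 3 else 0) -
        sgr (r i) * ((fan (2 * G + 1) r i).card : ℂ) / 3) +
      (if 0 < r i * r (i + 1) then (sgr (r i) : ℂ) / 6 else -1 / 2) +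
      ∑ k ∈ lay (2 * G + 1) r i, tt r i k =
      (if i = 0 then 1 / 2 else 0) + (if Even i then (ConstCV_s r (i + 1) : ℂ) / 6 else
        -((ConstCV_s r i : ℂ) / 6)) + n := by
    intro i hi
    rw [Finset.mem_range] at hi
    exact ConstCV_region G r hi (hr i (by omega)) (hr (i + 1) (by omega))
  have hreg' : ∀ i : ℕ, ∃ n : ℤ, i ∈ Finset.range (2 * G + 1) →
      ((if i = 0 then (sgr (r i) : ℂ) / 3 else 0) +
        (if i = 2 * G + 1 then (sgr (r i) : ℂ) / 3 else 0) -
        sgr (r i) * ((fan (2 * G + 1) r i).card : ℂ) / 3) +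
      (if 0 < r i * r (i + 1) then (sgr (r i) : ℂ) / 6 else -1 / 2) +
      ∑ k ∈ lay (2 * G + 1) r i, tt r i k =
      (if i = 0 then 1 / 2 else 0) + (if Even i then (ConstCV_s r (i + 1) : ℂ) / 6 else
        -((ConstCV_s r i : ℂ) / 6)) + n := by
    intro i
    by_cases hi : i ∈ Finset.range (2 * G + 1)
    · obtain ⟨n, hn⟩ := hreg i hi
      exact ⟨n, fun _ => hn⟩
    · exact ⟨0, fun h => absurd h hi⟩
  choose n hn using hreg'
  have h1 := Finset.sum_congr rfl hn
  rw [Finset.sum_add_distrib, Finset.sum_add_distrib, Finset.sum_add_distrib,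
    Finset.sum_add_distrib, ConstCV_tele] at h1
  have h2 : ∑ i ∈ Finset.range (2 * G + 1), (if i = 0 then (1 / 2 : ℂ) else 0) = 1 / 2 := by
    rw [Finset.sum_ite_eq' (Finset.range (2 * G + 1)) 0, if_pos (Finset.mem_range.2 (by omega))]
  have he : ¬ Even (2 * G + 1) := by
    rw [Nat.not_even_iff_odd]
    exact ⟨G, rfl⟩
  rw [h2, if_neg he] at h1
  have hR := hr (2 * G + 1) le_rfl
  have h3 : ((if 2 * G + 1 = 0 then (sgr (r (2 * G + 1)) : ℂ) / 3 else 0) +
        (if 2 * G + 1 = 2 * G + 1 then (sgr (r (2 * G + 1)) : ℂ) / 3 else 0) -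
        sgr (r (2 * G + 1)) * ((fan (2 * G + 1) r (2 * G + 1)).card : ℂ) / 3) +
      ∑ k ∈ lay (2 * G + 1) r (2 * G + 1), tt r (2 * G + 1) k =
      -((r (2 * G + 1)).natAbs : ℂ) * ConstCV_s r (2 * G + 1) + 4 * ConstCV_s r (2 * G + 1) / 3 := by
    rw [ConstCV_last G r hR, ConstCV_fan G r hR, ConstCV_sgr, if_neg (by omega), if_pos rfl,
      if_neg (by omega), if_pos rfl]
    obtain ⟨p, hp⟩ : ∃ p, (r (2 * G + 1)).natAbs = p + 2 :=
      ⟨(r (2 * G + 1)).natAbs - 2, by omega⟩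
    rw [hp, show 2 * (p + 2) - 1 - 0 - 1 = 2 * p + 2 by omega, show p + 2 - 1 = p + 1 by omega]
    push_cast
    ring
  have hs : ConstCV_s r (2 * G + 1) = 1 ∨ ConstCV_s r (2 * G + 1) = -1 := by
    unfold ConstCV_s
    split_ifs
    · exact Or.inl rfl
    · exact Or.inr rfl
  rw [show 2 * G + 2 = (2 * G + 1) + 1 by omega, Finset.sum_range_succ _ (2 * G + 1),
    Finset.sum_range_succ _ (2 * G + 1)]
  refine ⟨∑ i ∈ Finset.range (2 * G + 1), n i - (r (2 * G + 1)).natAbs * ConstCV_s r (2 * G + 1) +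
    (1 + 3 * ConstCV_s r (2 * G + 1)) / 2, ?_⟩
  have h4 : (((1 + 3 * ConstCV_s r (2 * G + 1)) / 2 : ℤ) : ℂ) =
      1 / 2 + 3 * (ConstCV_s r (2 * G + 1) : ℂ) / 2 := by
    rcases hs with h | h <;> rw [h]
    · norm_num
    · norm_num
  rw [Int.cast_add, h4, Int.cast_sub, Int.cast_sum, Int.cast_mul]
  rw [Int.cast_natCast]
  linear_combination h1 + h3

end Pool.Agent.H63.VC5
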