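import Pool.Agent.H63.VC5.Rog

/-! # The terms of the ordered triangulation -/

namespace Pool.Agent.H63.VC5

open Pool.Agent.H63.VC Pool.Agent.H63.VC3 Pool.Agent.H63.VC4 Complex Filter Topology
open scoped BigOperators

/-- The corrections. -/
noncomputable def ordConst (c o : Fin 3 × Fin 3 × Fin 3) (P Q : ℤ) : ℂ :=
  if c = (o.2.2, o.2.1, o.1) then 0
  else if c = (o.1, o.2.2, o.2.1) then 1 / 6 + Q / 2
  else if c = (o.2.1, o.1, o.2.2) then -1 / 6 + P / 2
  else if c = (o.2.1, o.2.2, o.1) then P / 2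
  else if c = (o.2.2, o.1, o.2.1) then 1 / 3 + Q / 2
  else 1 / 6

/-- The logarithms of a flattening. -/
def OrdTerm_Fl (z : ℂ) (p q : ℤ) (X Y : ℂ) : Prop :=
  Complex.log z + p * (Real.pi * I) = X ∧ -Complex.log (1 - z) + q * (Real.pi * I) = Y

theorem OrdTerm_compl {z : ℂ} (hz : z.im ≠ 0) {p q : ℤ} {X Y : ℂ} (h : OrdTerm_Fl z p q X Y) :
    OrdTerm_Fl (1 - z) (-q) (-p) (-Y) (-X) ∧
      rogers (1 - z) (-q) (-p) = -((Real.pi : ℂ) ^ 2 / 6) - rogers z p q := by
  refine ⟨⟨?_, ?_⟩, rogers_compl z hz p q⟩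
  · rw [← h.2]
    push_cast
    ring
  · rw [← h.1, sub_sub_cancel]
    push_cast
    ring

theorem OrdTerm_sign (p : ℤ) : exp (p * (Real.pi * I)) = 1 ∨ exp (p * (Real.pi * I)) = -1 := by
  have h1 : exp (p * (Real.pi * I)) = exp (Real.pi * I) ^ p := by
    rw [← Complex.exp_int_mul]
  rw [h1, Complex.exp_pi_mul_I]
  rcases Int.even_or_odd p with h | h
  · left
    exact h.neg_one_zpow
  · right
    exact h.neg_one_zpow

theorem OrdTerm_expX {z : ℂ} (hz : z ≠ 0) {p : ℤ} {X : ℂ}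
    (h : Complex.log z + p * (Real.pi * I) = X) : exp X = z ∨ exp X = -z := by
  rw [← h, Complex.exp_add, Complex.exp_log hz]
  rcases OrdTerm_sign p with h1 | h1
  · left
    rw [h1, mul_one]
  · right
    rw [h1, mul_neg, mul_one]

theorem OrdTerm_inv {z : ℂ} (hz : z.im ≠ 0) {p q : ℤ} {X Y : ℂ} (h : OrdTerm_Fl z p q X Y) :
    ∃ P Q : ℤ, OrdTerm_Fl z⁻¹ P Q (-X) (X + Y) ∧
      Cg (rogers z p q + rogers z⁻¹ P Q) (p * (Real.pi : ℂ) ^ 2 / 2) := by
  have hz0 : z ≠ 0 := by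
    rintro rfl
    exact hz rfl
  have hz1 : 1 - z ≠ 0 := by
    intro h1
    apply hz
    have h2 : z = 1 := (sub_eq_zero.1 h1).symm
    rw [h2]
    rfl
  have hz2 : 1 - z⁻¹ ≠ 0 := by
    intro h1
    apply hz
    have h2 : z⁻¹ = 1 := (sub_eq_zero.1 h1).symm
    rw [inv_eq_one.1 h2]
    rfl
  have hX := OrdTerm_expX hz0 h.1
  have hY : exp (-Y) = 1 - z ∨ exp (-Y) = -(1 - z) := by
    refine OrdTerm_expX hz1 (p := -q) ?_
    rw [← h.2]
    push_cast
    ring
  have hmX : exp (-X) = z⁻¹ ∨ exp (-X) = -z⁻¹ := by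
    rw [Complex.exp_neg]
    rcases hX with h1 | h1
    · left
      rw [h1]
    · right
      rw [h1, inv_neg]
  obtain ⟨P, hP⟩ := exists_flat z⁻¹ (-X) (inv_ne_zero hz0) hmX
  have hmXY : exp (-(X + Y)) = 1 - z⁻¹ ∨ exp (-(X + Y)) = -(1 - z⁻¹) := by
    have e1 : -(X + Y) = -X + -Y := by ring
    have e2 : z⁻¹ * (1 - z) = -(1 - z⁻¹) := by
      rw [mul_sub, mul_one, inv_mul_cancel₀ hz0]
      ring
    rw [e1, Complex.exp_add]
    rcases hmX with h1 | h1
    · rcases hY with h2 | h2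
      · right
        rw [h1, h2, e2]
      · left
        rw [h1, h2, mul_neg, e2, neg_neg]
    · rcases hY with h2 | h2
      · left
        rw [h1, h2, neg_mul, e2, neg_neg]
      · right
        rw [h1, h2, neg_mul_neg, e2]
  obtain ⟨Q, hQ⟩ := exists_flat (1 - z⁻¹) (-(X + Y)) hz2 hmXY
  have hQ' : -Complex.log (1 - z⁻¹) + (-Q : ℤ) * (Real.pi * I) = X + Y := by
    have h1 : X + Y = -(-(X + Y)) := by ring
    rw [h1, ← hQ]
    push_cast
    ring
  exact ⟨P, -Q, ⟨hP, hQ'⟩, rogers_inv z hz p q P (-Q) X Y h.1 h.2 hP hQ'⟩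

theorem OrdTerm_cases : ∀ c o : Fin 3 × Fin 3 × Fin 3,
    (c.1 ≠ c.2.1 ∧ c.1 ≠ c.2.2 ∧ c.2.1 ≠ c.2.2) → (o.1 ≠ o.2.1 ∧ o.1 ≠ o.2.2 ∧ o.2.1 ≠ o.2.2) →
    c = (o.2.2, o.2.1, o.1) ∨ c = (o.1, o.2.2, o.2.1) ∨ c = (o.2.1, o.1, o.2.2) ∨
      c = (o.2.1, o.2.2, o.1) ∨ c = (o.2.2, o.1, o.2.1) ∨ c = (o.1, o.2.1, o.2.2) := by
  decide

theorem OrdTerm_Cg_half (x : ℂ) (n : ℤ) :
    Cg (x - n * (Real.pi : ℂ) ^ 2 / 2) (x + n * (Real.pi : ℂ) ^ 2 / 2) := by
  refine ⟨-n, ?_⟩
  push_cast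
  ring

theorem ord_term (z : ℂ) (hz : 0 < z.im) (P Q : ℤ) (lL lR lD lN : ℂ)
    (hX : Complex.log z + P * (Real.pi * I) = 2 * lL - 2 * lR)
    (hY : -Complex.log (1 - z) + Q * (Real.pi * I) = 2 * lR - lD - lN)
    (c o : Fin 3 × Fin 3 × Fin 3)
    (hc : c.1 ≠ c.2.1 ∧ c.1 ≠ c.2.2 ∧ c.2.1 ≠ c.2.2)
    (ho : o.1 ≠ o.2.1 ∧ o.1 ≠ o.2.2 ∧ o.2.1 ≠ o.2.2) (ps : Fin 3 → ℂ)
    (hps : ∀ X, ps X = if X = c.1 then 2 * lL else if X = c.2.1 then 2 * lR else lD + lN) :
    ∃ p q : ℤ,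
      Complex.log (ordShape z c o) + p * (Real.pi * I) = ps o.2.2 - ps o.2.1 ∧
      -Complex.log (1 - ordShape z c o) + q * (Real.pi * I) = ps o.2.1 - ps o.1 ∧
      Cg ((ordSign c o : ℂ) * rogers (ordShape z c o) p q)
        (rogers z P Q + (Real.pi : ℂ) ^ 2 * ordConst c o P Q) := by
  have hzi : z.im ≠ 0 := hz.ne'
  have hz0 : z ≠ 0 := by
    rintro rfl
    exact hzi rfl
  have hz1 : 1 - z ≠ 0 := by
    intro h1
    apply hzi
    have h2 : z = 1 := (sub_eq_zero.1 h1).symm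
    rw [h2]
    rfl
  have h0 : OrdTerm_Fl z P Q (2 * lL - 2 * lR) (2 * lR - lD - lN) := ⟨hX, hY⟩
  -- the complement
  obtain ⟨f1, r1⟩ := OrdTerm_compl hzi h0
  have hi1 : (1 - z).im ≠ 0 := by
    rw [Complex.sub_im, Complex.one_im, zero_sub]
    exact neg_ne_zero.2 hzi
  -- the inverse
  obtain ⟨p2, q2, f2, r2⟩ := OrdTerm_inv hzi h0
  have hi2 : (z⁻¹).im ≠ 0 := by
    rw [Complex.inv_im]
    exact div_ne_zero (neg_ne_zero.2 hzi) (Complex.normSq_pos.2 hz0).ne'
  -- the inverse of the complement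
  obtain ⟨p3, q3, f3, r3⟩ := OrdTerm_inv hi1 f1
  have hi3 : ((1 - z)⁻¹).im ≠ 0 := by
    rw [Complex.inv_im]
    exact div_ne_zero (neg_ne_zero.2 hi1) (Complex.normSq_pos.2 hz1).ne'
  -- the complement of the inverse
  obtain ⟨f4, r4⟩ := OrdTerm_compl hi2 f2
  -- the complement of the inverse of the complement
  obtain ⟨f5, r5⟩ := OrdTerm_compl hi3 f3
  have g2 : Cg (rogers z⁻¹ p2 q2) (-rogers z P Q + P * (Real.pi : ℂ) ^ 2 / 2) := by
    have h := r2.sub (Cg.refl (rogers z P Q))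
    refine (Cg.of_eq ?_).trans (h.trans (Cg.of_eq ?_))
    · ring
    · ring
  have g3 : Cg (rogers (1 - z)⁻¹ p3 q3)
      (rogers z P Q + (Real.pi : ℂ) ^ 2 / 6 + Q * (Real.pi : ℂ) ^ 2 / 2) := by
    have h := r3.sub (Cg.refl (rogers (1 - z) (-Q) (-P)))
    refine (Cg.of_eq ?_).trans (h.trans ((Cg.of_eq ?_).trans (OrdTerm_Cg_half _ Q)))
    · ring
    · rw [r1]
      push_cast
      ring
  obtain ⟨A, B, C⟩ := o
  obtain ⟨hAB, hAC, hBC⟩ := ho
  simp only at hAB hAC hBC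
  rcases OrdTerm_cases c (A, B, C) hc ⟨hAB, hAC, hBC⟩ with h | h | h | h | h | h
  · simp only at h
    subst h
    have hA : ps A = lD + lN := by
      rw [hps]
      simp [hAB, hAC]
    have hB : ps B = 2 * lR := by
      rw [hps]
      simp [hBC]
    have hC : ps C = 2 * lL := by
      rw [hps]
      simp
    have e1 : ordShape z (C, B, A) (A, B, C) = z := by
      simp [ordShape]
    have e2 : ordSign (C, B, A) (A, B, C) = 1 := by
      simp [ordSign]
    have e3 : ordConst (C, B, A) (A, B, C) P Q = 0 := by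
      simp [ordConst]
    refine ⟨P, Q, ?_, ?_, ?_⟩
    · rw [e1, hX, hC, hB]
    · rw [e1, hY, hB, hA]
      ring
    · rw [e1, e2, e3]
      refine Cg.of_eq ?_
      push_cast
      ring
  · simp only at h
    subst h
    have hA : ps A = 2 * lL := by
      rw [hps]
      simp
    have hB : ps B = lD + lN := by
      rw [hps]
      simp [hAB.symm, hBC]
    have hC : ps C = 2 * lR := by
      rw [hps]
      simp [hAC.symm]
    have e1 : ordShape z (A, C, B) (A, B, C) = (1 - z)⁻¹ := by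
      simp [ordShape, hAC]
    have e2 : ordSign (A, C, B) (A, B, C) = 1 := by
      simp [ordSign]
    have e3 : ordConst (A, C, B) (A, B, C) P Q = 1 / 6 + Q / 2 := by
      simp [ordConst, hAC]
    refine ⟨p3, q3, ?_, ?_, ?_⟩
    · rw [e1, f3.1, hC, hB]
      ring
    · rw [e1, f3.2, hB, hA]
      ring
    · rw [e1, e2, e3]
      refine (Cg.of_eq ?_).trans (g3.trans (Cg.of_eq ?_))
      · push_cast
        ring
      · ring
  · simp only at h
    subst h
    have hA : ps A = 2 * lR := by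
      rw [hps]
      simp [hAB]
    have hB : ps B = 2 * lL := by
      rw [hps]
      simp
    have hC : ps C = lD + lN := by
      rw [hps]
      simp [hAC.symm, hBC.symm]
    have e1 : ordShape z (B, A, C) (A, B, C) = 1 - z⁻¹ := by
      simp [ordShape, hBC, hAB.symm]
    have e2 : ordSign (B, A, C) (A, B, C) = 1 := by
      simp [ordSign]
    have e3 : ordConst (B, A, C) (A, B, C) P Q = -1 / 6 + P / 2 := by
      simp [ordConst, hBC, hAB.symm]
    refine ⟨-q2, -p2, ?_, ?_, ?_⟩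
    · rw [e1, f4.1, hC, hB]
      ring
    · rw [e1, f4.2, hB, hA]
      ring
    · rw [e1, e2, e3, r4]
      have h := (Cg.refl (-((Real.pi : ℂ) ^ 2 / 6))).sub g2
      refine (Cg.of_eq ?_).trans (h.trans ((Cg.of_eq ?_).trans
        ((OrdTerm_Cg_half (rogers z P Q - (Real.pi : ℂ) ^ 2 / 6) P).trans (Cg.of_eq ?_))))
      · push_cast
        ring
      · ring
      · ring
  · simp only at h
    subst h
    have hA : ps A = lD + lN := by
      rw [hps]
      simp [hAB, hAC]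
    have hB : ps B = 2 * lL := by
      rw [hps]
      simp
    have hC : ps C = 2 * lR := by
      rw [hps]
      simp [hBC.symm]
    have e1 : ordShape z (B, C, A) (A, B, C) = z⁻¹ := by
      simp [ordShape, hBC, hAB.symm, hAC.symm]
    have e2 : ordSign (B, C, A) (A, B, C) = -1 := by
      simp [ordSign, hBC, hAB.symm, hAC.symm]
    have e3 : ordConst (B, C, A) (A, B, C) P Q = P / 2 := by
      simp [ordConst, hBC, hAB.symm, hAC.symm]
    refine ⟨p2, q2, ?_, ?_, ?_⟩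
    · rw [e1, f2.1, hC, hB]
      ring
    · rw [e1, f2.2, hB, hA]
      ring
    · rw [e1, e2, e3]
      refine (Cg.of_eq ?_).trans (g2.neg.trans ((Cg.of_eq ?_).trans
        ((OrdTerm_Cg_half (rogers z P Q) P).trans (Cg.of_eq ?_))))
      · push_cast
        ring
      · ring
      · ring
  · simp only at h
    subst h
    have hA : ps A = 2 * lR := by
      rw [hps]
      simp [hAC]
    have hB : ps B = lD + lN := by
      rw [hps]
      simp [hAB.symm, hBC]
    have hC : ps C = 2 * lL := by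
      rw [hps]
      simp
    have e1 : ordShape z (C, A, B) (A, B, C) = 1 - (1 - z)⁻¹ := by
      have h1 : ordShape z (C, A, B) (A, B, C) = z / (z - 1) := by
        simp [ordShape, hAB, hAC.symm, hBC.symm]
      rw [h1]
      have h2 : z - 1 ≠ 0 := by
        intro h3
        apply hz1
        linear_combination -h3
      field_simp
      ring
    have e2 : ordSign (C, A, B) (A, B, C) = -1 := by
      simp [ordSign, hAB, hAC.symm, hBC.symm]
    have e3 : ordConst (C, A, B) (A, B, C) P Q = 1 / 3 + Q / 2 := by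
      simp [ordConst, hAB, hAC.symm, hBC.symm]
    refine ⟨-q3, -p3, ?_, ?_, ?_⟩
    · rw [e1, f5.1, hC, hB]
      ring
    · rw [e1, f5.2, hB, hA]
      ring
    · rw [e1, e2, e3, r5]
      have h := (Cg.refl ((Real.pi : ℂ) ^ 2 / 6)).add g3
      refine (Cg.of_eq ?_).trans (h.trans (Cg.of_eq ?_))
      · push_cast
        ring
      · ring
  · simp only at h
    subst h
    have hA : ps A = 2 * lL := by
      rw [hps]
      simp
    have hB : ps B = 2 * lR := by
      rw [hps]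
      simp [hAB.symm]
    have hC : ps C = lD + lN := by
      rw [hps]
      simp [hAC.symm, hBC.symm]
    have e1 : ordShape z (A, B, C) (A, B, C) = 1 - z := by
      simp [ordShape, hAC, hBC, hAB]
    have e2 : ordSign (A, B, C) (A, B, C) = -1 := by
      simp [ordSign, hAC, hBC, hAB]
    have e3 : ordConst (A, B, C) (A, B, C) P Q = 1 / 6 := by
      simp [ordConst, hAC, hBC, hAB]
    refine ⟨-Q, -P, ?_, ?_, ?_⟩
    · rw [e1, f1.1, hC, hB]
      ring
    · rw [e1, f1.2, hB, hA]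
      ring
    · rw [e1, e2, e3, r1]
      refine Cg.of_eq ?_
      push_cast
      ring

end Pool.Agent.H63.VC5
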