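import Pool.Agent.H63.VC5.Rog
import Pool.Agent.H63.VC5.GGdilog

/-! # The Rogers dilogarithm and GG -/

namespace Pool.Agent.H63.VC5

open Pool.Agent.H63.VC Pool.Agent.H63.VC3 Pool.Agent.H63.VC4 Complex Filter Topology
open scoped BigOperators

theorem RogGG_even0 (z W0 : ℂ) (hz : z.im ≠ 0) (h0 : exp W0 = z) :
    ∃ m : ℤ, W0 = Complex.log z + 2 * m * (Real.pi * I) := by
  have hz0 : z ≠ 0 := fun h => hz (by simp [h])
  have h1 : exp W0 = exp (Complex.log z) := by rw [h0, Complex.exp_log hz0]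
  obtain ⟨n, hn⟩ := Complex.exp_eq_exp_iff_exists_int.1 h1
  exact ⟨n, by rw [hn]; ring⟩

theorem RogGG_even1 (z W1 : ℂ) (hz : z.im ≠ 0) (h1 : exp (-W1) = 1 - z) :
    ∃ n : ℤ, W1 = -Complex.log (1 - z) + 2 * n * (Real.pi * I) := by
  have hz0 : 1 - z ≠ 0 := fun h => hz (by
    have : z = 1 := by linear_combination -h
    simp [this])
  have h2 : exp (-W1) = exp (Complex.log (1 - z)) := by rw [h1, Complex.exp_log hz0]
  obtain ⟨n, hn⟩ := Complex.exp_eq_exp_iff_exists_int.1 h2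
  exact ⟨-n, by push_cast; linear_combination -hn⟩

theorem RogGG_im (z W0 : ℂ) (hz : z.im ≠ 0) (h0 : exp W0 = z) : W0.im ≠ 0 := by
  intro h
  apply hz
  rw [← h0, Complex.exp_im, h, Real.sin_zero, mul_zero]

theorem rogers_GG (z W0 W1 : ℂ) (hz : z.im ≠ 0) (h0 : exp W0 = z) (h1 : exp (-W1) = 1 - z)
    (hs : |W0.im| < 2 * Real.pi) (p q p' q' : ℤ)
    (hp : Complex.log z + p * (Real.pi * I) = W0 + p' * (Real.pi * I))
    (hq : -Complex.log (1 - z) + q * (Real.pi * I) = W1 + q' * (Real.pi * I)) :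
    Cg (2 * rogers z p q) (2 * (GG W0 + W0 * W1 / 2 - (Real.pi : ℂ) ^ 2 / 6) +
      Real.pi * I * (q' * W0 - p' * W1)) := by
  obtain ⟨m, hm⟩ := RogGG_even0 z W0 hz h0
  obtain ⟨n, hn⟩ := RogGG_even1 z W1 hz h1
  have hG := GG_dilog W0 hs (Or.inl (RogGG_im z W0 hz h0))
  rw [h0] at hG
  have hpm : p = 2 * m + p' := by
    apply Rog_int_eq
    push_cast
    linear_combination hp + hm
  have hqn : q = 2 * n + q' := by
    apply Rog_int_eq
    push_cast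
    linear_combination hq + hn
  refine ⟨4 * m * n + 2 * m * q' - 2 * n * p', ?_⟩
  unfold rogers
  rw [hG, hpm, hqn, hm, hn]
  push_cast
  ring_nf
  rw [I_sq]
  ring

theorem rogers_inv_GG (u W0 W1 : ℂ) (hu : u.im ≠ 0) (h0 : exp W0 = u)
    (h1 : exp (-W1) = 1 - u) (hs : |W0.im| < 2 * Real.pi) (p q p' q' : ℤ)
    (hp : Complex.log u⁻¹ + p * (Real.pi * I) = -(W0 + p' * (Real.pi * I)))
    (hq : -Complex.log (1 - u⁻¹) + q * (Real.pi * I) =
      W0 + p' * (Real.pi * I) + (W1 + q' * (Real.pi * I))) :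
    Cg (2 * rogers u⁻¹ p q) (-(2 * (GG W0 + W0 * W1 / 2 - (Real.pi : ℂ) ^ 2 / 6) +
      Real.pi * I * (q' * W0 - p' * W1))) := by
  obtain ⟨m, hm⟩ := RogGG_even0 u W0 hu h0
  obtain ⟨n, hn⟩ := RogGG_even1 u W1 hu h1
  have hX : Complex.log u + ((2 * m + p' : ℤ) : ℂ) * (Real.pi * I) =
      W0 + p' * (Real.pi * I) := by rw [hm]; push_cast; ring
  have hY : -Complex.log (1 - u) + ((2 * n + q' : ℤ) : ℂ) * (Real.pi * I) =
      W1 + q' * (Real.pi * I) := by rw [hn]; push_cast; ring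
  obtain ⟨a, ha⟩ := rogers_GG u W0 W1 hu h0 h1 hs _ _ p' q' hX hY
  obtain ⟨b, hb⟩ := rogers_inv u hu _ _ p q _ _ hX hY hp hq
  refine ⟨-a + 2 * b + (2 * m + p'), ?_⟩
  push_cast at ha hb ⊢
  linear_combination 2 * hb - ha

end Pool.Agent.H63.VC5
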