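import Pool.Agent.H63.VC5.Loc
import Pool.Agent.H63.VC5.Vtx

/-! # The compatibility of the logarithms -/

namespace Pool.Agent.H63.VC5

open Pool.Agent.H63.VC Pool.Agent.H63.VC3 Pool.Agent.H63.VC4 Complex Filter Topology
open scoped BigOperators

theorem Compat_natAbs {R : ℕ} {r : ℕ → ℤ} {y v : ℕ → ℂ} (hc : CritI R r y v) {i : ℕ}
    (hi : i ≤ R) : 10 ≤ (r i).natAbs := by
  have h := hc.hr i hi
  have h1 : ((r i).natAbs : ℤ) = |r i| := Int.natCast_natAbs (r i)
  omega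

theorem Compat_cast {p : ℕ} (hp : 1 ≤ p) : ((2 * p - 1 : ℕ) : ℂ) = 2 * (p : ℂ) - 1 := by
  rw [Nat.cast_sub (by omega)]
  push_cast
  ring

theorem Compat_odd {p : ℕ} (hp : 1 ≤ p) : ¬ Even (2 * p - 1) := by
  rw [Nat.not_even_iff_odd]
  exact ⟨p - 1, by omega⟩

theorem compat_first (R : ℕ) (r : ℕ → ℤ) (y v : ℕ → ℂ) : lam r y v 0 1 = LP y v 0 := by
  simp [lam, hkI, bL]

theorem compat_last (R : ℕ) (r : ℕ → ℤ) (y v : ℕ → ℂ) (hc : CritI R r y v) :
    lam r y v R (2 * (r R).natAbs - 1) = LP y v R := by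
  have hp := Compat_natAbs hc (le_refl R)
  have hev := hc.ev R (le_refl R)
  have hbR : bR R y v R = 0 := by simp [bR]
  rw [hbR, add_zero] at hev
  have h1 : ((2 * (r R).natAbs - 1 : ℕ) : ℂ) * wI r v R + bL y v R = 1 - wI r v R := by
    rw [Compat_cast (by omega)]
    linear_combination hev
  rw [lam, hkI, h1, hhx_refl, if_neg (Compat_odd (by omega))]
  ring

theorem Compat_DmL {R : ℕ} {r : ℕ → ℤ} {y v : ℕ → ℂ} (hc : CritI R r y v) {i : ℕ}
    (hi : i < R) : Dm (sgr (r (i + 1))) (wI r v (i + 1)) (bL y v (i + 1)) := by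
  have hp := Compat_natAbs hc (show i + 1 ≤ R from hi)
  have h := loc_Dm R r y v hc (i + 1) 0 hi (by omega) (by omega) (by omega)
  rwa [Nat.cast_zero, zero_mul, zero_add] at h

theorem compat_left (R : ℕ) (r : ℕ → ℤ) (y v : ℕ → ℂ) (hc : CritI R r y v) (i : ℕ)
    (hi : i < R) : lam r y v (i + 1) 0 = LP y v i := by
  have hv : ‖v (i + 1)‖ ≤ 7 / 100 := (hc.hv (i + 1) hi).trans (by norm_num)
  have hy : ‖y i - 1 / 4‖ ≤ 1 / 100 := (hc.hy i hi).trans (by norm_num)
  have hb : bL y v (i + 1) = bet (v (i + 1)) (some (y i)) / (2 * Real.pi) := by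
    rw [bL, if_neg (Nat.succ_ne_zero i), Nat.add_sub_cancel]
  have h := slot_h0 (sgr (r (i + 1))) (v (i + 1)) (y i) (bL y v (i + 1)) hv hy hb
    (Compat_DmL hc hi)
  have hey := hc.ey i hi
  rw [lam, hkI, Nat.cast_zero, zero_mul, zero_add, if_pos (by simp), LP, wI]
  linear_combination h + hey

theorem compat_right (R : ℕ) (r : ℕ → ℤ) (y v : ℕ → ℂ) (hc : CritI R r y v) (i : ℕ)
    (hi : i < R) : lam r y v i (2 * (r i).natAbs) = LP y v (i + 1) := by
  have hv : ‖v i‖ ≤ 7 / 100 := (hc.hv i hi.le).trans (by norm_num)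
  have hy : ‖y i - 1 / 4‖ ≤ 1 / 100 := (hc.hy i hi).trans (by norm_num)
  have hb : bR R y v i = bet (v i) (some (y i)) / (2 * Real.pi) := by
    rw [bR, if_neg hi.ne]
  have h := slot_h0 (sgr (r i)) (v i) (y i) (bR R y v i) hv hy hb (loc_DmR R r y v hc i hi)
  have hev := hc.ev i hi.le
  have h1 : ((2 * (r i).natAbs : ℕ) : ℂ) * wI r v i + bL y v i = 1 - bR R y v i := by
    rw [Nat.cast_mul, Nat.cast_ofNat]
    linear_combination hev
  rw [lam, hkI, h1, hhx_refl, if_pos (by simp), LP, wI]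
  linear_combination h

theorem Compat_sgr {a b : ℤ} (h : 0 < a * b) : sgr a = sgr b := by
  unfold sgr
  rcases lt_trichotomy a 0 with ha | ha | ha
  · have hb : b < 0 := by
      by_contra hcon
      push Not at hcon
      have := mul_nonpos_of_nonpos_of_nonneg ha.le hcon
      omega
    rw [if_pos ha, if_pos hb]
  · rw [ha, zero_mul] at h
    exact absurd h (lt_irrefl _)
  · have hb : 0 < b := (mul_pos_iff_of_pos_left ha).1 h
    rw [if_neg (not_lt.2 ha.le), if_neg (not_lt.2 hb.le)]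

theorem compat_same (R : ℕ) (r : ℕ → ℤ) (y v : ℕ → ℂ) (hc : CritI R r y v) (i : ℕ)
    (hi : i < R) (hs : 0 < r i * r (i + 1)) :
    lam r y v i (2 * (r i).natAbs - 1) = lam r y v (i + 1) 1 := by
  have hp := Compat_natAbs hc hi.le
  have hsg := Compat_sgr hs
  have hv : ‖v i‖ ≤ 6 / 100 := hc.hv i hi.le
  have hv' : ‖v (i + 1)‖ ≤ 6 / 100 := hc.hv (i + 1) hi
  have hy : ‖y i - 1 / 4‖ ≤ 6 / 1000 := hc.hy i hi
  have hb : bR R y v i = bet (v i) (some (y i)) / (2 * Real.pi) := by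
    rw [bR, if_neg hi.ne]
  have hb' : bL y v (i + 1) = bet (v (i + 1)) (some (y i)) / (2 * Real.pi) := by
    rw [bL, if_neg (Nat.succ_ne_zero i), Nat.add_sub_cancel]
  have h := slot_h1 (sgr (r i)) (v i) (y i) (bR R y v i) (hv.trans (by norm_num))
    (hy.trans (by norm_num)) hb (loc_DmR R r y v hc i hi)
  have h' := slot_h1 (sgr (r (i + 1))) (v (i + 1)) (y i) (bL y v (i + 1))
    (hv'.trans (by norm_num)) (hy.trans (by norm_num)) hb' (Compat_DmL hc hi)
  have hey := hc.ey i hi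
  have hd := vertex_d (v (i + 1)) (v i) (y i) hv' hv hy (by rw [hey]; ring)
  have hev := hc.ev i hi.le
  have h1 : ((2 * (r i).natAbs - 1 : ℕ) : ℂ) * wI r v i + bL y v i =
      1 - (wI r v i + bR R y v i) := by
    rw [Compat_cast (by omega)]
    linear_combination hev
  rw [lam, hkI, h1, hhx_refl, if_neg (Compat_odd (by omega)), lam, hkI, Nat.cast_one, one_mul,
    if_neg (by decide), LP, wI, wI]
  rw [← hsg] at h' ⊢
  linear_combination h - h' + hd

end Pool.Agent.H63.VC5
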