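import Pool.Agent.H63.VC4.GeoN
import Pool.Agent.H63.VC5.Defs

/-! # The critical point -/

namespace Pool.Agent.H63.VC5

open Pool.Agent.H63.VC Pool.Agent.H63.VC3 Pool.Agent.H63.VC4 Complex Filter Topology
open scoped BigOperators

private theorem CritI_exp (z : ℂ) (h : sin (Real.pi * z) ≠ 0) :
    exp (hh z) = 2 * sin (Real.pi * z) :=
  Complex.exp_log (mul_ne_zero two_ne_zero h)

private theorem CritI_exp2 (a b : ℂ) (ha : sin (Real.pi * a) ≠ 0) (hb : sin (Real.pi * b) ≠ 0) :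
    exp (2 * (hh a - hh b)) = sin (Real.pi * a) ^ 2 / sin (Real.pi * b) ^ 2 := by
  have e : (2 * (hh a - hh b) : ℂ) = hh a + hh a - (hh b + hh b) := by ring
  rw [e, Complex.exp_sub, Complex.exp_add, Complex.exp_add, CritI_exp a ha, CritI_exp b hb]
  rw [div_eq_div_iff (mul_ne_zero (mul_ne_zero two_ne_zero hb) (mul_ne_zero two_ne_zero hb))
    (pow_ne_zero 2 hb)]
  ring

private theorem CritI_im (z u : ℂ) (h : (starRingEnd ℂ) z⁻¹ = u) (hu : 0 < u.im) : 0 < z.im := by
  have e : z = ((starRingEnd ℂ) u)⁻¹ := by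
    rw [← h, Complex.conj_conj, inv_inv]
  rw [e, Complex.inv_im, Complex.conj_im, neg_neg]
  refine div_pos hu (Complex.normSq_pos.2 ?_)
  intro h0
  rw [map_eq_zero] at h0
  rw [h0] at hu
  simp at hu

private theorem CritI_Y {R : ℕ} (y : Fin R → ℂ) (j : Fin R) :
    (fun j => if h : j < R then y ⟨j, h⟩ else 0) (j : ℕ) = y j := by
  simp only [j.isLt, dif_pos, Fin.eta]

private theorem CritI_bL {R : ℕ} (y : Fin R → ℂ) (v : Fin (R + 1) → ℂ) (i : Fin (R + 1)) :
    bL (fun j => if h : j < R then y ⟨j, h⟩ else 0)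
      (fun i => if h : i < R + 1 then v ⟨i, h⟩ else 0) i =
      I * dpo (VC4.ext y i.castSucc) (v i) / (2 * Real.pi) := by
  refine Fin.cases ?_ (fun j => ?_) i
  · unfold bL
    rw [Fin.val_zero, if_pos rfl, ext_castSucc_zero]
    simp [dpo]
  · have h1 : ((j.succ : Fin (R + 1)) : ℕ) - 1 = (j : ℕ) := by
      rw [Fin.val_succ]; omega
    have h2 : ((j.succ : Fin (R + 1)) : ℕ) ≠ 0 := by
      rw [Fin.val_succ]; omega
    unfold bL
    rw [if_neg h2, h1, ext_mid']
    have e1 := CritI_Y y j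
    have e2 := CritI_Y v j.succ
    simp only at e1 e2
    simp only [bet, dpo]
    rw [e1, e2]
    ring

private theorem CritI_bR {R : ℕ} (y : Fin R → ℂ) (v : Fin (R + 1) → ℂ) (i : Fin (R + 1)) :
    bR R (fun j => if h : j < R then y ⟨j, h⟩ else 0)
      (fun i => if h : i < R + 1 then v ⟨i, h⟩ else 0) i =
      I * dpo (VC4.ext y i.succ) (v i) / (2 * Real.pi) := by
  refine Fin.lastCases ?_ (fun j => ?_) i
  · unfold bR
    rw [Fin.val_last, if_pos rfl, ext_last_succ]
    simp [dpo]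
  · have h2 : ((j.castSucc : Fin (R + 1)) : ℕ) ≠ R := by
      rw [Fin.val_castSucc]; exact j.isLt.ne
    unfold bR
    rw [if_neg h2, ext_mid]
    have e1 := CritI_Y y j
    have e2 := CritI_Y v j.castSucc
    simp only [Fin.val_castSucc] at e1 e2 ⊢
    simp only [bet, dpo]
    rw [e1, e2]
    ring

private theorem CritI_w (r : ℤ) (v : ℂ) : (r < 0 → (sgr r : ℂ) * v = stw r v) ∧
    (¬ r < 0 → (sgr r : ℂ) * v = (starRingEnd ℂ) (stw r v)) := by
  unfold sgr stw
  constructor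
  · intro h; rw [if_pos h, if_pos h]; simp
  · intro h; rw [if_neg h, if_neg h]; simp

/-- The shapes in terms of `zK`. -/
private theorem CritI_z {R : ℕ} (r : ℕ → ℤ) (y : Fin R → ℂ) (v : Fin (R + 1) → ℂ)
    (hc : CritN (fun i : Fin (R + 1) => r i) y v) (i : Fin (R + 1)) (k : ℕ)
    (hv : |(v i).re| < 1 / 10)
    (h1 : sin (Real.pi * stw (r i) (v i)) ≠ 0)
    (h2 : sin (k * (Real.pi * stw (r i) (v i)) + bet (stw (r i) (v i))
      ((VC4.ext y i.castSucc).map (sty (r i))) / 2) ≠ 0)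
    (h3 : 0 < (zK (stw (r i) (v i)) (bet (stw (r i) (v i))
      ((VC4.ext y i.castSucc).map (sty (r i)))) k).im) :
    0 < (zI r (fun j => if h : j < R then y ⟨j, h⟩ else 0)
      (fun i => if h : i < R + 1 then v ⟨i, h⟩ else 0) i k).im := by
  have hbet := RegCrit_bet (r i) (v i) hv (VC4.ext y i.castSucc) (fun z hz => by
    obtain ⟨j, rfl⟩ := RegCrit_mem y _ z hz
    exact RegCrit_bdy _ y v hc j)
  have hbL := CritI_bL y v i
  have hV := CritI_Y v i
  simp only at hV
  have hpi : (Real.pi : ℂ) ≠ 0 := by exact_mod_cast Real.pi_ne_zero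
  unfold zI hkI wI
  simp only [hbL, hV]
  unfold zK at h3
  by_cases hr : r i < 0
  · rw [if_pos hr]
    rw [if_pos hr] at hbet
    rw [(CritI_w (r i) (v i)).1 hr]
    rw [hbet] at h2 h3
    have e : (Real.pi : ℂ) * (k * stw (r i) (v i) +
        I * dpo (VC4.ext y i.castSucc) (v i) / (2 * Real.pi)) =
        k * (Real.pi * stw (r i) (v i)) + I * dpo (VC4.ext y i.castSucc) (v i) / 2 := by
      field_simp
    rw [CritI_exp2 _ _ h1 (by rw [e]; exact h2), e]
    exact h3
  · rw [if_neg hr]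
    rw [if_neg hr] at hbet
    rw [(CritI_w (r i) (v i)).2 hr]
    have hcI : (starRingEnd ℂ) (I * dpo (VC4.ext y i.castSucc) (v i)) =
        -I * (starRingEnd ℂ) (dpo (VC4.ext y i.castSucc) (v i)) := by
      rw [map_mul, Complex.conj_I]
    rw [← hcI] at hbet
    rw [hbet] at h2 h3
    set D := I * dpo (VC4.ext y i.castSucc) (v i) with hD
    set W := stw (r i) (v i) with hW
    have e : (Real.pi : ℂ) * (k * (starRingEnd ℂ) W + D / (2 * Real.pi)) =
        (starRingEnd ℂ) (k * (Real.pi * W) + (starRingEnd ℂ) D / 2) := by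
      rw [map_add, map_mul, map_mul, map_div₀, Complex.conj_conj, Complex.conj_ofReal,
        Complex.conj_natCast, Complex.conj_ofNat]
      field_simp
    have e' : (Real.pi : ℂ) * (starRingEnd ℂ) W = (starRingEnd ℂ) (Real.pi * W) := by
      rw [map_mul, Complex.conj_ofReal]
    have n1 : sin (Real.pi * (starRingEnd ℂ) W) ≠ 0 := by
      rw [e', Complex.sin_conj]
      exact (map_ne_zero _).2 h1
    have n2 : sin (Real.pi * (k * (starRingEnd ℂ) W + D / (2 * Real.pi))) ≠ 0 := by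
      rw [e, Complex.sin_conj]
      exact (map_ne_zero _).2 h2
    refine CritI_im _ _ ?_ h3
    rw [← Complex.exp_neg, neg_neg, CritI_exp2 _ _ n1 n2, e, e', Complex.sin_conj,
      Complex.sin_conj, map_div₀, map_pow, map_pow, Complex.conj_conj, Complex.conj_conj]

theorem critI_of_critN (R : ℕ) (r : ℕ → ℤ) (y : Fin R → ℂ) (v : Fin (R + 1) → ℂ)
    (hc : CritN (fun i : Fin (R + 1) => r i) y v) :
    CritI R r (fun j => if h : j < R then y ⟨j, h⟩ else 0)
      (fun i => if h : i < R + 1 then v ⟨i, h⟩ else 0) := by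
  have hr1 : ∀ i : Fin (R + 1), (10 : ℝ) ≤ |(r i : ℝ)| := fun i => by
    have h1 := hc.hr i
    have h2 := nA_pos R hc.hm i
    linarith
  have hreg : ∀ i : Fin (R + 1), Reg (r i).natAbs (stw (r i) (v i))
      ((VC4.ext y i.castSucc).map (sty (r i))) ((VC4.ext y i.succ).map (sty (r i))) :=
    fun i => reg_of_crit (fun i : Fin (R + 1) => r i) y v hc i
  have hV : ∀ i : Fin (R + 1),
      (fun i => if h : i < R + 1 then v ⟨i, h⟩ else 0) (i : ℕ) = v i := CritI_Y v
  have hY : ∀ j : Fin R, (fun j => if h : j < R then y ⟨j, h⟩ else 0) (j : ℕ) = y j := CritI_Y y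
  simp only at hV hY
  have hpi : (Real.pi : ℂ) ≠ 0 := by exact_mod_cast Real.pi_ne_zero
  have hre : ∀ i : Fin (R + 1), |(v i).re| < 1 / 10 := fun i => by
    refine lt_of_lt_of_le (hc.rev i) ?_
    have := hr1 i
    rw [div_le_div_iff₀ (by linarith) (by norm_num)]
    linarith
  have hwre : ∀ i : Fin (R + 1), ((sgr (r i) : ℂ) * v i).re = (stw (r i) (v i)).re := fun i => by
    by_cases h : r i < 0
    · rw [(CritI_w (r i) (v i)).1 h]
    · rw [(CritI_w (r i) (v i)).2 h, Complex.conj_re]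
  have hwim : ∀ i : Fin (R + 1), |((sgr (r i) : ℂ) * v i).im| = |(stw (r i) (v i)).im| :=
    fun i => by
    by_cases h : r i < 0
    · rw [(CritI_w (r i) (v i)).1 h]
    · rw [(CritI_w (r i) (v i)).2 h, Complex.conj_im, abs_neg]
  -- the location of the angles
  have hloc : ∀ i : Fin (R + 1), (1 / (2 * ((r i).natAbs : ℝ)) - 6 / (10 * ((r i).natAbs : ℝ) ^ 2)
      ≤ (stw (r i) (v i)).re) ∧
      |(stw (r i) (v i)).im| ≤ 6 / (10 * ((r i).natAbs : ℝ) ^ 2) := fun i => by
    have h1 := (hreg i).bd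
    have h2 := (abs_re_le_norm (stw (r i) (v i) - 1 / (2 * ((r i).natAbs : ℂ)))).trans h1
    have h3 := (abs_im_le_norm (stw (r i) (v i) - 1 / (2 * ((r i).natAbs : ℂ)))).trans h1
    have e : (1 / (2 * ((r i).natAbs : ℂ)) : ℂ) = ((1 / (2 * ((r i).natAbs : ℝ)) : ℝ) : ℂ) := by
      push_cast; ring
    rw [e, sub_re, ofReal_re] at h2
    rw [e, sub_im, ofReal_im, sub_zero] at h3
    exact ⟨by linarith [(abs_le.1 h2).1], h3⟩
  have hp : ∀ i : Fin (R + 1), (10 : ℝ) ≤ ((r i).natAbs : ℝ) := fun i => by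
    have := (hreg i).hp
    exact_mod_cast this
  refine ⟨hc.hm, ?_, ?_, ?_, ?_, ?_, ?_, ?_, ?_, ?_, ?_⟩
  · intro i hi
    have h := hr1 ⟨i, Nat.lt_succ_of_le hi⟩
    simp only at h
    have h' : ((10 : ℤ) : ℝ) ≤ ((|r i| : ℤ) : ℝ) := by push_cast; exact h
    exact_mod_cast h'
  · intro i hi
    obtain ⟨i, rfl⟩ : ∃ i' : Fin (R + 1), (i' : ℕ) = i := ⟨⟨i, Nat.lt_succ_of_le hi⟩, rfl⟩
    rw [hV]
    have h1 := hc.bdv i
    have h2 := hr1 i
    have h3 := hc.hr i
    have h4 := nA_pos R hc.hm i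
    have e : v i = (v i + 1 / (2 * (r i : ℂ))) + -(1 / (2 * (r i : ℂ))) := by ring
    have n1 : ‖-(1 / (2 * (r i : ℂ)))‖ = 1 / (2 * |(r i : ℝ)|) := by
      rw [norm_neg, norm_div, norm_mul, norm_one, Complex.norm_ofNat, Complex.norm_intCast]
    rw [e]
    refine (norm_add_le _ _).trans ?_
    rw [n1]
    have h5 : 3 / 10 * nA R i / (r i : ℝ) ^ 2 ≤ 3 / 1000 := by
      rw [← sq_abs (r i : ℝ)]
      rw [div_le_div_iff₀ (by positivity) (by norm_num)]
      nlinarith
    have h6 : 1 / (2 * |(r i : ℝ)|) ≤ 1 / 20 := by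
      apply one_div_le_one_div_of_le (by norm_num)
      linarith
    linarith
  · intro j hj
    obtain ⟨j, rfl⟩ : ∃ j' : Fin R, (j' : ℕ) = j := ⟨⟨j, hj⟩, rfl⟩
    rw [hY]
    exact RegCrit_bdy _ y v hc j
  · intro i hi
    obtain ⟨i, rfl⟩ : ∃ i' : Fin (R + 1), (i' : ℕ) = i := ⟨⟨i, Nat.lt_succ_of_le hi⟩, rfl⟩
    rw [hV]
    exact hc.imv i
  · intro i hi
    obtain ⟨i, rfl⟩ : ∃ i' : Fin (R + 1), (i' : ℕ) = i := ⟨⟨i, Nat.lt_succ_of_le hi⟩, rfl⟩
    unfold wI
    beta_reduce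
    rw [hV, hwre]
    exact (hreg i).re_pos
  · intro i hi
    obtain ⟨i, rfl⟩ : ∃ i' : Fin (R + 1), (i' : ℕ) = i := ⟨⟨i, Nat.lt_succ_of_le hi⟩, rfl⟩
    unfold wI
    beta_reduce
    rw [hV, hwre, hwim]
    have h1 := hloc i
    have h2 := hp i
    have h3 : 6 / (10 * ((r i).natAbs : ℝ) ^ 2) <
        (1 / (2 * ((r i).natAbs : ℝ)) - 6 / (10 * ((r i).natAbs : ℝ) ^ 2)) / 2 := by
      have hpos : (0 : ℝ) < ((r i).natAbs : ℝ) := by linarith
      have e : (1 / (2 * ((r i).natAbs : ℝ)) - 6 / (10 * ((r i).natAbs : ℝ) ^ 2)) / 2 -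
          6 / (10 * ((r i).natAbs : ℝ) ^ 2) =
          (((r i).natAbs : ℝ) / 4 - 9 / 10) / ((r i).natAbs : ℝ) ^ 2 := by
        field_simp
        ring
      have : 0 < (((r i).natAbs : ℝ) / 4 - 9 / 10) / ((r i).natAbs : ℝ) ^ 2 := by
        apply div_pos (by linarith) (by positivity)
      linarith
    linarith [h1.1, h1.2]
  · intro i hi
    obtain ⟨i, rfl⟩ : ∃ i' : Fin (R + 1), (i' : ℕ) = i := ⟨⟨i, Nat.lt_succ_of_le hi⟩, rfl⟩
    unfold wI
    beta_reduce
    rw [hV, hwim]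
    have h1 := (hloc i).2
    have h2 := hp i
    have hpos : (0 : ℝ) < ((r i).natAbs : ℝ) := by linarith
    calc 2 * ((r i).natAbs : ℝ) * |(stw (r i) (v i)).im|
        ≤ 2 * ((r i).natAbs : ℝ) * (6 / (10 * ((r i).natAbs : ℝ) ^ 2)) :=
          mul_le_mul_of_nonneg_left h1 (by positivity)
      _ = 6 / 5 / ((r i).natAbs : ℝ) := by field_simp; ring
      _ ≤ 1 / 4 := by
          rw [div_le_div_iff₀ hpos (by norm_num)]
          linarith
  · intro j hj
    obtain ⟨j, rfl⟩ : ∃ j' : Fin R, (j' : ℕ) = j := ⟨⟨j, hj⟩, rfl⟩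
    have h1 := hc.ey j
    have h2 := hV j.castSucc
    have h3 := hV j.succ
    rw [Fin.val_castSucc] at h2
    rw [Fin.val_succ] at h3
    unfold mm
    rw [hY, h2, h3]
    linear_combination h1 / 2
  · intro i hi
    obtain ⟨i, rfl⟩ : ∃ i' : Fin (R + 1), (i' : ℕ) = i := ⟨⟨i, Nat.lt_succ_of_le hi⟩, rfl⟩
    have h1 := hc.ev i
    rw [CritI_bL y v i, CritI_bR y v i]
    unfold wI
    beta_reduce
    rw [hV]
    have e : 2 * ((r i).natAbs : ℂ) * ((sgr (r i) : ℂ) * v i) = -(2 * (r i : ℂ) * v i) := by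
      unfold sgr
      have hz : ((r i).natAbs : ℂ) = ((|r i| : ℤ) : ℂ) := Nat.cast_natAbs _
      rw [hz]
      split_ifs with h
      · rw [abs_of_neg h]; push_cast; ring
      · rw [abs_of_nonneg (not_lt.1 h)]; push_cast; ring
    rw [e]
    have h2 : I * (2 * Real.pi * I * (2 * (r i : ℂ) * v i + 1) + dpo (VC4.ext y i.castSucc) (v i) +
        dpo (VC4.ext y i.succ) (v i)) / (2 * Real.pi) = 0 := by
      rw [h1]; simp
    have h3 : I * (2 * Real.pi * I * (2 * (r i : ℂ) * v i + 1) + dpo (VC4.ext y i.castSucc) (v i) +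
        dpo (VC4.ext y i.succ) (v i)) / (2 * Real.pi) = -(2 * (r i : ℂ) * v i + 1) +
        I * dpo (VC4.ext y i.castSucc) (v i) / (2 * Real.pi) +
        I * dpo (VC4.ext y i.succ) (v i) / (2 * Real.pi) := by
      field_simp
      linear_combination (2 * (Real.pi : ℂ) * (2 * (r i : ℂ) * v i + 1)) * Complex.I_sq
    rw [h3] at h2
    linear_combination h2
  · intro i hi k hk
    obtain ⟨i, rfl⟩ : ∃ i' : Fin (R + 1), (i' : ℕ) = i := ⟨⟨i, Nat.lt_succ_of_le hi⟩, rfl⟩
    unfold lay at hk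
    rw [Finset.mem_Icc] at hk
    obtain ⟨hk1, hk2⟩ := hk
    have hR := hreg i
    have hp10 := hR.hp
    have hleft : (VC4.ext y i.castSucc).map (sty (r i)) = none → (i : ℕ) = 0 := fun h => by
      have := congrArg Fin.val (GeoN_left_none y i _ h)
      simpa using this
    have hright : (VC4.ext y i.succ).map (sty (r i)) = none → (i : ℕ) = R := fun h => by
      have := congrArg Fin.val (GeoN_right_none y i _ h)
      simpa using this
    have hk1' : 1 ≤ k := by
      split_ifs at hk1 <;> omega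
    have hk2' : k ≤ 2 * (r i).natAbs := by
      split_ifs at hk2 <;> omega
    refine CritI_z r y v hc i k (hre i) (GeoN_sin_ne _ _ _ _ hR) (reg_ne _ _ _ _ hR k hk2'
      (fun _ => hk1') (fun h => ?_)) ?_
    · rw [if_pos (hright h)] at hk2
      omega
    · by_cases hk3 : k = 2 * (r i).natAbs
      · have hiR : (i : ℕ) ≠ R := fun h => by
          rw [if_pos h] at hk2; omega
        rw [if_neg hiR] at hk2
        have hneg : r i * r (i + 1) < 0 := by
          by_contra h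
          rw [if_neg h] at hk2; omega
        have hlt : (i : ℕ) < R := lt_of_le_of_ne (Nat.lt_succ_iff.1 i.isLt) hiR
        obtain ⟨j, rfl⟩ : ∃ j : Fin R, j.castSucc = i := ⟨⟨i, hlt⟩, by ext; simp⟩
        have h1 := hR
        rw [ext_mid] at h1
        have h2 := GeoN_top _ _ _ _ h1
        rw [hk3, h2.1]
        have hneg' : (fun i : Fin (R + 1) => r i) j.castSucc *
            (fun i : Fin (R + 1) => r i) j.succ < 0 := by
          simp only [Fin.val_castSucc, Fin.val_succ] at hneg ⊢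
          exact hneg
        exact (vertex_opp (fun i : Fin (R + 1) => r i) y v hc j _ _ _ _ rfl rfl rfl rfl hneg').1
      · refine reg_pos _ _ _ _ hR k hk1' (by omega) (fun h => ?_) (fun h => ?_)
        · rw [if_pos (hleft h)] at hk1
          exact hk1
        · rw [if_pos (hright h)] at hk2
          exact hk2

theorem VI_eq (R : ℕ) (r : ℕ → ℤ) (y : Fin R → ℂ) (v : Fin (R + 1) → ℂ) :
    VI R r (fun j => if h : j < R then y ⟨j, h⟩ else 0)
      (fun i => if h : i < R + 1 then v ⟨i, h⟩ else 0) =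
    VN (fun i : Fin (R + 1) => r i) y v := by
  have hV : ∀ i : Fin (R + 1),
      (fun i => if h : i < R + 1 then v ⟨i, h⟩ else 0) (i : ℕ) = v i := CritI_Y v
  have hY : ∀ j : Fin R, (fun j => if h : j < R then y ⟨j, h⟩ else 0) (j : ℕ) = y j := CritI_Y y
  simp only at hV hY
  have hV1 : ∀ j : Fin R, (fun i => if h : i < R + 1 then v ⟨i, h⟩ else 0) (j : ℕ) =
      v j.castSucc := fun j => by
    have := CritI_Y v j.castSucc
    rw [Fin.val_castSucc] at this
    exact this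
  have hV2 : ∀ j : Fin R, (fun i => if h : i < R + 1 then v ⟨i, h⟩ else 0) ((j : ℕ) + 1) =
      v j.succ := fun j => by
    have := CritI_Y v j.succ
    rw [Fin.val_succ] at this
    exact this
  simp only at hV1 hV2
  have hs := sum_slots (m := R) y (fun i u => po u (v i)) (fun i => rfl)
  unfold VI VN WN
  rw [Finset.sum_range, Finset.sum_range]
  simp only [hV, hY, hV1, hV2]
  have e : ∀ i : Fin (R + 1), 2 * Real.pi * I * ((r i : ℂ) * v i ^ 2 + v i) +
      po (VC4.ext y i.castSucc) (v i) + po (VC4.ext y i.succ) (v i) =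
      2 * Real.pi * I * ((r i : ℂ) * v i ^ 2 + v i) +
      (po (VC4.ext y i.castSucc) (v i) + po (VC4.ext y i.succ) (v i)) := fun i => by ring
  rw [Finset.sum_congr rfl (fun i _ => e i), Finset.sum_add_distrib, hs]
  have e2 : ∀ j : Fin R, (4 * ff (y j + 1 / 2) - ff (y j - v j.castSucc) -
      ff (y j + v j.castSucc) - ff (y j - v j.succ) - ff (y j + v j.succ)) =
      4 * ff (y j + 1 / 2) + (po (some (y j)) (v j.castSucc) + po (some (y j)) (v j.succ)) :=
    fun j => by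
    simp only [po]
    ring
  rw [Finset.sum_congr rfl (fun j _ => e2 j), Finset.sum_add_distrib]
  ring

end Pool.Agent.H63.VC5
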