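import Pool.Agent.H63.VC5.Layer
import Pool.Agent.H63.VC5.SlotC

/-! # The sum over a fan -/

namespace Pool.Agent.H63.VC5

open Pool.Agent.H63.VC Pool.Agent.H63.VC3 Pool.Agent.H63.VC4 Complex Filter Topology
open scoped BigOperators

theorem FanSum_tel (F : ℕ → ℂ) (a b : ℕ) (ha : 1 ≤ a) (hab : a ≤ b + 1) :
    ∑ k ∈ Finset.Icc a b, (F k - F (k - 1)) = F b - F (a - 1) := by
  induction b with
  | zero =>
    have : a = 1 := by omega
    subst this
    simp
  | succ b ih =>
    rcases Nat.lt_or_ge (b + 1) a with h | h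
    · have : a = b + 2 := by omega
      subst this
      rw [Finset.Icc_eq_empty (by omega), Finset.sum_empty]
      simp
    · rw [Finset.sum_Icc_succ_top h, ih h]
      simp

/-- The partial sums of the linear part. -/
noncomputable def FanSum_U (h : ℂ) (g : ℕ → ℂ) (n : ℕ) : ℂ :=
  if Even n then -(g (n + 1) - h) else g n - h

theorem FanSum_U_sub (h : ℂ) (g : ℕ → ℂ) (k : ℕ) (hk : 1 ≤ k) :
    (if Even k then 2 * h - g (k - 1) - g (k + 1) else 2 * g k - 2 * h) =
      FanSum_U h g k - FanSum_U h g (k - 1) := by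
  obtain ⟨m, rfl⟩ : ∃ m, k = m + 1 := ⟨k - 1, by omega⟩
  simp only [Nat.add_sub_cancel, FanSum_U]
  by_cases hm : Even m
  · have h1 : ¬ Even (m + 1) := by simpa [Nat.even_add_one] using hm
    rw [if_neg h1, if_neg h1, if_pos hm]
    ring
  · have h1 : Even (m + 1) := by simpa [Nat.even_add_one] using hm
    rw [if_pos h1, if_pos h1, if_neg hm]
    ring

theorem FanSum_sgr (r : ℤ) : (sgr r : ℂ) * sgr r = 1 ∧ (r : ℂ) = -(sgr r : ℂ) * (r.natAbs : ℂ) := by
  unfold sgr
  split_ifs with h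
  · refine ⟨by norm_num, ?_⟩
    have h1 : ((r.natAbs : ℤ)) = -r := by omega
    have h2 : ((r.natAbs : ℤ) : ℂ) = ((-r : ℤ) : ℂ) := by rw [h1]
    rw [Int.cast_natCast, Int.cast_neg] at h2
    rw [h2]; push_cast; ring
  · refine ⟨by norm_num, ?_⟩
    have h1 : ((r.natAbs : ℤ)) = r := by omega
    have h2 : ((r.natAbs : ℤ) : ℂ) = ((r : ℤ) : ℂ) := by rw [h1]
    rw [Int.cast_natCast] at h2
    rw [h2]; push_cast; ring

/-- The left end. -/
theorem FanSum_left (R : ℕ) (r : ℕ → ℤ) (y v : ℕ → ℂ) (hc : CritI R r y v) (i : ℕ)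
    (hi : i ≤ R) :
    sgr (r i) * (2 * Lam (wI r v i) ((((if i = 0 then 2 else 1) - 1 : ℕ) : ℂ) * wI r v i + bL y v i)) -
      Real.pi * I * FanSum_U (hh (wI r v i)) (hkI r y v i) ((if i = 0 then 2 else 1) - 1) =
    (if i = 0 then sgr (r i) * (Real.pi : ℂ) ^ 2 / 3 else SlotT (sgr (r i)) (v i) (y (i - 1))) -
      2 * Real.pi ^ 2 * v i * bL y v i := by
  by_cases h0 : i = 0
  · subst h0
    have h1 : bL y v 0 = 0 := by simp [bL]
    have h2 : hkI r y v 0 1 = hh (wI r v 0) := by
      unfold hkI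
      rw [h1]; simp
    have h3 : ¬ Even 1 := by decide
    simp only [if_true, Nat.reduceSub, FanSum_U, if_neg h3, h1, h2, Nat.cast_one, one_mul, add_zero,
      Lam_diag]
    ring
  · have h1 : bL y v i = bet (v i) (some (y (i - 1))) / (2 * Real.pi) := by
      unfold bL; rw [if_neg h0]
    have hp : 10 ≤ (r i).natAbs := by
      have := hc.hr i hi
      rw [Int.abs_eq_natAbs] at this
      omega
    have hd := loc_Dm R r y v hc i 0 hi (by omega) (fun h => absurd h h0) (fun _ => by omega)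
    rw [Nat.cast_zero, zero_mul, zero_add] at hd
    have hvi := hc.hv i hi
    have hyi := hc.hy (i - 1) (by omega)
    have hsl := slot_lam (sgr (r i)) (v i) (y (i - 1)) (bL y v i) (by linarith) (by linarith) h1 hd
    have h2 : hkI r y v i 1 = hh (wI r v i + bL y v i) := by
      unfold hkI; simp
    have h3 : Even 0 := by decide
    have hpi : (Real.pi : ℂ) ≠ 0 := by exact_mod_cast Real.pi_ne_zero
    have h4 : bet (v i) (some (y (i - 1))) = 2 * Real.pi * bL y v i := by
      rw [h1]; field_simp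
    rw [h4] at hsl
    simp only [if_neg h0, Nat.sub_self, FanSum_U, if_pos h3, zero_add, h2, Nat.cast_zero, zero_mul]
    have h5 : wI r v i = sgr (r i) * v i := rfl
    rw [← h5] at hsl
    linear_combination hsl

/-- The right end. -/
theorem FanSum_right (R : ℕ) (r : ℕ → ℤ) (y v : ℕ → ℂ) (hc : CritI R r y v) (i : ℕ)
    (hi : i ≤ R) :
    -(sgr (r i) * (2 * Lam (wI r v i)
      (((if i = R then 2 * (r i).natAbs - 2 else 2 * (r i).natAbs - 1 : ℕ) : ℂ) * wI r v i +
        bL y v i))) +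
      Real.pi * I * FanSum_U (hh (wI r v i)) (hkI r y v i)
        (if i = R then 2 * (r i).natAbs - 2 else 2 * (r i).natAbs - 1) =
    (if i = R then sgr (r i) * (Real.pi : ℂ) ^ 2 / 3 else SlotT (sgr (r i)) (v i) (y i)) -
      2 * Real.pi ^ 2 * v i * bR R y v i - 2 * Real.pi ^ 2 * v i := by
  have hp : 10 ≤ (r i).natAbs := by
    have := hc.hr i hi
    rw [Int.abs_eq_natAbs] at this
    omega
  have hev := hc.ev i hi
  obtain ⟨hss, -⟩ := FanSum_sgr (r i)
  have h5 : wI r v i = sgr (r i) * v i := rfl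
  have hsw : (sgr (r i) : ℂ) * wI r v i = v i := by
    rw [h5, ← mul_assoc, hss, one_mul]
  have c1 : ((2 * (r i).natAbs - 1 : ℕ) : ℂ) = 2 * ((r i).natAbs : ℂ) - 1 := by
    rw [Nat.cast_sub (by omega)]; push_cast; ring
  have c2 : ((2 * (r i).natAbs - 2 : ℕ) : ℂ) = 2 * ((r i).natAbs : ℂ) - 2 := by
    rw [Nat.cast_sub (by omega)]; push_cast; ring
  by_cases h0 : i = R
  · have h1 : bR R y v i = 0 := by unfold bR; rw [if_pos h0]
    rw [h1] at hev
    have e1 : (2 * ((r i).natAbs : ℂ) - 1) * wI r v i + bL y v i = 1 - wI r v i := by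
      linear_combination hev
    have e2 : (2 * ((r i).natAbs : ℂ) - 2) * wI r v i + bL y v i = 1 - 2 * wI r v i := by
      linear_combination hev
    have hd := loc_Dm R r y v hc i (2 * (r i).natAbs - 2) hi (by omega) (fun _ => by omega)
      (fun _ => by omega)
    rw [c2, e2] at hd
    have hl := Lam_refl _ _ _ hd
    have e3 : 1 - wI r v i - (1 - 2 * wI r v i) = wI r v i := by ring
    rw [e3, Lam_diag] at hl
    have h2 : hkI r y v i (2 * (r i).natAbs - 1) = hh (wI r v i) := by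
      unfold hkI
      rw [c1, e1, hhx_refl]
    have h3 : Even (2 * (r i).natAbs - 2) := by
      refine ⟨(r i).natAbs - 1, by omega⟩
    have h4 : 2 * (r i).natAbs - 2 + 1 = 2 * (r i).natAbs - 1 := by omega
    simp only [if_pos h0, FanSum_U, if_pos h3, h4, h2, c2, e2, h1]
    linear_combination (-2 * (sgr (r i) : ℂ)) * hl - 2 * (Real.pi : ℂ) ^ 2 * hsw
  · have hiR : i < R := lt_of_le_of_ne hi h0
    have h1 : bR R y v i = bet (v i) (some (y i)) / (2 * Real.pi) := by
      unfold bR; rw [if_neg h0]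
    have e1 : (2 * ((r i).natAbs : ℂ) - 1) * wI r v i + bL y v i = 1 - wI r v i - bR R y v i := by
      linear_combination hev
    have hd := loc_DmR R r y v hc i hiR
    have hl := Lam_refl _ _ _ hd
    have hvi := hc.hv i hi
    have hyi := hc.hy i hiR
    have hsl := slot_lam (sgr (r i)) (v i) (y i) (bR R y v i) (by linarith) (by linarith) h1 hd
    have hpi : (Real.pi : ℂ) ≠ 0 := by exact_mod_cast Real.pi_ne_zero
    have h4 : bet (v i) (some (y i)) = 2 * Real.pi * bR R y v i := by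
      rw [h1]; field_simp
    rw [h4, ← h5] at hsl
    have h2 : hkI r y v i (2 * (r i).natAbs - 1) = hh (wI r v i + bR R y v i) := by
      unfold hkI
      rw [c1, e1, ← hhx_refl]
      congr 1; ring
    have h3 : ¬ Even (2 * (r i).natAbs - 1) := by
      rw [Nat.not_even_iff_odd]
      exact ⟨(r i).natAbs - 1, by omega⟩
    simp only [if_neg h0, FanSum_U, if_neg h3, h2, c1, e1]
    linear_combination hsl - 2 * (sgr (r i) : ℂ) * hl - 2 * (Real.pi : ℂ) ^ 2 * hsw

theorem fan_sum5 (R : ℕ) (r : ℕ → ℤ) (y v : ℕ → ℂ) (hc : CritI R r y v) (i : ℕ)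
    (hi : i ≤ R) (P Q : ℕ → ℕ → ℤ)
    (hP : ∀ k ∈ fan R r i, Complex.log (zI r y v i k) + P i k * (Real.pi * I) =
      2 * lgL r (LP y v) (lam r y v) i k - 2 * lgR r (LP y v) (lam r y v) i k)
    (hQ : ∀ k ∈ fan R r i, -Complex.log (1 - zI r y v i k) + Q i k * (Real.pi * I) =
      2 * lgR r (LP y v) (lam r y v) i k - lam r y v i (k - 1) - lgN r (lam r y v) i k) :
    Cg (∑ k ∈ fan R r i, 2 * rogers (zI r y v i k) (P i k) (Q i k))
      ((if i = 0 then sgr (r i) * (Real.pi : ℂ) ^ 2 / 3 else SlotT (sgr (r i)) (v i) (y (i - 1))) +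
      (if i = R then sgr (r i) * (Real.pi : ℂ) ^ 2 / 3 else SlotT (sgr (r i)) (v i) (y i)) -
      4 * (Real.pi : ℂ) ^ 2 * (v i + r i * v i ^ 2) -
      sgr (r i) * ((fan R r i).card : ℂ) * (Real.pi : ℂ) ^ 2 / 3) := by
  have hp : 10 ≤ (r i).natAbs := by
    have := hc.hr i hi
    rw [Int.abs_eq_natAbs] at this
    omega
  have key := Cg.sum (fan R r i) (fun k hk => layer_fan R r y v hc i k hi hk (P i k) (Q i k)
    (hP k hk) (hQ k hk))
  refine key.trans (Cg.of_eq ?_)
  obtain ⟨hss, hrs⟩ := FanSum_sgr (r i)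
  set s : ℂ := (sgr (r i) : ℂ) with hs
  set w := wI r v i with hw
  set F : ℕ → ℂ := fun n => -(s * (2 * Lam w ((n : ℂ) * w + bL y v i))) +
    Real.pi * I * FanSum_U (hh w) (hkI r y v i) n with hF
  have hterm : ∀ k ∈ fan R r i,
      s * (2 * (Lam w (((k - 1 : ℕ) : ℂ) * w + bL y v i) - Lam w (k * w + bL y v i)) -
        (Real.pi : ℂ) ^ 2 / 3) +
      Real.pi * I * (if Even k then 2 * hh w - hkI r y v i (k - 1) - hkI r y v i (k + 1)
        else 2 * hkI r y v i k - 2 * hh w) = (F k - F (k - 1)) - s * (Real.pi : ℂ) ^ 2 / 3 := by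
    intro k hk
    have hk1 : 1 ≤ k := by
      unfold fan at hk
      rw [Finset.mem_Icc] at hk
      split_ifs at hk <;> omega
    rw [FanSum_U_sub _ _ k hk1, hF]
    ring
  rw [Finset.sum_congr rfl hterm, Finset.sum_sub_distrib, Finset.sum_const, nsmul_eq_mul]
  have htel : ∑ k ∈ fan R r i, (F k - F (k - 1)) =
      F (if i = R then 2 * (r i).natAbs - 2 else 2 * (r i).natAbs - 1) -
        F ((if i = 0 then 2 else 1) - 1) := by
    unfold fan
    apply FanSum_tel
    · split_ifs <;> omega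
    · split_ifs <;> omega
  rw [htel]
  have hl := FanSum_left R r y v hc i hi
  have hr := FanSum_right R r y v hc i hi
  have hev := hc.ev i hi
  rw [← hs, ← hw] at hl hr
  rw [← hw] at hev
  have hws : w = s * v i := rfl
  simp only [hF]
  rw [hrs]
  have hv2 : s * w = v i := by rw [hws, ← mul_assoc, hss, one_mul]
  linear_combination hl + hr - 2 * (Real.pi : ℂ) ^ 2 * v i * hev +
    4 * (Real.pi : ℂ) ^ 2 * ((r i).natAbs : ℂ) * v i * hws

end Pool.Agent.H63.VC5
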