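import Pool.Agent.H63.VC5.FanSum
import Pool.Agent.H63.VC5.Shapes

/-! # The sum over all the layers -/

namespace Pool.Agent.H63.VC5

open Pool.Agent.H63.VC Pool.Agent.H63.VC3 Pool.Agent.H63.VC4 Complex Filter Topology
open scoped BigOperators

/-- The two logarithms next to a hinge. -/
theorem SumCV_logs (R : ℕ) (r : ℕ → ℤ) (y v : ℕ → ℂ) (hc : CritI R r y v) (i : ℕ)
    (hi : i < R) (hs : r i * r (i + 1) < 0) :
    lam r y v i (2 * (r i).natAbs - 1) + lam r y v (i + 1) 1 =
      2 * LP y v (i + 1) + 2 * (hh (v i + 1 / 2) - hh (y i + 1 / 2)) := by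
  have hri : 10 ≤ |r i| := hc.hr i hi.le
  have hri' : 10 ≤ |r (i + 1)| := hc.hr (i + 1) hi
  have hp : 10 ≤ (r i).natAbs := by
    rw [Int.abs_eq_natAbs] at hri
    exact_mod_cast hri
  have hp' : 10 ≤ (r (i + 1)).natAbs := by
    rw [Int.abs_eq_natAbs] at hri'
    exact_mod_cast hri'
  -- the signs
  have hss : sgr (r (i + 1)) = -sgr (r i) := by
    unfold sgr
    rcases lt_or_ge (r i) 0 with h | h
    · have h2 : ¬ r (i + 1) < 0 := by
        intro h2
        nlinarith
      rw [if_pos h, if_neg h2]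
    · have h2 : r (i + 1) < 0 := by
        by_contra h2
        push Not at h2
        nlinarith
      rw [if_neg (not_lt.mpr h), if_pos h2]
      ring
  have hodd : ¬ Even (2 * (r i).natAbs - 1) := by
    rw [Nat.not_even_iff_odd]
    exact ⟨(r i).natAbs - 1, by omega⟩
  have hodd1 : ¬ Even 1 := by decide
  have hvn : ‖v i‖ ≤ 7 / 100 := (hc.hv i hi.le).trans (by norm_num)
  have hvn' : ‖v (i + 1)‖ ≤ 7 / 100 := (hc.hv (i + 1) hi).trans (by norm_num)
  have hyn : ‖y i - 1 / 4‖ ≤ 1 / 100 := (hc.hy i hi).trans (by norm_num)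
  -- the right slot of the region i
  have hbR : bR R y v i = bet (v i) (some (y i)) / (2 * Real.pi) := by
    unfold bR
    rw [if_neg hi.ne]
  have hbL : bL y v (i + 1) = bet (v (i + 1)) (some (y i)) / (2 * Real.pi) := by
    unfold bL
    rw [if_neg (Nat.succ_ne_zero i)]
    simp
  have h1 := slot_h1 (sgr (r i)) (v i) (y i) (bR R y v i) hvn hyn hbR
    (loc_DmR R r y v hc i hi)
  have hD2 : Dm (sgr (r (i + 1))) (wI r v (i + 1)) (bL y v (i + 1)) := by
    have := loc_Dm R r y v hc (i + 1) 0 hi (by omega) (fun h => by omega) (fun _ => by omega)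
    simpa using this
  have h2 := slot_h1 (sgr (r (i + 1))) (v (i + 1)) (y i) (bL y v (i + 1)) hvn' hyn hbL hD2
  -- the last logarithm of the fan
  have hk1 : hkI r y v i (2 * (r i).natAbs - 1) = hh (wI r v i + bR R y v i) := by
    unfold hkI
    rw [← hhx_refl]
    congr 1
    have he := hc.ev i hi.le
    have hcast : ((2 * (r i).natAbs - 1 : ℕ) : ℂ) = 2 * ((r i).natAbs : ℂ) - 1 := by
      rw [Nat.cast_sub (by omega)]
      push_cast
      ring
    rw [hcast]
    linear_combination -he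
  have hk2 : hkI r y v (i + 1) 1 = hh (wI r v (i + 1) + bL y v (i + 1)) := by
    unfold hkI
    simp
  have hLP : LP y v (i + 1) = LP y v i + (hh (y i + 1 / 2) - mm (v i) (y i)) := rfl
  have hvd := vertex_d (v i) (v (i + 1)) (y i) (hc.hv i hi.le) (hc.hv (i + 1) hi) (hc.hy i hi)
    (hc.ey i hi)
  have hey := hc.ey i hi
  unfold lam
  rw [if_neg hodd, if_neg hodd1, hk1, hk2]
  rw [hLP]
  have hss' : ((sgr (r (i + 1)) : ℝ) : ℂ) = -((sgr (r i) : ℝ) : ℂ) := by
    rw [hss]
    push_cast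
    ring
  rw [hss'] at h2
  have h1' : hh (wI r v i + bR R y v i) - hh (wI r v i) =
      hh (v i + 1 / 2) - mm (v i) (y i) - sgr (r i) * Real.pi * I / 2 +
        sgr (r i) * Real.pi * I * y i := h1
  have h2' : hh (wI r v (i + 1) + bL y v (i + 1)) - hh (wI r v (i + 1)) =
      hh (v (i + 1) + 1 / 2) - mm (v (i + 1)) (y i) - -sgr (r i) * Real.pi * I / 2 +
        -sgr (r i) * Real.pi * I * y i := by
    rw [← h2]
    unfold wI
    rw [hss']
  linear_combination h1' + h2' + hvd + hey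

/-- The layer of a hinge between regions of opposite signs. -/
theorem SumCV_hinge (R : ℕ) (r : ℕ → ℤ) (y v : ℕ → ℂ) (hc : CritI R r y v) (i : ℕ)
    (hi : i < R) (hs : r i * r (i + 1) < 0) (P Q : ℤ)
    (hP : Complex.log (zI r y v i (2 * (r i).natAbs)) + P * (Real.pi * I) =
      2 * lgL r (LP y v) (lam r y v) i (2 * (r i).natAbs) -
        2 * lgR r (LP y v) (lam r y v) i (2 * (r i).natAbs))
    (hQ : -Complex.log (1 - zI r y v i (2 * (r i).natAbs)) + Q * (Real.pi * I) =
      2 * lgR r (LP y v) (lam r y v) i (2 * (r i).natAbs) -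
        lam r y v i (2 * (r i).natAbs - 1) - lgN r (lam r y v) i (2 * (r i).natAbs)) :
    2 * rogers (zI r y v i (2 * (r i).natAbs)) P Q =
      2 * (if r i < 0 then XX (v i) (y i) else XX (v (i + 1)) (y i)) -
        (Real.pi : ℂ) ^ 2 / 3 := by
  have hlogs := SumCV_logs R r y v hc i hi hs
  have hcr := compat_right R r y v hc i hi
  have hLP : LP y v (i + 1) = LP y v i + (hh (y i + 1 / 2) - mm (v i) (y i)) := rfl
  have hvd := vertex_d (v i) (v (i + 1)) (y i) (hc.hv i hi.le) (hc.hv (i + 1) hi) (hc.hy i hi)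
    (hc.ey i hi)
  have hey := hc.ey i hi
  have hN : lgN r (lam r y v) i (2 * (r i).natAbs) = lam r y v (i + 1) 1 := by
    unfold lgN
    rw [if_pos rfl]
  have hz := shape_eq r y v i (2 * (r i).natAbs)
  have hm1 : ((-1 : ℂ)) ^ (2 * (r i).natAbs + 1) = -1 := by
    rw [pow_succ, pow_mul]
    simp
  rw [hm1] at hz
  rw [hN] at hQ
  by_cases h : r i < 0
  · have hL : lgL r (LP y v) (lam r y v) i (2 * (r i).natAbs) = LP y v i := by
      unfold lgL
      rw [if_pos h]
    have hR : lgR r (LP y v) (lam r y v) i (2 * (r i).natAbs) = LP y v (i + 1) := by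
      unfold lgR
      rw [if_pos h, hcr]
    rw [hL, hR] at hP hz
    rw [hR] at hQ
    rw [if_pos h]
    have hE : 2 * LP y v i - 2 * LP y v (i + 1) = 2 * (mm (v i) (y i) - hh (y i + 1 / 2)) := by
      rw [hLP]
      ring
    rw [hE] at hP hz
    have := vertex_hinge (v i) (y i) (zI r y v i (2 * (r i).natAbs)) (hc.hv i hi.le) (hc.hy i hi)
      (by rw [hz]; ring) P Q hP (by
        rw [hQ]
        linear_combination -hlogs)
    rw [this]
    ring
  · have hL : lgL r (LP y v) (lam r y v) i (2 * (r i).natAbs) = LP y v (i + 1) := by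
      unfold lgL
      rw [if_neg h, hcr]
    have hR : lgR r (LP y v) (lam r y v) i (2 * (r i).natAbs) = LP y v i := by
      unfold lgR
      rw [if_neg h]
    rw [hL, hR] at hP hz
    rw [hR] at hQ
    rw [if_neg h]
    have hE : 2 * LP y v (i + 1) - 2 * LP y v i =
        2 * (mm (v (i + 1)) (y i) - hh (y i + 1 / 2)) := by
      rw [hLP]
      linear_combination 2 * hey
    rw [hE] at hP hz
    have := vertex_hinge (v (i + 1)) (y i) (zI r y v i (2 * (r i).natAbs)) (hc.hv (i + 1) hi)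
      (hc.hy i hi) (by rw [hz]; ring) P Q hP (by
        rw [hQ]
        linear_combination -hlogs + 2 * hvd - 2 * hLP)
    rw [this]
    ring

/-- The layers of a region. -/
theorem SumCV_lay (R : ℕ) (r : ℕ → ℤ) (y v : ℕ → ℂ) (hc : CritI R r y v) (i : ℕ)
    (hi : i ≤ R) (f : ℕ → ℂ) : ∑ k ∈ lay R r i, f k = ∑ k ∈ fan R r i, f k +
      (if i < R ∧ r i * r (i + 1) < 0 then f (2 * (r i).natAbs) else 0) := by
  have hri : 10 ≤ |r i| := hc.hr i hi
  have hp : 10 ≤ (r i).natAbs := by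
    rw [Int.abs_eq_natAbs] at hri
    exact_mod_cast hri
  unfold lay fan
  have ha : (if i = 0 then 2 else 1) ≤ 2 := by split_ifs <;> omega
  generalize (if i = 0 then 2 else 1) = a at ha ⊢
  by_cases h1 : i = R
  · rw [if_pos h1, if_pos h1, if_neg (fun h => h.1.ne h1), add_zero]
  · have hlt : i < R := lt_of_le_of_ne hi h1
    rw [if_neg h1, if_neg h1]
    by_cases h2 : r i * r (i + 1) < 0
    · rw [if_pos h2, if_pos ⟨hlt, h2⟩]
      obtain ⟨m, hm⟩ : ∃ m, 2 * (r i).natAbs = m + 1 := ⟨2 * (r i).natAbs - 1, by omega⟩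
      rw [hm, Nat.add_sub_cancel, Finset.sum_Icc_succ_top (by omega)]
    · rw [if_neg h2, if_neg (fun h => h2 h.2), add_zero]

theorem SumCV_fan_sub (R : ℕ) (r : ℕ → ℤ) (i : ℕ) : fan R r i ⊆ lay R r i := by
  unfold lay fan
  by_cases h1 : i = R
  · rw [if_pos h1, if_pos h1]
  · rw [if_neg h1, if_neg h1]
    by_cases h2 : r i * r (i + 1) < 0
    · rw [if_pos h2]
      exact Finset.Icc_subset_Icc_right (by omega)
    · rw [if_neg h2]

theorem SumCV_mem (R : ℕ) (r : ℕ → ℤ) (y v : ℕ → ℂ) (hc : CritI R r y v) (i : ℕ)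
    (hi : i < R) (h2 : r i * r (i + 1) < 0) : 2 * (r i).natAbs ∈ lay R r i := by
  have hri : 10 ≤ |r i| := hc.hr i hi.le
  have hp : 10 ≤ (r i).natAbs := by
    rw [Int.abs_eq_natAbs] at hri
    exact_mod_cast hri
  unfold lay
  rw [if_neg hi.ne, if_pos h2, Finset.mem_Icc]
  constructor
  · split_ifs <;> omega
  · exact le_rfl

/-- The contribution of a vertex. -/
theorem SumCV_vertex (R : ℕ) (r : ℕ → ℤ) (y v : ℕ → ℂ) (hc : CritI R r y v) (j : ℕ)
    (hj : j < R) : Cg (SlotT (sgr (r j)) (v j) (y j) + SlotT (sgr (r (j + 1))) (v (j + 1)) (y j) +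
      (if r j * r (j + 1) < 0 then
        2 * (if r j < 0 then XX (v j) (y j) else XX (v (j + 1)) (y j)) -
          (Real.pi : ℂ) ^ 2 / 3 else 0))
      (2 * Real.pi * I * (4 * ff (y j + 1 / 2) - ff (y j - v j) - ff (y j + v j) -
        ff (y j - v (j + 1)) - ff (y j + v (j + 1))) + (Real.pi : ℂ) ^ 2 *
          (if 0 < r j * r (j + 1) then (sgr (r j) : ℂ) / 6 else -1 / 2)) := by
  have hr1 : 10 ≤ |r j| := hc.hr j hj.le
  have hr2 : 10 ≤ |r (j + 1)| := hc.hr (j + 1) hj
  have hey := hc.ey j hj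
  rw [slotT_sum _ _ _ _ _ hey]
  have hXX := vertex_XX (v j) (v (j + 1)) (y j) (hc.hv j hj.le) (hc.hv (j + 1) hj) (hc.hy j hj) hey
  have h0 : r j ≠ 0 := by
    intro h
    rw [h] at hr1
    norm_num at hr1
  have h0' : r (j + 1) ≠ 0 := by
    intro h
    rw [h] at hr2
    norm_num at hr2
  rcases lt_or_gt_of_ne h0 with h | h <;> rcases lt_or_gt_of_ne h0' with h' | h'
  · have hpos : 0 < r j * r (j + 1) := mul_pos_of_neg_of_neg h h'
    rw [if_neg (not_lt.mpr hpos.le), if_pos hpos]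
    unfold sgr
    rw [if_pos h, if_pos h']
    refine ⟨1, ?_⟩
    push_cast
    linear_combination -hXX
  · have hneg : r j * r (j + 1) < 0 := mul_neg_of_neg_of_pos h h'
    rw [if_pos hneg, if_neg (not_lt.mpr hneg.le), if_pos h]
    unfold sgr
    rw [if_pos h, if_neg (not_lt.mpr h'.le)]
    refine ⟨0, ?_⟩
    push_cast
    linear_combination hXX
  · have hneg : r j * r (j + 1) < 0 := mul_neg_of_pos_of_neg h h'
    rw [if_pos hneg, if_neg (not_lt.mpr hneg.le), if_neg (not_lt.mpr h.le)]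
    unfold sgr
    rw [if_neg (not_lt.mpr h.le), if_pos h']
    refine ⟨0, ?_⟩
    push_cast
    linear_combination hXX
  · have hpos : 0 < r j * r (j + 1) := mul_pos h h'
    rw [if_neg (not_lt.mpr hpos.le), if_pos hpos]
    unfold sgr
    rw [if_neg (not_lt.mpr h.le), if_neg (not_lt.mpr h'.le)]
    refine ⟨-1, ?_⟩
    push_cast
    linear_combination hXX

/-- Regrouping the slots. -/
theorem SumCV_regroup (R : ℕ) (A B : ℕ → ℂ) (a b : ℕ → ℂ) :
    ∑ i ∈ Finset.range (R + 1), ((if i = 0 then a i else A (i - 1)) +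
        (if i = R then b i else B i)) =
      ∑ j ∈ Finset.range R, (B j + A j) + a 0 + b R := by
  rw [Finset.sum_add_distrib, Finset.sum_range_succ']
  rw [Finset.sum_range_succ (f := fun i => if i = R then b i else B i)]
  have e1 : ∑ k ∈ Finset.range R, (if k + 1 = 0 then a (k + 1) else A (k + 1 - 1)) =
      ∑ k ∈ Finset.range R, A k := Finset.sum_congr rfl fun k _ => by simp
  have e2 : ∑ k ∈ Finset.range R, (if k = R then b k else B k) =
      ∑ k ∈ Finset.range R, B k := Finset.sum_congr rfl fun k hk => by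
    rw [if_neg (Finset.mem_range.mp hk).ne]
  rw [e1, e2, if_pos rfl, if_pos rfl, Finset.sum_add_distrib]
  ring

/-- The sum over all the layers. -/
theorem sum_cv (R : ℕ) (r : ℕ → ℤ) (y v : ℕ → ℂ) (hc : CritI R r y v) (P Q : ℕ → ℕ → ℤ)
    (hP : ∀ i ≤ R, ∀ k ∈ lay R r i, Complex.log (zI r y v i k) + P i k * (Real.pi * I) =
      2 * lgL r (LP y v) (lam r y v) i k - 2 * lgR r (LP y v) (lam r y v) i k)
    (hQ : ∀ i ≤ R, ∀ k ∈ lay R r i, -Complex.log (1 - zI r y v i k) + Q i k * (Real.pi * I) =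
      2 * lgR r (LP y v) (lam r y v) i k - lam r y v i (k - 1) - lgN r (lam r y v) i k) :
    Cg (∑ i ∈ Finset.range (R + 1), ∑ k ∈ lay R r i,
        2 * rogers (zI r y v i k) (P i k) (Q i k))
      (2 * Real.pi * I * VI R r y v + (Real.pi : ℂ) ^ 2 *
        ((∑ i ∈ Finset.range (R + 1), ((if i = 0 then (sgr (r i) : ℂ) / 3 else 0) +
          (if i = R then (sgr (r i) : ℂ) / 3 else 0) -
          sgr (r i) * ((fan R r i).card : ℂ) / 3)) +
        ∑ j ∈ Finset.range R,
          (if 0 < r j * r (j + 1) then (sgr (r j) : ℂ) / 6 else -1 / 2))) := by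
  -- the fans and the hinges
  have step1 : Cg (∑ i ∈ Finset.range (R + 1), ∑ k ∈ lay R r i,
        2 * rogers (zI r y v i k) (P i k) (Q i k))
      (∑ i ∈ Finset.range (R + 1),
        (((if i = 0 then sgr (r i) * (Real.pi : ℂ) ^ 2 / 3 else
            SlotT (sgr (r i)) (v i) (y (i - 1))) +
          (if i = R then sgr (r i) * (Real.pi : ℂ) ^ 2 / 3 else SlotT (sgr (r i)) (v i) (y i)) -
          4 * (Real.pi : ℂ) ^ 2 * (v i + r i * v i ^ 2) -
          sgr (r i) * ((fan R r i).card : ℂ) * (Real.pi : ℂ) ^ 2 / 3) +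
        (if i < R ∧ r i * r (i + 1) < 0 then
          2 * (if r i < 0 then XX (v i) (y i) else XX (v (i + 1)) (y i)) -
            (Real.pi : ℂ) ^ 2 / 3 else 0))) := by
    refine Cg.sum _ fun i hi => ?_
    have hi' : i ≤ R := Nat.lt_succ_iff.mp (Finset.mem_range.mp hi)
    rw [SumCV_lay R r y v hc i hi']
    have hsub := SumCV_fan_sub R r i
    refine Cg.add (fan_sum5 R r y v hc i hi' P Q (fun k hk => hP i hi' k (hsub hk))
      (fun k hk => hQ i hi' k (hsub hk))) ?_
    by_cases h : i < R ∧ r i * r (i + 1) < 0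
    · rw [if_pos h, if_pos h]
      have hmem := SumCV_mem R r y v hc i h.1 h.2
      exact Cg.of_eq (SumCV_hinge R r y v hc i h.1 h.2 _ _ (hP i hi' _ hmem) (hQ i hi' _ hmem))
    · rw [if_neg h, if_neg h]
      exact Cg.refl 0
  refine step1.trans ?_
  -- regroup
  have step2 : (∑ i ∈ Finset.range (R + 1),
        (((if i = 0 then sgr (r i) * (Real.pi : ℂ) ^ 2 / 3 else
            SlotT (sgr (r i)) (v i) (y (i - 1))) +
          (if i = R then sgr (r i) * (Real.pi : ℂ) ^ 2 / 3 else SlotT (sgr (r i)) (v i) (y i)) -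
          4 * (Real.pi : ℂ) ^ 2 * (v i + r i * v i ^ 2) -
          sgr (r i) * ((fan R r i).card : ℂ) * (Real.pi : ℂ) ^ 2 / 3) +
        (if i < R ∧ r i * r (i + 1) < 0 then
          2 * (if r i < 0 then XX (v i) (y i) else XX (v (i + 1)) (y i)) -
            (Real.pi : ℂ) ^ 2 / 3 else 0))) =
      ∑ j ∈ Finset.range R, (SlotT (sgr (r j)) (v j) (y j) +
        SlotT (sgr (r (j + 1))) (v (j + 1)) (y j) +
        (if r j * r (j + 1) < 0 then
          2 * (if r j < 0 then XX (v j) (y j) else XX (v (j + 1)) (y j)) -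
            (Real.pi : ℂ) ^ 2 / 3 else 0)) +
      (sgr (r 0) * (Real.pi : ℂ) ^ 2 / 3 + sgr (r R) * (Real.pi : ℂ) ^ 2 / 3 -
        ∑ i ∈ Finset.range (R + 1), (4 * (Real.pi : ℂ) ^ 2 * (v i + r i * v i ^ 2) +
          sgr (r i) * ((fan R r i).card : ℂ) * (Real.pi : ℂ) ^ 2 / 3)) := by
    have hre := SumCV_regroup R (fun j => SlotT (sgr (r (j + 1))) (v (j + 1)) (y j))
      (fun j => SlotT (sgr (r j)) (v j) (y j))
      (fun i => sgr (r i) * (Real.pi : ℂ) ^ 2 / 3) (fun i => sgr (r i) * (Real.pi : ℂ) ^ 2 / 3)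
    have hA : ∑ i ∈ Finset.range (R + 1),
        (((if i = 0 then sgr (r i) * (Real.pi : ℂ) ^ 2 / 3 else
            SlotT (sgr (r i)) (v i) (y (i - 1))) +
          (if i = R then sgr (r i) * (Real.pi : ℂ) ^ 2 / 3 else
            SlotT (sgr (r i)) (v i) (y i)))) =
        ∑ i ∈ Finset.range (R + 1),
        (((if i = 0 then sgr (r i) * (Real.pi : ℂ) ^ 2 / 3 else
            SlotT (sgr (r (i - 1 + 1))) (v (i - 1 + 1)) (y (i - 1))) +
          (if i = R then sgr (r i) * (Real.pi : ℂ) ^ 2 / 3 else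
            SlotT (sgr (r i)) (v i) (y i)))) := by
      refine Finset.sum_congr rfl fun i _ => ?_
      by_cases h : i = 0
      · rw [if_pos h, if_pos h]
      · rw [if_neg h, if_neg h, Nat.sub_add_cancel (Nat.one_le_iff_ne_zero.mpr h)]
    have hB : ∑ i ∈ Finset.range (R + 1), (if i < R ∧ r i * r (i + 1) < 0 then
          2 * (if r i < 0 then XX (v i) (y i) else XX (v (i + 1)) (y i)) -
            (Real.pi : ℂ) ^ 2 / 3 else 0) =
        ∑ j ∈ Finset.range R, (if r j * r (j + 1) < 0 then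
          2 * (if r j < 0 then XX (v j) (y j) else XX (v (j + 1)) (y j)) -
            (Real.pi : ℂ) ^ 2 / 3 else 0) := by
      rw [Finset.sum_range_succ, if_neg (fun h => lt_irrefl R h.1), add_zero]
      refine Finset.sum_congr rfl fun j hj => ?_
      by_cases h : r j * r (j + 1) < 0
      · rw [if_pos ⟨Finset.mem_range.mp hj, h⟩, if_pos h]
      · rw [if_neg (fun h' => h h'.2), if_neg h]
    rw [Finset.sum_add_distrib, hB]
    rw [Finset.sum_add_distrib (s := Finset.range R)]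
    have hC : ∀ i ∈ Finset.range (R + 1),
        ((if i = 0 then sgr (r i) * (Real.pi : ℂ) ^ 2 / 3 else
            SlotT (sgr (r i)) (v i) (y (i - 1))) +
          (if i = R then sgr (r i) * (Real.pi : ℂ) ^ 2 / 3 else SlotT (sgr (r i)) (v i) (y i)) -
          4 * (Real.pi : ℂ) ^ 2 * (v i + r i * v i ^ 2) -
          sgr (r i) * ((fan R r i).card : ℂ) * (Real.pi : ℂ) ^ 2 / 3) =
        ((if i = 0 then sgr (r i) * (Real.pi : ℂ) ^ 2 / 3 else
            SlotT (sgr (r i)) (v i) (y (i - 1))) +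
          (if i = R then sgr (r i) * (Real.pi : ℂ) ^ 2 / 3 else SlotT (sgr (r i)) (v i) (y i))) -
          (4 * (Real.pi : ℂ) ^ 2 * (v i + r i * v i ^ 2) +
          sgr (r i) * ((fan R r i).card : ℂ) * (Real.pi : ℂ) ^ 2 / 3) := fun i _ => by ring
    rw [Finset.sum_congr rfl hC, Finset.sum_sub_distrib, hA]
    rw [hre]
    ring
  rw [step2]
  refine (Cg.add (Cg.sum (Finset.range R) fun j hj =>
    SumCV_vertex R r y v hc j (Finset.mem_range.mp hj)) (Cg.refl _)).trans (Cg.of_eq ?_)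
  -- the final algebra
  have hD : ∑ i ∈ Finset.range (R + 1), ((if i = 0 then (sgr (r i) : ℂ) / 3 else 0) +
          (if i = R then (sgr (r i) : ℂ) / 3 else 0) -
          sgr (r i) * ((fan R r i).card : ℂ) / 3) =
      (sgr (r 0) : ℂ) / 3 + (sgr (r R) : ℂ) / 3 -
        ∑ i ∈ Finset.range (R + 1), sgr (r i) * ((fan R r i).card : ℂ) / 3 := by
    rw [Finset.sum_sub_distrib, Finset.sum_add_distrib, Finset.sum_ite_eq', Finset.sum_ite_eq',
      if_pos (Finset.mem_range.mpr (Nat.succ_pos R)),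
      if_pos (Finset.mem_range.mpr (Nat.lt_succ_self R))]
  rw [hD]
  unfold VI
  rw [Finset.sum_add_distrib (s := Finset.range R),
    Finset.sum_add_distrib (s := Finset.range (R + 1)), ← Finset.mul_sum, ← Finset.mul_sum]
  have hE : ∑ i ∈ Finset.range (R + 1), 4 * (Real.pi : ℂ) ^ 2 * (v i + r i * v i ^ 2) =
      -(2 * Real.pi * I * ∑ i ∈ Finset.range (R + 1), 2 * Real.pi * I * (r i * v i ^ 2 + v i)) := by
    rw [Finset.mul_sum, ← Finset.sum_neg_distrib]
    refine Finset.sum_congr rfl fun i _ => ?_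
    linear_combination (4 * (Real.pi : ℂ) ^ 2 * (r i * v i ^ 2 + v i)) * Complex.I_sq
  have hF : ∑ i ∈ Finset.range (R + 1), sgr (r i) * ((fan R r i).card : ℂ) *
      (Real.pi : ℂ) ^ 2 / 3 = (Real.pi : ℂ) ^ 2 *
        ∑ i ∈ Finset.range (R + 1), sgr (r i) * ((fan R r i).card : ℂ) / 3 := by
    rw [Finset.mul_sum]
    refine Finset.sum_congr rfl fun i _ => ?_
    ring
  rw [hE, hF]
  ring

end Pool.Agent.H63.VC5
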