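import Pool.Agent.H63.VC5.Defs

/-! # The function GG -/

namespace Pool.Agent.H63.VC5

open Pool.Agent.H63.VC Pool.Agent.H63.VC3 Pool.Agent.H63.VC4 Complex Filter Topology
open scoped BigOperators

theorem phi_of_ne (u : ℂ) (h : u ≠ 0) : phi u = u / (1 - exp (-u)) := by
  unfold phi
  rw [if_neg h]

/-- the strip -/
private def GGa_S : Set ℂ := {w : ℂ | |w.im| < 2 * Real.pi}

private theorem GGa_S_open : IsOpen GGa_S :=
  isOpen_lt (continuous_abs.comp Complex.continuous_im) continuous_const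

private theorem GGa_S_convex : Convex ℝ GGa_S := by
  have h : GGa_S = {w : ℂ | w.im < 2 * Real.pi} ∩ {w : ℂ | -(2 * Real.pi) < w.im} := by
    ext w
    simp only [GGa_S, Set.mem_ofPred_eq, Set.mem_inter_iff, abs_lt]
    tauto
  rw [h]
  exact (convex_halfSpace_im_lt _).inter (convex_halfSpace_im_gt _)

private theorem GGa_zero_mem : (0 : ℂ) ∈ GGa_S := by
  have := Real.pi_pos
  simp only [GGa_S, Set.mem_ofPred_eq, zero_im, abs_zero]
  linarith

private theorem GGa_smul_mem {w : ℂ} (hw : w ∈ GGa_S) {t : ℝ} (h0 : 0 ≤ t) (h1 : t ≤ 1) :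
    (t : ℂ) * w ∈ GGa_S := by
  have h := GGa_S_convex.starConvex GGa_zero_mem hw (a := 1 - t) (b := t) (by linarith) h0 (by ring)
  simpa using h

private theorem GGa_ne {u : ℂ} (hu : u ∈ GGa_S) (h0 : u ≠ 0) : 1 - exp (-u) ≠ 0 := by
  intro h
  have h1 : exp (-u) = 1 := by
    have := sub_eq_zero.1 h
    exact this.symm
  rw [Complex.exp_eq_one_iff] at h1
  obtain ⟨n, hn⟩ := h1
  have him : -u.im = n * (2 * Real.pi) := by
    have := congrArg Complex.im hn
    simpa using this
  have hpi := Real.pi_pos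
  have habs : |(n : ℝ)| < 1 := by
    have h2 : |u.im| < 2 * Real.pi := hu
    rw [← abs_neg, him, abs_mul, abs_of_pos (by linarith : (0 : ℝ) < 2 * Real.pi)] at h2
    by_contra hc
    rw [not_lt] at hc
    nlinarith
  have hn0 : n = 0 := by
    have h3 : |n| < 1 := by exact_mod_cast habs
    exact Int.abs_lt_one_iff.1 h3
  rw [hn0] at hn
  apply h0
  have : -u = 0 := by simpa using hn
  exact neg_eq_zero.1 this

private noncomputable def GGa_h (u : ℂ) : ℂ := 1 - exp (-u)

private theorem GGa_h_diff : Differentiable ℂ GGa_h := by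
  unfold GGa_h
  fun_prop

private theorem GGa_h_deriv : HasDerivAt GGa_h 1 0 := by
  have h1 : HasDerivAt (fun u : ℂ => exp (-u)) (exp (-0) * (-1)) 0 :=
    ((hasDerivAt_id (0 : ℂ)).neg).cexp
  have h2 := h1.const_sub 1
  exact h2.congr_deriv (by simp)

private theorem GGa_phi_eq (u : ℂ) : phi u = (dslope GGa_h 0 u)⁻¹ := by
  by_cases hu : u = 0
  · subst hu
    rw [dslope_same, GGa_h_deriv.deriv, inv_one]
    simp [phi]
  · rw [dslope_of_ne _ hu, phi_of_ne u hu, slope_def_field]
    simp [GGa_h]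

private theorem GGa_dslope_ne {u : ℂ} (hu : u ∈ GGa_S) : dslope GGa_h 0 u ≠ 0 := by
  by_cases h : u = 0
  · subst h
    rw [dslope_same, GGa_h_deriv.deriv]
    exact one_ne_zero
  · rw [dslope_of_ne _ h, slope_def_field]
    have h1 := GGa_ne hu h
    have h2 : GGa_h 0 = 0 := by simp [GGa_h]
    rw [h2, sub_zero, sub_zero]
    exact div_ne_zero h1 h

private theorem GGa_phi_diff : DifferentiableOn ℂ phi GGa_S := by
  have h1 : DifferentiableOn ℂ (dslope GGa_h 0) Set.univ :=
    (Complex.differentiableOn_dslope Filter.univ_mem).2 GGa_h_diff.differentiableOn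
  have h2 : phi = fun u => (dslope GGa_h 0 u)⁻¹ := funext GGa_phi_eq
  rw [h2]
  exact (h1.mono (Set.subset_univ _)).inv fun u hu => GGa_dslope_ne hu

private theorem GGa_phi_hasDeriv {u : ℂ} (hu : u ∈ GGa_S) : HasDerivAt phi (deriv phi u) u :=
  (GGa_phi_diff.differentiableAt (GGa_S_open.mem_nhds hu)).hasDerivAt

private theorem GGa_deriv_cont : ContinuousOn (deriv phi) GGa_S :=
  ((GGa_phi_diff.analyticOnNhd GGa_S_open).deriv).continuousOn

theorem GG_hasDerivAt (w : ℂ) (h : |w.im| < 2 * Real.pi) : HasDerivAt GG (phi w) w := by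
  have hw : w ∈ GGa_S := h
  obtain ⟨ε, hε, hball⟩ := Metric.nhds_basis_closedBall.mem_iff.1 (GGa_S_open.mem_nhds hw)
  -- the compact set
  set K : Set ℂ := (fun p : ℝ × ℂ => (p.1 : ℂ) * p.2) '' (Set.Icc (0 : ℝ) 1 ×ˢ Metric.closedBall w ε) with hK
  have hKc : IsCompact K := by
    apply (isCompact_Icc.prod (isCompact_closedBall w ε)).image
    fun_prop
  have hKS : K ⊆ GGa_S := by
    rintro _ ⟨⟨t, z⟩, ⟨ht, hz⟩, rfl⟩
    exact GGa_smul_mem (hball hz) ht.1 ht.2
  have hmem : ∀ t ∈ Set.Icc (0 : ℝ) 1, ∀ z ∈ Metric.closedBall w ε, (t : ℂ) * z ∈ K :=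
    fun t ht z hz => ⟨(t, z), ⟨ht, hz⟩, rfl⟩
  obtain ⟨C1, hC1⟩ := hKc.exists_bound_of_continuousOn (GGa_phi_diff.continuousOn.mono hKS)
  obtain ⟨C2, hC2⟩ := hKc.exists_bound_of_continuousOn (GGa_deriv_cont.mono hKS)
  -- continuity along segments
  have hcont : ∀ z ∈ Metric.closedBall w ε, ContinuousOn (fun t : ℝ => phi (t * z)) (Set.Icc 0 1) := by
    intro z hz
    apply GGa_phi_diff.continuousOn.comp (by fun_prop)
    intro t ht
    exact GGa_smul_mem (hball hz) ht.1 ht.2
  have hcont' : ∀ z ∈ Metric.closedBall w ε, ContinuousOn (fun t : ℝ => deriv phi (t * z)) (Set.Icc 0 1) := by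
    intro z hz
    apply GGa_deriv_cont.comp (by fun_prop)
    intro t ht
    exact GGa_smul_mem (hball hz) ht.1 ht.2
  have hwb : w ∈ Metric.closedBall w ε := Metric.mem_closedBall_self hε.le
  have hI : Set.uIoc (0 : ℝ) 1 ⊆ Set.Icc 0 1 := by
    rw [Set.uIoc_of_le zero_le_one]
    exact Set.Ioc_subset_Icc_self
  have hintF : ∀ z ∈ Metric.closedBall w ε, ContinuousOn (fun t : ℝ => z * phi (t * z)) (Set.Icc 0 1) :=
    fun z hz => continuousOn_const.mul (hcont z hz)
  have hintF' : ContinuousOn (fun t : ℝ => phi (t * w) + w * (t * deriv phi (t * w))) (Set.Icc 0 1) := by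
    apply (hcont w hwb).add
    apply continuousOn_const.mul
    apply ContinuousOn.mul _ (hcont' w hwb)
    fun_prop
  have key := intervalIntegral.hasDerivAt_integral_of_dominated_loc_of_deriv_le
    (μ := MeasureTheory.volume) (a := 0) (b := 1)
    (F := fun (z : ℂ) (t : ℝ) => z * phi (t * z))
    (F' := fun (z : ℂ) (t : ℝ) => phi (t * z) + z * (t * deriv phi (t * z)))
    (x₀ := w) (s := Metric.closedBall w ε) (bound := fun _ => C1 + (‖w‖ + ε) * C2)
    (Metric.closedBall_mem_nhds w hε)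
    (by
      filter_upwards [Metric.closedBall_mem_nhds w hε] with z hz
      exact ((hintF z hz).mono hI).aestronglyMeasurable measurableSet_uIoc)
    (by
      apply ContinuousOn.intervalIntegrable
      rw [Set.uIcc_of_le zero_le_one]
      exact hintF w hwb)
    ((hintF'.mono hI).aestronglyMeasurable measurableSet_uIoc)
    (by
      refine Filter.Eventually.of_forall fun t ht z hz => ?_
      have ht' := hI ht
      have hz1 := hmem t ht' z hz
      have hzn : ‖z‖ ≤ ‖w‖ + ε := by
        have := Metric.mem_closedBall.1 hz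
        rw [dist_eq_norm] at this
        calc ‖z‖ = ‖w + (z - w)‖ := by congr 1; ring
          _ ≤ ‖w‖ + ‖z - w‖ := norm_add_le _ _
          _ ≤ ‖w‖ + ε := by linarith
      have hC2' : 0 ≤ C2 := (norm_nonneg _).trans (hC2 _ hz1)
      calc ‖phi (t * z) + z * (t * deriv phi (t * z))‖
          ≤ ‖phi (t * z)‖ + ‖z * (t * deriv phi (t * z))‖ := norm_add_le _ _
        _ = ‖phi (t * z)‖ + ‖z‖ * (|t| * ‖deriv phi (t * z)‖) := by
            rw [norm_mul, norm_mul, Complex.norm_real, Real.norm_eq_abs]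
        _ ≤ C1 + (‖w‖ + ε) * (1 * C2) := by
            have h1 : |t| ≤ 1 := by rw [abs_of_nonneg ht'.1]; exact ht'.2
            have h2 := hC1 _ hz1
            have h3 := hC2 _ hz1
            gcongr
        _ = C1 + (‖w‖ + ε) * C2 := by rw [one_mul])
    (by simp)
    (by
      refine Filter.Eventually.of_forall fun t ht z hz => ?_
      have ht' := hI ht
      have hz1 : (t : ℂ) * z ∈ GGa_S := GGa_smul_mem (hball hz) ht'.1 ht'.2
      have h1 : HasDerivAt (fun z : ℂ => (t : ℂ) * z) t z := by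
        simpa using (hasDerivAt_id z).const_mul (t : ℂ)
      have h2 : HasDerivAt (fun z : ℂ => phi (t * z)) (deriv phi (t * z) * t) z :=
        (GGa_phi_hasDeriv hz1).comp z h1
      have h3 := (hasDerivAt_id z).mul h2
      exact h3.congr_deriv (by simp only [id_eq]; ring))
  have hFTC : ∫ t in (0 : ℝ)..1, (phi (t * w) + w * (t * deriv phi (t * w))) = phi w := by
    have h1 : ∀ t ∈ Set.uIcc (0 : ℝ) 1, HasDerivAt (fun t : ℝ => (t : ℂ) * phi (t * w))
        (phi (t * w) + w * (t * deriv phi (t * w))) t := by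
      intro t ht
      rw [Set.uIcc_of_le zero_le_one] at ht
      have hz1 : (t : ℂ) * w ∈ GGa_S := GGa_smul_mem hw ht.1 ht.2
      have e1 : HasDerivAt (fun t : ℝ => (t : ℂ)) 1 t := Complex.ofRealCLM.hasDerivAt
      have e2 : HasDerivAt (fun t : ℝ => (t : ℂ) * w) w t := by
        simpa using e1.mul_const w
      have e3 : HasDerivAt (fun t : ℝ => phi (t * w)) (deriv phi (t * w) * w) t :=
        HasDerivAt.comp t (GGa_phi_hasDeriv hz1) e2
      have e4 := e1.mul e3
      exact e4.congr_deriv (by ring)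
    rw [intervalIntegral.integral_eq_sub_of_hasDerivAt h1 key.1]
    simp
  have h2 := key.2
  rw [hFTC] at h2
  exact h2.const_add _

theorem GG_zero : GG 0 = (Real.pi : ℂ) ^ 2 / 6 := by
  simp [GG]

private theorem GGa_phi_neg {u : ℂ} (hu : u ∈ GGa_S) : phi u - phi (-u) = u := by
  by_cases h0 : u = 0
  · subst h0
    simp
  · have h1 := GGa_ne hu h0
    have hneg : -u ∈ GGa_S := by
      have : |u.im| < 2 * Real.pi := hu
      simpa [GGa_S] using this
    have h2 := GGa_ne hneg (neg_ne_zero.2 h0)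
    rw [phi_of_ne u h0, phi_of_ne (-u) (neg_ne_zero.2 h0)]
    rw [neg_neg] at h2 ⊢
    have h3 : exp (-u) * exp u = 1 := by rw [← Complex.exp_add]; simp
    rw [div_sub_div _ _ h1 h2, div_eq_iff (mul_ne_zero h1 h2)]
    linear_combination (-u) * h3

theorem GG_neg (w : ℂ) (h : |w.im| < 2 * Real.pi) :
    GG w + GG (-w) = w ^ 2 / 2 + (Real.pi : ℂ) ^ 2 / 3 := by
  have hw : w ∈ GGa_S := h
  have hd : ∀ z ∈ GGa_S, HasDerivAt (fun z => GG z + GG (-z) - z ^ 2 / 2) 0 z := by
    intro z hz
    have hneg : |(-z).im| < 2 * Real.pi := by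
      have : |z.im| < 2 * Real.pi := hz
      simpa using this
    have h1 := GG_hasDerivAt z hz
    have h2 : HasDerivAt (fun z => GG (-z)) (phi (-z) * (-1)) z :=
      (GG_hasDerivAt (-z) hneg).comp z (hasDerivAt_neg z)
    have h3 : HasDerivAt (fun z : ℂ => z ^ 2 / 2) z z := by
      have := (hasDerivAt_pow 2 z).div_const 2
      exact this.congr_deriv (by simp)
    have h4 := (h1.add h2).sub h3
    have := GGa_phi_neg hz
    exact h4.congr_deriv (by linear_combination this)
  have hconst := GGa_S_open.is_const_of_deriv_eq_zero GGa_S_convex.isPreconnected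
    (f := fun z => GG z + GG (-z) - z ^ 2 / 2)
    (fun z hz => (hd z hz).differentiableAt.differentiableWithinAt)
    (fun z hz => (hd z hz).deriv) hw GGa_zero_mem
  simp only [neg_zero, GG_zero] at hconst
  linear_combination hconst

/-- The derivative of the Rogers dilogarithm along a curve. -/
theorem RG_hasDerivAt (f g : ℂ → ℂ) (f' g' t : ℂ) (hf : HasDerivAt f f' t)
    (hg : HasDerivAt g g' t) (h : ∀ᶠ s in 𝓝 t, exp (f s) + exp (-g s) = 1)
    (hs : |(f t).im| < 2 * Real.pi) :
    HasDerivAt (fun s => GG (f s) + f s * g s / 2) ((g t * f' - f t * g') / 2) t := by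
  have ht := h.self_of_nhds
  have hE : exp (-g t) ≠ 0 := Complex.exp_ne_zero _
  have hf0 : f t ≠ 0 := by
    intro h0
    rw [h0, Complex.exp_zero] at ht
    apply hE
    linear_combination ht
  -- derivative of the relation
  have e1 : HasDerivAt (fun s => exp (f s) + exp (-g s)) (exp (f t) * f' + exp (-g t) * (-g')) t :=
    hf.cexp.add hg.neg.cexp
  have e2 : HasDerivAt (fun s => exp (f s) + exp (-g s)) 0 t :=
    (hasDerivAt_const t (1 : ℂ)).congr_of_eventuallyEq h
  have e3 : exp (f t) * f' + exp (-g t) * (-g') = 0 := e1.unique e2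
  have hphi : phi (f t) * f' = -(f t * g') := by
    have h1 : 1 - exp (-f t) ≠ 0 := GGa_ne hs hf0
    rw [phi_of_ne _ hf0, div_mul_eq_mul_div, div_eq_iff h1]
    have h3 : exp (f t) * exp (-f t) = 1 := by rw [← Complex.exp_add]; simp
    have h4 : exp (-g t) = 1 - exp (f t) := by linear_combination ht
    rw [h4] at e3
    have h5 : exp (f t) ≠ 0 := Complex.exp_ne_zero _
    apply mul_left_cancel₀ h5
    linear_combination (f t) * e3 - (f t * g') * h3
  have d1 : HasDerivAt (fun s => GG (f s)) (phi (f t) * f') t := (GG_hasDerivAt (f t) hs).comp t hf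
  have d2 := (hf.mul hg).div_const 2
  have d3 := d1.add d2
  rw [hphi] at d3
  exact d3.congr_deriv (by ring)

end Pool.Agent.H63.VC5
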