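import Pool.Agent.H63.VC5.LamA
import Pool.Agent.H63.VC5.GGdilog
import Pool.Agent.H63.VC5.DilogB

/-! # The functional equations of Lam -/

namespace Pool.Agent.H63.VC5

open Pool.Agent.H63.VC Pool.Agent.H63.VC3 Pool.Agent.H63.VC4 Complex Filter Topology
open scoped BigOperators

/-- the conditions on a point at which `hh` is differentiable -/
def LamB_OK (s : ℝ) (z : ℂ) : Prop := HS s z ∧ HS s (1 - z) ∧ |z.im| < 1 / 2

theorem LamB_ok_w {s : ℝ} {w b : ℂ} (h : Dm s w b) : LamB_OK s w := by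
  refine ⟨HS_w s h.hs w h.w1, ?_, ?_⟩
  · have := HS_add s _ _ h.b2 h.b1
    rwa [show 1 - w - b + b = 1 - w by ring] at this
  · have := h.w1
    have := h.w2
    linarith

theorem LamB_ok_b {s : ℝ} {w b : ℂ} (h : Dm s w b) : LamB_OK s b := by
  refine ⟨h.b1, ?_, h.b3⟩
  have := HS_add s _ _ h.b2 (HS_w s h.hs w h.w1)
  rwa [show 1 - w - b + w = 1 - b by ring] at this

theorem LamB_ok_wb {s : ℝ} {w b : ℂ} (h : Dm s w b) : LamB_OK s (w + b) := by
  refine ⟨HS_add s _ _ (HS_w s h.hs w h.w1) h.b1, ?_, h.b4⟩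
  have := h.b2
  rwa [show 1 - w - b = 1 - (w + b) by ring] at this

theorem LamB_exp {s : ℝ} {w b z : ℂ} (h : Dm s w b) (hz : LamB_OK s z) :
    exp (hh z) = 2 * sin (Real.pi * z) := hhx_exp s h.hs z hz.1 hz.2.1 hz.2.2

theorem LamB_deriv {s : ℝ} {w b z : ℂ} (h : Dm s w b) (hz : LamB_OK s z) :
    HasDerivAt hh (Real.pi * Complex.cot (Real.pi * z)) z := hhx_deriv s h.hs z hz.1 hz.2.1 hz.2.2

theorem LamB_sin_ne {s : ℝ} {w b z : ℂ} (h : Dm s w b) (hz : LamB_OK s z) :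
    sin (Real.pi * z) ≠ 0 := by
  intro h0
  have h1 := LamB_exp h hz
  rw [h0, mul_zero] at h1
  exact exp_ne_zero _ h1

theorem LamB_open {s : ℝ} {w b : ℂ} (h : Dm s w b) :
    ∀ᶠ p : ℂ × ℂ in 𝓝 (w, b), Dm s p.1 p.2 := by
  have e1 : ∀ᶠ p : ℂ × ℂ in 𝓝 (w, b), |p.1.im| < p.1.re / 2 :=
    (isOpen_lt (by fun_prop) (by fun_prop)).mem_nhds h.w1
  have e2 : ∀ᶠ p : ℂ × ℂ in 𝓝 (w, b), p.1.re < 1 / 2 :=
    (isOpen_lt (by fun_prop) (by fun_prop)).mem_nhds h.w2
  have e3 : ∀ᶠ p : ℂ × ℂ in 𝓝 (w, b), 0 < p.2.re - s / 10 * p.2.im :=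
    (isOpen_lt (by fun_prop) (by fun_prop)).mem_nhds h.b1
  have e4 : ∀ᶠ p : ℂ × ℂ in 𝓝 (w, b), 0 < (1 - p.1 - p.2).re - s / 10 * (1 - p.1 - p.2).im :=
    (isOpen_lt (by fun_prop) (by fun_prop)).mem_nhds h.b2
  have e5 : ∀ᶠ p : ℂ × ℂ in 𝓝 (w, b), |p.2.im| < 1 / 2 :=
    (isOpen_lt (by fun_prop) (by fun_prop)).mem_nhds h.b3
  have e6 : ∀ᶠ p : ℂ × ℂ in 𝓝 (w, b), |(p.1 + p.2).im| < 1 / 2 :=
    (isOpen_lt (by fun_prop) (by fun_prop)).mem_nhds h.b4
  filter_upwards [e1, e2, e3, e4, e5, e6] with p q1 q2 q3 q4 q5 q6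
  exact ⟨h.hs, q1, q2, q3, q4, q5, q6⟩

noncomputable def LamB_Cw (w b : ℂ) : ℂ :=
  (hh (w + b) - hh b) * (Real.pi * Complex.cot (Real.pi * w)) +
      (hh b - hh w) * (Real.pi * Complex.cot (Real.pi * (w + b))) +
      (Real.pi : ℂ) ^ 2 * b

noncomputable def LamB_Cb (w b : ℂ) : ℂ :=
  (hh b - hh w) * (Real.pi * Complex.cot (Real.pi * (w + b))) +
      (hh w - hh (w + b)) * (Real.pi * Complex.cot (Real.pi * b)) -
      (Real.pi : ℂ) ^ 2 * w

theorem LamB_cot_cont {z : ℂ} (hz : sin (Real.pi * z) ≠ 0) :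
    ContinuousAt (fun x : ℂ => Complex.cot (Real.pi * x)) z := by
  have h1 : ContinuousAt (fun x : ℂ => cos (Real.pi * x) / sin (Real.pi * x)) z :=
    ContinuousAt.div (by fun_prop) (by fun_prop) hz
  exact h1

theorem LamB_hh_cont {s : ℝ} {w b z : ℂ} (h : Dm s w b) (hz : LamB_OK s z) :
    ContinuousAt hh z := (LamB_deriv h hz).continuousAt

theorem LamB_comp {g : ℂ → ℂ} {q : ℂ × ℂ → ℂ} {p : ℂ × ℂ} {z : ℂ} (hg : ContinuousAt g z)
    (hq : Continuous q) (hz : q p = z) : ContinuousAt (fun x => g (q x)) p := by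
  subst hz
  exact hg.comp hq.continuousAt

theorem LamB_Cw_cont {s : ℝ} {w b : ℂ} (h : Dm s w b) :
    ContinuousAt (fun p : ℂ × ℂ => LamB_Cw p.1 p.2) (w, b) := by
  have a1 : ContinuousAt (fun p : ℂ × ℂ => hh (p.1 + p.2)) (w, b) :=
    LamB_comp (LamB_hh_cont h (LamB_ok_wb h)) (by fun_prop) rfl
  have a2 : ContinuousAt (fun p : ℂ × ℂ => hh p.2) (w, b) :=
    LamB_comp (LamB_hh_cont h (LamB_ok_b h)) (by fun_prop) rfl
  have a3 : ContinuousAt (fun p : ℂ × ℂ => hh p.1) (w, b) :=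
    LamB_comp (LamB_hh_cont h (LamB_ok_w h)) (by fun_prop) rfl
  have a4 : ContinuousAt (fun p : ℂ × ℂ => Complex.cot (Real.pi * p.1)) (w, b) :=
    LamB_comp (g := fun x : ℂ => Complex.cot (Real.pi * x)) (q := fun p : ℂ × ℂ => p.1)
      (LamB_cot_cont (LamB_sin_ne h (LamB_ok_w h))) continuous_fst rfl
  have a5 : ContinuousAt (fun p : ℂ × ℂ => Complex.cot (Real.pi * (p.1 + p.2))) (w, b) :=
    LamB_comp (g := fun x : ℂ => Complex.cot (Real.pi * x)) (q := fun p : ℂ × ℂ => p.1 + p.2)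
      (LamB_cot_cont (LamB_sin_ne h (LamB_ok_wb h))) (by fun_prop) rfl
  unfold LamB_Cw
  exact (((a1.sub a2).mul (continuousAt_const.mul a4)).add
    ((a2.sub a3).mul (continuousAt_const.mul a5))).add (by fun_prop)

theorem LamB_Cb_cont {s : ℝ} {w b : ℂ} (h : Dm s w b) :
    ContinuousAt (fun p : ℂ × ℂ => LamB_Cb p.1 p.2) (w, b) := by
  have a1 : ContinuousAt (fun p : ℂ × ℂ => hh (p.1 + p.2)) (w, b) :=
    LamB_comp (LamB_hh_cont h (LamB_ok_wb h)) (by fun_prop) rfl
  have a2 : ContinuousAt (fun p : ℂ × ℂ => hh p.2) (w, b) :=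
    LamB_comp (LamB_hh_cont h (LamB_ok_b h)) (by fun_prop) rfl
  have a3 : ContinuousAt (fun p : ℂ × ℂ => hh p.1) (w, b) :=
    LamB_comp (LamB_hh_cont h (LamB_ok_w h)) (by fun_prop) rfl
  have a4 : ContinuousAt (fun p : ℂ × ℂ => Complex.cot (Real.pi * p.2)) (w, b) :=
    LamB_comp (g := fun x : ℂ => Complex.cot (Real.pi * x)) (q := fun p : ℂ × ℂ => p.2)
      (LamB_cot_cont (LamB_sin_ne h (LamB_ok_b h))) continuous_snd rfl
  have a5 : ContinuousAt (fun p : ℂ × ℂ => Complex.cot (Real.pi * (p.1 + p.2))) (w, b) :=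
    LamB_comp (g := fun x : ℂ => Complex.cot (Real.pi * x)) (q := fun p : ℂ × ℂ => p.1 + p.2)
      (LamB_cot_cont (LamB_sin_ne h (LamB_ok_wb h))) (by fun_prop) rfl
  unfold LamB_Cb
  exact (((a2.sub a3).mul (continuousAt_const.mul a5)).add
    ((a3.sub a1).mul (continuousAt_const.mul a4))).sub (by fun_prop)

theorem LamB_total {s : ℝ} {w b : ℂ} (h : Dm s w b) {u v : ℂ → ℂ} {t u' v' : ℂ}
    (hu : HasDerivAt u u' t) (hv : HasDerivAt v v' t) (hut : u t = w) (hvt : v t = b) :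
    HasDerivAt (fun t => Lam (u t) (v t)) (LamB_Cw w b * u' + LamB_Cb w b * v') t := by
  have hF : HasStrictFDerivAt (fun p : ℂ × ℂ => Lam p.1 p.2)
      ((ContinuousLinearMap.toSpanSingleton ℂ (LamB_Cw w b)).coprod
        (ContinuousLinearMap.toSpanSingleton ℂ (LamB_Cb w b))) (w, b) := by
    refine hasStrictFDerivAt_uncurry_coprod (u := (w, b)) (f := Lam)
      (f₁ := fun x y => ContinuousLinearMap.toSpanSingleton ℂ (LamB_Cw x y))
      (f₂ := fun x y => ContinuousLinearMap.toSpanSingleton ℂ (LamB_Cb x y)) ?_ ?_ ?_ ?_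
    · filter_upwards [LamB_open h] with p hp
      exact (Lam_w s p.1 p.2 hp).hasFDerivAt
    · filter_upwards [LamB_open h] with p hp
      exact (Lam_b s p.1 p.2 hp).hasFDerivAt
    · have h1 := LamB_Cw_cont h
      have h2 : Continuous fun c : ℂ => ContinuousLinearMap.toSpanSingleton ℂ c :=
        (ContinuousLinearMap.toSpanSingletonCLE (𝕜 := ℂ) (E := ℂ)).continuous
      exact h2.continuousAt.comp h1
    · have h1 := LamB_Cb_cont h
      have h2 : Continuous fun c : ℂ => ContinuousLinearMap.toSpanSingleton ℂ c :=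
        (ContinuousLinearMap.toSpanSingletonCLE (𝕜 := ℂ) (E := ℂ)).continuous
      exact h2.continuousAt.comp h1
  subst hut
  subst hvt
  have h1 := hF.hasFDerivAt.comp_hasDerivAt t (hu.prodMk hv)
  refine h1.congr_deriv ?_
  simp [mul_comm]

theorem LamB_cot_refl (z : ℂ) : Complex.cot (Real.pi * (1 - z)) = -Complex.cot (Real.pi * z) := by
  have e : (Real.pi : ℂ) * (1 - z) = Real.pi - Real.pi * z := by ring
  rw [e, Complex.cot, Complex.cot, Complex.cos_pi_sub, Complex.sin_pi_sub, neg_div]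

theorem LamB_Cb_refl (w b : ℂ) : LamB_Cb w (1 - w - b) = LamB_Cb w b := by
  unfold LamB_Cb
  have e1 : w + (1 - w - b) = 1 - b := by ring
  have e2 : 1 - w - b = 1 - (w + b) := by ring
  rw [e1, e2, hhx_refl, hhx_refl, LamB_cot_refl, LamB_cot_refl]
  ring

theorem LamB_Cw_refl (w b : ℂ) : LamB_Cw w (1 - w - b) - LamB_Cb w b =
    -LamB_Cw w b + (Real.pi : ℂ) ^ 2 := by
  unfold LamB_Cb LamB_Cw
  have e1 : w + (1 - w - b) = 1 - b := by ring
  have e2 : hh (1 - w - b) = hh (w + b) := by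
    rw [show 1 - w - b = 1 - (w + b) by ring, hhx_refl]
  rw [e1, e2, hhx_refl, LamB_cot_refl]
  ring

theorem Lam_refl (s : ℝ) (w b : ℂ) (h : Dm s w b) :
    Lam w b + Lam w (1 - w - b) = (Real.pi : ℂ) ^ 2 * w := by
  have key := Dm_const s (fun w b => Lam w b + Lam w (1 - w - b) - (Real.pi : ℂ) ^ 2 * w) ?_ ?_ w b h
  · have e1 : (1 : ℂ) - 1 / 3 - 1 / 3 = 1 / 3 := by norm_num
    rw [e1, Lam_diag] at key
    linear_combination key
  · intro w b h
    have h1 := LamB_total h (hasDerivAt_id w) (hasDerivAt_const w b) rfl rfl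
    have h2 := LamB_total (Dm_refl s w b h) (u := fun w => w) (v := fun w => 1 - w - b)
      (hasDerivAt_id w) (((hasDerivAt_id w).const_sub 1).sub_const b) rfl rfl
    have h3 := (h1.add h2).sub ((hasDerivAt_id w).const_mul ((Real.pi : ℂ) ^ 2))
    refine h3.congr_deriv ?_
    rw [LamB_Cb_refl]
    linear_combination LamB_Cw_refl w b
  · intro w b h
    have h1 := LamB_total h (hasDerivAt_const b w) (hasDerivAt_id b) rfl rfl
    have h2 := LamB_total (Dm_refl s w b h) (u := fun _ => w) (v := fun b => 1 - w - b)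
      (hasDerivAt_const b w) ((hasDerivAt_id b).const_sub (1 - w)) rfl rfl
    have h3 := (h1.add h2).sub_const ((Real.pi : ℂ) ^ 2 * w)
    refine h3.congr_deriv ?_
    rw [LamB_Cb_refl]
    ring

/-! ### The step -/

theorem LamB_trig (x y : ℂ) : sin x ^ 2 + sin y * sin (2 * x + y) = sin (x + y) ^ 2 := by
  have e1 : 2 * x + y = x + (x + y) := by ring
  rw [e1, Complex.sin_add x (x + y), Complex.sin_add x y, Complex.cos_add x y]
  have h := Complex.sin_sq_add_cos_sq x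
  have h' := Complex.sin_sq_add_cos_sq y
  have hc : cos x ^ 2 = 1 - sin x ^ 2 := by linear_combination h
  have hc' : cos y ^ 2 = 1 - sin y ^ 2 := by linear_combination h'
  ring_nf
  rw [hc, hc']
  ring

theorem LamB_rel {s : ℝ} {w b : ℂ} (h : Dm s w b) (h' : Dm s w (w + b)) :
    exp (2 * (hh w - hh (w + b))) + exp (-(2 * hh (w + b) - hh b - hh (2 * w + b))) = 1 := by
  have e0 : w + (w + b) = 2 * w + b := by ring
  have o2 := LamB_ok_wb h'
  rw [e0] at o2
  have x0 := LamB_exp h (LamB_ok_b h)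
  have x1 := LamB_exp h (LamB_ok_wb h)
  have x2 := LamB_exp h o2
  have x := LamB_exp h (LamB_ok_w h)
  have n1 := LamB_sin_ne h (LamB_ok_wb h)
  have a1 : exp (2 * (hh w - hh (w + b))) = exp (hh w) ^ 2 / exp (hh (w + b)) ^ 2 := by
    rw [← exp_nat_mul, ← exp_nat_mul, ← exp_sub]
    congr 1
    push_cast
    ring
  have a2 : exp (-(2 * hh (w + b) - hh b - hh (2 * w + b))) =
      exp (hh b) * exp (hh (2 * w + b)) / exp (hh (w + b)) ^ 2 := by
    rw [← exp_nat_mul, ← exp_add, ← exp_sub]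
    congr 1
    push_cast
    ring
  rw [a1, a2, x, x0, x1, x2]
  have t := LamB_trig (Real.pi * w) (Real.pi * b)
  have e1 : (Real.pi : ℂ) * (w + b) = Real.pi * w + Real.pi * b := by ring
  have e2 : (Real.pi : ℂ) * (2 * w + b) = 2 * (Real.pi * w) + Real.pi * b := by ring
  rw [e1] at n1 ⊢
  rw [e2]
  have hne : (2 * sin (Real.pi * w + Real.pi * b)) ^ 2 ≠ 0 :=
    pow_ne_zero _ (mul_ne_zero two_ne_zero n1)
  rw [← add_div, div_eq_one_iff_eq hne]
  linear_combination 4 * t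

theorem LamB_im {s : ℝ} {w b : ℂ} (h : Dm s w b) :
    |(2 * (hh w - hh (w + b))).im| < 2 * Real.pi := by
  have i1 := hhw_im w h.w1 h.w2
  obtain ⟨o1, o2, o3⟩ := LamB_ok_wb h
  have i2 := hhx_im s h.hs (w + b) o1 o2 o3
  have e : (2 * (hh w - hh (w + b))).im = 2 * ((hh w).im - (hh (w + b)).im) := by
    simp
  rw [e, abs_mul, abs_two]
  have := abs_sub (hh w).im (hh (w + b)).im
  have hp := Real.pi_pos
  linarith

theorem LamB_open2 {s : ℝ} {w b : ℂ} (h : Dm s w b) (h' : Dm s w (w + b)) :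
    ∀ᶠ p : ℂ × ℂ in 𝓝 (w, b), Dm s p.1 p.2 ∧ Dm s p.1 (p.1 + p.2) := by
  have h1 := LamB_open h
  have hc : ContinuousAt (fun p : ℂ × ℂ => (p.1, p.1 + p.2)) (w, b) := by fun_prop
  have h2 := hc.eventually (LamB_open h')
  filter_upwards [h1, h2] with p q1 q2
  exact ⟨q1, q2⟩

theorem LamB_Rr_eq (w b : ℂ) : Rr w b = GG (2 * (hh w - hh (w + b))) +
    (2 * (hh w - hh (w + b))) * (2 * hh (w + b) - hh b - hh (2 * w + b)) / 2 := by
  unfold Rr
  ring

theorem LamB_Rr_w {s : ℝ} {w b : ℂ} (h : Dm s w b) (h' : Dm s w (w + b)) :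
    HasDerivAt (fun w => Rr w b)
      ((2 * hh (w + b) - hh b - hh (2 * w + b)) * (Real.pi * Complex.cot (Real.pi * w)) +
      (hh b + hh (2 * w + b) - 2 * hh w) * (Real.pi * Complex.cot (Real.pi * (w + b))) +
      2 * (hh w - hh (w + b)) * (Real.pi * Complex.cot (Real.pi * (2 * w + b)))) w := by
  have e0 : w + (w + b) = 2 * w + b := by ring
  have o2 := LamB_ok_wb h'
  rw [e0] at o2
  have d := LamB_deriv h (LamB_ok_w h)
  have d1 : HasDerivAt (fun w => hh (w + b)) (Real.pi * Complex.cot (Real.pi * (w + b))) w := by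
    have := (LamB_deriv h (LamB_ok_wb h)).comp w ((hasDerivAt_id w).add_const b)
    refine this.congr_deriv ?_
    ring
  have d2 : HasDerivAt (fun w => hh (2 * w + b))
      (2 * (Real.pi * Complex.cot (Real.pi * (2 * w + b)))) w := by
    have := (LamB_deriv h o2).comp w (((hasDerivAt_id w).const_mul 2).add_const b)
    refine this.congr_deriv ?_
    ring
  have hf : HasDerivAt (fun w => 2 * (hh w - hh (w + b)))
      (2 * (Real.pi * Complex.cot (Real.pi * w) - Real.pi * Complex.cot (Real.pi * (w + b)))) w :=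
    (d.sub d1).const_mul 2
  have hg : HasDerivAt (fun w => 2 * hh (w + b) - hh b - hh (2 * w + b))
      (2 * (Real.pi * Complex.cot (Real.pi * (w + b))) -
        2 * (Real.pi * Complex.cot (Real.pi * (2 * w + b)))) w :=
    ((d1.const_mul 2).sub_const (hh b)).sub d2
  have hev : ∀ᶠ x in 𝓝 w, exp (2 * (hh x - hh (x + b))) +
      exp (-(2 * hh (x + b) - hh b - hh (2 * x + b))) = 1 := by
    have hc : ContinuousAt (fun x : ℂ => (x, b)) w := by fun_prop
    filter_upwards [hc.eventually (LamB_open2 h h')] with x hx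
    exact LamB_rel hx.1 hx.2
  have hR := RG_hasDerivAt _ _ _ _ w hf hg hev (LamB_im h)
  have hfun : (fun w => Rr w b) = fun w => GG (2 * (hh w - hh (w + b))) +
      (2 * (hh w - hh (w + b))) * (2 * hh (w + b) - hh b - hh (2 * w + b)) / 2 :=
    funext fun w => LamB_Rr_eq w b
  rw [hfun]
  refine hR.congr_deriv ?_
  ring

theorem LamB_Rr_b {s : ℝ} {w b : ℂ} (h : Dm s w b) (h' : Dm s w (w + b)) :
    HasDerivAt (fun b => Rr w b)
      ((hh b + hh (2 * w + b) - 2 * hh w) * (Real.pi * Complex.cot (Real.pi * (w + b))) +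
      (hh w - hh (w + b)) * (Real.pi * Complex.cot (Real.pi * b)) +
      (hh w - hh (w + b)) * (Real.pi * Complex.cot (Real.pi * (2 * w + b)))) b := by
  have e0 : w + (w + b) = 2 * w + b := by ring
  have o2 := LamB_ok_wb h'
  rw [e0] at o2
  have d0 := LamB_deriv h (LamB_ok_b h)
  have d1 : HasDerivAt (fun b => hh (w + b)) (Real.pi * Complex.cot (Real.pi * (w + b))) b := by
    have := (LamB_deriv h (LamB_ok_wb h)).comp b ((hasDerivAt_id b).const_add w)
    refine this.congr_deriv ?_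
    ring
  have d2 : HasDerivAt (fun b => hh (2 * w + b))
      (Real.pi * Complex.cot (Real.pi * (2 * w + b))) b := by
    have := (LamB_deriv h o2).comp b ((hasDerivAt_id b).const_add (2 * w))
    refine this.congr_deriv ?_
    ring
  have hf : HasDerivAt (fun b => 2 * (hh w - hh (w + b)))
      (2 * (-(Real.pi * Complex.cot (Real.pi * (w + b))))) b :=
    (d1.const_sub (hh w)).const_mul 2
  have hg : HasDerivAt (fun b => 2 * hh (w + b) - hh b - hh (2 * w + b))
      (2 * (Real.pi * Complex.cot (Real.pi * (w + b))) - Real.pi * Complex.cot (Real.pi * b) -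
        Real.pi * Complex.cot (Real.pi * (2 * w + b))) b :=
    ((d1.const_mul 2).sub d0).sub d2
  have hev : ∀ᶠ x in 𝓝 b, exp (2 * (hh w - hh (w + x))) +
      exp (-(2 * hh (w + x) - hh x - hh (2 * w + x))) = 1 := by
    have hc : ContinuousAt (fun x : ℂ => (w, x)) b := by fun_prop
    filter_upwards [hc.eventually (LamB_open2 h h')] with x hx
    exact LamB_rel hx.1 hx.2
  have hR := RG_hasDerivAt _ _ _ _ b hf hg hev (LamB_im h)
  have hfun : (fun b => Rr w b) = fun b => GG (2 * (hh w - hh (w + b))) +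
      (2 * (hh w - hh (w + b))) * (2 * hh (w + b) - hh b - hh (2 * w + b)) / 2 :=
    funext fun b => LamB_Rr_eq w b
  rw [hfun]
  refine hR.congr_deriv ?_
  ring

theorem LamB_hh_quarter : hh (1 / 4) = ((Real.log 2 / 2 : ℝ) : ℂ) := by
  have h := hh_real (1 / 4) (by norm_num) (by norm_num)
  have e : (((1 / 4 : ℝ)) : ℂ) = 1 / 4 := by push_cast; rfl
  rw [e] at h
  rw [h]
  congr 1
  rw [show Real.pi * (1 / 4) = Real.pi / 4 by ring, Real.sin_pi_div_four,
    show (2 : ℝ) * (Real.sqrt 2 / 2) = Real.sqrt 2 by ring, Real.log_sqrt (by norm_num)]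

theorem LamB_hh_half : hh (1 / 2) = ((Real.log 2 : ℝ) : ℂ) := by
  have h := hh_real (1 / 2) (by norm_num) (by norm_num)
  have e : (((1 / 2 : ℝ)) : ℂ) = 1 / 2 := by push_cast; rfl
  rw [e] at h
  rw [h]
  congr 1
  rw [show Real.pi * (1 / 2) = Real.pi / 2 by ring, Real.sin_pi_div_two, mul_one]

theorem LamB_GG_log2 : GG (-((Real.log 2 : ℝ) : ℂ)) =
    (Real.pi : ℂ) ^ 2 / 12 + ((Real.log 2 : ℝ) : ℂ) ^ 2 / 2 := by
  have hl : 0 < Real.log 2 := Real.log_pos (by norm_num)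
  have him : (-((Real.log 2 : ℝ) : ℂ)).im = 0 := by
    rw [Complex.neg_im, Complex.ofReal_im, neg_zero]
  have hre : (-((Real.log 2 : ℝ) : ℂ)).re < 0 := by
    rw [Complex.neg_re, Complex.ofReal_re]; linarith
  have h1 := GG_dilog (-((Real.log 2 : ℝ) : ℂ)) (by rw [him, abs_zero]; positivity) (Or.inr hre)
  have h2 : exp (-((Real.log 2 : ℝ) : ℂ)) = 1 / 2 := by
    rw [exp_neg, ← ofReal_exp, Real.exp_log (by norm_num)]
    norm_num
  have h3 : (1 : ℂ) - 1 / 2 = 1 / 2 := by norm_num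
  have h4 : Complex.log (1 / 2) = -((Real.log 2 : ℝ) : ℂ) := by
    have : (1 / 2 : ℂ) = ((1 / 2 : ℝ) : ℂ) := by push_cast; rfl
    rw [this, ← ofReal_log (by norm_num), one_div, Real.log_inv]
    push_cast
    rfl
  have h5 : (1 / 2 : ℂ) ∈ slitPlane := by
    left
    norm_num
  have h6 := dilog_compl (1 / 2) h5 (by rw [h3]; exact h5)
  rw [h3, h4] at h6
  rw [h2, h3, h4] at h1
  rw [h1]
  linear_combination h6 / 2

theorem Lam_step (s : ℝ) (w b : ℂ) (h : Dm s w b) (h' : Dm s w (w + b)) :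
    Rr w b = Lam w b - Lam w (w + b) := by
  have key := Dm_const' s (fun w b => Rr w b - Lam w b + Lam w (w + b)) ?_ ?_ w b h h'
  · -- the constant
    have e1 : (1 / 4 : ℂ) + 1 / 4 = 1 / 2 := by norm_num
    have e2 : 2 * (1 / 4 : ℂ) + 1 / 4 = 3 / 4 := by norm_num
    have hD : Dm s (1 / 4) (1 / 4) := by
      refine ⟨h.hs, ?_, ?_, ?_, ?_, ?_, ?_⟩ <;> norm_num [HS]
    have hr := Lam_refl s (1 / 4) (1 / 4) hD
    have e3 : (1 : ℂ) - 1 / 4 - 1 / 4 = 1 / 2 := by norm_num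
    rw [e3, Lam_diag] at hr
    have h34 : hh (3 / 4) = ((Real.log 2 / 2 : ℝ) : ℂ) := by
      have := hhx_refl (1 / 4)
      rw [show (1 : ℂ) - 1 / 4 = 3 / 4 by norm_num] at this
      rw [this, LamB_hh_quarter]
    have hRr : Rr (1 / 4) (1 / 4) = (Real.pi : ℂ) ^ 2 / 12 := by
      unfold Rr
      rw [e1, e2, h34, LamB_hh_quarter, LamB_hh_half]
      have e4 : 2 * (((Real.log 2 / 2 : ℝ) : ℂ) - ((Real.log 2 : ℝ) : ℂ)) =
          -((Real.log 2 : ℝ) : ℂ) := by
        push_cast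
        ring
      rw [e4, LamB_GG_log2]
      push_cast
      ring
    rw [e1, hRr, Lam_diag] at key
    linear_combination key + hr
  · intro w b h h'
    have h1 := LamB_Rr_w h h'
    have h2 := LamB_total h (u := fun w => w) (v := fun _ => b) (hasDerivAt_id w)
      (hasDerivAt_const w b) rfl rfl
    have h3 := LamB_total h' (u := fun w => w) (v := fun w => w + b) (hasDerivAt_id w)
      ((hasDerivAt_id w).add_const b) rfl rfl
    refine ((h1.sub h2).add h3).congr_deriv ?_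
    unfold LamB_Cw LamB_Cb
    rw [show w + (w + b) = 2 * w + b by ring]
    ring
  · intro w b h h'
    have h1 := LamB_Rr_b h h'
    have h2 := LamB_total h (u := fun _ => w) (v := fun b => b) (hasDerivAt_const b w)
      (hasDerivAt_id b) rfl rfl
    have h3 := LamB_total h' (u := fun _ => w) (v := fun b => w + b) (hasDerivAt_const b w)
      ((hasDerivAt_id b).const_add w) rfl rfl
    refine ((h1.sub h2).add h3).congr_deriv ?_
    unfold LamB_Cb
    rw [show w + (w + b) = 2 * w + b by ring]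
    ring

end Pool.Agent.H63.VC5
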