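import Pool.Agent.H63.VC5.SlotA

/-! # The location of the angles of a fan -/

namespace Pool.Agent.H63.VC5

open Pool.Agent.H63.VC Pool.Agent.H63.VC3 Pool.Agent.H63.VC4 Complex Filter Topology
open scoped BigOperators

theorem loc_sgr (r : ℤ) : sgr r = 1 ∨ sgr r = -1 := by
  rw [sgr]
  split_ifs
  · exact Or.inl rfl
  · exact Or.inr rfl

theorem Loc_aux {s : ℝ} (hs : s = 1 ∨ s = -1) {v y : ℂ} (hv : ‖v‖ ≤ 6 / 100)
    (hy : ‖y - 1 / 4‖ ≤ 6 / 1000) (him : 0 < v.im) (hre : 0 < s * v.re) :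
    HS s (bet v (some y) / (2 * Real.pi)) ∧ |(bet v (some y) / (2 * Real.pi)).im| ≤ 1 / 10 := by
  have h := bet_approx v y hv hy
  obtain ⟨b, hb⟩ : ∃ b, b = bet v (some y) / (2 * Real.pi) := ⟨_, rfl⟩
  rw [← hb] at h ⊢
  obtain ⟨ε, hε⟩ : ∃ ε, ε = b + I * v := ⟨_, rfl⟩
  rw [← hε] at h
  have h1 := Complex.abs_re_le_norm ε
  have h2 := Complex.abs_im_le_norm ε
  have hre' : b.re = v.im + ε.re := by
    have : b = ε - I * v := by rw [hε]; ring
    rw [this]
    simp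
    ring
  have him' : b.im = -v.re + ε.im := by
    have : b = ε - I * v := by rw [hε]; ring
    rw [this]
    simp
    ring
  have h3 : |v.re| = s * v.re := by
    rcases hs with rfl | rfl
    · rw [one_mul] at hre ⊢
      exact abs_of_pos hre
    · rw [neg_one_mul] at hre ⊢
      exact abs_of_neg (by linarith)
  have h4 : ‖v‖ ≤ s * v.re + v.im := by
    have := Complex.norm_le_abs_re_add_abs_im v
    rw [h3, abs_of_pos him] at this
    exact this
  have h5 := (Complex.abs_re_le_norm v).trans hv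
  rw [abs_le] at h1 h2 h5
  constructor
  · rw [HS, hre', him']
    have h6 : |s / 10 * ε.im| ≤ ‖ε‖ / 10 := by
      rw [abs_mul]
      have h7 : |s / 10| = 1 / 10 := by
        rcases hs with rfl | rfl <;> norm_num [abs_of_pos, abs_of_neg]
      rw [h7]
      have := Complex.abs_im_le_norm ε
      linarith
    rw [abs_le] at h6
    have h8 : v.im + ε.re - s / 10 * (-v.re + ε.im) =
        v.im + s * v.re / 10 + ε.re - s / 10 * ε.im := by ring
    rw [h8]
    linarith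
  · rw [him', abs_le]
    constructor <;> linarith

theorem Loc_wre {r : ℕ → ℤ} {v : ℕ → ℂ} (i : ℕ) : (wI r v i).re = sgr (r i) * (v i).re := by
  rw [wI, Complex.re_ofReal_mul]

theorem Loc_wim {r : ℕ → ℤ} {v : ℕ → ℂ} (i : ℕ) : (wI r v i).im = sgr (r i) * (v i).im := by
  rw [wI, Complex.im_ofReal_mul]

theorem loc_bL (R : ℕ) (r : ℕ → ℤ) (y v : ℕ → ℂ) (hc : CritI R r y v) (i : ℕ) (hi : 1 ≤ i)
    (hi' : i ≤ R) : HS (sgr (r i)) (bL y v i) ∧ |(bL y v i).im| ≤ 1 / 10 := by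
  rw [bL, if_neg (by omega)]
  apply Loc_aux (loc_sgr _) (hc.hv i hi') (hc.hy (i - 1) (by omega)) (hc.imv i hi')
  rw [← Loc_wre]
  exact hc.wre i hi'

theorem loc_bR (R : ℕ) (r : ℕ → ℤ) (y v : ℕ → ℂ) (hc : CritI R r y v) (i : ℕ)
    (hi' : i < R) : HS (sgr (r i)) (bR R y v i) ∧ |(bR R y v i).im| ≤ 1 / 10 := by
  rw [bR, if_neg (by omega)]
  apply Loc_aux (loc_sgr _) (hc.hv i hi'.le) (hc.hy i hi') (hc.imv i hi'.le)
  rw [← Loc_wre]
  exact hc.wre i hi'.le

theorem Loc_smul {s : ℝ} {b : ℂ} (h : HS s b) {k : ℕ} (hk : 1 ≤ k) : HS s (k * b) := by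
  rw [HS] at h ⊢
  have hk' : (0 : ℝ) < k := by exact_mod_cast hk
  have e1 : ((k : ℂ) * b).re = k * b.re := by
    rw [← Complex.ofReal_natCast, Complex.re_ofReal_mul]
  have e2 : ((k : ℂ) * b).im = k * b.im := by
    rw [← Complex.ofReal_natCast, Complex.im_ofReal_mul]
  rw [e1, e2]
  have : (k : ℝ) * b.re - s / 10 * (k * b.im) = k * (b.re - s / 10 * b.im) := by ring
  rw [this]
  positivity

theorem Loc_left (R : ℕ) (r : ℕ → ℤ) (y v : ℕ → ℂ) (hc : CritI R r y v) (i k : ℕ) (hi : i ≤ R)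
    (h0 : i = 0 → 1 ≤ k) : HS (sgr (r i)) (k * wI r v i + bL y v i) := by
  have hw : HS (sgr (r i)) (wI r v i) := HS_w _ (loc_sgr _) _ (hc.wim i hi)
  by_cases hi0 : i = 0
  · have : bL y v i = 0 := by rw [bL, if_pos hi0]
    rw [this, add_zero]
    exact Loc_smul hw (h0 hi0)
  · have hb := (loc_bL R r y v hc i (by omega) hi).1
    by_cases hk : k = 0
    · rw [hk, Nat.cast_zero, zero_mul, zero_add]
      exact hb
    · exact HS_add _ _ _ (Loc_smul hw (by omega)) hb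

theorem Loc_right (R : ℕ) (r : ℕ → ℤ) (y v : ℕ → ℂ) (hc : CritI R r y v) (i k : ℕ) (hi : i ≤ R)
    (h0 : i = R → 1 ≤ k) : HS (sgr (r i)) (k * wI r v i + bR R y v i) := by
  have hw : HS (sgr (r i)) (wI r v i) := HS_w _ (loc_sgr _) _ (hc.wim i hi)
  by_cases hi0 : i = R
  · have : bR R y v i = 0 := by rw [bR, if_pos hi0]
    rw [this, add_zero]
    exact Loc_smul hw (h0 hi0)
  · have hb := (loc_bR R r y v hc i (by omega)).1
    by_cases hk : k = 0
    · rw [hk, Nat.cast_zero, zero_mul, zero_add]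
      exact hb
    · exact HS_add _ _ _ (Loc_smul hw (by omega)) hb

theorem Loc_eq (R : ℕ) (r : ℕ → ℤ) (y v : ℕ → ℂ) (hc : CritI R r y v) (i k : ℕ) (hi : i ≤ R)
    (hk : k ≤ 2 * (r i).natAbs) :
    1 - (k * wI r v i + bL y v i) =
      ((2 * (r i).natAbs - k : ℕ) : ℂ) * wI r v i + bR R y v i := by
  have h := hc.ev i hi
  rw [Nat.cast_sub hk]
  push_cast
  linear_combination (-1) * h

theorem Loc_im (R : ℕ) (r : ℕ → ℤ) (y v : ℕ → ℂ) (hc : CritI R r y v) (i : ℕ) (hi : i ≤ R) :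
    |(bL y v i).im| ≤ 1 / 10 := by
  by_cases hi0 : i = 0
  · have : bL y v i = 0 := by rw [bL, if_pos hi0]
    rw [this, Complex.zero_im, abs_zero]
    norm_num
  · exact (loc_bL R r y v hc i (by omega) hi).2

theorem loc_k (R : ℕ) (r : ℕ → ℤ) (y v : ℕ → ℂ) (hc : CritI R r y v) (i k : ℕ) (hi : i ≤ R)
    (hk : k ≤ 2 * (r i).natAbs) (h0 : i = 0 → 1 ≤ k) (h1 : i = R → k + 1 ≤ 2 * (r i).natAbs) :
    HS (sgr (r i)) (k * wI r v i + bL y v i) ∧ HS (sgr (r i)) (1 - (k * wI r v i + bL y v i)) ∧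
      |(k * wI r v i + bL y v i).im| < 1 / 2 := by
  refine ⟨Loc_left R r y v hc i k hi h0, ?_, ?_⟩
  · rw [Loc_eq R r y v hc i k hi hk]
    exact Loc_right R r y v hc i _ hi (fun h => by have := h1 h; omega)
  · have e2 : ((k : ℂ) * wI r v i).im = k * (wI r v i).im := by
      rw [← Complex.ofReal_natCast, Complex.im_ofReal_mul]
    rw [Complex.add_im, e2]
    have h2 := Loc_im R r y v hc i hi
    have h3 := hc.kim i hi
    have h4 : |(k : ℝ) * (wI r v i).im| ≤ 1 / 4 := by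
      rw [abs_mul, Nat.abs_cast]
      refine le_trans (mul_le_mul_of_nonneg_right ?_ (abs_nonneg _)) h3
      exact_mod_cast hk
    calc |(k : ℝ) * (wI r v i).im + (bL y v i).im|
        ≤ |(k : ℝ) * (wI r v i).im| + |(bL y v i).im| := abs_add_le _ _
      _ ≤ 1 / 4 + 1 / 10 := by linarith
      _ < 1 / 2 := by norm_num

theorem Loc_w2 (R : ℕ) (r : ℕ → ℤ) (y v : ℕ → ℂ) (hc : CritI R r y v) (i : ℕ) (hi : i ≤ R) :
    (wI r v i).re < 1 / 2 ∧ |(wI r v i).im| ≤ 6 / 100 := by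
  have h := hc.hv i hi
  have h1 := (Complex.abs_re_le_norm (v i)).trans h
  have h2 := (Complex.abs_im_le_norm (v i)).trans h
  rw [Loc_wre, Loc_wim, abs_mul]
  rw [abs_le] at h1
  rcases loc_sgr (r i) with h3 | h3
  · rw [h3, abs_one, one_mul, one_mul]
    exact ⟨by linarith, h2⟩
  · rw [h3, abs_neg, abs_one, one_mul]
    exact ⟨by linarith, h2⟩

/-- The domain of `Lam` along the fan. -/
theorem loc_Dm (R : ℕ) (r : ℕ → ℤ) (y v : ℕ → ℂ) (hc : CritI R r y v) (i k : ℕ) (hi : i ≤ R)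
    (hk : k + 1 ≤ 2 * (r i).natAbs) (h0 : i = 0 → 1 ≤ k)
    (h1 : i = R → k + 2 ≤ 2 * (r i).natAbs) :
    Dm (sgr (r i)) (wI r v i) (k * wI r v i + bL y v i) := by
  have hk0 := loc_k R r y v hc i k hi (by omega) h0 (fun h => by have := h1 h; omega)
  have hk1 := loc_k R r y v hc i (k + 1) hi hk (fun _ => by omega)
    (fun h => by have := h1 h; omega)
  have e : ((k + 1 : ℕ) : ℂ) * wI r v i + bL y v i =
      wI r v i + (k * wI r v i + bL y v i) := by
    push_cast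
    ring
  rw [e] at hk1
  exact {
    hs := loc_sgr _
    w1 := hc.wim i hi
    w2 := (Loc_w2 R r y v hc i hi).1
    b1 := hk0.1
    b2 := by
      rw [sub_sub]
      exact hk1.2.1
    b3 := hk0.2.2
    b4 := hk1.2.2 }

/-- The domain of `Lam` at the right slot. -/
theorem loc_DmR (R : ℕ) (r : ℕ → ℤ) (y v : ℕ → ℂ) (hc : CritI R r y v) (i : ℕ) (hi : i < R) :
    Dm (sgr (r i)) (wI r v i) (bR R y v i) := by
  have hb := loc_bR R r y v hc i hi
  have hr := hc.hr i hi.le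
  have hp : 10 ≤ (r i).natAbs := by
    rw [Int.abs_eq_natAbs] at hr
    omega
  have hw := Loc_w2 R r y v hc i hi.le
  exact {
    hs := loc_sgr _
    w1 := hc.wim i hi.le
    w2 := hw.1
    b1 := hb.1
    b2 := by
      have h := hc.ev i hi.le
      have e : 1 - wI r v i - bR R y v i =
          ((2 * (r i).natAbs - 1 : ℕ) : ℂ) * wI r v i + bL y v i := by
        rw [Nat.cast_sub (by omega)]
        push_cast
        linear_combination (-1) * h
      rw [e]
      exact Loc_left R r y v hc i _ hi.le (fun _ => by omega)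
    b3 := by linarith [hb.2]
    b4 := by
      rw [Complex.add_im]
      calc |(wI r v i).im + (bR R y v i).im| ≤ |(wI r v i).im| + |(bR R y v i).im| :=
            abs_add_le _ _
        _ < 1 / 2 := by linarith [hb.2, hw.2] }

end Pool.Agent.H63.VC5
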